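import Pool.Agent.Work.MP_a8fbd7_nt.PAR.MR.Defs
import Pool.Agent.Work.MP_a8fbd7_nt.PAR.LC.Defs

/-!
# MP_a8fbd7_nt, parity: the interface between the blocks MR and LC
-/

open Finset

noncomputable section

namespace Pool.Agent.Work.MP_a8fbd7_nt.PAR

theorem bridge_lam (a b : ℕ) : MR.lam a = MR.lam b ↔ LC.lam a = LC.lam b := by
  unfold MR.lam LC.lam
  exact_mod_cast Iff.rfl

theorem bridge_MRweak (h : MR.MRweak) : LC.MRweak := by
  obtain ⟨h0, X0, hh0, hX⟩ := h
  refine ⟨h0, X0, hh0, fun X hXX => ?_⟩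
  have h1 := hX X hXX
  have h2 : ((Ico X (2 * X)).filter (fun x => ∀ i < h0, LC.lam (x + i) = LC.lam x)).card =
      ((Ico X (2 * X)).filter (fun x => ∀ i < h0, MR.lam (x + i) = MR.lam x)).card := by
    congr 1
    ext x
    simp only [Finset.mem_filter]
    constructor
    · rintro ⟨h3, h4⟩
      exact ⟨h3, fun i hi => (bridge_lam _ _).2 (h4 i hi)⟩
    · rintro ⟨h3, h4⟩
      exact ⟨h3, fun i hi => (bridge_lam _ _).1 (h4 i hi)⟩
  rw [h2]
  have h3 : ((2 * ((Ico X (2 * X)).filter (fun x => ∀ i < h0, MR.lam (x + i) = MR.lam x)).card : ℕ) : ℝ) ≤ X := by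
    push_cast
    linarith
  exact_mod_cast h3

end Pool.Agent.Work.MP_a8fbd7_nt.PAR
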