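import Pool.Agent.Work.MP_a8fbd7_nt.PAR.MR.StmtsA

/-!
# MP_a8fbd7_nt, parity, block MR, item As0: level zero
-/

set_option autoImplicit false

open MeasureTheory Set

noncomputable section

namespace Pool.Agent.Work.MP_a8fbd7_nt.PAR.MR

namespace XAs0

theorem cp (n : ℕ) (hn : n ≠ 0) : Continuous fun t : ℝ => (n : ℂ) ^ (-(t * Complex.I)) :=
  Continuous.const_cpow (by fun_prop) (Or.inl (by exact_mod_cast hn))

theorem cA (X : ℝ) : Continuous (Aa X) := by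
  unfold Aa
  refine continuous_finset_sum _ fun n hn => continuous_const.mul (cp n ?_)
  have := (Finset.mem_Ioc.1 hn).1
  omega

theorem cP (H v : ℕ) : Continuous (Pb H v) := by
  unfold Pb
  refine continuous_finset_sum _ fun p hp => cp p ?_
  unfold rg at hp
  exact (Finset.mem_filter.1 hp).2.1.ne_zero

theorem cM (X : ℝ) (H v : ℕ) : Continuous (Mb X H v) := by
  unfold Mb
  refine continuous_finset_sum _ fun n hn => continuous_const.mul (cp n ?_)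
  have := (Finset.mem_Ioc.1 hn).1
  omega

theorem cB (X : ℝ) (H v0 v1 : ℕ) : Continuous (Bs X H v0 v1) := by
  unfold Bs
  exact continuous_finset_sum _ fun v _ => (cP H v).mul (cM X H v)

theorem set_eq (T : ℝ) : {t : ℝ | |t| ≤ T} = Icc (-T) T := by
  ext t
  simp only [mem_setOf_eq, mem_Icc, abs_le]

theorem intOn {f : ℝ → ℝ} (hf : Continuous f) {E : Set ℝ} {T : ℝ} (hE : E ⊆ {t : ℝ | |t| ≤ T}) :
    IntegrableOn f E := by
  rw [set_eq] at hE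
  exact (hf.integrableOn_Icc (a := -T) (b := T)).mono_set hE

/-- The pointwise inequality. -/
theorem pt (a b : ℂ) (W : ℝ) (hW : 1 ≤ W) :
    ‖a‖ ^ 2 ≤ 2 * ‖a + (1 / W : ℝ) * b‖ ^ 2 + 2 * ‖b‖ ^ 2 := by
  have h1 : ‖a‖ ≤ ‖a + (1 / W : ℝ) * b‖ + ‖b‖ := by
    have h2 : a = (a + (1 / W : ℝ) * b) - (1 / W : ℝ) * b := by ring
    calc ‖a‖ = ‖(a + (1 / W : ℝ) * b) - (1 / W : ℝ) * b‖ := by rw [← h2]
      _ ≤ ‖a + (1 / W : ℝ) * b‖ + ‖((1 / W : ℝ) : ℂ) * b‖ := norm_sub_le _ _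
      _ ≤ ‖a + (1 / W : ℝ) * b‖ + ‖b‖ := by
        refine add_le_add le_rfl ?_
        rw [norm_mul, Complex.norm_real, Real.norm_of_nonneg (by positivity)]
        have h3 : 1 / W ≤ 1 := by
          rw [div_le_one (by linarith)]
          exact hW
        calc 1 / W * ‖b‖ ≤ 1 * ‖b‖ := mul_le_mul_of_nonneg_right h3 (norm_nonneg _)
          _ = ‖b‖ := one_mul _
  have h4 := norm_nonneg a
  have h5 := norm_nonneg (a + (1 / W : ℝ) * b)
  have h6 := norm_nonneg b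
  nlinarith [sq_nonneg (‖a + (1 / W : ℝ) * b‖ - ‖b‖)]

end XAs0

open XAs0

/-- Item As0: level zero. -/
theorem iAs0 (h1 : StDc) (h2 : StLv1) : StAs0 := by
  obtain ⟨C1, hC1, hD⟩ := h1
  obtain ⟨C2, hC2, hL⟩ := h2
  refine ⟨2 * C1 + 2 * C2, by linarith, ?_⟩
  intro ε h X A B Hs E hLev hh hX hEm hE hAll
  have hH : 1 ≤ Hs 0 := by
    have := hLev.H2 0
    omega
  have hHr : (1 : ℝ) ≤ (Hs 0 : ℝ) := by exact_mod_cast hH
  have hB0 : Real.exp (B 0) ≤ h := hLev.hB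
  have hh1 : h ≤ h ^ 4 := by
    have h3 : (1 : ℝ) ≤ h ^ 3 := one_le_pow₀ (by linarith)
    nlinarith
  have hhX : h ≤ X := hh1.trans hX
  have hX1 : 1 ≤ X := by linarith
  have hBe : (B 0 : ℝ) ≤ Real.exp (B 0) := by
    have := Real.add_one_le_exp (B 0 : ℝ)
    linarith
  have hHB : (Hs 0 : ℝ) ≤ (B 0 : ℝ) := by exact_mod_cast hLev.HB 0
  have hHh : (Hs 0 : ℝ) ≤ h := by linarith
  have hv1 : ((Hs 0 * B 0 : ℕ) : ℝ) / (Hs 0 : ℝ) = (B 0 : ℝ) := by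
    push_cast
    field_simp
  have hv0 : ((Hs 0 * A 0 : ℕ) : ℝ) / (Hs 0 : ℝ) = (A 0 : ℝ) := by
    push_cast
    field_simp
  have hvv : Hs 0 * A 0 < Hs 0 * B 0 := Nat.mul_lt_mul_of_pos_left (hLev.AB 0) (by omega)
  have hT0 : 0 ≤ X / h := by positivity
  have hTX : X / h ≤ X := div_le_self (by linarith) (by linarith)
  have hW := hLev.W1 0
  set W : ℝ := Wt (PS (Hs 0) (Hs 0 * A 0) (Hs 0 * B 0)) with hWd
  have hDc := hD X (X / h) (Hs 0) (Hs 0 * A 0) (Hs 0 * B 0) hX1 hT0 hTX hH (by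
      have h3 : (Hs 0 : ℝ) ^ 2 ≤ h ^ 2 := pow_le_pow_left₀ (by linarith) hHh 2
      have h4 : h ^ 2 ≤ h ^ 4 := pow_le_pow_right₀ (by linarith) (by norm_num)
      linarith) hvv (by
      rw [hv1]
      have h3 : Real.exp (4 * (B 0 : ℝ)) = Real.exp (B 0) ^ 4 := by
        rw [← Real.exp_nat_mul]
        norm_num
      rw [h3]
      exact (pow_le_pow_left₀ (Real.exp_pos _).le hB0 4).trans hX) hW
  have hal : al 0 = 1 / 16 := by
    unfold al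
    norm_num
  have hLv := hL X (X / h) (al 0) (Hs 0) (Hs 0 * A 0) (Hs 0 * B 0) E hX1 hT0 hH hvv (by
      rw [hv1, div_mul_eq_mul_div, div_le_iff₀ (by linarith)]
      exact mul_le_mul_of_nonneg_left hB0 (by linarith)) (by
      rw [hv1]
      exact hB0.trans hhX) (by rw [hal]; norm_num) (by rw [hal]; norm_num) hEm hE hAll
  rw [hv0] at hLv
  have hg0 := hLev.g0
  have hcA := cA X
  have hcB := cB X (Hs 0) (Hs 0 * A 0) (Hs 0 * B 0)
  have hc1 : Continuous fun t => ‖Aa X t + (1 / W : ℝ) *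
      Bs X (Hs 0) (Hs 0 * A 0) (Hs 0 * B 0) t‖ ^ 2 :=
    (hcA.add (continuous_const.mul hcB)).norm.pow 2
  have hc2 : Continuous fun t => ‖Bs X (Hs 0) (Hs 0 * A 0) (Hs 0 * B 0) t‖ ^ 2 := hcB.norm.pow 2
  have hc0 : Continuous fun t => ‖Aa X t‖ ^ 2 := hcA.norm.pow 2
  have i1 : ∫ t in E, ‖Aa X t‖ ^ 2 ≤
      2 * (∫ t in E, ‖Aa X t + (1 / W : ℝ) * Bs X (Hs 0) (Hs 0 * A 0) (Hs 0 * B 0) t‖ ^ 2) +
      2 * ∫ t in E, ‖Bs X (Hs 0) (Hs 0 * A 0) (Hs 0 * B 0) t‖ ^ 2 := by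
    rw [← integral_const_mul, ← integral_const_mul, ← integral_add
      ((intOn hc1 hE).const_mul 2) ((intOn hc2 hE).const_mul 2)]
    refine setIntegral_mono_on (intOn hc0 hE)
      (((intOn hc1 hE).const_mul 2).add ((intOn hc2 hE).const_mul 2)) hEm fun t _ => ?_
    exact pt _ _ W hW
  have i2 : ∫ t in E, ‖Aa X t + (1 / W : ℝ) * Bs X (Hs 0) (Hs 0 * A 0) (Hs 0 * B 0) t‖ ^ 2 ≤
      ∫ t in {t : ℝ | |t| ≤ X / h},
        ‖Aa X t + (1 / W : ℝ) * Bs X (Hs 0) (Hs 0 * A 0) (Hs 0 * B 0) t‖ ^ 2 := by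
    refine setIntegral_mono_set (intOn hc1 subset_rfl) ?_ (HasSubset.Subset.eventuallyLE hE)
    exact Filter.Eventually.of_forall fun t => by positivity
  have i3 : ((Hs 0 * B 0 : ℕ) : ℝ) ^ 2 * Real.exp (-(2 * al 0 * (A 0 : ℝ))) * X ^ 2 ≤
      ε * X ^ 2 := mul_le_mul_of_nonneg_right hg0 (by positivity)
  have i4 : C2 * (((Hs 0 * B 0 : ℕ) : ℝ) ^ 2 * Real.exp (-(2 * al 0 * (A 0 : ℝ))) * X ^ 2) ≤
      C2 * (ε * X ^ 2) := mul_le_mul_of_nonneg_left i3 (by linarith)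
  have hε : 0 ≤ ε := le_trans (by positivity) hg0
  have hW0 : 0 ≤ 1 / W := by positivity
  have hH0 : 0 ≤ 1 / (Hs 0 : ℝ) := by positivity
  have hX2 : 0 ≤ X ^ 2 := by positivity
  have hfin : 2 * (C1 * X ^ 2 * (1 / W + 1 / (Hs 0 : ℝ))) + 2 * (C2 * (ε * X ^ 2)) ≤
      (2 * C1 + 2 * C2) * X ^ 2 * (1 / W + 1 / (Hs 0 : ℝ) + ε) := by
    have e1 : 0 ≤ C2 * X ^ 2 * (1 / W + 1 / (Hs 0 : ℝ)) := by positivity
    have e2 : 0 ≤ C1 * X ^ 2 * ε := by positivity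
    nlinarith
  linarith

end Pool.Agent.Work.MP_a8fbd7_nt.PAR.MR
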