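import Pool.Agent.Work.MP_a8fbd7_nt.PAR.MR.StmtsA

set_option autoImplicit false

/-! Item As1 of the block MR: the mean square over the set of level `j + 1`. -/

open MeasureTheory Set Filter Topology

noncomputable section

namespace Pool.Agent.Work.MP_a8fbd7_nt.PAR.MR

namespace XAs1

theorem cont_pow (n : ℕ) (hn : 1 ≤ n) :
    Continuous fun t : ℝ => (n : ℂ) ^ (-(t * Complex.I)) := by
  refine Continuous.const_cpow (by fun_prop) (Or.inl ?_)
  exact_mod_cast (by omega : n ≠ 0)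

theorem cont_Pb (H v : ℕ) : Continuous (Pb H v) := by
  refine continuous_finsetSum _ fun p hp => cont_pow p ?_
  exact (Finset.mem_Icc.1 (Finset.mem_filter.1 hp).1).1

theorem cont_Mb (X : ℝ) (H v : ℕ) : Continuous (Mb X H v) := by
  refine continuous_finsetSum _ fun m hm => Continuous.mul continuous_const (cont_pow m ?_)
  have := (Finset.mem_Ioc.1 hm).1
  omega

theorem cont_Aa (X : ℝ) : Continuous (Aa X) := by
  refine continuous_finsetSum _ fun m hm => Continuous.mul continuous_const (cont_pow m ?_)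
  have := (Finset.mem_Ioc.1 hm).1
  omega

theorem cont_Bs (X : ℝ) (H v0 v1 : ℕ) : Continuous (Bs X H v0 v1) :=
  continuous_finsetSum _ fun v _ => (cont_Pb H v).mul (cont_Mb X H v)

theorem cs (s : Finset ℕ) (f : ℕ → ℂ) : ‖∑ v ∈ s, f v‖ ^ 2 ≤ s.card * ∑ v ∈ s, ‖f v‖ ^ 2 := by
  have h1 : ‖∑ v ∈ s, f v‖ ^ 2 ≤ (∑ v ∈ s, ‖f v‖) ^ 2 :=
    pow_le_pow_left₀ (norm_nonneg _) (norm_sum_le _ _) 2
  exact h1.trans sq_sum_le_card_mul_sum_sq

theorem sub_Icc {E : Set ℝ} {T : ℝ} (hE : E ⊆ {t : ℝ | |t| ≤ T}) : E ⊆ Icc (-T) T :=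
  fun _ ht => mem_Icc.2 (abs_le.1 (hE ht))

theorem intOn {E : Set ℝ} {T : ℝ} (hE : E ⊆ {t : ℝ | |t| ≤ T}) {f : ℝ → ℝ} (hf : Continuous f) :
    IntegrableOn f E := (hf.integrableOn_Icc).mono_set (sub_Icc hE)

/-- two squares -/
theorem two_sq (a b : ℂ) {w : ℝ} (hw : 1 ≤ w) :
    ‖a‖ ^ 2 ≤ 2 * ‖a + ((1 / w : ℝ) : ℂ) * b‖ ^ 2 + 2 * ‖b‖ ^ 2 := by
  have h1 : ‖((1 / w : ℝ) : ℂ) * b‖ ≤ ‖b‖ := by
    rw [norm_mul, Complex.norm_real, Real.norm_eq_abs, abs_of_nonneg (by positivity)]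
    refine mul_le_of_le_one_left (norm_nonneg _) ?_
    rw [div_le_one (by linarith)]
    exact hw
  have h2 : ‖a‖ ≤ ‖a + ((1 / w : ℝ) : ℂ) * b‖ + ‖b‖ := by
    have h3 : a = (a + ((1 / w : ℝ) : ℂ) * b) - ((1 / w : ℝ) : ℂ) * b := by ring
    calc ‖a‖ = ‖(a + ((1 / w : ℝ) : ℂ) * b) - ((1 / w : ℝ) : ℂ) * b‖ := by rw [← h3]
      _ ≤ ‖a + ((1 / w : ℝ) : ℂ) * b‖ + ‖((1 / w : ℝ) : ℂ) * b‖ := norm_sub_le _ _
      _ ≤ _ := by linarith
  have h4 : 0 ≤ ‖a‖ := norm_nonneg a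
  nlinarith [sq_nonneg (‖a + ((1 / w : ℝ) : ℂ) * b‖ - ‖b‖),
    pow_le_pow_left₀ h4 h2 2]

/-- the integral over a set covered by finitely many sets -/
theorem cover {E : Set ℝ} {T : ℝ} (hEm : MeasurableSet E) (hE : E ⊆ {t : ℝ | |t| ≤ T}) {f : ℝ → ℝ}
    (hf : Continuous f) (hf0 : ∀ t, 0 ≤ f t) (s : Finset ℕ) (F : ℕ → Set ℝ)
    (hF : ∀ r, MeasurableSet (F r)) (hFE : ∀ r, F r ⊆ E) (hc : ∀ t ∈ E, ∃ r ∈ s, t ∈ F r) :
    ∫ t in E, f t ≤ ∑ r ∈ s, ∫ t in F r, f t := by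
  have h1 : ∀ r, Integrable ((F r).indicator f) := fun r =>
    (intOn ((hFE r).trans hE) hf).integrable_indicator (hF r)
  have h2 : Integrable (E.indicator f) := (intOn hE hf).integrable_indicator hEm
  have h3 : ∑ r ∈ s, ∫ t in F r, f t = ∫ t, ∑ r ∈ s, (F r).indicator f t := by
    rw [integral_finsetSum _ fun r _ => h1 r]
    exact Finset.sum_congr rfl fun r _ => (integral_indicator (hF r)).symm
  rw [h3, ← integral_indicator hEm]
  refine integral_mono h2 (integrable_finsetSum _ fun r _ => h1 r) fun t => ?_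
  by_cases ht : t ∈ E
  · rw [indicator_of_mem ht]
    obtain ⟨r, hr, htr⟩ := hc t ht
    have h4 : (F r).indicator f t ≤ ∑ r ∈ s, (F r).indicator f t :=
      Finset.single_le_sum (f := fun r => (F r).indicator f t)
        (fun r _ => indicator_nonneg (fun t _ => hf0 t) t) hr
    rwa [indicator_of_mem htr] at h4
  · rw [indicator_of_notMem ht]
    exact Finset.sum_nonneg fun r _ => indicator_nonneg (fun t _ => hf0 t) t

theorem al_nonneg (j : ℕ) : 0 ≤ al j := by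
  unfold al
  have h1 : 1 / ((j : ℝ) + 1) ≤ 1 := by
    rw [div_le_one (by positivity)]
    have : (0 : ℝ) ≤ j := Nat.cast_nonneg j
    linarith
  linarith

theorem al_mono (j : ℕ) : al j ≤ al (j + 1) := by
  unfold al
  have h1 : 1 / (((j + 1 : ℕ) : ℝ) + 1) ≤ 1 / ((j : ℝ) + 1) := by
    refine one_div_le_one_div_of_le (by positivity) ?_
    push_cast
    linarith
  linarith

theorem al_le (j : ℕ) : al j ≤ 1 / 2 := by
  unfold al
  have h1 : 0 ≤ 1 / ((j : ℝ) + 1) := by positivity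
  linarith

theorem meas_Small (α : ℝ) (H v : ℕ) : MeasurableSet {t : ℝ | ¬ Small α H v t} := by
  have e : {t : ℝ | ¬ Small α H v t} =
      {t : ℝ | Real.exp ((1 - α) * ((v : ℝ) / H)) < ‖Pb H v t‖} := by
    ext t
    simp only [Small, mem_ofPred_eq, not_le]
  rw [e]
  exact measurableSet_lt measurable_const (cont_Pb H v).norm.measurable

/-- the sum of the products of the blocks -/
theorem main {C2 : ℝ} (h2 : ∀ (X α β : ℝ) (H K v r : ℕ) (E : Set ℝ), 1 ≤ X → 2 ≤ H → 2 ≤ K →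
      0 ≤ β → β ≤ α → α ≤ 1 / 2 → 3 ≤ Real.exp ((r : ℝ) / K) → (r : ℝ) / K ≤ (v : ℝ) / H →
      Real.exp ((v : ℝ) / H) ≤ X →
      MeasurableSet E → E ⊆ {t : ℝ | |t| ≤ X} → (∀ t ∈ E, Small α H v t) →
      (∀ t ∈ E, ¬ Small β K r t) →
      ∫ t in E, ‖Pb H v t * Mb X H v t‖ ^ 2 ≤ C2 * X ^ 2 * (Real.exp ((r : ℝ) / K) *
        (3 * (((v : ℝ) / H) / ((r : ℝ) / K) + 2)) ^ (((v : ℝ) / H) / ((r : ℝ) / K) + 1) *
        Real.exp (-(2 * (α - β) * ((v : ℝ) / H))))) (hC2 : 1 ≤ C2)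
    (ε h X : ℝ) (A B Hs : ℕ → ℕ) (E : Set ℝ) (j : ℕ) (hL : Lev ε h A B Hs) (hX1 : 1 ≤ X)
    (hexp : Real.exp (4 * (B (j + 1) : ℝ)) ≤ X) (hEm : MeasurableSet E)
    (hE : E ⊆ {t : ℝ | |t| ≤ X})
    (hS : ∀ t ∈ E, AllS (al (j + 1)) (Hs (j + 1)) (Hs (j + 1) * A (j + 1))
      (Hs (j + 1) * B (j + 1)) t)
    (hN : ∀ t ∈ E, ¬ AllS (al j) (Hs j) (Hs j * A j) (Hs j * B j) t) :
    ∫ t in E, ‖Bs X (Hs (j + 1)) (Hs (j + 1) * A (j + 1)) (Hs (j + 1) * B (j + 1)) t‖ ^ 2 ≤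
      C2 * X ^ 2 * (ε / 2 ^ (j + 1)) := by
  set H := Hs (j + 1) with hH
  set K := Hs j with hK
  set v0 := H * A (j + 1) with hv0
  set v1 := H * B (j + 1) with hv1
  set r0 := K * A j with hr0
  set r1 := K * B j with hr1
  have hH2 : 2 ≤ H := hL.H2 (j + 1)
  have hK2 : 2 ≤ K := hL.H2 j
  have hH0 : (0 : ℝ) < H := by exact_mod_cast (by omega : 0 < H)
  have hK0 : (0 : ℝ) < K := by exact_mod_cast (by omega : 0 < K)
  have hA2 : ∀ i, (2 : ℝ) ≤ A i := fun i => by exact_mod_cast hL.A1 i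
  have hB0 : ∀ i, (0 : ℝ) < B i := fun i => by
    have h3 := hL.AB i
    exact_mod_cast (by omega : 0 < B i)
  -- the number of blocks
  have hvn : ((Finset.Ico v0 v1).card : ℝ) ≤ v1 := by
    rw [Nat.card_Ico]
    exact_mod_cast Nat.sub_le _ _
  have hrn : ((Finset.Ico r0 r1).card : ℝ) ≤ r1 := by
    rw [Nat.card_Ico]
    exact_mod_cast Nat.sub_le _ _
  have hv1p : (0 : ℝ) < v1 := by
    rw [hv1]; push_cast; exact mul_pos hH0 (hB0 _)
  have hr1p : (0 : ℝ) < r1 := by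
    rw [hr1]; push_cast; exact mul_pos hK0 (hB0 _)
  -- ranges
  have hvr : ∀ v ∈ Finset.Ico v0 v1, (A (j + 1) : ℝ) ≤ (v : ℝ) / H ∧ (v : ℝ) / H ≤ B (j + 1) := by
    intro v hv
    obtain ⟨h3, h4⟩ := Finset.mem_Ico.1 hv
    constructor
    · rw [le_div_iff₀ hH0]
      have : ((H * A (j + 1) : ℕ) : ℝ) ≤ v := by exact_mod_cast h3
      push_cast at this
      linarith
    · rw [div_le_iff₀ hH0]
      have : (v : ℝ) ≤ ((H * B (j + 1) : ℕ) : ℝ) := by exact_mod_cast h4.le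
      push_cast at this
      linarith
  have hrr : ∀ r ∈ Finset.Ico r0 r1, (A j : ℝ) ≤ (r : ℝ) / K ∧ (r : ℝ) / K ≤ B j := by
    intro r hr
    obtain ⟨h3, h4⟩ := Finset.mem_Ico.1 hr
    constructor
    · rw [le_div_iff₀ hK0]
      have : ((K * A j : ℕ) : ℝ) ≤ r := by exact_mod_cast h3
      push_cast at this
      linarith
    · rw [div_le_iff₀ hK0]
      have : (r : ℝ) ≤ ((K * B j : ℕ) : ℝ) := by exact_mod_cast h4.le
      push_cast at this
      linarith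
  -- one pair of blocks
  set g := (ε / 2 ^ (j + 1)) / ((v1 : ℝ) ^ 2 * r1) with hg
  have hden : 0 < (v1 : ℝ) ^ 2 * r1 := by positivity
  have hpair : ∀ v ∈ Finset.Ico v0 v1, ∀ r ∈ Finset.Ico r0 r1,
      ∫ t in (E ∩ {t : ℝ | ¬ Small (al j) K r t}), ‖Pb H v t * Mb X H v t‖ ^ 2 ≤
        C2 * X ^ 2 * g := by
    intro v hv r hr
    obtain ⟨hv2, hv3⟩ := hvr v hv
    obtain ⟨hr2, hr3⟩ := hrr r hr
    have h3 := h2 X (al (j + 1)) (al j) H K v r (E ∩ {t : ℝ | ¬ Small (al j) K r t}) hX1 hH2 hK2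
      (al_nonneg j) (al_mono j) (al_le (j + 1)) ?_ ?_ ?_ (hEm.inter (meas_Small _ _ _))
      (inter_subset_left.trans hE) ?_ ?_
    · refine h3.trans (mul_le_mul_of_nonneg_left ?_ (by positivity))
      have h4 := hL.gj j ((r : ℝ) / K) ((v : ℝ) / H) hr2 hr3 hv2 hv3
      rw [hg, le_div_iff₀ hden]
      refine le_trans (le_of_eq ?_) h4
      rw [hv1, hr1, hH, hK]
      ring
    · have h4 : (2 : ℝ) ≤ (r : ℝ) / K := (hA2 j).trans hr2
      have h5 := Real.add_one_le_exp ((r : ℝ) / K)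
      linarith
    · have h4 : (B j : ℝ) ≤ A (j + 1) := by exact_mod_cast hL.mono j
      linarith
    · refine le_trans (Real.exp_le_exp.2 ?_) hexp
      have := hB0 (j + 1)
      linarith
    · intro t ht
      exact hS t ht.1 v (Finset.mem_Ico.1 hv).1 (Finset.mem_Ico.1 hv).2
    · intro t ht
      exact ht.2
  -- one block of level `j + 1`
  have hone : ∀ v ∈ Finset.Ico v0 v1, ∫ t in E, ‖Pb H v t * Mb X H v t‖ ^ 2 ≤
      r1 * (C2 * X ^ 2 * g) := by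
    intro v hv
    have hg0 : 0 ≤ C2 * X ^ 2 * g := by
      have h3 : 0 ≤ ε := le_trans (by positivity) hL.g0
      positivity
    refine (cover hEm hE (f := fun t => ‖Pb H v t * Mb X H v t‖ ^ 2)
      (((cont_Pb H v).mul (cont_Mb X H v)).norm.pow 2) (fun t => by positivity)
      (Finset.Ico r0 r1) (fun r => E ∩ {t : ℝ | ¬ Small (al j) K r t})
      (fun r => hEm.inter (meas_Small _ _ _)) (fun r => inter_subset_left) ?_).trans ?_
    · intro t ht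
      have h3 := hN t ht
      unfold AllS at h3
      push Not at h3
      obtain ⟨r, h4, h5, h6⟩ := h3
      exact ⟨r, Finset.mem_Ico.2 ⟨h4, h5⟩, ht, h6⟩
    · refine (Finset.sum_le_sum fun r hr => hpair v hv r hr).trans ?_
      rw [Finset.sum_const, nsmul_eq_mul]
      exact mul_le_mul_of_nonneg_right hrn hg0
  have hg0 : 0 ≤ C2 * X ^ 2 * g := by
    have h3 : 0 ≤ ε := le_trans (by positivity) hL.g0
    positivity
  have hpt : ∀ t ∈ E, ‖Bs X H v0 v1 t‖ ^ 2 ≤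
      v1 * ∑ v ∈ Finset.Ico v0 v1, ‖Pb H v t * Mb X H v t‖ ^ 2 := by
    intro t _
    refine (cs _ _).trans ?_
    exact mul_le_mul_of_nonneg_right hvn (Finset.sum_nonneg fun v _ => by positivity)
  have hcv : ∀ v : ℕ, Continuous fun t : ℝ => ‖Pb H v t * Mb X H v t‖ ^ 2 := fun v =>
    ((cont_Pb H v).mul (cont_Mb X H v)).norm.pow 2
  have hcl : Continuous fun t : ℝ => ‖Bs X H v0 v1 t‖ ^ 2 := (cont_Bs X H v0 v1).norm.pow 2
  have hcr : Continuous fun t : ℝ => (v1 : ℝ) * ∑ v ∈ Finset.Ico v0 v1,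
      ‖Pb H v t * Mb X H v t‖ ^ 2 :=
    continuous_const.mul (continuous_finsetSum _ fun v _ => hcv v)
  have h5 := setIntegral_mono_on (intOn hE hcl) (intOn hE hcr) hEm hpt
  refine h5.trans ?_
  rw [integral_const_mul, integral_finsetSum _ fun v _ => intOn hE (hcv v)]
  refine (mul_le_mul_of_nonneg_left (Finset.sum_le_sum hone) hv1p.le).trans ?_
  rw [Finset.sum_const, nsmul_eq_mul]
  have h6 : ((Finset.Ico v0 v1).card : ℝ) * (r1 * (C2 * X ^ 2 * g)) ≤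
      v1 * (r1 * (C2 * X ^ 2 * g)) := mul_le_mul_of_nonneg_right hvn (by positivity)
  refine (mul_le_mul_of_nonneg_left h6 hv1p.le).trans (le_of_eq ?_)
  rw [hg]
  field_simp

end XAs1

theorem iAs1 (h1 : StDc) (h2 : StLv2) : StAs1 := by
  obtain ⟨C1, hC1, h1⟩ := h1
  obtain ⟨C2, hC2, h2⟩ := h2
  refine ⟨2 * C1 + 2 * C2, by linarith, ?_⟩
  intro ε h X A B Hs E j hL hh hhX hexp hEm hE hS hN
  have hX1 : 1 ≤ X := by linarith
  have hX0 : 0 < X := by linarith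
  have hε : 0 ≤ ε := le_trans (by positivity) hL.g0
  have hTX : X / h ≤ X := div_le_self hX0.le (by linarith)
  have hEX : E ⊆ {t : ℝ | |t| ≤ X} := fun t ht => le_trans (hE ht) hTX
  have hB := XAs1.main h2 hC2 ε h X A B Hs E j hL hX1 hexp hEm hEX hS hN
  set H := Hs (j + 1) with hH
  have hH2 : 2 ≤ H := hL.H2 (j + 1)
  have hH0 : (0 : ℝ) < H := by exact_mod_cast (by omega : 0 < H)
  have hW : 1 ≤ Wt (PS H (H * A (j + 1)) (H * B (j + 1))) := hL.W1 (j + 1)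
  set W := Wt (PS H (H * A (j + 1)) (H * B (j + 1))) with hWd
  have hD := h1 X (X / h) H (H * A (j + 1)) (H * B (j + 1)) hX1 (by positivity) hTX (by omega)
    ?_ ?_ ?_ hW
  · set Q : ℝ → ℂ := fun t => Aa X t + (1 / W : ℝ) * Bs X H (H * A (j + 1)) (H * B (j + 1)) t
      with hQ
    have hQc : Continuous Q := (XAs1.cont_Aa X).add (continuous_const.mul (XAs1.cont_Bs X H _ _))
    have h3 : ∫ t in E, ‖Q t‖ ^ 2 ≤ C1 * X ^ 2 * (1 / W + 1 / H) := by
      refine le_trans ?_ hD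
      exact setIntegral_mono_set
        (XAs1.intOn (E := {t : ℝ | |t| ≤ X / h}) (T := X / h) (fun t ht => ht) (hQc.norm.pow 2))
        (Filter.Eventually.of_forall fun t => by positivity) (LE.le.eventuallyLE hE)
    have hpt : ∀ t ∈ E, ‖Aa X t‖ ^ 2 ≤ 2 * ‖Q t‖ ^ 2 +
        2 * ‖Bs X H (H * A (j + 1)) (H * B (j + 1)) t‖ ^ 2 := fun t _ => XAs1.two_sq _ _ hW
    have hc1 : Continuous fun t => 2 * ‖Q t‖ ^ 2 := continuous_const.mul (hQc.norm.pow 2)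
    have hc2 : Continuous fun t => 2 * ‖Bs X H (H * A (j + 1)) (H * B (j + 1)) t‖ ^ 2 :=
      continuous_const.mul ((XAs1.cont_Bs X H _ _).norm.pow 2)
    have hc0 : Continuous fun t => ‖Aa X t‖ ^ 2 := (XAs1.cont_Aa X).norm.pow 2
    have hc3 : Continuous fun t => 2 * ‖Q t‖ ^ 2 +
        2 * ‖Bs X H (H * A (j + 1)) (H * B (j + 1)) t‖ ^ 2 := hc1.add hc2
    have h4 := setIntegral_mono_on (XAs1.intOn hE hc0) (XAs1.intOn hE hc3) hEm hpt
    refine h4.trans ?_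
    rw [integral_add (XAs1.intOn hE hc1) (XAs1.intOn hE hc2), integral_const_mul,
      integral_const_mul]
    have hX2 : 0 ≤ X ^ 2 := by positivity
    have hW0 : 0 ≤ 1 / W := by positivity
    have hHi : 0 ≤ 1 / (H : ℝ) := by positivity
    have he : 0 ≤ ε / 2 ^ (j + 1) := by positivity
    have e1 : (2 * C1 + 2 * C2) * X ^ 2 * (1 / W + 1 / H + ε / 2 ^ (j + 1)) =
        2 * (C1 * X ^ 2 * (1 / W + 1 / H)) + 2 * (C2 * X ^ 2 * (ε / 2 ^ (j + 1))) +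
        (2 * C2 * X ^ 2 * (1 / W + 1 / H) + 2 * C1 * X ^ 2 * (ε / 2 ^ (j + 1))) := by ring
    have h5 : 0 ≤ 2 * C2 * X ^ 2 * (1 / W + 1 / H) + 2 * C1 * X ^ 2 * (ε / 2 ^ (j + 1)) := by
      positivity
    rw [e1]
    linarith
  · -- `H ^ 2 ≤ X`
    have h3 : (H : ℝ) ≤ B (j + 1) := by exact_mod_cast hL.HB (j + 1)
    have h4 := Real.add_one_le_exp (B (j + 1) : ℝ)
    have h5 : (H : ℝ) ≤ Real.exp (B (j + 1) : ℝ) := by linarith
    have h6 : (H : ℝ) ^ 2 ≤ Real.exp (B (j + 1) : ℝ) ^ 2 := pow_le_pow_left₀ hH0.le h5 2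
    refine h6.trans (le_trans ?_ hexp)
    rw [← Real.exp_nat_mul]
    refine Real.exp_le_exp.2 ?_
    have : (0 : ℝ) ≤ B (j + 1) := Nat.cast_nonneg _
    push_cast
    linarith
  · exact Nat.mul_lt_mul_of_pos_left (hL.AB (j + 1)) (by omega)
  · refine le_trans (le_of_eq ?_) hexp
    push_cast
    rw [mul_div_cancel_left₀ _ hH0.ne']

end Pool.Agent.Work.MP_a8fbd7_nt.PAR.MR
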