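import Pool.Agent.Work.MP_a8fbd7_nt.PAR.MR.StmtsA

open MeasureTheory Set

noncomputable section

namespace Pool.Agent.Work.MP_a8fbd7_nt.PAR.MR

namespace XAsT

theorem cont_sum (S : Finset ℕ) (a : ℕ → ℂ) (hS : ∀ n ∈ S, n ≠ 0) :
    Continuous fun t : ℝ => ∑ n ∈ S, a n * (n : ℂ) ^ (-(t * Complex.I)) := by
  refine continuous_finsetSum _ fun n hn => ?_
  refine continuous_const.mul ?_
  refine Continuous.const_cpow ?_ (Or.inl (by exact_mod_cast hS n hn))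
  exact (Complex.continuous_ofReal.mul continuous_const).neg

theorem cont_Aa (X : ℝ) : Continuous (Aa X) := by
  have := cont_sum (Finset.Ioc ⌊X⌋₊ ⌊2 * X⌋₊) (fun n => ((lam n : ℝ) : ℂ)) (fun n hn => by
    have := (Finset.mem_Ioc.1 hn).1
    omega)
  exact this

theorem cont_Mb (X : ℝ) (H v : ℕ) : Continuous (Mb X H v) := by
  have := cont_sum (Finset.Ioc ⌊X * Real.exp (-((v : ℝ) / H))⌋₊ ⌊2 * X * Real.exp (-((v : ℝ) / H))⌋₊)
    (fun n => ((lam n : ℝ) : ℂ)) (fun n hn => by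
    have := (Finset.mem_Ioc.1 hn).1
    omega)
  exact this

theorem cont_Pb (H v : ℕ) : Continuous (Pb H v) := by
  have := cont_sum (rg H v) (fun _ => 1) (fun n hn => by
    have := (Finset.mem_filter.1 hn).2.1
    exact this.ne_zero)
  simp only [one_mul] at this
  exact this

theorem cont_Bs (X : ℝ) (H v0 v1 : ℕ) : Continuous (Bs X H v0 v1) :=
  continuous_finsetSum _ fun v _ => (cont_Pb H v).mul (cont_Mb X H v)

theorem intOn {f : ℝ → ℝ} (hf : Continuous f) (S : Set ℝ) (T : ℝ) (hS : S ⊆ {t : ℝ | |t| ≤ T}) :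
    IntegrableOn f S := by
  have h1 : IntegrableOn f (Icc (-T) T) := hf.integrableOn_Icc
  refine h1.mono_set fun t ht => ?_
  have := hS ht
  simp only [mem_ofPred_eq, abs_le] at this
  exact this


theorem ptw (a b : ℂ) (w : ℝ) (hw : 1 ≤ w) : ‖a‖ ^ 2 ≤ 2 * ‖a + ((1 / w : ℝ) : ℂ) * b‖ ^ 2 + 2 * ‖b‖ ^ 2 := by
  have hw0 : 0 < w := by linarith
  have e1 : ‖((1 / w : ℝ) : ℂ) * b‖ ≤ ‖b‖ := by
    rw [norm_mul, Complex.norm_real, Real.norm_of_nonneg (by positivity)]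
    have : 1 / w ≤ 1 := by
      rw [div_le_one hw0]
      exact hw
    nlinarith [norm_nonneg b]
  have e2 : ‖a‖ ≤ ‖a + ((1 / w : ℝ) : ℂ) * b‖ + ‖b‖ := by
    calc ‖a‖ = ‖(a + ((1 / w : ℝ) : ℂ) * b) - ((1 / w : ℝ) : ℂ) * b‖ := by
          congr 1
          ring
      _ ≤ _ := (norm_sub_le _ _).trans (by linarith)
  have e3 : ‖a‖ ^ 2 ≤ (‖a + ((1 / w : ℝ) : ℂ) * b‖ + ‖b‖) ^ 2 :=
    pow_le_pow_left₀ (norm_nonneg _) e2 2
  nlinarith [sq_nonneg (‖a + ((1 / w : ℝ) : ℂ) * b‖ - ‖b‖)]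

theorem eta_ex (ε Cm : ℝ) : ∃ η : ℝ, 0 < η ∧ η ≤ 1 / 100 ∧ 1 / ε + Cm ≤ Real.log (1 / (2 * η)) := by
  refine ⟨min (1 / 100) (Real.exp (-(1 / ε + Cm)) / 2), by positivity, min_le_left _ _, ?_⟩
  have hpos : 0 < min (1 / 100 : ℝ) (Real.exp (-(1 / ε + Cm)) / 2) := by positivity
  rw [Real.le_log_iff_exp_le (by positivity), le_div_iff₀ (by positivity)]
  have : min (1 / 100 : ℝ) (Real.exp (-(1 / ε + Cm)) / 2) ≤ Real.exp (-(1 / ε + Cm)) / 2 := min_le_right _ _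
  calc Real.exp (1 / ε + Cm) * (2 * min (1 / 100 : ℝ) (Real.exp (-(1 / ε + Cm)) / 2))
      ≤ Real.exp (1 / ε + Cm) * (2 * (Real.exp (-(1 / ε + Cm)) / 2)) := by gcongr
    _ = 1 := by
        rw [show (2 : ℝ) * (Real.exp (-(1 / ε + Cm)) / 2) = Real.exp (-(1 / ε + Cm)) by ring, ← Real.exp_add]
        simp

theorem range_ex (H : ℕ) (η L : ℝ) (hH2 : 2 ≤ H) (hη0 : 0 < η) (hη1 : η ≤ 1 / 100) (hL1 : 2 / η ^ 2 ≤ L) (hL0 : 1 ≤ L) :
    ∃ v0 v1 : ℕ, v0 < v1 ∧ H ≤ v0 ∧ H * η ^ 2 * L ≤ v0 ∧ (v1 : ℝ) ≤ H * η * L ∧ 1 / (2 * η) ≤ (v1 : ℝ) / v0 := by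
  have hη2pos : 0 < η ^ 2 := by positivity
  have hL1' : 2 ≤ η ^ 2 * L := by
    rw [div_le_iff₀ hη2pos] at hL1
    linarith
  have hLpos : 0 < L := by linarith
  have hH2' : (2 : ℝ) ≤ H := by exact_mod_cast hH2
  have hH0 : (0 : ℝ) < H := by linarith
  refine ⟨⌈H * η ^ 2 * L⌉₊, ⌊H * η * L⌋₊, ?_⟩
  have hv0a : H * η ^ 2 * L ≤ (⌈H * η ^ 2 * L⌉₊ : ℝ) := Nat.le_ceil _
  have hv0b : (⌈H * η ^ 2 * L⌉₊ : ℝ) ≤ H * η ^ 2 * L + 1 := (Nat.ceil_lt_add_one (by positivity)).le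
  have hv1a : (⌊H * η * L⌋₊ : ℝ) ≤ H * η * L := Nat.floor_le (by positivity)
  have hv1b : H * η * L - 1 ≤ (⌊H * η * L⌋₊ : ℝ) := by
    have := Nat.lt_floor_add_one (H * η * L)
    linarith
  generalize ⌈H * η ^ 2 * L⌉₊ = v0 at *
  generalize ⌊H * η * L⌋₊ = v1 at *
  have hHe : H * η ^ 2 * L = H * (η ^ 2 * L) := by ring
  have h2H : 2 * (H : ℝ) ≤ H * η ^ 2 * L := by
    rw [hHe]
    nlinarith
  have hHv0 : H ≤ v0 := by
    have : (H : ℝ) ≤ v0 := by linarith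
    exact_mod_cast this
  have hv0pos : (0 : ℝ) < v0 := by linarith
  have hratio : 1 / (2 * η) ≤ (v1 : ℝ) / v0 := by
    rw [div_le_div_iff₀ (by positivity) hv0pos, one_mul]
    have e1 : 2 * η * (H * η * L - 1) = 2 * (H * η ^ 2 * L) - 2 * η := by ring
    have e2 : 2 * η * (H * η * L - 1) ≤ 2 * η * v1 := mul_le_mul_of_nonneg_left hv1b (by positivity)
    rw [e1] at e2
    have e3 : (v1 : ℝ) * (2 * η) = 2 * η * v1 := by ring
    rw [e3]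
    linarith
  have hv01 : v0 < v1 := by
    have h50 : (50 : ℝ) ≤ 1 / (2 * η) := by
      rw [le_div_iff₀ (by positivity)]
      linarith
    have : (50 : ℝ) ≤ (v1 : ℝ) / v0 := h50.trans hratio
    rw [le_div_iff₀ hv0pos] at this
    have : (v0 : ℝ) < v1 := by linarith
    exact_mod_cast this
  exact ⟨hv01, hHv0, hv0a, hv1a, hratio⟩

theorem last_ineq (C2 v0 v1 X L ε H η : ℝ) (hC2 : 1 ≤ C2) (hH : 0 < H) (hη : 0 < η) (hη1 : η ≤ 1 / 100) (hε : 0 < ε)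
    (h0 : 0 ≤ v0) (h01 : v0 ≤ v1) (hv1 : v1 ≤ H * η * L) (hL : C2 * H ^ 2 / ε + 1 ≤ L) :
    C2 * (v1 - v0) ^ 2 * X ^ 2 / L ^ (2 * 2 : ℝ) ≤ ε * X ^ 2 := by
  have hL1 : 1 ≤ L := by
    have : 0 ≤ C2 * H ^ 2 / ε := by positivity
    linarith
  have hLpos : 0 < L := by linarith
  have hr : L ^ (2 * 2 : ℝ) = L ^ 4 := by
    rw [show (2 * 2 : ℝ) = ((4 : ℕ) : ℝ) by norm_num, Real.rpow_natCast]
  rw [hr, div_le_iff₀ (by positivity)]
  have hd : (v1 - v0) ^ 2 ≤ (H * L) ^ 2 := by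
    have : v1 - v0 ≤ H * L := by
      have h2 : H * η * L ≤ H * 1 * L := by
        have : η ≤ 1 := by linarith
        gcongr
      linarith
    exact pow_le_pow_left₀ (by linarith) this 2
  have hCL : C2 * H ^ 2 ≤ ε * L ^ 2 := by
    have h1 : C2 * H ^ 2 / ε ≤ L := by linarith
    rw [div_le_iff₀ hε] at h1
    have : ε * L ≤ ε * L ^ 2 := by nlinarith [mul_pos hε hLpos]
    linarith
  calc C2 * (v1 - v0) ^ 2 * X ^ 2 ≤ C2 * (H * L) ^ 2 * X ^ 2 := by gcongr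
    _ = (C2 * H ^ 2) * L ^ 2 * X ^ 2 := by ring
    _ ≤ (ε * L ^ 2) * L ^ 2 * X ^ 2 := by gcongr
    _ = ε * X ^ 2 * L ^ 4 := by ring

/-- The two integrals. -/
theorem split (X T W : ℝ) (H v0 v1 : ℕ) (E F : Set ℝ) (D1 D2 : ℝ) (hW : 1 ≤ W) (hET : E ⊆ {t : ℝ | |t| ≤ T})
    (hEF : E ⊆ F) (hF : F ⊆ {t : ℝ | |t| ≤ X})
    (hD1 : ∫ t in {t : ℝ | |t| ≤ T}, ‖Aa X t + ((1 / W : ℝ) : ℂ) * Bs X H v0 v1 t‖ ^ 2 ≤ D1)
    (hD2 : ∫ t in F, ‖Bs X H v0 v1 t‖ ^ 2 ≤ D2) : ∫ t in E, ‖Aa X t‖ ^ 2 ≤ 2 * D1 + 2 * D2 := by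
  have hcA : Continuous fun t => ‖Aa X t‖ ^ 2 := (cont_Aa X).norm.pow 2
  have hcB : Continuous fun t => ‖Bs X H v0 v1 t‖ ^ 2 := (cont_Bs X H v0 v1).norm.pow 2
  have hcAB : Continuous fun t => ‖Aa X t + ((1 / W : ℝ) : ℂ) * Bs X H v0 v1 t‖ ^ 2 :=
    ((cont_Aa X).add (continuous_const.mul (cont_Bs X H v0 v1))).norm.pow 2
  have hptw : ∀ t, ‖Aa X t‖ ^ 2 ≤ 2 * ‖Aa X t + ((1 / W : ℝ) : ℂ) * Bs X H v0 v1 t‖ ^ 2 + 2 * ‖Bs X H v0 v1 t‖ ^ 2 :=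
    fun t => ptw _ _ W hW
  have hI1 : ∫ t in E, ‖Aa X t + ((1 / W : ℝ) : ℂ) * Bs X H v0 v1 t‖ ^ 2 ≤ D1 := by
    refine le_trans ?_ hD1
    refine setIntegral_mono_set (intOn hcAB _ T (le_refl _)) ?_ ?_
    · exact Filter.Eventually.of_forall fun t => by positivity
    · exact Filter.Eventually.of_forall fun t ht => hET ht
  have hI2 : ∫ t in E, ‖Bs X H v0 v1 t‖ ^ 2 ≤ D2 := by
    refine le_trans ?_ hD2
    refine setIntegral_mono_set (intOn hcB _ X hF) ?_ ?_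
    · exact Filter.Eventually.of_forall fun t => by positivity
    · exact Filter.Eventually.of_forall fun t ht => hEF ht
  have hE1 : IntegrableOn (fun t => ‖Aa X t + ((1 / W : ℝ) : ℂ) * Bs X H v0 v1 t‖ ^ 2) E := intOn hcAB E T hET
  have hE2 : IntegrableOn (fun t => ‖Bs X H v0 v1 t‖ ^ 2) E := intOn hcB E T hET
  have hsplit : ∫ t in E, ‖Aa X t‖ ^ 2 ≤ 2 * (∫ t in E, ‖Aa X t + ((1 / W : ℝ) : ℂ) * Bs X H v0 v1 t‖ ^ 2) +
      2 * ∫ t in E, ‖Bs X H v0 v1 t‖ ^ 2 := by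
    rw [← integral_const_mul, ← integral_const_mul, ← integral_add (hE1.const_mul 2) (hE2.const_mul 2)]
    exact setIntegral_mono (intOn hcA E T hET) ((hE1.const_mul 2).add (hE2.const_mul 2)) hptw
  linarith

theorem al_bd (J : ℕ) : 0 ≤ al J ∧ al J ≤ 1 / 5 := by
  unfold al
  have h1 : 1 / ((J : ℝ) + 1) ≤ 1 := by
    rw [div_le_one (by positivity)]
    have : (0 : ℝ) ≤ J := by positivity
    linarith
  have h2 : 0 < 1 / ((J : ℝ) + 1) := by positivity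
  constructor <;> linarith

theorem div_cast (a b : ℕ) (ha : 2 ≤ a) : ((a * b : ℕ) : ℝ) / (a : ℝ) = b := by
  have : (0 : ℝ) < a := by
    have : 0 < a := by omega
    exact_mod_cast this
  push_cast
  field_simp

end XAsT

open XAsT

theorem iAsT (h1 : StDc) (h2 : StU4) (h3 : StMr) : StAsT := by
  obtain ⟨C1, hC1, h1⟩ := h1
  obtain ⟨Cm, hCm, h3⟩ := h3
  refine ⟨4 * C1 + 2, by linarith, fun ε hε hε1 => ?_⟩
  obtain ⟨H, hHd⟩ : ∃ H : ℕ, H = ⌈1 / ε⌉₊ + 2 := ⟨_, rfl⟩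
  have hH2 : 2 ≤ H := by omega
  have hHε : 1 / ε ≤ H := by
    have : 1 / ε ≤ (⌈1 / ε⌉₊ : ℝ) := Nat.le_ceil _
    rw [hHd]
    push_cast
    linarith
  clear hHd
  have hH0 : (0 : ℝ) < H := by
    have : (0 : ℝ) < 1 / ε := by positivity
    linarith
  have hHinv : 1 / (H : ℝ) ≤ ε := by
    rw [div_le_iff₀ hH0]
    rw [div_le_iff₀ hε] at hHε
    linarith
  obtain ⟨η, hη0, hη1, hη2⟩ := eta_ex ε Cm
  obtain ⟨C2, X2, hC2, h2⟩ := h2 (η ^ 2) 2 (by positivity) (by norm_num)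
  refine ⟨max 3 (max X2 (max ((H : ℝ) ^ 2) (max (Real.exp (2 / η ^ 2)) (Real.exp (C2 * (H : ℝ) ^ 2 / ε + 1))))),
    le_max_left _ _, ?_⟩
  intro h X A B Hs E J hL hh hX hJ1 hJ2 hE hET hElow hEbig
  have hX3 : 3 ≤ X := (le_max_left _ _).trans hX
  have hX' := (le_max_right _ _).trans hX
  have hXX2 : X2 ≤ X := (le_max_left _ _).trans hX'
  have hX'' := (le_max_right _ _).trans hX'
  have hXH : (H : ℝ) ^ 2 ≤ X := (le_max_left _ _).trans hX''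
  have hX3' := (le_max_right _ _).trans hX''
  have hXe : Real.exp (2 / η ^ 2) ≤ X := (le_max_left _ _).trans hX3'
  have hXe2 : Real.exp (C2 * (H : ℝ) ^ 2 / ε + 1) ≤ X := (le_max_right _ _).trans hX3'
  clear hX hX' hX'' hX3'
  have hX0 : 0 < X := by linarith
  have hL1 : 2 / η ^ 2 ≤ Real.log X := by
    rw [Real.le_log_iff_exp_le hX0]
    exact hXe
  have hL2 : C2 * (H : ℝ) ^ 2 / ε + 1 ≤ Real.log X := by
    rw [Real.le_log_iff_exp_le hX0]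
    exact hXe2
  have hL0 : 1 ≤ Real.log X := by
    have : 0 ≤ C2 * (H : ℝ) ^ 2 / ε := by positivity
    linarith
  have hLpos : 0 < Real.log X := by linarith
  obtain ⟨v0, v1, hv01, hHv0, hv0a, hv1a, hratio⟩ := range_ex H η (Real.log X) hH2 hη0 hη1 hL1 hL0
  have hW := h3 H v0 v1 (by omega) hHv0 hv01
  have hWε : 1 / ε ≤ Wt (PS H v0 v1) := by
    have : Real.log (1 / (2 * η)) ≤ Real.log ((v1 : ℝ) / v0) :=
      Real.log_le_log (by positivity) hratio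
    linarith
  have hε1' : 1 ≤ 1 / ε := by
    rw [le_div_iff₀ hε]
    linarith
  have hW1 : 1 ≤ Wt (PS H v0 v1) := hε1'.trans hWε
  have hWpos : 0 < Wt (PS H v0 v1) := by linarith
  have hWinv : 1 / Wt (PS H v0 v1) ≤ ε := by
    rw [div_le_iff₀ hWpos]
    rw [div_le_iff₀ hε] at hWε
    linarith
  have hv1H : (v1 : ℝ) / H ≤ η * Real.log X := by
    rw [div_le_iff₀ hH0]
    linarith
  have hηL : η * Real.log X ≤ Real.log X / 100 := by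
    have := mul_le_mul_of_nonneg_right hη1 hLpos.le
    linarith
  have hexp : Real.exp (4 * ((v1 : ℝ) / H)) ≤ X := by
    have : 4 * ((v1 : ℝ) / H) ≤ Real.log X := by linarith
    calc Real.exp (4 * ((v1 : ℝ) / H)) ≤ Real.exp (Real.log X) := Real.exp_le_exp.2 this
      _ = X := Real.exp_log hX0
  have hT0 : 0 ≤ X / h := by positivity
  have hTX : X / h ≤ X := div_le_self hX0.le (by linarith)
  have hDc := h1 X (X / h) H v0 v1 (by linarith) hT0 hTX (by omega) hXH hv01 hexp hW1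
  -- the exceptional set
  have hHs2 := hL.H2 J
  have hHB : (Hs J : ℝ) ≤ B J := by exact_mod_cast hL.HB J
  have hBJ0 : (0 : ℝ) ≤ B J := Nat.cast_nonneg _
  have hAJ0 : (0 : ℝ) ≤ A J := Nat.cast_nonneg _
  have hloglog : Real.log (Real.log X) ≤ (A J : ℝ) / 100 := by
    rw [Real.log_le_iff_le_exp hLpos]
    have := hL.nx J
    linarith
  have c1 : η ^ 2 * Real.log X ≤ (v0 : ℝ) / H := by
    rw [le_div_iff₀ hH0]
    linarith
  have c2 : (v1 : ℝ) / H ≤ Real.log X / 25 := by linarith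
  have c3 : (Hs J : ℝ) ≤ Real.log X := by linarith
  have c4 : 40 * Real.log (Real.log X) ≤ ((Hs J * A J : ℕ) : ℝ) / (Hs J : ℝ) := by
    rw [div_cast _ _ hHs2]
    linarith
  have c5 : ((Hs J * B J : ℕ) : ℝ) / (Hs J : ℝ) ≤ Real.log X / 100 := by
    rw [div_cast _ _ hHs2]
    linarith
  have hU4 := h2 X hXX2 H v0 v1 (Hs J) (Hs J * A J) (Hs J * B J) (al J) (by omega) hv01.le c1 c2 (by omega) c3 c4 c5
    (al_bd J).1 (al_bd J).2
  have hsub : E ⊆ Ex X 2 (Hs J) (Hs J * A J) (Hs J * B J) (al J) := by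
    intro t ht
    refine ⟨hElow t ht, (hET ht).trans hTX, ?_⟩
    have hb := hEbig t ht
    unfold AllS Small at hb
    push Not at hb
    obtain ⟨v, hva, hvb, hvc⟩ := hb
    exact ⟨v, Finset.mem_Ico.2 ⟨hva, hvb⟩, hvc⟩
  have hExsub : Ex X 2 (Hs J) (Hs J * A J) (Hs J * B J) (al J) ⊆ {t : ℝ | |t| ≤ X} := fun t ht => ht.2.1
  have hbound2 := last_ineq C2 v0 v1 X (Real.log X) ε H η hC2 hH0 hη0 hη1 hε (Nat.cast_nonneg _)
    (by exact_mod_cast hv01.le) hv1a hL2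
  have hfin := split X (X / h) (Wt (PS H v0 v1)) H v0 v1 E _ _ _ hW1 hET hsub hExsub hDc (hU4.trans hbound2)
  have hC1X : 0 ≤ C1 * X ^ 2 := by positivity
  have : C1 * X ^ 2 * (1 / Wt (PS H v0 v1) + 1 / H) ≤ C1 * X ^ 2 * (2 * ε) :=
    mul_le_mul_of_nonneg_left (by linarith) hC1X
  calc ∫ t in E, ‖Aa X t‖ ^ 2 ≤ 2 * (C1 * X ^ 2 * (2 * ε)) + 2 * (ε * X ^ 2) := by linarith
    _ = (4 * C1 + 2) * ε * X ^ 2 := by ring

end Pool.Agent.Work.MP_a8fbd7_nt.PAR.MR
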