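import Pool.Agent.Work.MP_a8fbd7_nt.PAR.MR.StmtsA

/-!
Item Bc of the block MR: the elements of a block.
-/

set_option autoImplicit false

open MeasureTheory Set

noncomputable section

namespace Pool.Agent.Work.MP_a8fbd7_nt.PAR.MR

namespace XBc

/-- `e^{1/2} ≤ 33/20` -/
theorem exp_half : Real.exp (1 / 2) ≤ 33 / 20 := by
  have h1 : Real.exp (1 / 2) ^ 2 = Real.exp 1 := by
    rw [← Real.exp_nat_mul]
    norm_num
  have h2 : Real.exp 1 < 2.7182818286 := Real.exp_one_lt_d9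
  by_contra h
  rw [not_le] at h
  have h3 : (33 / 20 : ℝ) ^ 2 ≤ Real.exp (1 / 2) ^ 2 := pow_le_pow_left₀ (by norm_num) h.le 2
  rw [h1] at h3
  norm_num at h3 h2
  linarith

theorem card_Ioc (a b : ℝ) (ha : 0 ≤ a) (hab : a ≤ b) (S : Finset ℕ)
    (hS : ∀ p ∈ S, a < p ∧ (p : ℝ) ≤ b) : (S.card : ℝ) ≤ b - a + 1 := by
  have h1 : S ⊆ Finset.Ioc ⌊a⌋₊ ⌊b⌋₊ := by
    intro p hp
    obtain ⟨h2, h3⟩ := hS p hp
    rw [Finset.mem_Ioc]
    exact ⟨(Nat.floor_lt ha).2 h2, Nat.le_floor h3⟩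
  have h2 : S.card ≤ ⌊b⌋₊ - ⌊a⌋₊ := by
    refine (Finset.card_le_card h1).trans ?_
    rw [Nat.card_Ioc]
  have h3 : ⌊a⌋₊ ≤ ⌊b⌋₊ := Nat.floor_mono hab
  have h4 : (S.card : ℝ) ≤ (⌊b⌋₊ : ℝ) - ⌊a⌋₊ := by
    rw [← Nat.cast_sub h3]
    exact_mod_cast h2
  have h5 : (⌊b⌋₊ : ℝ) ≤ b := Nat.floor_le (ha.trans hab)
  have h6 : a < (⌊a⌋₊ : ℝ) + 1 := Nat.lt_floor_add_one a
  linarith

end XBc

theorem iBc : StBc := by
  intro H v hH hz
  have hH0 : (0 : ℝ) < H := by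
    have : 0 < H := by omega
    exact_mod_cast this
  have hH2 : (2 : ℝ) ≤ H := by exact_mod_cast hH
  have e1 : Real.exp (((v : ℝ) + 1) / H) = Real.exp (1 / H) * Real.exp ((v : ℝ) / H) := by
    rw [← Real.exp_add]
    congr 1
    ring
  have hmem : ∀ p ∈ rg H v, p.Prime ∧ Real.exp ((v : ℝ) / H) < p ∧
      (p : ℝ) ≤ Real.exp (1 / H) * Real.exp ((v : ℝ) / H) := by
    intro p hp
    unfold rg at hp
    rw [Finset.mem_filter, Finset.mem_Icc] at hp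
    refine ⟨hp.2.1, hp.2.2, ?_⟩
    rw [← e1]
    exact (Nat.le_floor_iff (Real.exp_pos _).le).1 hp.1.2
  refine ⟨?_, fun p hp => ⟨(hmem p hp).1, (hmem p hp).2.1.le, (hmem p hp).2.2⟩⟩
  set z := Real.exp ((v : ℝ) / H) with hzdef
  have hexp : Real.exp (1 / H) ≤ 33 / 20 := by
    refine le_trans ?_ XBc.exp_half
    apply Real.exp_le_exp.2
    exact one_div_le_one_div_of_le (by norm_num) hH2
  have hexp1 : 1 ≤ Real.exp (1 / H) := Real.one_le_exp (by positivity)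
  have h1 := XBc.card_Ioc z (Real.exp (1 / H) * z) (by linarith) (by nlinarith) (rg H v)
    (fun p hp => (hmem p hp).2)
  nlinarith

end Pool.Agent.Work.MP_a8fbd7_nt.PAR.MR
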