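import Pool.Agent.Work.MP_a8fbd7_nt.PAR.MR.StmtsA

/-!
# MP_a8fbd7_nt, parity, block MR, item Cc: the Gaussian mean square from the truncated mean square
-/

open MeasureTheory Set Filter Topology

noncomputable section

namespace Pool.Agent.Work.MP_a8fbd7_nt.PAR.MR

open Pool.Agent.Work.MP_56b8f5_nt.UC (Dp Sep)

namespace XCc

/-- the coefficients: `lam n` for `L < n ≤ 2L` -/
def aa (L : ℝ) (n : ℕ) : ℂ := if n ∈ Finset.Ioc ⌊L⌋₊ ⌊2 * L⌋₊ then ((lam n : ℝ) : ℂ) else 0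

theorem lam_norm (n : ℕ) : ‖((lam n : ℝ) : ℂ)‖ ≤ 1 := by
  rw [Complex.norm_real, Real.norm_eq_abs, lam]
  rcases eq_or_ne n 0 with h | h
  · subst h; simp
  · rw [ArithmeticFunction.liouville_apply h]
    push_cast
    rw [abs_pow, abs_neg, abs_one, one_pow]

theorem Dp_aa (L : ℝ) (t : ℝ) : Aa L t = Dp ⌊2 * L⌋₊ (aa L) t := by
  unfold Aa Dp aa
  have hsub : Finset.Ioc ⌊L⌋₊ ⌊2 * L⌋₊ ⊆ Finset.Icc 1 ⌊2 * L⌋₊ := by
    intro m hm
    rw [Finset.mem_Ioc] at hm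
    rw [Finset.mem_Icc]
    omega
  rw [← Finset.sum_subset hsub]
  · apply Finset.sum_congr rfl
    intro m hm
    rw [if_pos hm]
  · intro m _ hm
    rw [if_neg hm, zero_mul]

theorem sum_aa (L : ℝ) (hL : 1 ≤ L) : ∑ n ∈ Finset.Icc 1 ⌊2 * L⌋₊, ‖aa L n‖ ^ 2 ≤ 2 * L := by
  have h1 : ∑ n ∈ Finset.Icc 1 ⌊2 * L⌋₊, ‖aa L n‖ ^ 2 ≤ ∑ n ∈ Finset.Icc 1 ⌊2 * L⌋₊, (1 : ℝ) := by
    apply Finset.sum_le_sum
    intro n _
    unfold aa
    split_ifs with h
    · have h1 := lam_norm n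
      have h0 := norm_nonneg ((lam n : ℝ) : ℂ)
      nlinarith
    · simp
  refine h1.trans ?_
  rw [Finset.sum_const, Nat.card_Icc]
  simp only [Nat.add_sub_cancel, nsmul_eq_mul, mul_one]
  exact Nat.floor_le (by linarith)

theorem cont (L : ℝ) : Continuous (fun t : ℝ => ‖Aa L t‖ ^ 2) := by
  have h1 : Continuous (fun t : ℝ => Aa L t) := by
    unfold Aa
    refine continuous_finsetSum _ fun n hn => ?_
    refine continuous_const.mul ?_
    rw [Finset.mem_Ioc] at hn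
    have hn0 : (n : ℂ) ≠ 0 := by
      have : n ≠ 0 := by omega
      exact_mod_cast this
    refine Continuous.const_cpow ?_ (Or.inl hn0)
    fun_prop
  exact h1.norm.pow 2

end XCc

/-- **ITEM Cc.** -/
theorem iCc (h1 : StMain) (h2 : StTl) (h3 : StQF) : StCc := by
  obtain ⟨C, hC, hTl⟩ := h2
  intro ε0 hε0
  set ε := min ε0 1 with hεd
  have hε : 0 < ε := lt_min hε0 one_pos
  have hε1 : ε ≤ 1 := min_le_right _ _
  obtain ⟨h0, hh0, hM⟩ := h1 (ε / 2) (by linarith) (by linarith)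
  obtain ⟨X0, hX0, hM2⟩ := hM h0 le_rfl
  set R : ℝ := 24 * C / ε with hRd
  have hR : 24 * C ≤ R := by
    rw [hRd, le_div_iff₀ hε]
    nlinarith
  have hR1 : 1 ≤ R := by linarith
  refine ⟨R * h0, X0, by nlinarith, fun X hX => ?_⟩
  have hX1 : 1 ≤ X := hX0.trans hX
  have hXp : 0 < X := by linarith
  have hRh : 0 < R * h0 := by positivity
  have hT : 0 < X / (R * h0) := by positivity
  have hU : 0 < X / h0 := by positivity
  have hms : MeasurableSet {t : ℝ | |t| ≤ X / h0} := measurableSet_le measurable_norm measurable_const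
  have hcompl : {t : ℝ | |t| ≤ X / h0}ᶜ = {t : ℝ | X / h0 < |t|} := by
    ext t
    simp
  have hI := (h3 (X / (R * h0)) ⌊2 * X⌋₊ (XCc.aa X) hT).1
  have hI' : Integrable (fun t : ℝ => Real.exp (-(t / (X / (R * h0))) ^ 2) * ‖Aa X t‖ ^ 2) := by
    refine hI.congr (Eventually.of_forall fun t => ?_)
    simp only [XCc.Dp_aa]
  rw [← integral_add_compl hms hI', hcompl]
  have hin : ∫ t in {t : ℝ | |t| ≤ X / h0}, Real.exp (-(t / (X / (R * h0))) ^ 2) * ‖Aa X t‖ ^ 2 ≤ ε / 2 * X ^ 2 := by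
    refine le_trans ?_ (hM2 X hX)
    refine setIntegral_mono_on hI'.integrableOn ?_ hms ?_
    · have hs : {t : ℝ | |t| ≤ X / h0} = Icc (-(X / h0)) (X / h0) := by
        ext t
        simp [abs_le]
      rw [hs]
      exact (XCc.cont X).continuousOn.integrableOn_compact isCompact_Icc
    · intro t _
      have : Real.exp (-(t / (X / (R * h0))) ^ 2) ≤ 1 := by
        rw [Real.exp_le_one_iff]
        nlinarith [sq_nonneg (t / (X / (R * h0)))]
      nlinarith [sq_nonneg ‖Aa X t‖]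
  have hout : ∫ t in {t : ℝ | X / h0 < |t|}, Real.exp (-(t / (X / (R * h0))) ^ 2) * ‖Aa X t‖ ^ 2 ≤ ε / 2 * X ^ 2 := by
    have h4 := hTl (X / (R * h0)) (X / h0) ⌊2 * X⌋₊ (XCc.aa X) hT hU.le
    simp only [← XCc.Dp_aa] at h4
    refine h4.trans ?_
    have hratio : X / h0 / (X / (R * h0)) = R := by
      field_simp
    rw [hratio]
    have hfl : ((⌊2 * X⌋₊ : ℕ) : ℝ) ≤ 2 * X := Nat.floor_le (by linarith)
    have hT2 : X / (R * h0) ≤ X := by
      rw [div_le_iff₀ hRh]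
      have : 1 ≤ R * h0 := by nlinarith
      nlinarith
    have hexp : Real.exp (-(R ^ 2 / 2)) ≤ ε / (12 * C) := by
      rw [Real.exp_neg, inv_le_comm₀ (Real.exp_pos _) (by positivity), inv_div]
      have h5 := Real.add_one_le_exp (R ^ 2 / 2)
      have h6 : 12 * C / ε = R / 2 := by rw [hRd]; ring
      rw [h6]
      nlinarith
    have hsum := XCc.sum_aa X hX1
    have hS0 : 0 ≤ ∑ n ∈ Finset.Icc 1 ⌊2 * X⌋₊, ‖XCc.aa X n‖ ^ 2 := Finset.sum_nonneg fun _ _ => by positivity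
    calc C * Real.exp (-(R ^ 2 / 2)) * (X / (R * h0) + (⌊2 * X⌋₊ : ℕ)) * ∑ n ∈ Finset.Icc 1 ⌊2 * X⌋₊, ‖XCc.aa X n‖ ^ 2
        ≤ C * (ε / (12 * C)) * (3 * X) * (2 * X) := by
          apply mul_le_mul _ hsum hS0 (by positivity)
          apply mul_le_mul _ (by linarith) (by positivity) (by positivity)
          exact mul_le_mul_of_nonneg_left hexp (by linarith)
      _ = ε / 2 * X ^ 2 := by
          field_simp
          ring
  have hε0' : ε ≤ ε0 := min_le_left _ _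
  have hX2 : 0 ≤ X ^ 2 := sq_nonneg X
  calc (∫ t in {t : ℝ | |t| ≤ X / h0}, Real.exp (-(t / (X / (R * h0))) ^ 2) * ‖Aa X t‖ ^ 2) +
        ∫ t in {t : ℝ | X / h0 < |t|}, Real.exp (-(t / (X / (R * h0))) ^ 2) * ‖Aa X t‖ ^ 2
      ≤ ε / 2 * X ^ 2 + ε / 2 * X ^ 2 := add_le_add hin hout
    _ = ε * X ^ 2 := by ring
    _ ≤ ε0 * X ^ 2 := mul_le_mul_of_nonneg_right hε0' hX2

end Pool.Agent.Work.MP_a8fbd7_nt.PAR.MR
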