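import Pool.Agent.Work.MP_a8fbd7_nt.PAR.MR.StmtsA

/-!
# MP_a8fbd7_nt, parity, block MR, item Cf: coefficients of a power of a block times a polynomial
-/

set_option autoImplicit false

open MeasureTheory Set

noncomputable section

namespace Pool.Agent.Work.MP_a8fbd7_nt.PAR.MR

namespace XCf

lemma prod_cpow {l : ℕ} (p : Fin l → ℕ) (s : ℂ) :
    ((∏ i, p i : ℕ) : ℂ) ^ s = ∏ i, ((p i : ℕ) : ℂ) ^ s := by
  classical
  have h : ∀ T : Finset (Fin l), ((∏ i ∈ T, p i : ℕ) : ℂ) ^ s = ∏ i ∈ T, ((p i : ℕ) : ℂ) ^ s := by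
    intro T
    induction T using Finset.induction_on with
    | empty => simp
    | insert a T ha ih =>
      rw [Finset.prod_insert ha, Finset.prod_insert ha, Nat.cast_mul,
        Complex.natCast_mul_natCast_cpow, ih]
  exact h _

/-- the product -/
def ph {l : ℕ} (x : (Fin l → ℕ) × ℕ) : ℕ := (∏ i, x.1 i) * x.2

/-- the index set -/
def II (l : ℕ) (B M : Finset ℕ) : Finset ((Fin l → ℕ) × ℕ) :=
  (Fintype.piFinset fun _ : Fin l => B) ×ˢ M

lemma expand (l : ℕ) (B M : Finset ℕ) (a : ℕ → ℂ) (t : ℝ) :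
    Sp B (fun _ => 1) t ^ l * Sp M a t =
      ∑ x ∈ II l B M, a x.2 * ((ph x : ℕ) : ℂ) ^ (-(t * Complex.I)) := by
  unfold Sp II
  have h1 : (∑ n ∈ B, (1 : ℂ) * (n : ℂ) ^ (-(t * Complex.I))) ^ l =
      ∑ p ∈ Fintype.piFinset (fun _ : Fin l => B), ∏ i, ((p i : ℕ) : ℂ) ^ (-(t * Complex.I)) := by
    rw [← Finset.prod_univ_sum (fun _ : Fin l => B)
      (fun _ n => ((n : ℕ) : ℂ) ^ (-(t * Complex.I))), Finset.prod_const, Finset.card_univ,
      Fintype.card_fin]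
    simp only [one_mul]
  rw [h1, Finset.sum_mul_sum, Finset.sum_product]
  refine Finset.sum_congr rfl fun p _ => Finset.sum_congr rfl fun m _ => ?_
  unfold ph
  rw [Nat.cast_mul, Complex.natCast_mul_natCast_cpow, prod_cpow]
  ring

end XCf

open XCf in
theorem iCf (h1 : StCn) : StCf := by
  classical
  intro B M a z y1 U l hz hU hB hBz hM ha
  set I := II l B M with hI
  set S : Finset ℕ := I.image ph with hS
  set c : ℕ → ℂ := fun n => ∑ x ∈ I.filter (fun x => ph x = n), a x.2 with hc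
  have hmem : ∀ x ∈ I, (∀ i, x.1 i ∈ B) ∧ x.2 ∈ M := by
    intro x hx
    obtain ⟨h2, h3⟩ := Finset.mem_product.1 hx
    exact ⟨fun i => Fintype.mem_piFinset.1 h2 i, h3⟩
  refine ⟨S, c, fun t => ?_, ?_, ?_⟩
  · rw [expand]
    unfold Sp
    rw [← Finset.sum_fiberwise_of_maps_to (s := I) (t := S) (g := ph)
      (fun x hx => Finset.mem_image_of_mem ph hx)]
    refine Finset.sum_congr rfl fun n _ => ?_
    simp only [hc]
    rw [Finset.sum_mul]
    refine Finset.sum_congr rfl fun x hx => ?_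
    rw [(Finset.mem_filter.1 hx).2]
  · intro n hn
    obtain ⟨x, hx, rfl⟩ := Finset.mem_image.1 hn
    obtain ⟨h2, h3⟩ := hmem x hx
    unfold ph
    constructor
    · exact Nat.mul_pos (Finset.prod_pos fun i _ => (hB _ (h2 i)).1.pos) (hM _ h3).1
    · push_cast
      have h4 : (∏ i, ((x.1 i : ℕ) : ℝ)) ≤ y1 ^ l := by
        calc (∏ i, ((x.1 i : ℕ) : ℝ)) ≤ ∏ _i : Fin l, y1 :=
              Finset.prod_le_prod (fun i _ => Nat.cast_nonneg _) fun i _ => (hB _ (h2 i)).2.2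
          _ = y1 ^ l := by rw [Finset.prod_const, Finset.card_univ, Fintype.card_fin]
      have h5 : (0 : ℝ) ≤ ∏ i, ((x.1 i : ℕ) : ℝ) := Finset.prod_nonneg fun i _ => Nat.cast_nonneg _
      exact mul_le_mul h4 (hM _ h3).2 (Nat.cast_nonneg _) (h5.trans h4)
  · -- the number of representations
    have hcn : ∀ n, ‖c n‖ ^ 2 ≤ (((I.filter (fun x => ph x = n)).card : ℝ)) ^ 2 := by
      intro n
      have h2 : ‖c n‖ ≤ ((I.filter (fun x => ph x = n)).card : ℝ) := by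
        refine (norm_sum_le _ _).trans ?_
        refine (Finset.sum_le_sum fun x _ => ha x.2).trans ?_
        rw [Finset.sum_const, nsmul_eq_mul, mul_one]
      exact pow_le_pow_left₀ (norm_nonneg _) h2 2
    set P : Finset (((Fin l → ℕ) × ℕ) × ((Fin l → ℕ) × ℕ)) :=
      (I ×ˢ I).filter (fun x => ph x.1 = ph x.2) with hP
    have hcard : P.card = ∑ n ∈ S, (I.filter (fun x => ph x = n)).card ^ 2 := by
      rw [Finset.card_eq_sum_card_fiberwise (f := fun x => ph x.1) (t := S)]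
      · refine Finset.sum_congr rfl fun n _ => ?_
        rw [sq, ← Finset.card_product]
        congr 1
        ext x
        simp only [hP, Finset.mem_filter, Finset.mem_product]
        constructor
        · rintro ⟨⟨⟨h2, h3⟩, h4⟩, h5⟩
          exact ⟨⟨h2, h5⟩, ⟨h3, h4 ▸ h5⟩⟩
        · rintro ⟨⟨h2, h3⟩, ⟨h4, h5⟩⟩
          exact ⟨⟨⟨h2, h4⟩, h3.trans h5.symm⟩, h3⟩
      · intro x hx
        have hx' := Finset.mem_filter.1 (Finset.mem_coe.1 hx)
        exact Finset.mem_coe.2 (Finset.mem_image_of_mem ph (Finset.mem_product.1 hx'.1).1)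
    have hle := h1 B z hz (fun p hp => ⟨(hB p hp).1, (hB p hp).2.1⟩) hBz l l ⌊U⌋₊ U (by linarith)
    have hinj : P.card ≤ ((((Fintype.piFinset fun _ : Fin l => B) ×ˢ
        (Fintype.piFinset fun _ : Fin l => B)) ×ˢ
        ((Finset.Icc 1 ⌊U⌋₊) ×ˢ (Finset.Icc 1 ⌊U⌋₊))).filter
        fun x => (∏ i, x.1.1 i) * x.2.1 = (∏ i, x.1.2 i) * x.2.2).card := by
      refine Finset.card_le_card_of_injOn (fun x => ((x.1.1, x.2.1), (x.1.2, x.2.2))) ?_ ?_
      · intro x hx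
        have hx' := Finset.mem_filter.1 (Finset.mem_coe.1 hx)
        obtain ⟨h2, h3⟩ := Finset.mem_product.1 hx'.1
        obtain ⟨h4, h5⟩ := Finset.mem_product.1 h2
        obtain ⟨h6, h7⟩ := Finset.mem_product.1 h3
        refine Finset.mem_coe.2 (Finset.mem_filter.2 ⟨Finset.mem_product.2
          ⟨Finset.mem_product.2 ⟨h4, h6⟩, Finset.mem_product.2 ⟨?_, ?_⟩⟩, hx'.2⟩)
        · exact Finset.mem_Icc.2 ⟨(hM _ h5).1, Nat.le_floor (hM _ h5).2⟩
        · exact Finset.mem_Icc.2 ⟨(hM _ h7).1, Nat.le_floor (hM _ h7).2⟩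
      · rintro ⟨⟨x1, x2⟩, ⟨x3, x4⟩⟩ _ ⟨⟨y1, y2⟩, ⟨y3, y4⟩⟩ _ hxy
        simp only [Prod.mk.injEq] at hxy ⊢
        tauto
    calc ∑ n ∈ S, ‖c n‖ ^ 2 ≤ ∑ n ∈ S, (((I.filter (fun x => ph x = n)).card : ℝ)) ^ 2 :=
          Finset.sum_le_sum fun n _ => hcn n
      _ = (P.card : ℝ) := by rw [hcard]; push_cast; rfl
      _ ≤ U * z ^ l * ((l : ℝ) + 1) ^ l := le_trans (by exact_mod_cast hinj) hle

end Pool.Agent.Work.MP_a8fbd7_nt.PAR.MR
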