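import Pool.Agent.Work.MP_a8fbd7_nt.PAR.MR.StmtsB

/-!
# [a8fbd7 MR Chg]: a positive proportion of sign changes
-/

set_option autoImplicit false

noncomputable section

namespace Pool.Agent.Work.MP_a8fbd7_nt.PAR.MR

namespace XChg

/-- the combinatorial part -/
theorem key (f : ℕ → ℝ) (h X : ℕ)
    (hw : ((((Finset.Ico X (2 * X)).filter fun x => ∀ i < h, f (x + i) = f x).card : ℝ)) ≤ X / 2) :
    (X : ℝ) / 2 ≤ h + h * ((Finset.Ico X (2 * X)).filter fun x => f (x + 1) ≠ f x).card := by
  classical
  set S := (Finset.Ico X (2 * X)).filter fun x => f (x + 1) ≠ f x with hS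
  set G := (Finset.Ico X (2 * X)).filter fun x => ∀ i < h, f (x + i) = f x with hG
  set A' := (Finset.Ico X (2 * X)).filter fun x => ¬ ∀ i < h, f (x + i) = f x with hA'
  have h1 : G.card + A'.card = X := by
    rw [hG, hA', Finset.card_filter_add_card_filter_not, Nat.card_Ico]
    omega
  have h2 : A' ⊆ Finset.Ico (2 * X - h) (2 * X) ∪ S.biUnion fun y => Finset.Ico (y + 1 - h) (y + 1) := by
    intro x hx
    rw [hA', Finset.mem_filter, Finset.mem_Ico] at hx
    obtain ⟨⟨hx1, hx2⟩, hx3⟩ := hx
    rw [Finset.mem_union]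
    rcases lt_or_ge (2 * X) (x + h) with h3 | h3
    · left
      rw [Finset.mem_Ico]
      omega
    · right
      push Not at hx3
      have hex : ∃ i, i < h ∧ f (x + i) ≠ f x := hx3
      set i := Nat.find hex with hi
      obtain ⟨hi1, hi2⟩ := Nat.find_spec hex
      have hmin : ∀ j < i, f (x + j) = f x := by
        intro j hj
        by_contra hne
        exact Nat.find_min hex hj ⟨by omega, hne⟩
      have hi0 : i ≠ 0 := by
        intro h0
        apply hi2
        rw [← hi, h0, add_zero]
      rw [Finset.mem_biUnion]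
      refine ⟨x + i - 1, ?_, ?_⟩
      · rw [hS, Finset.mem_filter, Finset.mem_Ico]
        refine ⟨⟨by omega, by omega⟩, ?_⟩
        have e1 : x + i - 1 + 1 = x + i := by omega
        have e2 : x + i - 1 = x + (i - 1) := by omega
        rw [e1, e2, hmin (i - 1) (by omega)]
        exact hi2
      · rw [Finset.mem_Ico]
        omega
  have h3 : A'.card ≤ h + S.card * h := by
    refine (Finset.card_le_card h2).trans ((Finset.card_union_le _ _).trans ?_)
    refine add_le_add ?_ ?_
    · rw [Nat.card_Ico]
      omega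
    · refine Finset.card_biUnion_le_card_mul _ _ _ fun y _ => ?_
      rw [Nat.card_Ico]
      omega
  have h4 : ((G.card : ℝ)) + A'.card = X := by exact_mod_cast h1
  have h5 : (A'.card : ℝ) ≤ h + S.card * h := by exact_mod_cast h3
  have h6 : (S.card : ℝ) * h = h * S.card := mul_comm _ _
  linarith

end XChg

theorem iChg : StChg := by
  rintro ⟨h, X0, hh, hX⟩
  have hh0 : (0 : ℝ) < h := by exact_mod_cast hh
  refine ⟨1 / (4 * h), max X0 (4 * h), by positivity, fun X hXX => ?_⟩
  have h1 := XChg.key lam h X (hX X ((le_max_left _ _).trans hXX))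
  have h2 : (4 * h : ℕ) ≤ X := (le_max_right _ _).trans hXX
  have h3 : (4 : ℝ) * h ≤ X := by exact_mod_cast h2
  rw [div_mul_eq_mul_div, one_mul, div_le_iff₀ (by positivity)]
  nlinarith

end Pool.Agent.Work.MP_a8fbd7_nt.PAR.MR
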