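import Pool.Agent.Work.MP_a8fbd7_nt.PAR.MR.StmtsA

/-!
# MP_a8fbd7_nt, parity, block MR, item Cn: counting solutions of a multiplicative equation
-/

open MeasureTheory Set

noncomputable section

namespace Pool.Agent.Work.MP_a8fbd7_nt.PAR.MR

namespace XCn

/-- the set of solutions -/
def T (B : Finset ℕ) (a b U' : ℕ) (U : ℝ) : Finset (((Fin a → ℕ) × (Fin b → ℕ)) × (ℕ × ℕ)) :=
  (((Fintype.piFinset fun _ : Fin a => B) ×ˢ (Fintype.piFinset fun _ : Fin b => B)) ×ˢ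
      ((Finset.Icc 1 ⌊U⌋₊) ×ˢ (Finset.Icc 1 U'))).filter
      fun x => (∏ i, x.1.1 i) * x.2.1 = (∏ i, x.1.2 i) * x.2.2

lemma mem_T {B : Finset ℕ} {a b U' : ℕ} {U : ℝ} {x : ((Fin a → ℕ) × (Fin b → ℕ)) × (ℕ × ℕ)} :
    x ∈ T B a b U' U ↔ (((∀ i, x.1.1 i ∈ B) ∧ (∀ i, x.1.2 i ∈ B)) ∧
      ((1 ≤ x.2.1 ∧ x.2.1 ≤ ⌊U⌋₊) ∧ (1 ≤ x.2.2 ∧ x.2.2 ≤ U'))) ∧
      (∏ i, x.1.1 i) * x.2.1 = (∏ i, x.1.2 i) * x.2.2 := by
  unfold T
  simp only [Finset.mem_filter, Finset.mem_product, Fintype.mem_piFinset, Finset.mem_Icc]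

lemma base (B : Finset ℕ) (a U' : ℕ) (U : ℝ) : (T B a 0 U' U).card ≤ B.card ^ a * ⌊U⌋₊ := by
  have h1 : (T B a 0 U' U).card ≤ ((Fintype.piFinset fun _ : Fin a => B) ×ˢ Finset.Icc 1 ⌊U⌋₊).card := by
    apply Finset.card_le_card_of_injOn (fun x => (x.1.1, x.2.1))
    · intro x hx
      obtain ⟨⟨⟨h1, h2⟩, h3, h4⟩, h5⟩ := mem_T.1 hx
      simp only [Finset.coe_product, Set.mem_prod, Finset.mem_coe, Fintype.mem_piFinset, Finset.mem_Icc]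
      exact ⟨h1, h3⟩
    · intro x hx y hy hxy
      obtain ⟨-, h5⟩ := mem_T.1 hx
      obtain ⟨-, h6⟩ := mem_T.1 hy
      simp only [Prod.mk.injEq] at hxy
      have e1 : x.1.2 = y.1.2 := Subsingleton.elim _ _
      have e2 : x.2.2 = y.2.2 := by
        rw [hxy.1, hxy.2, h6] at h5
        simpa using h5.symm
      ext1
      · ext1
        · exact hxy.1
        · exact e1
      · ext1
        · exact hxy.2
        · exact e2
  refine h1.trans ?_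
  rw [Finset.card_product, Fintype.card_piFinset_const, Nat.card_Icc]
  simp

/-- insert a common prime on both sides -/
def f {a b : ℕ} (x : Fin (a + 1) × ℕ × (((Fin a → ℕ) × (Fin b → ℕ)) × (ℕ × ℕ))) :
    ((Fin (a + 1) → ℕ) × (Fin (b + 1) → ℕ)) × (ℕ × ℕ) :=
  ((x.1.insertNth x.2.1 x.2.2.1.1, Fin.cons x.2.1 x.2.2.1.2), x.2.2.2)

/-- insert a prime on the right and multiply `m` -/
def g {a b : ℕ} (x : ℕ × (((Fin a → ℕ) × (Fin b → ℕ)) × (ℕ × ℕ))) :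
    ((Fin a → ℕ) × (Fin (b + 1) → ℕ)) × (ℕ × ℕ) :=
  ((x.2.1.1, Fin.cons x.1 x.2.1.2), (x.1 * x.2.2.1, x.2.2.2))

/-- the case `q ∣ m` -/
lemma right {B : Finset ℕ} {z : ℝ} (hz : 1 ≤ z) (hB : ∀ p ∈ B, p.Prime ∧ z ≤ p) {a b U' : ℕ} {U : ℝ} (hU : 0 ≤ U)
    {x : ((Fin a → ℕ) × (Fin (b + 1) → ℕ)) × (ℕ × ℕ)} (hx : x ∈ T B a (b + 1) U' U) (hd : x.1.2 0 ∣ x.2.1) :
    x ∈ (B ×ˢ T B a b U' (U / z)).image g := by
  obtain ⟨⟨⟨h1, h2⟩, ⟨h3, h3'⟩, h4⟩, h5⟩ := mem_T.1 hx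
  obtain ⟨m, hm⟩ := hd
  have hq := hB _ (h2 0)
  have hq0 : 0 < x.1.2 0 := hq.1.pos
  have hm0 : 0 < m := by
    rcases Nat.eq_zero_or_pos m with h | h
    · rw [h, mul_zero] at hm; omega
    · exact h
  rw [Finset.mem_image]
  refine ⟨(x.1.2 0, ((x.1.1, Fin.tail x.1.2), (m, x.2.2))), ?_, ?_⟩
  · rw [Finset.mem_product]
    refine ⟨h2 0, mem_T.2 ⟨⟨⟨h1, fun i => h2 i.succ⟩, ⟨hm0, ?_⟩, h4⟩, ?_⟩⟩
    · apply Nat.le_floor
      rw [le_div_iff₀ (by linarith)]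
      have h6 : (x.2.1 : ℝ) ≤ U := (Nat.cast_le.2 h3').trans (Nat.floor_le hU)
      rw [hm] at h6
      push_cast at h6
      have h7 : (m : ℝ) * z ≤ m * (x.1.2 0 : ℝ) := mul_le_mul_of_nonneg_left hq.2 (Nat.cast_nonneg m)
      linarith
    · show (∏ i, x.1.1 i) * m = (∏ i, Fin.tail x.1.2 i) * x.2.2
      rw [hm, Fin.prod_univ_succ] at h5
      have h6 : x.1.2 0 * ((∏ i, x.1.1 i) * m) = x.1.2 0 * ((∏ i, Fin.tail x.1.2 i) * x.2.2) := by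
        calc x.1.2 0 * ((∏ i, x.1.1 i) * m) = (∏ i, x.1.1 i) * (x.1.2 0 * m) := by ring
          _ = x.1.2 0 * (∏ i : Fin b, x.1.2 i.succ) * x.2.2 := h5
          _ = x.1.2 0 * ((∏ i, Fin.tail x.1.2 i) * x.2.2) := by rw [mul_assoc]; rfl
      exact Nat.eq_of_mul_eq_mul_left hq0 h6
  · show ((x.1.1, Fin.cons (x.1.2 0) (Fin.tail x.1.2)), (x.1.2 0 * m, x.2.2)) = x
    rw [Fin.cons_self_tail, ← hm]

/-- the case `q = p_k` -/
lemma left {B : Finset ℕ} {z : ℝ} (hB : ∀ p ∈ B, p.Prime ∧ z ≤ p) {a b U' : ℕ} {U : ℝ}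
    {x : ((Fin (a + 1) → ℕ) × (Fin (b + 1) → ℕ)) × (ℕ × ℕ)} (hx : x ∈ T B (a + 1) (b + 1) U' U) {k : Fin (a + 1)}
    (hd : x.1.2 0 = x.1.1 k) :
    x ∈ ((Finset.univ : Finset (Fin (a + 1))) ×ˢ B ×ˢ T B a b U' U).image f := by
  obtain ⟨⟨⟨h1, h2⟩, h3, h4⟩, h5⟩ := mem_T.1 hx
  have hq := hB _ (h2 0)
  have hq0 : 0 < x.1.2 0 := hq.1.pos
  rw [Finset.mem_image]
  refine ⟨(k, x.1.2 0, ((k.removeNth x.1.1, Fin.tail x.1.2), x.2)), ?_, ?_⟩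
  · rw [Finset.mem_product, Finset.mem_product]
    refine ⟨Finset.mem_univ _, h2 0, mem_T.2 ⟨⟨⟨fun i => h1 _, fun i => h2 i.succ⟩, h3, h4⟩, ?_⟩⟩
    show (∏ i, k.removeNth x.1.1 i) * x.2.1 = (∏ i, Fin.tail x.1.2 i) * x.2.2
    rw [Fin.prod_univ_succAbove _ k, Fin.prod_univ_succ, ← hd] at h5
    have h6 : x.1.2 0 * ((∏ i, k.removeNth x.1.1 i) * x.2.1) = x.1.2 0 * ((∏ i, Fin.tail x.1.2 i) * x.2.2) := by
      calc x.1.2 0 * ((∏ i, k.removeNth x.1.1 i) * x.2.1) = x.1.2 0 * (∏ i, x.1.1 (k.succAbove i)) * x.2.1 := by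
            rw [mul_assoc]; rfl
        _ = x.1.2 0 * (∏ i : Fin b, x.1.2 i.succ) * x.2.2 := h5
        _ = x.1.2 0 * ((∏ i, Fin.tail x.1.2 i) * x.2.2) := by rw [mul_assoc]; rfl
    exact Nat.eq_of_mul_eq_mul_left hq0 h6
  · show ((k.insertNth (x.1.2 0) (k.removeNth x.1.1), Fin.cons (x.1.2 0) (Fin.tail x.1.2)), x.2) = x
    rw [Fin.cons_self_tail, hd, Fin.insertNth_self_removeNth]

/-- the dichotomy -/
lemma dich {B : Finset ℕ} {z : ℝ} (hB : ∀ p ∈ B, p.Prime ∧ z ≤ p) {a b U' : ℕ} {U : ℝ}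
    {x : ((Fin a → ℕ) × (Fin (b + 1) → ℕ)) × (ℕ × ℕ)} (hx : x ∈ T B a (b + 1) U' U) :
    (∃ k : Fin a, x.1.2 0 = x.1.1 k) ∨ x.1.2 0 ∣ x.2.1 := by
  obtain ⟨⟨⟨h1, h2⟩, h3, h4⟩, h5⟩ := mem_T.1 hx
  have hq := (hB _ (h2 0)).1
  have hd : x.1.2 0 ∣ (∏ i, x.1.1 i) * x.2.1 := by
    rw [h5, Fin.prod_univ_succ, mul_assoc]
    exact dvd_mul_right _ _
  rcases (Nat.Prime.dvd_mul hq).1 hd with h | h
  · left
    obtain ⟨k, -, hk⟩ := (Prime.dvd_finsetProd_iff hq.prime _).1 h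
    exact ⟨k, (Nat.prime_dvd_prime_iff_eq hq (hB _ (h1 k)).1).1 hk⟩
  · right
    exact h

lemma step0 {B : Finset ℕ} {z : ℝ} (hz : 1 ≤ z) (hB : ∀ p ∈ B, p.Prime ∧ z ≤ p) {b U' : ℕ} {U : ℝ} (hU : 0 ≤ U) :
    (T B 0 (b + 1) U' U).card ≤ B.card * (T B 0 b U' (U / z)).card := by
  rw [← Finset.card_product]
  refine le_trans (Finset.card_le_card (t := (B ×ˢ T B 0 b U' (U / z)).image g) ?_) Finset.card_image_le
  intro x hx
  rcases dich hB hx with ⟨k, -⟩ | h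
  · exact k.elim0
  · exact right hz hB hU hx h

lemma step1 {B : Finset ℕ} {z : ℝ} (hz : 1 ≤ z) (hB : ∀ p ∈ B, p.Prime ∧ z ≤ p) {a b U' : ℕ} {U : ℝ} (hU : 0 ≤ U) :
    (T B (a + 1) (b + 1) U' U).card ≤ (a + 1) * (B.card * (T B a b U' U).card) + B.card * (T B (a + 1) b U' (U / z)).card := by
  have h1 : (T B (a + 1) (b + 1) U' U).card ≤
      (((Finset.univ : Finset (Fin (a + 1))) ×ˢ B ×ˢ T B a b U' U).image f ∪ (B ×ˢ T B (a + 1) b U' (U / z)).image g).card := by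
    apply Finset.card_le_card
    intro x hx
    rw [Finset.mem_union]
    rcases dich hB hx with ⟨k, hk⟩ | h
    · exact Or.inl (left hB hx hk)
    · exact Or.inr (right hz hB hU hx h)
  refine h1.trans ((Finset.card_union_le _ _).trans (add_le_add (Finset.card_image_le.trans ?_) (Finset.card_image_le.trans ?_)))
  · rw [Finset.card_product, Finset.card_product, Finset.card_univ, Fintype.card_fin]
  · rw [Finset.card_product]

end XCn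

/-- **ITEM Cn.** -/
theorem iCn : StCn := by
  intro B z hz hB hBc b
  have hz0 : 0 < z := by linarith
  have hBc0 : (0 : ℝ) ≤ (B.card : ℝ) := Nat.cast_nonneg _
  induction b with
  | zero =>
    intro a U' U hU
    have h1 := XCn.base B a U' U
    have h2 : ((XCn.T B a 0 U' U).card : ℝ) ≤ (B.card : ℝ) ^ a * (⌊U⌋₊ : ℝ) := by exact_mod_cast h1
    refine h2.trans ?_
    rw [pow_zero, mul_one, mul_comm U]
    exact mul_le_mul (pow_le_pow_left₀ hBc0 hBc a) (Nat.floor_le hU) (Nat.cast_nonneg _) (by positivity)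
  | succ b ih =>
    intro a U' U hU
    have hUz : 0 ≤ U / z := by positivity
    cases a with
    | zero =>
      have h1 := XCn.step0 hz hB (b := b) (U' := U') hU
      have h2 : ((XCn.T B 0 (b + 1) U' U).card : ℝ) ≤ (B.card : ℝ) * ((XCn.T B 0 b U' (U / z)).card : ℝ) := by
        exact_mod_cast h1
      have h3 := ih 0 U' (U / z) hUz
      refine h2.trans ((mul_le_mul hBc h3 (Nat.cast_nonneg _) hz0.le).trans ?_)
      simp only [pow_zero, mul_one, Nat.cast_zero, zero_add, one_pow]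
      rw [mul_div_cancel₀ _ hz0.ne']
    | succ a =>
      have h1 := XCn.step1 hz hB (a := a) (b := b) (U' := U') hU
      have h2 : ((XCn.T B (a + 1) (b + 1) U' U).card : ℝ) ≤
          ((a : ℝ) + 1) * ((B.card : ℝ) * ((XCn.T B a b U' U).card : ℝ)) +
            (B.card : ℝ) * ((XCn.T B (a + 1) b U' (U / z)).card : ℝ) := by
        exact_mod_cast h1
      have h3 : ((XCn.T B a b U' U).card : ℝ) ≤ U * z ^ a * ((a : ℝ) + 1) ^ b := ih a U' U hU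
      have h4 : ((XCn.T B (a + 1) b U' (U / z)).card : ℝ) ≤ U / z * z ^ (a + 1) * (((a + 1 : ℕ) : ℝ) + 1) ^ b :=
        ih (a + 1) U' (U / z) hUz
      have h5 : (B.card : ℝ) * ((XCn.T B a b U' U).card : ℝ) ≤ z * (U * z ^ a * ((a : ℝ) + 1) ^ b) :=
        mul_le_mul hBc h3 (Nat.cast_nonneg _) hz0.le
      have h6 : (B.card : ℝ) * ((XCn.T B (a + 1) b U' (U / z)).card : ℝ) ≤
          z * (U / z * z ^ (a + 1) * (((a + 1 : ℕ) : ℝ) + 1) ^ b) :=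
        mul_le_mul hBc h4 (Nat.cast_nonneg _) hz0.le
      have h7 : z * (U / z * z ^ (a + 1) * (((a + 1 : ℕ) : ℝ) + 1) ^ b) = U * z ^ (a + 1) * (((a + 1 : ℕ) : ℝ) + 1) ^ b := by
        field_simp
      have h8 : ((a : ℝ) + 1) ^ b ≤ (((a + 1 : ℕ) : ℝ) + 1) ^ b := by
        apply pow_le_pow_left₀ (by positivity)
        push_cast
        linarith
      have h9 : ((a : ℝ) + 1) * (z * (U * z ^ a * ((a : ℝ) + 1) ^ b)) ≤
          ((a : ℝ) + 1) * (U * z ^ (a + 1) * (((a + 1 : ℕ) : ℝ) + 1) ^ b) := by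
        apply mul_le_mul_of_nonneg_left _ (by positivity)
        calc z * (U * z ^ a * ((a : ℝ) + 1) ^ b) = U * z ^ (a + 1) * ((a : ℝ) + 1) ^ b := by ring
          _ ≤ U * z ^ (a + 1) * (((a + 1 : ℕ) : ℝ) + 1) ^ b := mul_le_mul_of_nonneg_left h8 (by positivity)
      have h10 := mul_le_mul_of_nonneg_left h5 (by positivity : (0 : ℝ) ≤ (a : ℝ) + 1)
      show ((XCn.T B (a + 1) (b + 1) U' U).card : ℝ) ≤ U * z ^ (a + 1) * (((a + 1 : ℕ) : ℝ) + 1) ^ (b + 1)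
      calc ((XCn.T B (a + 1) (b + 1) U' U).card : ℝ)
          ≤ ((a : ℝ) + 1) * (U * z ^ (a + 1) * (((a + 1 : ℕ) : ℝ) + 1) ^ b) + U * z ^ (a + 1) * (((a + 1 : ℕ) : ℝ) + 1) ^ b := by
            linarith
        _ = U * z ^ (a + 1) * (((a + 1 : ℕ) : ℝ) + 1) ^ (b + 1) := by
            push_cast
            ring

end Pool.Agent.Work.MP_a8fbd7_nt.PAR.MR
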