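import Pool.Agent.Work.MP_a8fbd7_nt.PAR.MR.StmtsB

set_option autoImplicit false

/-! Item DS (helper70): discretisation. -/

open MeasureTheory Set Filter Topology

noncomputable section

namespace Pool.Agent.Work.MP_a8fbd7_nt.PAR.MR

open Pool.Agent.Work.MP_56b8f5_nt.UC (Dp Sep)

namespace XDS

/-- the part of `U` in `[k, k + 1)` -/
def Uk (U : Set ℝ) (k : ℤ) : Set ℝ := U ∩ Ico (k : ℝ) (k + 1)

lemma choose_pt (F : ℝ → ℝ) (U : Set ℝ) (a b : ℝ) (hF : Continuous F) (h0 : ∀ t, 0 ≤ F t)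
    (hU : U ⊆ Icc a b) (V : Set ℝ) (hV : V ⊆ U) (hne : V.Nonempty) :
    ∃ τ ∈ V, ∀ t ∈ V, F t ≤ 2 * F τ := by
  have hbdd : BddAbove (F '' V) := by
    have h1 : BddAbove (F '' Icc a b) := (isCompact_Icc.image hF).bddAbove
    exact h1.mono (image_mono (hV.trans hU))
  obtain ⟨x, hx⟩ := hne
  have hne' : (F '' V).Nonempty := ⟨F x, x, hx, rfl⟩
  have hle : ∀ t ∈ V, F t ≤ sSup (F '' V) := fun t ht => le_csSup hbdd ⟨t, ht, rfl⟩
  rcases le_or_gt (sSup (F '' V)) 0 with hs | hs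
  · exact ⟨x, hx, fun t ht => by
      have h1 := hle t ht
      have h2 := h0 x
      linarith⟩
  · have h1 : sSup (F '' V) / 2 < sSup (F '' V) := by linarith
    obtain ⟨_, ⟨τ, hτ, rfl⟩, hlt⟩ := exists_lt_of_lt_csSup hne' h1
    exact ⟨τ, hτ, fun t ht => by
      have h1 := hle t ht
      linarith⟩

/-- a class of parity -/
lemma parity (F : ℝ → ℝ) (U : Set ℝ) (B : ℝ)
    (hB : ∀ W : Finset ℝ, Sep W → (∀ t ∈ W, t ∈ U) → ∑ t ∈ W, F t ≤ B) (τ : ℤ → ℝ)
    (S : Finset ℤ) (hτ : ∀ k ∈ S, τ k ∈ Uk U k)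
    (hS : ∀ k ∈ S, ∀ k' ∈ S, k < k' → k + 2 ≤ k') : ∑ k ∈ S, F (τ k) ≤ B := by
  have hlt : ∀ k ∈ S, ∀ k' ∈ S, k < k' → τ k + 1 ≤ τ k' := by
    intro k hk k' hk' h
    have h1 := (hτ k hk).2.2
    have h2 := (hτ k' hk').2.1
    have h3 : ((k + 2 : ℤ) : ℝ) ≤ (k' : ℝ) := by exact_mod_cast hS k hk k' hk' h
    push_cast at h3
    linarith
  have hinj : Set.InjOn τ (S : Set ℤ) := by
    intro k hk k' hk' h
    rcases lt_trichotomy k k' with h1 | h1 | h1
    · have := hlt k hk k' hk' h1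
      linarith
    · exact h1
    · have := hlt k' hk' k hk h1
      linarith
  classical
  rw [← Finset.sum_image (f := F) (g := τ) fun x hx y hy h => hinj hx hy h]
  refine hB _ ?_ ?_
  · intro s hs t ht hst
    obtain ⟨k, hk, rfl⟩ := Finset.mem_image.1 hs
    obtain ⟨k', hk', rfl⟩ := Finset.mem_image.1 ht
    rcases lt_trichotomy k k' with h1 | h1 | h1
    · have := hlt k hk k' hk' h1
      rw [abs_sub_comm]
      exact le_trans (by linarith) (le_abs_self _)
    · exact absurd (by rw [h1]) hst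
    · have := hlt k' hk' k hk h1
      exact le_trans (by linarith) (le_abs_self _)
  · intro t ht
    obtain ⟨k, hk, rfl⟩ := Finset.mem_image.1 ht
    exact (hτ k hk).1

end XDS

open XDS in
/-- **DS** -/
theorem iDS : StDS := by
  intro F U a b B hF h0 hUm hU hB
  classical
  have hex : ∀ k : ℤ, ∃ τ : ℝ, (Uk U k).Nonempty → τ ∈ Uk U k ∧ ∀ t ∈ Uk U k, F t ≤ 2 * F τ := by
    intro k
    by_cases hne : (Uk U k).Nonempty
    · obtain ⟨τ, h1, h2⟩ := choose_pt F U a b hF h0 hU (Uk U k) inter_subset_left hne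
      exact ⟨τ, fun _ => ⟨h1, h2⟩⟩
    · exact ⟨0, fun h => absurd h hne⟩
  choose τ hτ using hex
  set K : Finset ℤ := Finset.Icc ⌊a⌋ ⌊b⌋ with hK
  set S : Finset ℤ := K.filter fun k => (Uk U k).Nonempty with hS
  have hcov : U = ⋃ k ∈ S, Uk U k := by
    ext t
    simp only [mem_iUnion, exists_prop]
    constructor
    · intro ht
      have h1 : t ∈ Uk U ⌊t⌋ := ⟨ht, Int.floor_le t, Int.lt_floor_add_one t⟩
      refine ⟨⌊t⌋, Finset.mem_filter.2 ⟨Finset.mem_Icc.2 ⟨?_, ?_⟩, ⟨t, h1⟩⟩, h1⟩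
      · exact Int.floor_le_floor (hU ht).1
      · exact Int.floor_le_floor (hU ht).2
    · rintro ⟨k, _, hk⟩
      exact hk.1
  have hint : IntegrableOn F U := (hF.continuousOn.integrableOn_Icc).mono_set hU
  have hm : ∀ k ∈ S, MeasurableSet (Uk U k) := fun k _ => hUm.inter measurableSet_Ico
  have hd : (S : Set ℤ).Pairwise (Function.onFun Disjoint fun k => Uk U k) := by
    intro k _ k' _ hkk
    rw [Function.onFun, Set.disjoint_left]
    rintro t ⟨_, h1, h2⟩ ⟨_, h3, h4⟩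
    apply hkk
    have e1 : ⌊t⌋ = k := Int.floor_eq_iff.2 ⟨h1, h2⟩
    have e2 : ⌊t⌋ = k' := Int.floor_eq_iff.2 ⟨h3, h4⟩
    rw [← e1, e2]
  have hsum : ∫ t in U, F t = ∑ k ∈ S, ∫ t in Uk U k, F t := by
    conv_lhs => rw [hcov]
    exact integral_biUnion_finset S hm hd fun k _ => hint.mono_set inter_subset_left
  have hone : ∀ k ∈ S, ∫ t in Uk U k, F t ≤ 2 * F (τ k) := by
    intro k hk
    obtain ⟨h1, h2⟩ := hτ k (Finset.mem_filter.1 hk).2
    have hvol : volume (Uk U k) ≤ volume (Ico (k : ℝ) (k + 1)) := measure_mono inter_subset_right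
    rw [Real.volume_Ico, add_sub_cancel_left, ENNReal.ofReal_one] at hvol
    have h3 := norm_setIntegral_le_of_norm_le_const (μ := volume) (s := Uk U k) (f := F)
      (C := 2 * F (τ k)) (lt_of_le_of_lt hvol ENNReal.one_lt_top) fun t ht => by
        rw [Real.norm_of_nonneg (h0 t)]
        exact h2 t ht
    have h4 : volume.real (Uk U k) ≤ 1 := by
      rw [Measure.real]
      exact ENNReal.toReal_le_of_le_ofReal zero_le_one (by rw [ENNReal.ofReal_one]; exact hvol)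
    have h5 : 0 ≤ 2 * F (τ k) := by have := h0 (τ k); linarith
    calc ∫ t in Uk U k, F t ≤ ‖∫ t in Uk U k, F t‖ := le_abs_self _
      _ ≤ 2 * F (τ k) * volume.real (Uk U k) := h3
      _ ≤ 2 * F (τ k) * 1 := mul_le_mul_of_nonneg_left h4 h5
      _ = 2 * F (τ k) := mul_one _
  have heven := parity F U B hB τ (S.filter fun k => k % 2 = 0)
    (fun k hk => (hτ k (Finset.mem_filter.1 (Finset.mem_filter.1 hk).1).2).1)
    (fun k hk k' hk' h => by
      have h1 := (Finset.mem_filter.1 hk).2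
      have h2 := (Finset.mem_filter.1 hk').2
      omega)
  have hodd := parity F U B hB τ (S.filter fun k => ¬ k % 2 = 0)
    (fun k hk => (hτ k (Finset.mem_filter.1 (Finset.mem_filter.1 hk).1).2).1)
    (fun k hk k' hk' h => by
      have h1 := (Finset.mem_filter.1 hk).2
      have h2 := (Finset.mem_filter.1 hk').2
      omega)
  have hsplit := Finset.sum_filter_add_sum_filter_not S (fun k => k % 2 = 0) fun k => F (τ k)
  calc ∫ t in U, F t = ∑ k ∈ S, ∫ t in Uk U k, F t := hsum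
    _ ≤ ∑ k ∈ S, 2 * F (τ k) := Finset.sum_le_sum hone
    _ = 2 * ∑ k ∈ S, F (τ k) := by rw [Finset.mul_sum]
    _ ≤ 4 * B := by linarith

end Pool.Agent.Work.MP_a8fbd7_nt.PAR.MR
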