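import Pool.Agent.Work.MP_a8fbd7_nt.PAR.MR.StmtsA

/-!
# MP_a8fbd7_nt, parity, block MR: item Dc (mean square of the error of the decomposition)
-/

open MeasureTheory Set

noncomputable section

namespace Pool.Agent.Work.MP_a8fbd7_nt.PAR.MR

namespace XDc

theorem edge {CE : ℝ} (hCE : ∀ (Y : ℝ) (H : ℕ) (S : Finset ℕ), 1 ≤ Y → 1 ≤ H → (H : ℝ) ^ 2 ≤ Y →
    (∀ p ∈ S, p.Prime ∧ (p : ℝ) ^ 4 ≤ Y) →
    ∑ n ∈ Finset.Ioc ⌊Y⌋₊ ⌊Y * Real.exp (1 / H)⌋₊, (1 + om S n) ^ 2 ≤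
      CE * (Y / H) * (1 + Wt S) ^ 2) (hCE1 : 1 ≤ CE)
    (Y : ℝ) (H : ℕ) (S : Finset ℕ) (hY : 1 ≤ Y) (hH : 1 ≤ H) (hHY : (H : ℝ) ^ 2 ≤ Y)
    (hS : ∀ p ∈ S, p.Prime ∧ (p : ℝ) ^ 4 ≤ Y) (hW : 1 ≤ Wt S) (d : ℕ → ℂ)
    (hd : ∀ n : ℕ, ‖d n‖ ≤ 1 + om S n / Wt S) :
    ∑ n ∈ Finset.Ioc ⌊Y⌋₊ ⌊Y * Real.exp (1 / H)⌋₊, ‖d n‖ ^ 2 ≤ 10 * CE * (Y / H) := by
  have hWp : 0 < Wt S := by linarith
  have h1 := hCE Y H S hY hH hHY hS
  have h2 := hCE Y H ∅ hY hH hHY (by simp)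
  have h3 : ∀ n : ℕ, (1 + om ∅ n) ^ 2 = 1 := by
    intro n
    simp [om]
  have h4 : Wt ∅ = 0 := by simp [Wt]
  rw [h4] at h2
  simp only [h3, add_zero, one_pow, mul_one] at h2
  have hYH : 0 ≤ Y / H := by positivity
  have h5 : ∀ n ∈ Finset.Ioc ⌊Y⌋₊ ⌊Y * Real.exp (1 / H)⌋₊,
      ‖d n‖ ^ 2 ≤ 2 * 1 + 2 / Wt S ^ 2 * (1 + om S n) ^ 2 := by
    intro n _
    have ho : 0 ≤ om S n := by unfold om; positivity
    have h6 : ‖d n‖ ^ 2 ≤ (1 + om S n / Wt S) ^ 2 := pow_le_pow_left₀ (norm_nonneg _) (hd n) 2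
    have h7 : (1 + om S n / Wt S) ^ 2 ≤ 2 + 2 * (om S n / Wt S) ^ 2 := by
      nlinarith [sq_nonneg (1 - om S n / Wt S)]
    have h8 : (om S n / Wt S) ^ 2 ≤ (1 + om S n) ^ 2 / Wt S ^ 2 := by
      rw [div_pow]
      apply div_le_div_of_nonneg_right _ (by positivity)
      nlinarith
    calc ‖d n‖ ^ 2 ≤ 2 + 2 * (om S n / Wt S) ^ 2 := h6.trans h7
      _ ≤ 2 + 2 * ((1 + om S n) ^ 2 / Wt S ^ 2) := by linarith
      _ = 2 * 1 + 2 / Wt S ^ 2 * (1 + om S n) ^ 2 := by ring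
  refine (Finset.sum_le_sum h5).trans ?_
  rw [Finset.sum_add_distrib, ← Finset.mul_sum, ← Finset.mul_sum]
  have h9 : 2 / Wt S ^ 2 * ∑ n ∈ Finset.Ioc ⌊Y⌋₊ ⌊Y * Real.exp (1 / H)⌋₊, (1 + om S n) ^ 2 ≤
      2 / Wt S ^ 2 * (CE * (Y / H) * (1 + Wt S) ^ 2) :=
    mul_le_mul_of_nonneg_left h1 (by positivity)
  have h10 : 2 / Wt S ^ 2 * (CE * (Y / H) * (1 + Wt S) ^ 2) ≤ 8 * (CE * (Y / H)) := by
    have h11 : (1 + Wt S) ^ 2 ≤ 4 * Wt S ^ 2 := by nlinarith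
    calc 2 / Wt S ^ 2 * (CE * (Y / H) * (1 + Wt S) ^ 2)
        ≤ 2 / Wt S ^ 2 * (CE * (Y / H) * (4 * Wt S ^ 2)) := by
          apply mul_le_mul_of_nonneg_left _ (by positivity)
          exact mul_le_mul_of_nonneg_left h11 (by positivity)
      _ = 8 * (CE * (Y / H)) := by
          field_simp
          ring
  have h12 : ∑ n ∈ Finset.Ioc ⌊Y⌋₊ ⌊Y * Real.exp (1 / H)⌋₊, (1 : ℝ) ≤ CE * (Y / H) := h2
  linarith

end XDc

open XDc in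
theorem iDc (h1 : StTK) (h2 : StEd) (h3 : StMV) (h4 : StDcI) : StDc := by
  obtain ⟨CT, hCT1, hCT⟩ := h1
  obtain ⟨CE, hCE1, hCE⟩ := h2
  obtain ⟨C1, hC11, hC1⟩ := h3
  refine ⟨7 * C1 * (30 * CE + 2 * CT), ?_, ?_⟩
  · nlinarith
  intro X T H v0 v1 hX hT hTX hH hHX hv hexp hW
  have hWp : 0 < Wt (PS H v0 v1) := by linarith
  obtain ⟨d, hd1, hd2, hd3⟩ := h4 X H v0 v1 hX hH hv hWp
  have hHR : (1 : ℝ) ≤ H := by exact_mod_cast hH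
  have hS : ∀ p ∈ PS H v0 v1, p.Prime ∧ (p : ℝ) ^ 4 ≤ X := by
    intro p hp
    unfold PS at hp
    rw [Finset.mem_filter, Finset.mem_Icc] at hp
    refine ⟨hp.2.1, ?_⟩
    have h5 : (p : ℝ) ≤ Real.exp ((v1 : ℝ) / H) :=
      (Nat.le_floor_iff (Real.exp_pos _).le).1 hp.1.2
    calc (p : ℝ) ^ 4 ≤ Real.exp ((v1 : ℝ) / H) ^ 4 := pow_le_pow_left₀ (by positivity) h5 4
      _ = Real.exp (4 * ((v1 : ℝ) / H)) := by
          rw [← Real.exp_nat_mul]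
          norm_num
      _ ≤ X := hexp
  have hE3 : Real.exp (1 / H) ≤ 3 := by
    have h5 : (1 : ℝ) / H ≤ 1 := by
      rw [div_le_one (by linarith)]
      exact hHR
    calc Real.exp (1 / H) ≤ Real.exp 1 := Real.exp_le_exp.2 h5
      _ ≤ 3 := by linarith [Real.exp_one_lt_d9]
  have hfun : (fun t : ℝ => ‖Aa X t + (1 / Wt (PS H v0 v1) : ℝ) * Bs X H v0 v1 t‖ ^ 2) =
      fun t => ‖Sp (Finset.Ioc ⌊X⌋₊ ⌊2 * X * Real.exp (1 / H)⌋₊) d t‖ ^ 2 := by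
    funext t
    rw [hd1 t]
  rw [hfun]
  have hmem : ∀ n ∈ Finset.Ioc ⌊X⌋₊ ⌊2 * X * Real.exp (1 / H)⌋₊,
      X < n ∧ (n : ℝ) ≤ 2 * X * Real.exp (1 / H) := by
    intro n hn
    rw [Finset.mem_Ioc] at hn
    exact ⟨(Nat.floor_lt (by linarith)).1 hn.1, (Nat.le_floor_iff (by positivity)).1 hn.2⟩
  have hI := hC1 (Finset.Ioc ⌊X⌋₊ ⌊2 * X * Real.exp (1 / H)⌋₊) d T (6 * X) hT (by linarith)
    (by
      intro n hn
      obtain ⟨h5, h6⟩ := hmem n hn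
      constructor
      · have h7 : (0 : ℝ) < n := by linarith
        exact_mod_cast h7
      · calc (n : ℝ) ≤ 2 * X * Real.exp (1 / H) := h6
          _ ≤ 2 * X * 3 := by
              apply mul_le_mul_of_nonneg_left hE3 (by linarith)
          _ = 6 * X := by ring)
  refine hI.trans ?_
  have hA1 := edge hCE hCE1 X H (PS H v0 v1) hX hH hHX hS hW d hd2
  have hA3 := edge hCE hCE1 (2 * X) H (PS H v0 v1) (by linarith) hH (by linarith)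
    (fun p hp => ⟨(hS p hp).1, by linarith [(hS p hp).2]⟩) hW d hd2
  have hA2 : ∑ n ∈ (IX X).filter (fun n : ℕ => X * Real.exp (1 / H) < n), ‖d n‖ ^ 2 ≤
      2 * CT * (X / Wt (PS H v0 v1)) := by
    have h5 : ∀ n ∈ (IX X).filter (fun n : ℕ => X * Real.exp (1 / H) < n), ‖d n‖ ^ 2 ≤
        1 / Wt (PS H v0 v1) ^ 2 * (om (PS H v0 v1) n - Wt (PS H v0 v1)) ^ 2 := by
      intro n hn
      rw [Finset.mem_filter] at hn
      have h6 : (n : ℝ) ≤ 2 * X := by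
        have h7 := (Finset.mem_Ioc.1 hn.1).2
        exact (Nat.le_floor_iff (by linarith)).1 h7
      have h7 := hd3 n hn.2 h6
      calc ‖d n‖ ^ 2 ≤ (|om (PS H v0 v1) n - Wt (PS H v0 v1)| / Wt (PS H v0 v1)) ^ 2 :=
            pow_le_pow_left₀ (norm_nonneg _) h7 2
        _ = 1 / Wt (PS H v0 v1) ^ 2 * (om (PS H v0 v1) n - Wt (PS H v0 v1)) ^ 2 := by
            rw [div_pow, sq_abs]
            ring
    refine (Finset.sum_le_sum h5).trans ?_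
    rw [← Finset.mul_sum]
    have h6 : ∑ n ∈ (IX X).filter (fun n : ℕ => X * Real.exp (1 / H) < n),
        (om (PS H v0 v1) n - Wt (PS H v0 v1)) ^ 2 ≤
        ∑ n ∈ IX X, (om (PS H v0 v1) n - Wt (PS H v0 v1)) ^ 2 :=
      Finset.sum_le_sum_of_subset_of_nonneg (Finset.filter_subset _ _)
        (fun i _ _ => sq_nonneg _)
    have h7 := h6.trans (hCT X (PS H v0 v1) hX hS)
    calc 1 / Wt (PS H v0 v1) ^ 2 * ∑ n ∈ (IX X).filter (fun n : ℕ => X * Real.exp (1 / H) < n),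
          (om (PS H v0 v1) n - Wt (PS H v0 v1)) ^ 2
        ≤ 1 / Wt (PS H v0 v1) ^ 2 * (CT * X * (Wt (PS H v0 v1) + 1)) :=
          mul_le_mul_of_nonneg_left h7 (by positivity)
      _ ≤ 1 / Wt (PS H v0 v1) ^ 2 * (CT * X * (2 * Wt (PS H v0 v1))) := by
          apply mul_le_mul_of_nonneg_left _ (by positivity)
          apply mul_le_mul_of_nonneg_left _ (by positivity)
          linarith
      _ = 2 * CT * (X / Wt (PS H v0 v1)) := by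
          field_simp
  have hsum : ∑ n ∈ Finset.Ioc ⌊X⌋₊ ⌊2 * X * Real.exp (1 / H)⌋₊, ‖d n‖ ^ 2 ≤
      10 * CE * (X / H) + 2 * CT * (X / Wt (PS H v0 v1)) + 10 * CE * (2 * X / H) := by
    have hsub : Finset.Ioc ⌊X⌋₊ ⌊2 * X * Real.exp (1 / H)⌋₊ ⊆
        Finset.Ioc ⌊X⌋₊ ⌊X * Real.exp (1 / H)⌋₊ ∪
          (IX X).filter (fun n : ℕ => X * Real.exp (1 / H) < n) ∪
          Finset.Ioc ⌊2 * X⌋₊ ⌊2 * X * Real.exp (1 / H)⌋₊ := by
      intro n hn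
      obtain ⟨h5, h6⟩ := hmem n hn
      have hn' := Finset.mem_Ioc.1 hn
      rw [Finset.mem_union, Finset.mem_union]
      by_cases h7 : (n : ℝ) ≤ X * Real.exp (1 / H)
      · left; left
        exact Finset.mem_Ioc.2 ⟨hn'.1, Nat.le_floor h7⟩
      · push Not at h7
        by_cases h8 : (n : ℝ) ≤ 2 * X
        · left; right
          refine Finset.mem_filter.2 ⟨?_, h7⟩
          exact Finset.mem_Ioc.2 ⟨hn'.1, Nat.le_floor h8⟩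
        · push Not at h8
          right
          exact Finset.mem_Ioc.2 ⟨(Nat.floor_lt (by linarith)).2 h8, hn'.2⟩
    calc ∑ n ∈ Finset.Ioc ⌊X⌋₊ ⌊2 * X * Real.exp (1 / H)⌋₊, ‖d n‖ ^ 2
        ≤ ∑ n ∈ Finset.Ioc ⌊X⌋₊ ⌊X * Real.exp (1 / H)⌋₊ ∪
          (IX X).filter (fun n : ℕ => X * Real.exp (1 / H) < n) ∪
          Finset.Ioc ⌊2 * X⌋₊ ⌊2 * X * Real.exp (1 / H)⌋₊, ‖d n‖ ^ 2 :=
          Finset.sum_le_sum_of_subset_of_nonneg hsub (fun i _ _ => sq_nonneg _)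
      _ ≤ ∑ n ∈ Finset.Ioc ⌊X⌋₊ ⌊X * Real.exp (1 / H)⌋₊ ∪
          (IX X).filter (fun n : ℕ => X * Real.exp (1 / H) < n), ‖d n‖ ^ 2 +
          ∑ n ∈ Finset.Ioc ⌊2 * X⌋₊ ⌊2 * X * Real.exp (1 / H)⌋₊, ‖d n‖ ^ 2 := by
          rw [← Finset.sum_union_inter]
          have : 0 ≤ ∑ i ∈ (Finset.Ioc ⌊X⌋₊ ⌊X * Real.exp (1 / H)⌋₊ ∪
            (IX X).filter (fun n : ℕ => X * Real.exp (1 / H) < n)) ∩
            Finset.Ioc ⌊2 * X⌋₊ ⌊2 * X * Real.exp (1 / H)⌋₊, ‖d i‖ ^ 2 :=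
            Finset.sum_nonneg (fun i _ => sq_nonneg _)
          linarith
      _ ≤ (∑ n ∈ Finset.Ioc ⌊X⌋₊ ⌊X * Real.exp (1 / H)⌋₊, ‖d n‖ ^ 2 +
          ∑ n ∈ (IX X).filter (fun n : ℕ => X * Real.exp (1 / H) < n), ‖d n‖ ^ 2) +
          ∑ n ∈ Finset.Ioc ⌊2 * X⌋₊ ⌊2 * X * Real.exp (1 / H)⌋₊, ‖d n‖ ^ 2 := by
          have h9 := Finset.sum_union_inter (s₁ := Finset.Ioc ⌊X⌋₊ ⌊X * Real.exp (1 / H)⌋₊)
            (s₂ := (IX X).filter (fun n : ℕ => X * Real.exp (1 / H) < n))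
            (f := fun n => ‖d n‖ ^ 2)
          have : 0 ≤ ∑ i ∈ Finset.Ioc ⌊X⌋₊ ⌊X * Real.exp (1 / H)⌋₊ ∩
            (IX X).filter (fun n : ℕ => X * Real.exp (1 / H) < n), ‖d i‖ ^ 2 :=
            Finset.sum_nonneg (fun i _ => sq_nonneg _)
          linarith
      _ ≤ _ := by linarith
  have hW0 : 0 ≤ X / Wt (PS H v0 v1) := by positivity
  have hH0 : 0 ≤ X / H := by positivity
  have hbound : 10 * CE * (X / H) + 2 * CT * (X / Wt (PS H v0 v1)) + 10 * CE * (2 * X / H) ≤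
      (30 * CE + 2 * CT) * (X * (1 / Wt (PS H v0 v1) + 1 / H)) := by
    have h5 : X * (1 / Wt (PS H v0 v1) + 1 / H) = X / Wt (PS H v0 v1) + X / H := by ring
    have h6 : 2 * X / (H : ℝ) = 2 * (X / H) := by ring
    rw [h5, h6]
    have h7 : 0 ≤ CE * (X / Wt (PS H v0 v1)) := by positivity
    have h8 : 0 ≤ CT * (X / H) := by positivity
    nlinarith
  have hTT : T + 6 * X ≤ 7 * X := by linarith
  have hfin : 0 ≤ (30 * CE + 2 * CT) * (X * (1 / Wt (PS H v0 v1) + 1 / H)) := by positivity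
  calc C1 * (T + 6 * X) * ∑ n ∈ Finset.Ioc ⌊X⌋₊ ⌊2 * X * Real.exp (1 / H)⌋₊, ‖d n‖ ^ 2
      ≤ C1 * (7 * X) * ((30 * CE + 2 * CT) * (X * (1 / Wt (PS H v0 v1) + 1 / H))) := by
        apply mul_le_mul
        · exact mul_le_mul_of_nonneg_left hTT (by linarith)
        · exact hsum.trans hbound
        · exact Finset.sum_nonneg (fun i _ => sq_nonneg _)
        · positivity
    _ = 7 * C1 * (30 * CE + 2 * CT) * X ^ 2 * (1 / Wt (PS H v0 v1) + 1 / H) := by ring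

end Pool.Agent.Work.MP_a8fbd7_nt.PAR.MR
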