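import Pool.Agent.Work.MP_a8fbd7_nt.PAR.MR.StmtsA

/-!
# MP_a8fbd7_nt, parity, block MR, item DcI: the decomposition, identity
-/

open MeasureTheory Set

noncomputable section

namespace Pool.Agent.Work.MP_a8fbd7_nt.PAR.MR

namespace XDcI

lemma mem_rg {H v p : ℕ} : p ∈ rg H v ↔ p.Prime ∧ Real.exp ((v : ℝ) / H) < p ∧
    (p : ℝ) ≤ Real.exp (((v : ℝ) + 1) / H) := by
  unfold rg
  rw [Finset.mem_filter, Finset.mem_Icc, Nat.le_floor_iff (Real.exp_pos _).le]
  constructor
  · rintro ⟨⟨_, h2⟩, h3, h4⟩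
    exact ⟨h3, h4, h2⟩
  · rintro ⟨h1, h2, h3⟩
    exact ⟨⟨h1.one_lt.le, h3⟩, h1, h2⟩

lemma mem_PS {H u v p : ℕ} : p ∈ PS H u v ↔ p.Prime ∧ Real.exp ((u : ℝ) / H) < p ∧
    (p : ℝ) ≤ Real.exp ((v : ℝ) / H) := by
  unfold PS
  rw [Finset.mem_filter, Finset.mem_Icc, Nat.le_floor_iff (Real.exp_pos _).le]
  constructor
  · rintro ⟨⟨_, h2⟩, h3, h4⟩
    exact ⟨h3, h4, h2⟩
  · rintro ⟨h1, h2, h3⟩
    exact ⟨⟨h1.one_lt.le, h3⟩, h1, h2⟩

lemma sum_PS (H u v : ℕ) (huv : u ≤ v) (f : ℕ → ℝ) :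
    ∑ w ∈ Finset.Ico u v, ∑ p ∈ rg H w, f p = ∑ p ∈ PS H u v, f p := by
  classical
  induction v, huv using Nat.le_induction with
  | base =>
    have h1 : PS H u u = ∅ := by
      rw [Finset.eq_empty_iff_forall_notMem]
      intro p hp
      rw [mem_PS] at hp
      linarith [hp.2.1, hp.2.2]
    rw [h1, Finset.Ico_self, Finset.sum_empty, Finset.sum_empty]
  | succ n hn ih =>
    rw [Finset.sum_Ico_succ_top hn, ih]
    have h1 : PS H u (n + 1) = PS H u n ∪ rg H n := by
      ext p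
      rw [Finset.mem_union, mem_PS, mem_PS, mem_rg]
      have h2 : Real.exp ((u : ℝ) / H) ≤ Real.exp ((n : ℝ) / H) :=
        Real.exp_le_exp.2 (div_le_div_of_nonneg_right (by exact_mod_cast hn)
          (Nat.cast_nonneg _))
      have h3 : Real.exp ((n : ℝ) / H) ≤ Real.exp (((n : ℝ) + 1) / H) :=
        Real.exp_le_exp.2 (div_le_div_of_nonneg_right (by linarith) (Nat.cast_nonneg _))
      push_cast
      constructor
      · rintro ⟨a1, a2, a3⟩
        rcases le_or_gt (p : ℝ) (Real.exp ((n : ℝ) / H)) with h4 | h4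
        · exact Or.inl ⟨a1, a2, h4⟩
        · exact Or.inr ⟨a1, h4, a3⟩
      · rintro (⟨a1, a2, a3⟩ | ⟨a1, a2, a3⟩)
        · exact ⟨a1, a2, a3.trans h3⟩
        · exact ⟨a1, lt_of_le_of_lt h2 a2, a3⟩
    have h2 : Disjoint (PS H u n) (rg H n) := by
      rw [Finset.disjoint_left]
      intro p hp hp'
      rw [mem_PS] at hp
      rw [mem_rg] at hp'
      linarith [hp.2.2, hp'.2.1]
    rw [h1, Finset.sum_union h2]

lemma om_eq (S : Finset ℕ) (n : ℕ) : om S n = ∑ p ∈ S, if p ∣ n then (1 : ℝ) else 0 := by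
  unfold om
  rw [Finset.sum_boole]

lemma lam_mul_prime {p m : ℕ} (hp : p.Prime) : lam (p * m) = - lam m := by
  unfold lam
  rw [ArithmeticFunction.liouville_apply_mul, ArithmeticFunction.liouville_apply hp.ne_zero,
    ArithmeticFunction.cardFactors_apply_prime hp]
  push_cast
  ring

lemma lam_abs (n : ℕ) : |lam n| ≤ 1 := by
  unfold lam
  rcases Nat.eq_zero_or_pos n with h | h
  · rw [h]
    simp
  · rw [ArithmeticFunction.liouville_apply (by omega)]
    rcases neg_one_pow_eq_or ℤ (ArithmeticFunction.cardFactors n) with h1 | h1 <;> rw [h1] <;> simp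

/-- the window of `m` -/
def Mw (X : ℝ) (H v : ℕ) : Finset ℕ :=
  Finset.Ioc ⌊X * Real.exp (-((v : ℝ) / H))⌋₊ ⌊2 * X * Real.exp (-((v : ℝ) / H))⌋₊

lemma mem_Mw {X : ℝ} (hX : 1 ≤ X) {H v m : ℕ} : m ∈ Mw X H v ↔
    X * Real.exp (-((v : ℝ) / H)) < m ∧ (m : ℝ) ≤ 2 * X * Real.exp (-((v : ℝ) / H)) := by
  unfold Mw
  rw [Finset.mem_Ioc, Nat.floor_lt (by positivity), Nat.le_floor_iff (by positivity)]

/-- number of representations -/
def cnt (X : ℝ) (H v0 v1 n : ℕ) : ℝ :=
  ∑ v ∈ Finset.Ico v0 v1, ∑ p ∈ rg H v, ∑ m ∈ Mw X H v, if p * m = n then (1 : ℝ) else 0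

lemma inner_le {X : ℝ} {H v p n : ℕ} (hp : p.Prime) :
    ∑ m ∈ Mw X H v, (if p * m = n then (1 : ℝ) else 0) ≤ if p ∣ n then 1 else 0 := by
  split_ifs with h
  · rw [Finset.sum_boole]
    have h1 : ((Mw X H v).filter fun m => p * m = n).card ≤ 1 := by
      rw [Finset.card_le_one]
      intro a ha b hb
      rw [Finset.mem_filter] at ha hb
      exact Nat.eq_of_mul_eq_mul_left hp.pos (ha.2.trans hb.2.symm)
    exact_mod_cast h1
  · refine le_of_eq (Finset.sum_eq_zero fun m _ => ?_)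
    rw [if_neg]
    rintro rfl
    exact h (Dvd.intro _ rfl)

lemma cnt_nonneg (X : ℝ) (H v0 v1 n : ℕ) : 0 ≤ cnt X H v0 v1 n :=
  Finset.sum_nonneg fun _ _ => Finset.sum_nonneg fun _ _ => Finset.sum_nonneg fun _ _ => by
    split_ifs <;> norm_num

lemma cnt_le {X : ℝ} {H v0 v1 n : ℕ} (hv : v0 ≤ v1) : cnt X H v0 v1 n ≤ om (PS H v0 v1) n := by
  rw [om_eq, ← sum_PS H v0 v1 hv]
  exact Finset.sum_le_sum fun v _ => Finset.sum_le_sum fun p hp => inner_le (mem_rg.1 hp).1

lemma cnt_eq {X : ℝ} (hX : 1 ≤ X) {H v0 v1 n : ℕ} (hv : v0 ≤ v1)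
    (h1 : X * Real.exp (1 / H) < n) (h2 : (n : ℝ) ≤ 2 * X) :
    cnt X H v0 v1 n = om (PS H v0 v1) n := by
  refine le_antisymm (cnt_le hv) ?_
  rw [om_eq, ← sum_PS H v0 v1 hv]
  refine Finset.sum_le_sum fun v _ => Finset.sum_le_sum fun p hp => ?_
  rw [mem_rg] at hp
  obtain ⟨hpp, hp1, hp2⟩ := hp
  split_ifs with h
  · obtain ⟨m, rfl⟩ := h
    have hp0 : (0 : ℝ) < p := by exact_mod_cast hpp.pos
    have hm : m ∈ Mw X H v := by
      rw [mem_Mw hX]
      push_cast at h1 h2
      have e1 : Real.exp (((v : ℝ) + 1) / H) = Real.exp ((v : ℝ) / H) * Real.exp (1 / H) := by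
        rw [← Real.exp_add]
        congr 1
        ring
      have e2 : Real.exp (-((v : ℝ) / H)) * Real.exp ((v : ℝ) / H) = 1 := by
        rw [← Real.exp_add]
        simp
      have g1 := Real.exp_pos ((v : ℝ) / H)
      have g2 := Real.exp_pos (-((v : ℝ) / H))
      have g3 := Real.exp_pos (1 / (H : ℝ))
      rw [e1] at hp2
      constructor
      · by_contra hcon
        push Not at hcon
        have h3 : (p : ℝ) * m ≤ (Real.exp ((v : ℝ) / H) * Real.exp (1 / H)) *
            (X * Real.exp (-((v : ℝ) / H))) := mul_le_mul hp2 hcon (Nat.cast_nonneg _)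
            (by positivity)
        have h4 : (Real.exp ((v : ℝ) / H) * Real.exp (1 / H)) *
            (X * Real.exp (-((v : ℝ) / H))) = X * Real.exp (1 / H) := by
          calc _ = X * Real.exp (1 / H) * (Real.exp (-((v : ℝ) / H)) * Real.exp ((v : ℝ) / H)) := by
                ring
            _ = _ := by rw [e2, mul_one]
        linarith
      · have h3 : Real.exp ((v : ℝ) / H) * m ≤ 2 * X :=
          (mul_le_mul_of_nonneg_right hp1.le (Nat.cast_nonneg _)).trans h2
        calc (m : ℝ) = (Real.exp (-((v : ℝ) / H)) * Real.exp ((v : ℝ) / H)) * m := by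
              rw [e2, one_mul]
          _ = Real.exp (-((v : ℝ) / H)) * (Real.exp ((v : ℝ) / H) * m) := by ring
          _ ≤ Real.exp (-((v : ℝ) / H)) * (2 * X) := mul_le_mul_of_nonneg_left h3 g2.le
          _ = _ := by ring
    have h5 := Finset.single_le_sum (f := fun m' => if p * m' = p * m then (1 : ℝ) else 0)
      (fun i _ => by split_ifs <;> norm_num) hm
    simp only [if_true] at h5
    exact h5
  · exact Finset.sum_nonneg fun _ _ => by split_ifs <;> norm_num

lemma cpow_mul (p m : ℕ) (s : ℂ) : (p : ℂ) ^ s * (m : ℂ) ^ s = ((p * m : ℕ) : ℂ) ^ s := by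
  push_cast
  rw [Complex.natCast_mul_natCast_cpow]

end XDcI

theorem iDcI : StDcI := by
  classical
  intro X H v0 v1 hX hH hv hW
  set W := Wt (PS H v0 v1) with hWd
  have hX0 : 0 < X := by linarith
  have hexp1 : 1 ≤ Real.exp (1 / (H : ℝ)) := Real.one_le_exp (by positivity)
  set T := Finset.Ioc ⌊X⌋₊ ⌊2 * X * Real.exp (1 / H)⌋₊ with hT
  have hIXT : IX X ⊆ T := by
    intro n hn
    unfold IX at hn
    rw [Finset.mem_Ioc] at hn
    rw [hT, Finset.mem_Ioc]
    refine ⟨hn.1, hn.2.trans (Nat.floor_le_floor ?_)⟩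
    nlinarith
  refine ⟨fun n => ((lam n * ((if n ∈ IX X then 1 else 0) - XDcI.cnt X H v0 v1 n / W) : ℝ) : ℂ),
    ?_, ?_, ?_⟩
  · intro t
    have hA : Aa X t = ∑ n ∈ T, ((lam n * (if n ∈ IX X then 1 else 0) : ℝ) : ℂ) *
        (n : ℂ) ^ (-(t * Complex.I)) := by
      unfold Aa
      have h1 : ∑ n ∈ T, ((lam n * (if n ∈ IX X then 1 else 0) : ℝ) : ℂ) *
          (n : ℂ) ^ (-(t * Complex.I)) = ∑ n ∈ T, if n ∈ IX X then ((lam n : ℝ) : ℂ) *
          (n : ℂ) ^ (-(t * Complex.I)) else 0 := by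
        refine Finset.sum_congr rfl fun n _ => ?_
        by_cases h : n ∈ IX X
        · simp only [if_pos h, mul_one]
        · simp only [if_neg h, mul_zero, Complex.ofReal_zero, zero_mul]
      rw [h1, Finset.sum_ite_mem, Finset.inter_eq_right.2 hIXT]
      rfl
    have hB : Bs X H v0 v1 t = - ∑ n ∈ T, ((lam n * XDcI.cnt X H v0 v1 n : ℝ) : ℂ) *
        (n : ℂ) ^ (-(t * Complex.I)) := by
      unfold Bs
      have h1 : ∀ n ∈ T, ((lam n * XDcI.cnt X H v0 v1 n : ℝ) : ℂ) *
          (n : ℂ) ^ (-(t * Complex.I)) = ∑ v ∈ Finset.Ico v0 v1, ∑ p ∈ rg H v,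
          ∑ m ∈ XDcI.Mw X H v, if p * m = n then ((lam n : ℝ) : ℂ) *
            (n : ℂ) ^ (-(t * Complex.I)) else 0 := by
        intro n _
        unfold XDcI.cnt
        rw [Complex.ofReal_mul, Complex.ofReal_sum, Finset.mul_sum, Finset.sum_mul]
        refine Finset.sum_congr rfl fun v _ => ?_
        rw [Complex.ofReal_sum, Finset.mul_sum, Finset.sum_mul]
        refine Finset.sum_congr rfl fun p _ => ?_
        rw [Complex.ofReal_sum, Finset.mul_sum, Finset.sum_mul]
        refine Finset.sum_congr rfl fun m _ => ?_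
        split_ifs
        · rw [Complex.ofReal_one, mul_one]
        · rw [Complex.ofReal_zero, mul_zero, zero_mul]
      rw [Finset.sum_congr rfl h1, Finset.sum_comm, ← Finset.sum_neg_distrib]
      refine Finset.sum_congr rfl fun v _ => ?_
      rw [Finset.sum_comm, ← Finset.sum_neg_distrib]
      unfold Pb
      rw [Finset.sum_mul]
      refine Finset.sum_congr rfl fun p hp => ?_
      rw [Finset.sum_comm, ← Finset.sum_neg_distrib]
      unfold Mb
      rw [Finset.mul_sum]
      refine Finset.sum_congr rfl fun m hm => ?_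
      rw [XDcI.mem_rg] at hp
      obtain ⟨hpp, hp1, hp2⟩ := hp
      have hm' := (XDcI.mem_Mw hX (H := H) (v := v)).1 hm
      have hp0 : (0 : ℝ) < p := by exact_mod_cast hpp.pos
      have e1 : Real.exp (((v : ℝ) + 1) / H) = Real.exp ((v : ℝ) / H) * Real.exp (1 / H) := by
        rw [← Real.exp_add]
        congr 1
        ring
      have e2 : Real.exp (-((v : ℝ) / H)) * Real.exp ((v : ℝ) / H) = 1 := by
        rw [← Real.exp_add]
        simp
      have g1 := Real.exp_pos ((v : ℝ) / H)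
      have g2 := Real.exp_pos (-((v : ℝ) / H))
      have hmem : p * m ∈ T := by
        rw [hT, Finset.mem_Ioc, Nat.floor_lt hX0.le, Nat.le_floor_iff (by positivity)]
        push_cast
        constructor
        · calc X = Real.exp ((v : ℝ) / H) * (X * Real.exp (-((v : ℝ) / H))) := by
                calc X = X * (Real.exp (-((v : ℝ) / H)) * Real.exp ((v : ℝ) / H)) := by
                      rw [e2, mul_one]
                  _ = _ := by ring
            _ < (p : ℝ) * m := mul_lt_mul'' hp1 hm'.1 g1.le (by positivity)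
        · rw [e1] at hp2
          calc (p : ℝ) * m ≤ (Real.exp ((v : ℝ) / H) * Real.exp (1 / H)) *
                (2 * X * Real.exp (-((v : ℝ) / H))) :=
                mul_le_mul hp2 hm'.2 (Nat.cast_nonneg _) (by positivity)
            _ = 2 * X * Real.exp (1 / H) *
                (Real.exp (-((v : ℝ) / H)) * Real.exp ((v : ℝ) / H)) := by ring
            _ = _ := by rw [e2, mul_one]
      rw [Finset.sum_ite_eq, if_pos hmem, XDcI.lam_mul_prime hpp, ← XDcI.cpow_mul]
      push_cast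
      ring
    rw [hA, hB]
    unfold Sp
    rw [mul_neg, ← sub_eq_add_neg, Finset.mul_sum, ← Finset.sum_sub_distrib]
    refine Finset.sum_congr rfl fun n _ => ?_
    push_cast
    ring
  · intro n
    rw [Complex.norm_real, Real.norm_eq_abs, abs_mul]
    have h1 := XDcI.lam_abs n
    have h2 := XDcI.cnt_nonneg X H v0 v1 n
    have h3 := XDcI.cnt_le (X := X) (H := H) (n := n) hv.le
    have h4 : XDcI.cnt X H v0 v1 n / W ≤ om (PS H v0 v1) n / W :=
      div_le_div_of_nonneg_right h3 hW.le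
    have h5 : 0 ≤ XDcI.cnt X H v0 v1 n / W := div_nonneg h2 hW.le
    have h6 : |(if n ∈ IX X then (1 : ℝ) else 0) - XDcI.cnt X H v0 v1 n / W| ≤
        1 + om (PS H v0 v1) n / W := by
      rw [abs_le]
      split_ifs <;> constructor <;> linarith
    calc |lam n| * |(if n ∈ IX X then (1 : ℝ) else 0) - XDcI.cnt X H v0 v1 n / W| ≤
          1 * |(if n ∈ IX X then (1 : ℝ) else 0) - XDcI.cnt X H v0 v1 n / W| :=
          mul_le_mul_of_nonneg_right h1 (abs_nonneg _)
      _ ≤ _ := by rw [one_mul]; exact h6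
  · intro n hn1 hn2
    have hnI : n ∈ IX X := by
      unfold IX
      rw [Finset.mem_Ioc, Nat.floor_lt hX0.le, Nat.le_floor_iff (by positivity)]
      exact ⟨by nlinarith, hn2⟩
    rw [Complex.norm_real, Real.norm_eq_abs, abs_mul, if_pos hnI, XDcI.cnt_eq hX hv.le hn1 hn2]
    have h1 := XDcI.lam_abs n
    have h2 : |1 - om (PS H v0 v1) n / W| = |om (PS H v0 v1) n - W| / W := by
      rw [abs_sub_comm]
      have : om (PS H v0 v1) n / W - 1 = (om (PS H v0 v1) n - W) / W := by
        field_simp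
      rw [this, abs_div, abs_of_pos hW]
    rw [h2]
    have h3 : 0 ≤ |om (PS H v0 v1) n - W| / W := by positivity
    nlinarith

end Pool.Agent.Work.MP_a8fbd7_nt.PAR.MR
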