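import Pool.Agent.Work.MP_a8fbd7_nt.PAR.MR.StmtsA

set_option autoImplicit false

/-! Item Ed (helper70): edges. -/

open MeasureTheory Set

noncomputable section

namespace Pool.Agent.Work.MP_a8fbd7_nt.PAR.MR

namespace XEd

/-- the number of multiples -/
lemma card_mult (a b d : ℕ) (hd : 1 ≤ d) :
    (((Finset.Ioc a b).filter fun n => d ∣ n).card : ℝ) ≤ ((b : ℝ) - a) / d + 1 ∨
      (((Finset.Ioc a b).filter fun n => d ∣ n).card : ℝ) = 0 := by
  rcases lt_or_ge b a with hab | hab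
  · right
    rw [Finset.Ioc_eq_empty (by omega)]
    simp
  left
  have h1 : ((Finset.Ioc a b).filter fun n => d ∣ n).card ≤ (Finset.Ioc (a / d) (b / d)).card := by
    refine Finset.card_le_card_of_injOn (fun n => n / d) ?_ ?_
    · intro n hn
      obtain ⟨h2, m, rfl⟩ := Finset.mem_filter.1 (Finset.mem_coe.1 hn)
      rw [Finset.mem_Ioc] at h2
      simp only [Nat.mul_div_cancel_left m (by omega : 0 < d)]
      rw [Finset.mem_coe, Finset.mem_Ioc]
      exact ⟨Nat.div_lt_of_lt_mul h2.1, (Nat.le_div_iff_mul_le (by omega)).2 (by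
        rw [mul_comm]; exact h2.2)⟩
    · intro n hn n' hn' h
      obtain ⟨_, m, rfl⟩ := Finset.mem_filter.1 (Finset.mem_coe.1 hn)
      obtain ⟨_, m', rfl⟩ := Finset.mem_filter.1 (Finset.mem_coe.1 hn')
      simp only [Nat.mul_div_cancel_left _ (by omega : 0 < d)] at h
      rw [h]
  rw [Nat.card_Ioc] at h1
  have hle : a / d ≤ b / d := Nat.div_le_div_right hab
  have h2 : (((Finset.Ioc a b).filter fun n => d ∣ n).card : ℝ) ≤
      ((b / d : ℕ) : ℝ) - ((a / d : ℕ) : ℝ) := by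
    rw [← Nat.cast_sub hle]
    exact_mod_cast h1
  have hd0 : (0 : ℝ) < d := by exact_mod_cast hd
  have h3 : ((b / d : ℕ) : ℝ) ≤ (b : ℝ) / d := Nat.cast_div_le
  have h4 : (a : ℝ) / d ≤ ((a / d : ℕ) : ℝ) + 1 := by
    rw [div_le_iff₀ hd0]
    have h5 : a < d * (a / d + 1) := Nat.lt_mul_div_succ a (by omega)
    have h6 : (a : ℝ) < d * ((a / d : ℕ) + 1) := by exact_mod_cast h5
    linarith
  rw [sub_div]
  linarith

lemma exp_le (x : ℝ) (h0 : 0 ≤ x) (h1 : x ≤ 1) : Real.exp x ≤ 1 + 2 * x := by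
  have h := Real.abs_exp_sub_one_sub_id_le (x := x) (by rw [abs_of_nonneg h0]; exact h1)
  have h2 := (abs_le.1 h).2
  nlinarith

lemma cnt (Y : ℝ) (H : ℕ) (hY : 1 ≤ Y) (hH : 1 ≤ H) (d : ℕ) (hd : 1 ≤ d)
    (hdH : (d : ℝ) * H ≤ Y) :
    (((Finset.Ioc ⌊Y⌋₊ ⌊Y * Real.exp (1 / H)⌋₊).filter fun n => d ∣ n).card : ℝ) ≤
      4 * (Y / H) * (1 / d) := by
  have hd0 : (1 : ℝ) ≤ d := by exact_mod_cast hd
  have hH0 : (1 : ℝ) ≤ H := by exact_mod_cast hH
  have hY0 : 0 ≤ Y := by linarith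
  have hbase : (1 : ℝ) ≤ Y / (H * d) := by
    rw [le_div_iff₀ (by positivity)]
    linarith [mul_comm (d : ℝ) H]
  have hrew : 4 * (Y / H) * (1 / d) = 4 * (Y / (H * d)) := by
    field_simp
  rw [hrew]
  rcases card_mult ⌊Y⌋₊ ⌊Y * Real.exp (1 / H)⌋₊ d hd with h | h
  · refine h.trans ?_
    have h1 : ((⌊Y * Real.exp (1 / H)⌋₊ : ℕ) : ℝ) ≤ Y * Real.exp (1 / H) :=
      Nat.floor_le (by positivity)
    have h2 : Y < (⌊Y⌋₊ : ℝ) + 1 := Nat.lt_floor_add_one Y
    have h3 : Real.exp (1 / (H : ℝ)) ≤ 1 + 2 * (1 / (H : ℝ)) :=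
      exp_le _ (by positivity) (by rw [div_le_one (by linarith)]; exact hH0)
    have h4 := mul_le_mul_of_nonneg_left h3 hY0
    have h5 : ((⌊Y * Real.exp (1 / H)⌋₊ : ℕ) : ℝ) - (⌊Y⌋₊ : ℝ) ≤ 2 * (Y / H) + 1 := by
      have h6 : Y * (1 + 2 * (1 / (H : ℝ))) = Y + 2 * (Y / H) := by ring
      linarith
    have h7 : (((⌊Y * Real.exp (1 / H)⌋₊ : ℕ) : ℝ) - (⌊Y⌋₊ : ℝ)) / d ≤
        (2 * (Y / H) + 1) / d := div_le_div_of_nonneg_right h5 (by linarith)
    have h8 : (2 * (Y / H) + 1) / d = 2 * (Y / (H * d)) + 1 / d := by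
      field_simp
    have h9 : (1 : ℝ) / d ≤ 1 := by
      rw [div_le_one (by linarith)]
      exact hd0
    linarith
  · rw [h]
    linarith

end XEd

open XEd in
/-- **Ed** -/
theorem iEd : StEd := by
  refine ⟨8, by norm_num, fun Y H S hY hH hHY hS => ?_⟩
  set I := Finset.Ioc ⌊Y⌋₊ ⌊Y * Real.exp (1 / H)⌋₊ with hI
  have hH0 : (1 : ℝ) ≤ H := by exact_mod_cast hH
  have hY0 : 0 ≤ Y := by linarith
  have hp1 : ∀ p ∈ S, (1 : ℝ) ≤ p := fun p hp => by exact_mod_cast (hS p hp).1.one_le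
  have h4 : ∀ p ∈ S, (p : ℝ) ^ 4 ≤ Y := fun p hp => (hS p hp).2
  have hone : ∀ p ∈ S, (p : ℝ) * H ≤ Y := by
    intro p hp
    have h1 := hp1 p hp
    have h2 : (p : ℝ) ^ 2 ≤ Y := (pow_le_pow_right₀ h1 (by norm_num)).trans (h4 p hp)
    refine (pow_le_pow_iff_left₀ (by positivity) hY0 two_ne_zero).1 ?_
    rw [mul_pow, sq Y]
    exact mul_le_mul h2 hHY (by positivity) hY0
  have htwo : ∀ p ∈ S, ∀ q ∈ S, ((p * q : ℕ) : ℝ) * H ≤ Y := by
    intro p hp q hq
    have h2 : ((p * q : ℕ) : ℝ) ^ 2 ≤ Y := by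
      refine (pow_le_pow_iff_left₀ (by positivity) hY0 two_ne_zero).1 ?_
      calc (((p * q : ℕ) : ℝ) ^ 2) ^ 2 = (p : ℝ) ^ 4 * q ^ 4 := by push_cast; ring
        _ ≤ Y * Y := mul_le_mul (h4 p hp) (h4 q hq) (by positivity) hY0
        _ = Y ^ 2 := by ring
    refine (pow_le_pow_iff_left₀ (by positivity) hY0 two_ne_zero).1 ?_
    rw [mul_pow, sq Y]
    exact mul_le_mul h2 hHY (by positivity) hY0
  set Z : ℝ := 4 * (Y / H) with hZ
  have hZ0 : 0 ≤ Z := by positivity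
  -- the number of all n
  have hall : (I.card : ℝ) ≤ Z := by
    have h := cnt Y H hY hH 1 le_rfl (by
      rw [Nat.cast_one, one_mul]
      have h5 : (H : ℝ) ≤ H ^ 2 := by nlinarith
      linarith)
    have h6 : (I.filter fun n => 1 ∣ n) = I := Finset.filter_true_of_mem fun n _ => one_dvd n
    rw [← hI, h6, Nat.cast_one, div_one, mul_one] at h
    exact h
  -- the pairs
  have hpair : ∀ p ∈ S, ∀ q ∈ S, (((I.filter fun n => p ∣ n ∧ q ∣ n).card : ℕ) : ℝ) ≤
      Z * ((1 / p) * (1 / q) + if p = q then (1 : ℝ) / p else 0) := by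
    intro p hp q hq
    by_cases hpq : p = q
    · subst hpq
      have h5 : (I.filter fun n => p ∣ n ∧ p ∣ n) = I.filter fun n => p ∣ n := by
        refine Finset.filter_congr fun n _ => ?_
        rw [and_self_iff]
      rw [h5, if_pos rfl]
      refine (cnt Y H hY hH p (hS p hp).1.one_le (hone p hp)).trans ?_
      refine mul_le_mul_of_nonneg_left ?_ hZ0
      have : (0 : ℝ) ≤ 1 / p * (1 / p) := by positivity
      linarith
    · have h5 : (I.filter fun n => p ∣ n ∧ q ∣ n) = I.filter fun n => p * q ∣ n := by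
        refine Finset.filter_congr fun n _ => ?_
        have hc : Nat.Coprime p q := (Nat.coprime_primes (hS p hp).1 (hS q hq).1).2 hpq
        exact ⟨fun h => hc.mul_dvd_of_dvd_of_dvd h.1 h.2, fun h =>
          ⟨(dvd_mul_right p q).trans h, (dvd_mul_left q p).trans h⟩⟩
      rw [h5, if_neg hpq, add_zero]
      refine (cnt Y H hY hH (p * q) (Nat.mul_pos (hS p hp).1.pos (hS q hq).1.pos)
        (htwo p hp q hq)).trans (le_of_eq ?_)
      push_cast
      rw [one_div_mul_one_div]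
  have hom : ∀ n, om S n ^ 2 = ∑ p ∈ S, ∑ q ∈ S, if p ∣ n ∧ q ∣ n then (1 : ℝ) else 0 := by
    intro n
    have h5 : om S n = ∑ p ∈ S, if p ∣ n then (1 : ℝ) else 0 := by
      rw [om, Finset.card_filter]
      push_cast
      rfl
    rw [h5, sq, Finset.sum_mul_sum]
    refine Finset.sum_congr rfl fun p _ => Finset.sum_congr rfl fun q _ => ?_
    by_cases h6 : p ∣ n
    · by_cases h7 : q ∣ n
      · simp [h6, h7]
      · simp [h7]
    · simp [h6]
  have hsum2 : ∑ n ∈ I, om S n ^ 2 ≤ Z * (Wt S * Wt S + Wt S) := by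
    calc ∑ n ∈ I, om S n ^ 2 =
        ∑ p ∈ S, ∑ q ∈ S, (((I.filter fun n => p ∣ n ∧ q ∣ n).card : ℕ) : ℝ) := by
          rw [Finset.sum_congr rfl fun n _ => hom n, Finset.sum_comm]
          refine Finset.sum_congr rfl fun p _ => ?_
          rw [Finset.sum_comm]
          refine Finset.sum_congr rfl fun q _ => ?_
          rw [Finset.card_filter]
          push_cast
          rfl
      _ ≤ ∑ p ∈ S, ∑ q ∈ S, Z * ((1 / p) * (1 / q) + if p = q then (1 : ℝ) / p else 0) :=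
          Finset.sum_le_sum fun p hp => Finset.sum_le_sum fun q hq => hpair p hp q hq
      _ = Z * (Wt S * Wt S + Wt S) := by
          simp_rw [← Finset.mul_sum, Finset.sum_add_distrib]
          congr 2
          · rw [Wt, Finset.sum_mul_sum]
          · rw [Wt]
            refine Finset.sum_congr rfl fun p hp => ?_
            rw [Finset.sum_ite_eq, if_pos hp]
  have hW0 : 0 ≤ Wt S := Finset.sum_nonneg fun p _ => by positivity
  calc ∑ n ∈ I, (1 + om S n) ^ 2 ≤ ∑ n ∈ I, (2 + 2 * om S n ^ 2) :=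
        Finset.sum_le_sum fun n _ => by nlinarith [sq_nonneg (1 - om S n)]
    _ = 2 * I.card + 2 * ∑ n ∈ I, om S n ^ 2 := by
        rw [Finset.sum_add_distrib, Finset.sum_const, nsmul_eq_mul, Finset.mul_sum]
        ring
    _ ≤ 2 * Z + 2 * (Z * (Wt S * Wt S + Wt S)) := by linarith
    _ ≤ 8 * (Y / H) * (1 + Wt S) ^ 2 := by
        have h5 : 8 * (Y / H) * (1 + Wt S) ^ 2 = 2 * Z * (1 + Wt S) ^ 2 := by rw [hZ]; ring
        rw [h5]
        have h6 : 0 ≤ Z * Wt S := mul_nonneg hZ0 hW0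
        nlinarith

end Pool.Agent.Work.MP_a8fbd7_nt.PAR.MR
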