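import Pool.Agent.Work.MP_a8fbd7_nt.PAR.MR.StmtsB

/-!
# MP_a8fbd7_nt, parity, block MR, item GL: the mean value on an interval
-/

open MeasureTheory Set Filter Topology

noncomputable section

namespace Pool.Agent.Work.MP_a8fbd7_nt.PAR.MR

open Pool.Agent.Work.MP_56b8f5_nt.UC (Dp Sep)

namespace XGL

lemma cont (Y : ℕ) (a : ℕ → ℂ) : Continuous (Dp Y a) := by
  unfold Dp
  refine continuous_finsetSum _ fun n hn => ?_
  rw [Finset.mem_Icc] at hn
  have hn0 : (n : ℂ) ≠ 0 := by exact_mod_cast (by omega : n ≠ 0)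
  refine continuous_const.mul ?_
  have h1 : (fun t : ℝ => (n : ℂ) ^ (-(t * Complex.I))) =
      fun t : ℝ => Complex.exp (Complex.log n * (-(t * Complex.I))) := by
    funext t
    rw [Complex.cpow_def_of_ne_zero hn0]
  rw [h1]
  fun_prop

end XGL

theorem iGL (h1 : StQF) (h2 : StGM) : StGL := by
  obtain ⟨C, hC, hGM⟩ := h2
  refine ⟨3 * C, by linarith, fun T Y a hT => ?_⟩
  have hI1 := (h1 T Y a hT).1
  have hset : {t : ℝ | |t| ≤ T} = Icc (-T) T := by
    ext t
    simp [abs_le]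
  have hms : MeasurableSet {t : ℝ | |t| ≤ T} := by
    rw [hset]
    exact measurableSet_Icc
  have hS0 : 0 ≤ ∑ n ∈ Finset.Icc 1 Y, ‖a n‖ ^ 2 := Finset.sum_nonneg fun _ _ => by positivity
  have hY0 : (0 : ℝ) ≤ Y := Nat.cast_nonneg _
  have hint : IntegrableOn (fun t : ℝ => ‖Dp Y a t‖ ^ 2) {t : ℝ | |t| ≤ T} := by
    rw [hset]
    exact ((XGL.cont Y a).norm.pow 2).continuousOn.integrableOn_compact isCompact_Icc
  have he : Real.exp 1 ≤ 3 := by
    have := Real.exp_one_lt_d9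
    linarith
  calc ∫ t in {t : ℝ | |t| ≤ T}, ‖Dp Y a t‖ ^ 2 ≤
        ∫ t in {t : ℝ | |t| ≤ T}, 3 * (Real.exp (-(t / T) ^ 2) * ‖Dp Y a t‖ ^ 2) := by
        refine setIntegral_mono_on hint (hI1.const_mul _).integrableOn hms ?_
        intro t ht
        have ht' : |t| ≤ T := ht
        have h3 : (t / T) ^ 2 ≤ 1 := by
          rw [div_pow, div_le_one (by positivity), ← sq_abs t]
          exact pow_le_pow_left₀ (abs_nonneg _) ht' 2
        have h4 : 1 ≤ 3 * Real.exp (-(t / T) ^ 2) := by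
          have h5 : Real.exp (-1) ≤ Real.exp (-(t / T) ^ 2) := Real.exp_le_exp.2 (by linarith)
          have h6 : Real.exp (-1) * Real.exp 1 = 1 := by
            rw [← Real.exp_add]
            simp
          nlinarith [Real.exp_pos (-1)]
        rw [← mul_assoc]
        exact le_mul_of_one_le_left (by positivity) h4
    _ ≤ ∫ t : ℝ, 3 * (Real.exp (-(t / T) ^ 2) * ‖Dp Y a t‖ ^ 2) :=
        setIntegral_le_integral (hI1.const_mul _) (Eventually.of_forall fun t => by positivity)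
    _ = 3 * ∫ t : ℝ, Real.exp (-(t / T) ^ 2) * ‖Dp Y a t‖ ^ 2 := integral_const_mul _ _
    _ ≤ 3 * (C * (T + Y) * ∑ n ∈ Finset.Icc 1 Y, ‖a n‖ ^ 2) :=
        mul_le_mul_of_nonneg_left (hGM _ Y a hT) (by norm_num)
    _ = _ := by ring

end Pool.Agent.Work.MP_a8fbd7_nt.PAR.MR
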