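import Pool.Agent.Work.MP_a8fbd7_nt.PAR.MR.StmtsB

/-!
# MP_a8fbd7_nt, parity, block MR, item GM: the mean value theorem without logarithm
-/

open MeasureTheory Set Filter Topology

noncomputable section

namespace Pool.Agent.Work.MP_a8fbd7_nt.PAR.MR

open Pool.Agent.Work.MP_56b8f5_nt.UC (Dp Sep)

namespace XGM

/-- the telescoping bound -/
lemma tele {δ : ℝ} (hδ : 0 < δ) (N : ℕ) :
    ∑ k ∈ Finset.Icc 1 N, 1 / (1 + (δ * k) ^ 2) ≤ 2 / δ := by
  have h1 : ∀ N : ℕ, ∑ k ∈ Finset.Icc 1 N, 1 / (1 + (δ * k) ^ 2) ≤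
      2 / δ * (δ * N / (1 + δ * N)) := by
    intro N
    induction N with
    | zero => simp
    | succ N ih =>
      rw [Finset.sum_Icc_succ_top (by omega)]
      have hN : (0 : ℝ) ≤ δ * N := by positivity
      have h2 : 1 / (1 + (δ * ((N + 1 : ℕ) : ℝ)) ^ 2) ≤
          2 / δ * (δ * ((N + 1 : ℕ) : ℝ) / (1 + δ * ((N + 1 : ℕ) : ℝ))) -
          2 / δ * (δ * N / (1 + δ * N)) := by
        push_cast
        have e1 : 2 / δ * (δ * ((N : ℝ) + 1) / (1 + δ * ((N : ℝ) + 1))) -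
            2 / δ * (δ * N / (1 + δ * N)) = 2 / ((1 + δ * (N + 1)) * (1 + δ * N)) := by
          have p1 : (1 + δ * ((N : ℝ) + 1)) ≠ 0 := by positivity
          have p2 : (1 + δ * (N : ℝ)) ≠ 0 := by positivity
          field_simp
          ring
        rw [e1, div_le_div_iff₀ (by positivity) (by positivity)]
        have p3 : δ * (N : ℝ) ≤ δ * (N + 1) := by nlinarith
        nlinarith [sq_nonneg (δ * ((N : ℝ) + 1) - 1), mul_le_mul_of_nonneg_left p3
          (by positivity : 0 ≤ (1 + δ * ((N : ℝ) + 1)))]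
      linarith
  refine (h1 N).trans ?_
  have h3 : δ * (N : ℝ) / (1 + δ * N) ≤ 1 := by
    rw [div_le_one (by positivity)]
    linarith
  have h4 : 0 < 2 / δ := by positivity
  nlinarith

lemma kern {T : ℝ} {Y m n : ℕ} (hm : 1 ≤ m) (_hmY : m ≤ Y) (hn : 1 ≤ n) (hnY : n ≤ Y)
    (hmn : m ≤ n) :
    Real.exp (-(T ^ 2 * (Real.log m - Real.log n) ^ 2 / 4)) ≤
      1 / (1 + (T / (2 * Y) * ((n - m : ℕ) : ℝ)) ^ 2) := by
  have hm0 : (0 : ℝ) < m := by exact_mod_cast hm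
  have hn0 : (0 : ℝ) < n := by exact_mod_cast hn
  have hY0 : (0 : ℝ) < Y := lt_of_lt_of_le hn0 (by exact_mod_cast hnY)
  have h1 : ((n - m : ℕ) : ℝ) = (n : ℝ) - m := by rw [Nat.cast_sub hmn]
  have h2 : ((n : ℝ) - m) / Y ≤ Real.log n - Real.log m := by
    have h3 : 1 - ((n : ℝ) / m)⁻¹ ≤ Real.log ((n : ℝ) / m) :=
      Real.one_sub_inv_le_log_of_pos (by positivity)
    rw [Real.log_div hn0.ne' hm0.ne', inv_div] at h3
    have h4 : ((n : ℝ) - m) / Y ≤ 1 - (m : ℝ) / n := by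
      have h5 : 1 - (m : ℝ) / n = ((n : ℝ) - m) / n := by field_simp
      rw [h5]
      refine div_le_div_of_nonneg_left ?_ hn0 (by exact_mod_cast hnY)
      have : (m : ℝ) ≤ n := by exact_mod_cast hmn
      linarith
    linarith
  have h6 : 0 ≤ ((n : ℝ) - m) / Y := by
    have : (m : ℝ) ≤ n := by exact_mod_cast hmn
    exact div_nonneg (by linarith) hY0.le
  have h7 : (((n : ℝ) - m) / Y) ^ 2 ≤ (Real.log m - Real.log n) ^ 2 := by
    have : (Real.log m - Real.log n) ^ 2 = (Real.log n - Real.log m) ^ 2 := by ring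
    rw [this]
    exact pow_le_pow_left₀ h6 h2 2
  have h8 : (T / (2 * Y) * ((n - m : ℕ) : ℝ)) ^ 2 ≤
      T ^ 2 * (Real.log m - Real.log n) ^ 2 / 4 := by
    rw [h1]
    have e1 : (T / (2 * Y) * ((n : ℝ) - m)) ^ 2 = T ^ 2 * (((n : ℝ) - m) / Y) ^ 2 / 4 := by
      field_simp
      ring
    rw [e1]
    have := mul_le_mul_of_nonneg_left h7 (sq_nonneg T)
    linarith
  set z := T ^ 2 * (Real.log m - Real.log n) ^ 2 / 4 with hz
  have h9 : 1 + (T / (2 * Y) * ((n - m : ℕ) : ℝ)) ^ 2 ≤ Real.exp z := by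
    have := Real.add_one_le_exp z
    linarith
  rw [Real.exp_neg, ← one_div]
  exact one_div_le_one_div_of_le (by positivity) h9

lemma row {T : ℝ} (hT : 0 < T) {Y m : ℕ} (hm : 1 ≤ m) (hmY : m ≤ Y) :
    ∑ n ∈ Finset.Icc 1 Y, Real.exp (-(T ^ 2 * (Real.log m - Real.log n) ^ 2 / 4)) ≤
      1 + 8 * (Y / T) := by
  classical
  have hY : 1 ≤ Y := hm.trans hmY
  have hY0 : (0 : ℝ) < Y := by exact_mod_cast hY
  set δ : ℝ := T / (2 * Y) with hδ
  have hδ0 : 0 < δ := by positivity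
  set f : ℕ → ℝ := fun k => 1 / (1 + (δ * (k : ℝ)) ^ 2) with hf
  have hf0 : ∀ k, 0 ≤ f k := fun k => by rw [hf]; positivity
  have hpart : ∑ n ∈ Finset.Icc 1 Y, Real.exp (-(T ^ 2 * (Real.log m - Real.log n) ^ 2 / 4)) ≤
      1 + ∑ n ∈ (Finset.Icc 1 Y).filter (fun n => m < n), f (n - m) +
        ∑ n ∈ (Finset.Icc 1 Y).filter (fun n => n < m), f (m - n) := by
    have h1 : ∀ n ∈ Finset.Icc 1 Y, Real.exp (-(T ^ 2 * (Real.log m - Real.log n) ^ 2 / 4)) ≤
        (if n = m then 1 else 0) + (if m < n then f (n - m) else 0) +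
          (if n < m then f (m - n) else 0) := by
      intro n hn
      rw [Finset.mem_Icc] at hn
      rcases lt_trichotomy n m with h | h | h
      · rw [if_neg (by omega), if_neg (by omega), if_pos h]
        have h2 := kern (T := T) hn.1 hn.2 hm hmY h.le
        have e1 : (Real.log n - Real.log m) ^ 2 = (Real.log m - Real.log n) ^ 2 := by ring
        rw [e1] at h2
        rw [zero_add, zero_add]
        exact h2
      · rw [if_pos h, if_neg (by omega), if_neg (by omega), h]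
        simp
      · rw [if_neg (by omega), if_pos h, if_neg (by omega)]
        have h2 := kern (T := T) hm hmY hn.1 hn.2 h.le
        rw [zero_add, add_zero]
        exact h2
    refine (Finset.sum_le_sum h1).trans ?_
    rw [Finset.sum_add_distrib, Finset.sum_add_distrib, Finset.sum_filter, Finset.sum_filter]
    have h3 : ∑ n ∈ Finset.Icc 1 Y, (if n = m then (1 : ℝ) else 0) ≤ 1 := by
      rw [Finset.sum_ite_eq' (Finset.Icc 1 Y) m]
      split_ifs <;> norm_num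
    linarith
  have hup : ∑ n ∈ (Finset.Icc 1 Y).filter (fun n => m < n), f (n - m) ≤ 2 / δ := by
    have h1 : ∑ n ∈ (Finset.Icc 1 Y).filter (fun n => m < n), f (n - m) =
        ∑ k ∈ ((Finset.Icc 1 Y).filter (fun n => m < n)).image (fun n => n - m), f k := by
      rw [Finset.sum_image]
      intro x hx y hy hxy
      simp only [Finset.coe_filter, Set.mem_ofPred_eq, Finset.mem_Icc] at hx hy
      simp only at hxy
      omega
    rw [h1]
    refine (Finset.sum_le_sum_of_subset_of_nonneg ?_ fun k _ _ => hf0 k).trans (tele hδ0 Y)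
    intro k hk
    simp only [Finset.mem_image, Finset.mem_filter, Finset.mem_Icc] at hk ⊢
    omega
  have hdn : ∑ n ∈ (Finset.Icc 1 Y).filter (fun n => n < m), f (m - n) ≤ 2 / δ := by
    have h1 : ∑ n ∈ (Finset.Icc 1 Y).filter (fun n => n < m), f (m - n) =
        ∑ k ∈ ((Finset.Icc 1 Y).filter (fun n => n < m)).image (fun n => m - n), f k := by
      rw [Finset.sum_image]
      intro x hx y hy hxy
      simp only [Finset.coe_filter, Set.mem_ofPred_eq, Finset.mem_Icc] at hx hy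
      simp only at hxy
      omega
    rw [h1]
    refine (Finset.sum_le_sum_of_subset_of_nonneg ?_ fun k _ _ => hf0 k).trans (tele hδ0 Y)
    intro k hk
    simp only [Finset.mem_image, Finset.mem_filter, Finset.mem_Icc] at hk ⊢
    omega
  have e2 : 2 / δ = 4 * (Y / T) := by
    rw [hδ]
    field_simp
    norm_num
  rw [e2] at hup hdn
  linarith

end XGM

theorem iGM (h1 : StQF) : StGM := by
  refine ⟨16, by norm_num, fun T Y a hT => ?_⟩
  obtain ⟨_, h2⟩ := h1 T Y a hT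
  set K : ℕ → ℕ → ℝ := fun m n => Real.exp (-(T ^ 2 * (Real.log m - Real.log n) ^ 2 / 4)) with hK
  have hK0 : ∀ m n, 0 ≤ K m n := fun m n => (Real.exp_pos _).le
  have hKs : ∀ m n, K m n = K n m := by
    intro m n
    simp only [hK]
    congr 1
    ring
  have hI0 : 0 ≤ ∫ t : ℝ, Real.exp (-(t / T) ^ 2) * ‖Dp Y a t‖ ^ 2 :=
    integral_nonneg fun t => by positivity
  have h3 : ∫ t : ℝ, Real.exp (-(t / T) ^ 2) * ‖Dp Y a t‖ ^ 2 ≤
      Real.sqrt Real.pi * T * ∑ m ∈ Finset.Icc 1 Y, ∑ n ∈ Finset.Icc 1 Y,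
        ‖a m‖ * ‖a n‖ * K m n := by
    have h4 : ‖((∫ t : ℝ, Real.exp (-(t / T) ^ 2) * ‖Dp Y a t‖ ^ 2 : ℝ) : ℂ)‖ =
        ∫ t : ℝ, Real.exp (-(t / T) ^ 2) * ‖Dp Y a t‖ ^ 2 := by
      rw [Complex.norm_real, Real.norm_eq_abs, abs_of_nonneg hI0]
    rw [← h4, h2, norm_mul, Complex.norm_real, Real.norm_eq_abs, abs_of_nonneg (by positivity)]
    refine mul_le_mul_of_nonneg_left ?_ (by positivity)
    refine (norm_sum_le _ _).trans (Finset.sum_le_sum fun m _ => ?_)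
    refine (norm_sum_le _ _).trans (Finset.sum_le_sum fun n _ => ?_)
    rw [norm_mul, norm_mul, Complex.norm_conj, Complex.norm_real, Real.norm_eq_abs,
      abs_of_nonneg (Real.exp_pos _).le]
  have h5 : ∑ m ∈ Finset.Icc 1 Y, ∑ n ∈ Finset.Icc 1 Y, ‖a m‖ * ‖a n‖ * K m n ≤
      ∑ m ∈ Finset.Icc 1 Y, ‖a m‖ ^ 2 * (1 + 8 * (Y / T)) := by
    have h6 : ∀ m n, ‖a m‖ * ‖a n‖ * K m n ≤ (‖a m‖ ^ 2 * K m n + ‖a n‖ ^ 2 * K n m) / 2 := by
      intro m n
      rw [hKs n m]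
      have := mul_nonneg (sq_nonneg (‖a m‖ - ‖a n‖)) (hK0 m n)
      nlinarith
    have h7 : ∑ m ∈ Finset.Icc 1 Y, ∑ n ∈ Finset.Icc 1 Y, ‖a m‖ * ‖a n‖ * K m n ≤
        ∑ m ∈ Finset.Icc 1 Y, ∑ n ∈ Finset.Icc 1 Y, ‖a m‖ ^ 2 * K m n := by
      calc _ ≤ ∑ m ∈ Finset.Icc 1 Y, ∑ n ∈ Finset.Icc 1 Y,
            (‖a m‖ ^ 2 * K m n + ‖a n‖ ^ 2 * K n m) / 2 :=
            Finset.sum_le_sum fun m _ => Finset.sum_le_sum fun n _ => h6 m n
        _ = (∑ m ∈ Finset.Icc 1 Y, ∑ n ∈ Finset.Icc 1 Y, ‖a m‖ ^ 2 * K m n +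
            ∑ m ∈ Finset.Icc 1 Y, ∑ n ∈ Finset.Icc 1 Y, ‖a n‖ ^ 2 * K n m) / 2 := by
            rw [← Finset.sum_add_distrib, Finset.sum_div]
            refine Finset.sum_congr rfl fun m _ => ?_
            rw [← Finset.sum_add_distrib, Finset.sum_div]
        _ = _ := by
            rw [Finset.sum_comm (f := fun m n => ‖a n‖ ^ 2 * K n m)]
            ring
    refine h7.trans (Finset.sum_le_sum fun m hm => ?_)
    rw [Finset.mem_Icc] at hm
    rw [← Finset.mul_sum]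
    exact mul_le_mul_of_nonneg_left (XGM.row hT hm.1 hm.2) (by positivity)
  rw [← Finset.sum_mul] at h5
  set S := ∑ n ∈ Finset.Icc 1 Y, ‖a n‖ ^ 2 with hS
  have hS0 : 0 ≤ S := Finset.sum_nonneg fun _ _ => by positivity
  have hpi : Real.sqrt Real.pi ≤ 2 := by
    rw [show (2 : ℝ) = Real.sqrt 4 by
      rw [show (4 : ℝ) = 2 ^ 2 by norm_num, Real.sqrt_sq (by norm_num)]]
    exact Real.sqrt_le_sqrt Real.pi_le_four
  have hY0 : (0 : ℝ) ≤ Y := Nat.cast_nonneg _
  calc ∫ t : ℝ, Real.exp (-(t / T) ^ 2) * ‖Dp Y a t‖ ^ 2 ≤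
        Real.sqrt Real.pi * T * (S * (1 + 8 * (Y / T))) :=
        h3.trans (mul_le_mul_of_nonneg_left h5 (by positivity))
    _ = Real.sqrt Real.pi * (S * (T + 8 * Y)) := by
        field_simp
    _ ≤ 2 * (S * (T + 8 * Y)) := mul_le_mul_of_nonneg_right hpi (by positivity)
    _ ≤ 16 * (T + Y) * S := by nlinarith [mul_nonneg hS0 hT.le, mul_nonneg hS0 hY0]

end Pool.Agent.Work.MP_a8fbd7_nt.PAR.MR
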