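import Pool.Agent.Work.MP_a8fbd7_nt.PAR.MR.StmtsA
import Pool.Agent.Work.MP_a8fbd7_nt.PAR.Lio2

/-!
# Item La: the prime number theorem for the Liouville function
-/

set_option autoImplicit false

noncomputable section

namespace Pool.Agent.Work.MP_a8fbd7_nt.PAR.MR

theorem iLa (h : ZF.StUn) : StLa := by
  intro B hB
  obtain ⟨C, hC, h1⟩ := pr_Lio h B hB
  exact ⟨C, hC, fun x hx => h1 x hx⟩

end Pool.Agent.Work.MP_a8fbd7_nt.PAR.MR
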