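import Pool.Agent.Work.MP_a8fbd7_nt.PAR.MR.DefsA

/-!
# MP_a8fbd7_nt, parity, block MR (Matomaki-Radziwill for the Liouville function), part A

Ramare's identity, the levels, the parameters and the assembly up to `StL2` (`StmtsB.lean`).  The docstring of each statement is its complete
proof.  Every item is `theorem iNAME (h1 : StA) ... : StNAME` in the file `PAR/MR/I_NAME.lean` (auxiliary lemmas in a namespace `INAME`); it may use as hypotheses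
the statements listed in its docstring and other statements of the two files if there is no circle.
-/

open MeasureTheory Set

noncomputable section

namespace Pool.Agent.Work.MP_a8fbd7_nt.PAR.MR

/-! ## A. Number theory -/

/-- ITEM TK (EASY-MEDIUM; Turan-Kubilius for a set of primes).  `ω = om S`, `W = Wt S`.  Expand
`(ω - W)² = ω² - 2Wω + W²` and sum over `n ∈ (X, 2X]`.  The number of multiples of `d ≥ 1` in `(X, 2X]` is `X/d + O(1)` (error at most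
`2`).  `∑ ω = X W + O(|S|)`, `∑ ω² = ∑_{p, q ∈ S} #{n : p ∣ n, q ∣ n}`; for `p ≠ q` this is `#{n : pq ∣ n} = X/(pq) + O(1)`, for
`p = q` it is `X/p + O(1)`, so `∑ ω² ≤ X (W² + W) + O(|S|²)`.  `∑ 1 = X + O(1)`.  Together at most
`X W + C (|S|² + W|S| + W²)`, and `|S| ≤ X^{1/4}` (the elements are distinct integers in `[1, X^{1/4}]`), `W ≤ |S|`, so the error is
at most `C X^{1/2} ≤ C X`. -/
def StTK : Prop := ∃ C : ℝ, 1 ≤ C ∧ ∀ (X : ℝ) (S : Finset ℕ), 1 ≤ X →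
  (∀ p ∈ S, p.Prime ∧ (p : ℝ) ^ 4 ≤ X) →
  ∑ n ∈ IX X, (om S n - Wt S) ^ 2 ≤ C * X * (Wt S + 1)

/-- ITEM Ed (EASY-MEDIUM; edges).  `Y (e^{1/H} - 1) ≤ 2Y/H`, so the number of multiples of `d` in `(Y, Y e^{1/H}]` is at most
`2Y/(Hd) + 1 ≤ 3Y/(Hd)` if `dH ≤ Y`.  Here `d = 1`, `d = p` or `d = pq ≤ Y^{1/2}` and `H ≤ Y^{1/2}`.  `(1 + ω)² ≤ 2 + 2ω²`,
`∑ ω² ≤ (3Y/H)(W² + W)`. -/
def StEd : Prop := ∃ C : ℝ, 1 ≤ C ∧ ∀ (Y : ℝ) (H : ℕ) (S : Finset ℕ), 1 ≤ Y → 1 ≤ H → (H : ℝ) ^ 2 ≤ Y →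
  (∀ p ∈ S, p.Prime ∧ (p : ℝ) ^ 4 ≤ Y) →
  ∑ n ∈ Finset.Ioc ⌊Y⌋₊ ⌊Y * Real.exp (1 / H)⌋₊, (1 + om S n) ^ 2 ≤ C * (Y / H) * (1 + Wt S) ^ 2

/-- ITEM Mr (EASY-MEDIUM; Mertens; uses `MP_56b8f5_nt/WM/I_Mert.lean`: `exp (∑_{p ≤ x} 1/p)` is between `(log x)/C` and
`C log x`; give it as a hypothesis `(hM : Pool.Agent.Work.MP_56b8f5_nt.WM.S_Mert)` or import the proved theorem).
`Wt (PS H u v) = S1 ⌊e^{v/H}⌋ - S1 ⌊e^{u/H}⌋`, and `log ⌊e^{v/H}⌋ ≥ v/(2H)`, `log ⌊e^{u/H}⌋ ≤ u/H` for `u ≥ H`. -/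
def StMr : Prop := ∃ C : ℝ, 1 ≤ C ∧ ∀ H u v : ℕ, 1 ≤ H → H ≤ u → u < v →
  Real.log ((v : ℝ) / u) - C ≤ Wt (PS H u v)

/-- ITEM La (helper36; from `PAR/Lio.lean`).  The prime number theorem for the Liouville function with any power of the logarithm. -/
def StLa : Prop := ∀ B : ℝ, 0 < B → ∃ C : ℝ, 1 ≤ C ∧ ∀ x : ℝ, 2 ≤ x → |Sl x| ≤ C * x / Real.log x ^ B

/-- ITEM Lw (EASY-MEDIUM; helper36; low frequencies; uses StLa with `B = 10`).  Abel summation: `A(t) = S(2X)(2X)^{-it} - S(X) X^{-it} + it ∫_X^{2X} S(u) u^{-it-1} du`, so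
`|A(t)| ≤ C (1 + |t|) X (log X)^{-10}` and `∫_{|t| ≤ (log X)²} |A|² ≤ 2 (log X)² C² (2 (log X)²)² X² (log X)^{-20} ≤ X²/log X` for large `X`. -/
def StLw : Prop := ∃ X0 : ℝ, 3 ≤ X0 ∧ ∀ X : ℝ, X0 ≤ X →
  ∫ t in {t : ℝ | |t| ≤ Real.log X ^ (2 : ℝ)}, ‖Aa X t‖ ^ 2 ≤ X ^ 2 / Real.log X

/-! ## B. Dirichlet polynomials -/

/-- ITEM MV (EASY; uses StGL).  `Sp S a t = Dp ⌊N⌋ a' t` with `a'_n = a_n` for `n ∈ S` and `0` otherwise; StGL for `T > 0`, and `T = 0` is trivial (a null set). -/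
def StMV : Prop := ∃ C : ℝ, 1 ≤ C ∧ ∀ (S : Finset ℕ) (a : ℕ → ℂ) (T N : ℝ), 0 ≤ T → 1 ≤ N →
  (∀ n ∈ S, 1 ≤ n ∧ (n : ℝ) ≤ N) →
  ∫ t in {t : ℝ | |t| ≤ T}, ‖Sp S a t‖ ^ 2 ≤ C * (T + N) * ∑ n ∈ S, ‖a n‖ ^ 2

/-- ITEM Cn (MEDIUM; counting).  `B` a finite set of primes `≥ z`, `|B| ≤ z`, `z ≥ 1`.  The number `T(a, b; U, U')` of the `(p, p', m, m')`
with `p ∈ B^a`, `p' ∈ B^b`, `1 ≤ m ≤ U`, `1 ≤ m' ≤ U'`, `∏p · m = ∏p' · m'` is at most `U z^a (a+1)^b`.  Induction on `b` (all `a`, `U`):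
`b = 0`: `m'` is determined by `p, m`.  Step: the first coordinate `q` of `p'` divides `∏p · m`; either `q = p_k` for some `k` (`a` choices;
remove both: at most `a · z` times `T(a-1, b-1; U, U')`, the factor `z ≥ |B|` for the value of `q`), or `q ∣ m`, `m = q m₁`, `m₁ ≤ U/z`:
at most `z · T(a, b-1; U/z, U')`.  So `T ≤ a z · U z^{a-1} a^{b-1} + z (U/z) z^a (a+1)^{b-1} ≤ U z^a (a + 1)^b`. -/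
def StCn : Prop := ∀ (B : Finset ℕ) (z : ℝ), 1 ≤ z → (∀ p ∈ B, p.Prime ∧ z ≤ p) → (B.card : ℝ) ≤ z →
  ∀ (b a U' : ℕ) (U : ℝ), 0 ≤ U →
  ((((Fintype.piFinset fun _ : Fin a => B) ×ˢ (Fintype.piFinset fun _ : Fin b => B)) ×ˢ
      ((Finset.Icc 1 ⌊U⌋₊) ×ˢ (Finset.Icc 1 U'))).filter
      fun x => (∏ i, x.1.1 i) * x.2.1 = (∏ i, x.1.2 i) * x.2.2).card ≤ U * z ^ a * ((a : ℝ) + 1) ^ b

/-- ITEM Cf (EASY-MEDIUM; uses StCn).  Expand the product: `c_n = ∑_{p_1 ⋯ p_l m = n} a_m`, `S` the set of the products; `|c_n|` is at most the number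
of representations, so `∑ |c_n|²` is at most `T(l, l; U, ⌊U⌋)`. -/
def StCf : Prop := ∀ (B M : Finset ℕ) (a : ℕ → ℂ) (z y1 U : ℝ) (l : ℕ), 1 ≤ z → 1 ≤ U →
  (∀ p ∈ B, p.Prime ∧ z ≤ p ∧ (p : ℝ) ≤ y1) → (B.card : ℝ) ≤ z →
  (∀ m ∈ M, 1 ≤ m ∧ (m : ℝ) ≤ U) → (∀ m, ‖a m‖ ≤ 1) →
  ∃ (S : Finset ℕ) (c : ℕ → ℂ), (∀ t : ℝ, Sp B (fun _ => 1) t ^ l * Sp M a t = Sp S c t) ∧
    (∀ n ∈ S, 1 ≤ n ∧ (n : ℝ) ≤ y1 ^ l * U) ∧ ∑ n ∈ S, ‖c n‖ ^ 2 ≤ U * z ^ l * ((l : ℝ) + 1) ^ l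

/-- ITEM Bc (EASY).  A block: its elements are primes in `(z, e^{1/H} z]`, `z = e^{v/H}`; for `z ≥ 3`, `H ≥ 2` there are at most
`z (e^{1/H} - 1) + 1 ≤ 0.65 z + 1 ≤ z` integers in it. -/
def StBc : Prop := ∀ H v : ℕ, 2 ≤ H → 3 ≤ Real.exp ((v : ℝ) / H) →
  ((rg H v).card : ℝ) ≤ Real.exp ((v : ℝ) / H) ∧
  ∀ p ∈ rg H v, p.Prime ∧ Real.exp ((v : ℝ) / H) ≤ p ∧ (p : ℝ) ≤ Real.exp (1 / H) * Real.exp ((v : ℝ) / H)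

/-- ITEM DcI (MEDIUM; the decomposition, identity).  `S = PS H v0 v1`.  `Bs = ∑_p ∑_m λ(m) (pm)^{-it}` over the primes `p ∈ S`, `p` in the block
`v(p)` (`S` is the disjoint union of the `rg H v`, `v0 ≤ v < v1`), and `m` with `X e^{-v/H} < m ≤ 2X e^{-v/H}`.  For `n = pm`: `λ(m) = -λ(n)` and `X p e^{-v/H} < n ≤ 2X p e^{-v/H}`, `1 < p e^{-v/H} ≤ e^{1/H}`.  So the
coefficient of `n^{-it}` in `Bs` is `-λ(n)` times the number of the `p ∈ S`, `p ∣ n`, for which this holds: all of them if `X e^{1/H} < n ≤ 2X`, none if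
`n ≤ X` or `n > 2X e^{1/H}`. -/
def StDcI : Prop := ∀ (X : ℝ) (H v0 v1 : ℕ), 1 ≤ X → 1 ≤ H → v0 < v1 → 0 < Wt (PS H v0 v1) →
  ∃ d : ℕ → ℂ, (∀ t : ℝ, Aa X t + (1 / Wt (PS H v0 v1) : ℝ) * Bs X H v0 v1 t =
      Sp (Finset.Ioc ⌊X⌋₊ ⌊2 * X * Real.exp (1 / H)⌋₊) d t) ∧
    (∀ n : ℕ, ‖d n‖ ≤ 1 + om (PS H v0 v1) n / Wt (PS H v0 v1)) ∧
    ∀ n : ℕ, X * Real.exp (1 / H) < n → (n : ℝ) ≤ 2 * X → ‖d n‖ ≤ |om (PS H v0 v1) n - Wt (PS H v0 v1)| / Wt (PS H v0 v1)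

/-- ITEM Dc (EASY-MEDIUM; uses StTK, StEd, StMV, StDcI).  StMV with `N = 2eX`: at most `C X ∑ |d_n|²`.  The `n ∈ (X e^{1/H}, 2X]` contribute at most
`W^{-2} ∑ (ω - W)² ≤ C X (W+1)/W² ≤ 2CX/W` (StTK).  For the other `n`, which lie in `(Y, Y e^{1/H}]` with `Y = X` or `Y = 2X`, use `(1 + ω/W)² ≤ 2 + 2(1+ω)²/W²` and StEd twice, for `S = ∅`
(`∑ 1 ≤ C Y/H`) and for `S = PS H v0 v1` (`∑ (1+ω)²/W² ≤ C (Y/H)(1+W)²/W² ≤ 4CY/H`, `W ≥ 1`).  (If `e^{1/H} ≥ 2` the first kind does not occur.) -/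
def StDc : Prop := ∃ C : ℝ, 1 ≤ C ∧ ∀ (X T : ℝ) (H v0 v1 : ℕ), 1 ≤ X → 0 ≤ T → T ≤ X → 1 ≤ H → (H : ℝ) ^ 2 ≤ X → v0 < v1 →
  Real.exp (4 * ((v1 : ℝ) / H)) ≤ X → 1 ≤ Wt (PS H v0 v1) →
  ∫ t in {t : ℝ | |t| ≤ T}, ‖Aa X t + (1 / Wt (PS H v0 v1) : ℝ) * Bs X H v0 v1 t‖ ^ 2 ≤
    C * X ^ 2 * (1 / Wt (PS H v0 v1) + 1 / H)

/-- ITEM Lv1 (EASY-MEDIUM; level zero; uses StMV).  Cauchy-Schwarz: `|Bs|² ≤ (v1 - v0) ∑_v |Pb_v|² |Mb_v|²`; on `E`: `|Pb_v|² ≤ y^{2(1-α)}`, `y = e^{v/H}`, and StMV for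
`Mb_v` (`N = 2X/y ≥ 1`, at most `2X/y` coefficients of modulus one): `∫_{-T}^T |Mb_v|² ≤ C (T + 2X/y)(2X/y) ≤ 6C (X/y)²` because `T ≤ X e^{-v1/H} ≤ X/y`.
Total at most `6C (v1-v0)² y^{-2α} X²`, `y ≥ e^{v0/H}`. -/
def StLv1 : Prop := ∃ C : ℝ, 1 ≤ C ∧ ∀ (X T α : ℝ) (H v0 v1 : ℕ) (E : Set ℝ), 1 ≤ X → 0 ≤ T → 1 ≤ H → v0 < v1 →
  T * Real.exp ((v1 : ℝ) / H) ≤ X → Real.exp ((v1 : ℝ) / H) ≤ X → 0 ≤ α → α ≤ 1 → MeasurableSet E → E ⊆ {t : ℝ | |t| ≤ T} →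
  (∀ t ∈ E, AllS α H v0 v1 t) →
  ∫ t in E, ‖Bs X H v0 v1 t‖ ^ 2 ≤ C * ((v1 : ℝ) ^ 2 * Real.exp (-(2 * α * ((v0 : ℝ) / H))) * X ^ 2)

/-- ITEM Lv2 (MEDIUM; a higher level, one pair of blocks; uses StMV, StCf, StBc).  `y = e^{v/H}`, `z = e^{r/K}`, `l = ⌈log y/log z⌉ ≥ 1`, so `z^{l-1} < y ≤ z^l`.
On `E`: `|Pb(H,v)|² ≤ y^{2(1-α)}` and `1 ≤ (|Pb(K,r)| z^{-(1-β)})^{2l}`.  So `∫_E |Pb_v Mb_v|² ≤ y^{2(1-α)} z^{-2l(1-β)} ∫_{|t| ≤ X} |Pb(K,r)^l Mb_v|²`.  StCf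
(`U = 2X/y`, `y1 = e^{1/K} z`) and StMV (`N = y1^l U ≤ e^l z · 2X` because `z^l ≤ y z`): the integral is at most
`C (X + 2 e^l z X)(2X/y) z^l (l+1)^l`.  Together at most `6C X² z (e(l+1))^l y^{1-2α} z^{-l(1-2β)}` and `z^{-l(1-2β)} ≤ y^{-(1-2β)}` (`β ≤ 1/2`), which gives
`6C X² z (e(l+1))^l y^{-2(α-β)}`; finally `l ≤ log y/log z + 1`, `e ≤ 3`. -/
def StLv2 : Prop := ∃ C : ℝ, 1 ≤ C ∧ ∀ (X α β : ℝ) (H K v r : ℕ) (E : Set ℝ), 1 ≤ X → 2 ≤ H → 2 ≤ K →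
  0 ≤ β → β ≤ α → α ≤ 1 / 2 → 3 ≤ Real.exp ((r : ℝ) / K) → (r : ℝ) / K ≤ (v : ℝ) / H → Real.exp ((v : ℝ) / H) ≤ X →
  MeasurableSet E → E ⊆ {t : ℝ | |t| ≤ X} → (∀ t ∈ E, Small α H v t) → (∀ t ∈ E, ¬ Small β K r t) →
  ∫ t in E, ‖Pb H v t * Mb X H v t‖ ^ 2 ≤ C * X ^ 2 * (Real.exp ((r : ℝ) / K) *
    (3 * (((v : ℝ) / H) / ((r : ℝ) / K) + 2)) ^ (((v : ℝ) / H) / ((r : ℝ) / K) + 1) *
    Real.exp (-(2 * (α - β) * ((v : ℝ) / H))))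

/-! ## C. Parameters and assembly -/

/-- ITEM Sq (MEDIUM; the sequence of levels; uses StMr).  `η_j = al (j+1) - al j = 1/(16(j+1)(j+2))`, `s` with `2^s ≥ 4/ε`, `s ≥ 1`, `H_j = 2^{j+s}` (so `∑ 1/H_j ≤ ε/2`).
`A_0 = ⌊√(log h)⌋`, `B_0 = ⌊log h⌋`, `A_{j+1} = K_j B_j`, `K_j = 64(j+1)(j+2) = 4/η_j`, `B_{j+1} = ⌊exp(κ_j A_j)⌋`, `κ_j = 1/(128(j+1)(j+2)) = η_j/8`.  Everything for `h ≥ h0(ε)`, i.e. `A_0` large.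
By induction `A_{j+1} ≥ 128 A_j`, so `A_j ≥ 128^j A_0`; `B_j ≤ exp(A_j/4000)` for `j ≥ 1` (`B_j ≤ exp(κ_{j-1} A_{j-1}) ≤ exp(κ_{j-1} A_j/128)`), `B_0 ≤ exp(A_0/4000)` and `B_0 ≤ (A_0+1)²`.  More precisely
`log B_j ≤ κ_{j-1} A_j/K_{j-1} ≤ κ_j A_j/4`, and `log A_{j+1} = log K_j + log B_j ≤ κ_j A_j/2` (for `j = 0`: `log (128 (A_0+1)²) ≤ κ_0 A_0/2`), so `log(B_{j+1}/A_{j+1}) ≥ κ_j A_j/2 - 1` and by StMr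
`W_{j+1} ≥ κ_j A_j/2 - 1 - C ≥ κ_j A_j/4 ≥ 128^j A_0/(512(j+1)(j+2))`; `W_0 ≥ log(B_0/A_0) - C ≥ (loglog h)/2 - C - 1`: so `∑ 1/W_j ≤ ε/2` and all `W_j ≥ 1` for large `h`.
`g0`: `(2^s log h)² exp(-A_0/8) → 0`.  `nx`: `100 B_{j+1} ≤ 100 exp(A_j/256) ≤ exp(A_j/100)`.  `gj`, logarithms: `x ≤ B_j = (η_j/4) A_{j+1} ≤ (η_j/4) y`; `y/x + 1 ≤ 2y/A_j`,
`3(y/x+2) ≤ 9 B_{j+1}`, so the second factor has logarithm at most `(2y/A_j)(κ_j A_j + log 9) ≤ (η_j/4 + η_j/8) y` (`A_j ≥ 36/η_j`); the fourth and fifth factor and `2^{j+1}/ε` together have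
logarithm at most `3 · 2 κ_j A_j + (j + 1) + log(1/ε) ≤ (η_j/4) A_{j+1}` (use `H_j ≤ B_j`, `H_{j+1} ≤ B_{j+1}`); the sum is at most `2 η_j y`. -/
def StSq : Prop := ∀ ε : ℝ, 0 < ε → ε ≤ 1 → ∃ h0 : ℝ, 3 ≤ h0 ∧ ∀ h : ℝ, h0 ≤ h → ∃ A B Hs : ℕ → ℕ, Lev ε h A B Hs

/-- ITEM As0 (EASY-MEDIUM; level `0`; uses StDc, StLv1).  On `E`: `|A|² ≤ 2|A + Bs/W|² + 2|Bs|²/W²`, `W ≥ 1`.  First part StDc (`T = X/h`, `v0 = H A_0`, `v1 = H B_0`, `e^{4B_0} ≤ h⁴ ≤ X`, `H² ≤ B_0² ≤ e^{4 B_0} ≤ X`), second part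
StLv1 (`T e^{B_0} ≤ X`) and `g0` (`v1 = Hs 0 * B 0`).  (All functions are continuous and `E` is bounded and measurable, so everything is integrable.) -/
def StAs0 : Prop := ∃ C : ℝ, 1 ≤ C ∧ ∀ (ε h X : ℝ) (A B Hs : ℕ → ℕ) (E : Set ℝ), Lev ε h A B Hs → 3 ≤ h → h ^ 4 ≤ X →
  MeasurableSet E → E ⊆ {t : ℝ | |t| ≤ X / h} → (∀ t ∈ E, AllS (al 0) (Hs 0) (Hs 0 * A 0) (Hs 0 * B 0) t) →
  ∫ t in E, ‖Aa X t‖ ^ 2 ≤ C * X ^ 2 * (1 / Wt (PS (Hs 0) (Hs 0 * A 0) (Hs 0 * B 0)) + 1 / (Hs 0 : ℝ) + ε)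

/-- ITEM As1 (MEDIUM; level `j + 1`; uses StDc, StLv2).  As As0; `E` is the union over the blocks `r` of level `j` of `E_r = {t ∈ E : block r large}` (finitely many, measurable: `Pb` is continuous), and
`|Bs|² ≤ (H B) ∑_v |Pb_v Mb_v|²`, `∫_E ≤ ∑_r ∫_{E_r}`, StLv2 for each pair `(v, r)` with `α = al (j+1)`, `β = al j ≤ α ≤ 1/8`, `x = r/H_j ∈ [A_j, B_j]`, `y = v/H_{j+1} ∈ [A_{j+1}, B_{j+1}]` and `gj`. -/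
def StAs1 : Prop := ∃ C : ℝ, 1 ≤ C ∧ ∀ (ε h X : ℝ) (A B Hs : ℕ → ℕ) (E : Set ℝ) (j : ℕ), Lev ε h A B Hs → 3 ≤ h → h ≤ X →
  Real.exp (4 * (B (j + 1) : ℝ)) ≤ X → MeasurableSet E → E ⊆ {t : ℝ | |t| ≤ X / h} →
  (∀ t ∈ E, AllS (al (j + 1)) (Hs (j + 1)) (Hs (j + 1) * A (j + 1)) (Hs (j + 1) * B (j + 1)) t) →
  (∀ t ∈ E, ¬ AllS (al j) (Hs j) (Hs j * A j) (Hs j * B j) t) →
  ∫ t in E, ‖Aa X t‖ ^ 2 ≤ C * X ^ 2 *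
    (1 / Wt (PS (Hs (j + 1)) (Hs (j + 1) * A (j + 1)) (Hs (j + 1) * B (j + 1))) + 1 / (Hs (j + 1) : ℝ) + ε / 2 ^ (j + 1))

/-- ITEM AsT (MEDIUM; the last part; uses StDc, StU4, StMr).  Given `ε`, choose `H = ⌈1/ε⌉ + 2` and `η ≤ 1/100` so small that `log(1/(2η)) - C ≥ 1/ε` with the constant of StMr: then
`W = Wt (PS H v0 v1) ≥ 1/ε ≥ 1` for `v0 = ⌈Hη² log X⌉`, `v1 = ⌊Hη log X⌋` and large `X` (`v1/v0 ≥ 1/(2η)`).  `|A|² ≤ 2|A + Bs/W|² + 2|Bs|²`; StDc (`T = X/h`) gives `≤ 4 C ε X²` (`e^{4v1/H} ≤ X^{4η} ≤ X`); by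
`¬ AllS` the set `E` is contained in `Ex X 2 (Hs J) (Hs J * A J) (Hs J * B J) (al J)`, so StU4 (with `η²` for `η`, `K = 2`) bounds the other part by `C H² (log X)² X² (log X)^{-4} ≤ ε X²` for large `X`.  The conditions of
StU4: `al J ≤ 1/8`; `Hs J ≤ B J ≤ (log X)/100`; `40 loglog X ≤ A J` because `log X < 100 B_{J+1} ≤ exp(A_J/100)`. -/
def StAsT : Prop := ∃ C : ℝ, 1 ≤ C ∧ ∀ ε : ℝ, 0 < ε → ε ≤ 1 → ∃ X0 : ℝ, 3 ≤ X0 ∧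
  ∀ (h X : ℝ) (A B Hs : ℕ → ℕ) (E : Set ℝ) (J : ℕ), Lev ε h A B Hs → 3 ≤ h → X0 ≤ X →
  100 * (B J : ℝ) ≤ Real.log X → Real.log X < 100 * (B (J + 1) : ℝ) → MeasurableSet E → E ⊆ {t : ℝ | |t| ≤ X / h} →
  (∀ t ∈ E, Real.log X ^ (2 : ℝ) ≤ |t|) → (∀ t ∈ E, ¬ AllS (al J) (Hs J) (Hs J * A J) (Hs J * B J) t) →
  ∫ t in E, ‖Aa X t‖ ^ 2 ≤ C * ε * X ^ 2

/-- ITEM Main (MEDIUM; assembly; uses StSq, StAs0, StAs1, StAsT, StLw).  Let `ε' = ε/(10 C)`, `h ≥ h0(ε')`, the levels from StSq, `X` large.  `J` = the largest `j` with `100 B_j ≤ log X` (`B_0` is fixed, `X` large, `B_j ≥ j`).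
`{|t| ≤ X/h}` is the union of `{|t| < (log X)²}`, `E_0 = {AllS at level 0}`, `E_{j+1} = {not AllS at level j, AllS at level j+1}` for `j < J`, and `U = {|t| ≥ (log X)², not AllS at level J}` (take the
first `j ≤ J` for which `AllS` holds at level `j`, if there is one).  The sets are measurable (`Pb` is continuous).  Add: StLw, StAs0, StAs1 (`j < J`: `e^{4B_{j+1}} ≤ X` as `B` is increasing by `AB`, `mono`), StAsT: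
`≤ X² (log X)^{-1} + C X² (∑_j (1/W_j + 1/H_j) + ε' (1 + ∑ 2^{-j-1}) + ε') ≤ ε X²`. -/
def StMain : Prop := ∀ ε : ℝ, 0 < ε → ε ≤ 1 → ∃ h0 : ℝ, 3 ≤ h0 ∧ ∀ h : ℝ, h0 ≤ h → ∃ X0 : ℝ, 1 ≤ X0 ∧ ∀ X : ℝ, X0 ≤ X →
  ∫ t in {t : ℝ | |t| ≤ X / h}, ‖Aa X t‖ ^ 2 ≤ ε * X ^ 2

/-- ITEM Cc (EASY-MEDIUM; `theorem iCc (h1 : StMain) (h2 : StTl) (h3 : StQF) : StCc`).  Let `ε ≤ 1` and `C` from StTl; `R ≥ 1` with `6 C e^{-R²/2} ≤ ε/2`, `h = R h1` with `h1 = h0(ε/2)` (StMain).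
For `|t| ≤ X/h1` the Gaussian factor is at most one: StMain.  For `|t| > X/h1 = R · X/h`: StTl with `T = X/h`, `U = X/h1`, `Y = ⌊2X⌋`, `a_n = λ(n)` for `X < n`, else `0` (`Aa X t = Dp Y a t`): at most
`C e^{-R²/2} (X/h + 2X)(X + 1) ≤ 6 C e^{-R²/2} X²`.  (Integrability: StQF.) -/
def StCc : Prop := StL2

end Pool.Agent.Work.MP_a8fbd7_nt.PAR.MR
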