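import Mathlib
import Pool.Agent.Work.MP_a8fbd7_nt.PAR.MR.StmtsA

/-!
Block MR, item Lv2: a higher level, one pair of blocks.
-/

set_option autoImplicit false

open MeasureTheory Set

noncomputable section

namespace Pool.Agent.Work.MP_a8fbd7_nt.PAR.MR

namespace XLv2

theorem cont_term (n : ℕ) (hn : 1 ≤ n) :
    Continuous fun t : ℝ => (n : ℂ) ^ (-((t : ℂ) * Complex.I)) := by
  refine Continuous.const_cpow (by fun_prop) (Or.inl ?_)
  exact_mod_cast (by omega : n ≠ 0)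

theorem cont_Sp (S : Finset ℕ) (c : ℕ → ℂ) (hS : ∀ n ∈ S, 1 ≤ n) : Continuous fun t : ℝ => Sp S c t := by
  unfold Sp
  exact continuous_finsetSum _ fun n hn => continuous_const.mul (cont_term n (hS n hn))

theorem Pb_eq (H v : ℕ) (t : ℝ) : Pb H v t = Sp (rg H v) (fun _ => 1) t := by
  unfold Pb Sp
  exact Finset.sum_congr rfl fun n _ => by rw [one_mul]

theorem lam_le (n : ℕ) : ‖((lam n : ℝ) : ℂ)‖ ≤ 1 := by
  rw [Complex.norm_real, Real.norm_eq_abs]
  unfold lam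
  by_cases hn : n = 0
  · rw [hn]
    simp
  · rw [ArithmeticFunction.liouville_apply hn]
    push_cast
    rw [abs_pow, abs_neg, abs_one, one_pow]

theorem rg_pos (H v n : ℕ) (hn : n ∈ rg H v) : 1 ≤ n := by
  unfold rg at hn
  exact (Finset.mem_Icc.1 (Finset.mem_filter.1 hn).1).1

/-- the product of the exponential factors -/
theorem expo (a b α β l : ℝ) (hla : a ≤ l * b) (hβα : β ≤ α) (hα : α ≤ 1 / 2) :
    2 * (1 - α) * a + -(2 * l * (1 - β) * b) + -a + l * b ≤ -(2 * (α - β) * a) := by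
  nlinarith [mul_nonneg (sub_nonneg.2 hla) (by linarith : (0 : ℝ) ≤ 1 - 2 * β)]

end XLv2

open XLv2 in
theorem iLv2 (h1 : StMV) (h2 : StCf) (h3 : StBc) : StLv2 := by
  obtain ⟨C, hC, hMV⟩ := h1
  refine ⟨6 * C, by linarith, ?_⟩
  intro X α β H K v r E hX hH hK hβ0 hβα hα hz hrv hyX hE hEX hsm hnsm
  set a : ℝ := (v : ℝ) / H with ha
  set b : ℝ := (r : ℝ) / K with hb
  have hb0 : 0 < b := by
    by_contra h
    push Not at h
    have h4 := Real.exp_le_one_iff.2 h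
    linarith
  have hab : b ≤ a := hrv
  have ha0 : 0 < a := lt_of_lt_of_le hb0 hab
  have hq : 1 ≤ a / b := by rw [le_div_iff₀ hb0]; linarith
  set l : ℕ := ⌈a / b⌉₊ with hl
  have hl1 : a / b ≤ l := Nat.le_ceil _
  have hl2 : (l : ℝ) < a / b + 1 := Nat.ceil_lt_add_one (by linarith)
  have hla : a ≤ l * b := by
    rw [div_le_iff₀ hb0] at hl1
    exact hl1
  have hlb : (l : ℝ) * b ≤ a + b := by
    have h4 : (l : ℝ) * b ≤ (a / b + 1) * b := by
      apply mul_le_mul_of_nonneg_right hl2.le hb0.le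
    rw [add_mul, div_mul_cancel₀ _ hb0.ne', one_mul] at h4
    exact h4
  set z : ℝ := Real.exp b with hzd
  have hz1 : 1 ≤ z := by linarith
  set U : ℝ := 2 * X * Real.exp (-a) with hU
  have hX0 : 0 < X := by linarith
  have hU1 : 1 ≤ U := by
    have h4 : 1 ≤ X * Real.exp (-a) := by
      rw [Real.exp_neg, ← div_eq_mul_inv, le_div_iff₀ (Real.exp_pos _), one_mul]
      exact hyX
    rw [hU]
    linarith
  set M : Finset ℕ := Finset.Ioc ⌊X * Real.exp (-a)⌋₊ ⌊2 * X * Real.exp (-a)⌋₊ with hM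
  have hMm : ∀ m ∈ M, 1 ≤ m ∧ (m : ℝ) ≤ U := by
    intro m hm
    rw [hM, Finset.mem_Ioc] at hm
    refine ⟨by omega, ?_⟩
    exact (Nat.le_floor_iff (by linarith)).1 hm.2
  obtain ⟨hBc1, hBc2⟩ := h3 K r hK hz
  obtain ⟨S, c, hSc, hSn, hSs⟩ := h2 (rg K r) M (fun m => ((lam m : ℝ) : ℂ)) z
    (Real.exp (1 / K) * z) U l hz1 hU1 hBc2 hBc1 hMm lam_le
  have hMb : ∀ t, Mb X H v t = Sp M (fun m => ((lam m : ℝ) : ℂ)) t := fun t => rfl
  have hcS : Continuous fun t : ℝ => Sp S c t := cont_Sp S c fun n hn => (hSn n hn).1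
  have hcP : Continuous fun t : ℝ => Pb H v t := by
    have : (fun t : ℝ => Pb H v t) = fun t => Sp (rg H v) (fun _ => 1) t := funext fun t => Pb_eq H v t
    rw [this]
    exact cont_Sp _ _ fun n hn => rg_pos H v n hn
  have hcM : Continuous fun t : ℝ => Mb X H v t := cont_Sp M _ fun n hn => (hMm n hn).1
  have hIcc : {t : ℝ | |t| ≤ X} = Icc (-X) X := by
    ext t
    rw [Set.mem_ofPred_eq, Set.mem_Icc, abs_le]
  have hint : ∀ f : ℝ → ℝ, Continuous f → IntegrableOn f E := by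
    intro f hf
    have h4 : IntegrableOn f (Icc (-X) X) := hf.integrableOn_Icc
    exact h4.mono_set (by rw [← hIcc]; exact hEX)
  set κ : ℝ := Real.exp (2 * (1 - α) * a) * Real.exp (-(2 * l * (1 - β) * b)) with hκ
  have hκ0 : 0 < κ := by positivity
  -- pointwise bound
  have hpt : ∀ t ∈ E, ‖Pb H v t * Mb X H v t‖ ^ 2 ≤ κ * ‖Sp S c t‖ ^ 2 := by
    intro t ht
    have h4 : ‖Pb H v t‖ ≤ Real.exp ((1 - α) * a) := hsm t ht
    have h5 : Real.exp ((1 - β) * b) < ‖Pb K r t‖ := not_le.1 (hnsm t ht)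
    rw [← hSc t, ← Pb_eq, ← hMb, norm_mul, norm_mul, norm_pow, mul_pow, mul_pow, ← pow_mul]
    have h6 : ‖Pb H v t‖ ^ 2 ≤ Real.exp (2 * (1 - α) * a) := by
      calc ‖Pb H v t‖ ^ 2 ≤ Real.exp ((1 - α) * a) ^ 2 := by gcongr
        _ = Real.exp (2 * (1 - α) * a) := by
          rw [← Real.exp_nat_mul]
          congr 1
          push_cast
          ring
    have h7 : 1 ≤ Real.exp (-(2 * l * (1 - β) * b)) * ‖Pb K r t‖ ^ (l * 2) := by
      have h8 : Real.exp (2 * l * (1 - β) * b) ≤ ‖Pb K r t‖ ^ (l * 2) := by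
        calc Real.exp (2 * l * (1 - β) * b) = Real.exp ((1 - β) * b) ^ (l * 2) := by
              rw [← Real.exp_nat_mul]
              congr 1
              push_cast
              ring
          _ ≤ ‖Pb K r t‖ ^ (l * 2) := by gcongr
      rw [Real.exp_neg, ← div_eq_inv_mul, le_div_iff₀ (Real.exp_pos _), one_mul]
      exact h8
    calc ‖Pb H v t‖ ^ 2 * ‖Mb X H v t‖ ^ 2
        ≤ Real.exp (2 * (1 - α) * a) * ‖Mb X H v t‖ ^ 2 := by gcongr
      _ = Real.exp (2 * (1 - α) * a) * 1 * ‖Mb X H v t‖ ^ 2 := by rw [mul_one]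
      _ ≤ Real.exp (2 * (1 - α) * a) * (Real.exp (-(2 * l * (1 - β) * b)) *
            ‖Pb K r t‖ ^ (l * 2)) * ‖Mb X H v t‖ ^ 2 := by gcongr
      _ = κ * (‖Pb K r t‖ ^ (l * 2) * ‖Mb X H v t‖ ^ 2) := by
          rw [hκ]
          ring
  have hI1 : ∫ t in E, ‖Pb H v t * Mb X H v t‖ ^ 2 ≤ ∫ t in E, κ * ‖Sp S c t‖ ^ 2 :=
    setIntegral_mono_on (hint _ ((hcP.mul hcM).norm.pow 2)) (hint _ (continuous_const.mul (hcS.norm.pow 2)))
      hE hpt
  have hI2 : ∫ t in E, κ * ‖Sp S c t‖ ^ 2 ≤ ∫ t in {t : ℝ | |t| ≤ X}, κ * ‖Sp S c t‖ ^ 2 := by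
    refine setIntegral_mono_set ?_ ?_ ?_
    · rw [hIcc]
      exact (continuous_const.mul (hcS.norm.pow 2)).integrableOn_Icc
    · exact Filter.Eventually.of_forall fun t => by positivity
    · exact LE.le.eventuallyLE hEX
  set N : ℝ := (Real.exp (1 / K) * z) ^ l * U with hN
  have hNexp : N = 2 * X * Real.exp (l * (1 / K) + l * b - a) := by
    rw [hN, hU, mul_pow, ← Real.exp_nat_mul, hzd, ← Real.exp_nat_mul, sub_eq_add_neg,
      Real.exp_add, Real.exp_add]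
    ring
  have hKr : (1 : ℝ) / K ≤ 1 := by
    rw [div_le_one (by exact_mod_cast (by omega : 0 < K))]
    exact_mod_cast (by omega : 1 ≤ K)
  have hK0 : (0 : ℝ) ≤ 1 / K := by positivity
  have hN1 : 1 ≤ N := by
    have h4 : 1 ≤ (Real.exp (1 / K) * z) ^ l := by
      apply one_le_pow₀
      calc (1 : ℝ) = 1 * 1 := (one_mul 1).symm
        _ ≤ Real.exp (1 / K) * z := mul_le_mul (Real.one_le_exp hK0) hz1 zero_le_one (Real.exp_pos _).le
    calc (1 : ℝ) = 1 * 1 := (one_mul 1).symm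
      _ ≤ (Real.exp (1 / K) * z) ^ l * U := mul_le_mul h4 hU1 zero_le_one (by positivity)
  have hN2 : X + N ≤ 3 * Real.exp l * z * X := by
    have h4 : N ≤ 2 * X * Real.exp (l + b) := by
      rw [hNexp]
      have h5 : (l : ℝ) * (1 / K) ≤ l := by
        calc (l : ℝ) * (1 / K) ≤ l * 1 := by gcongr
          _ = l := mul_one _
      have h6 : (l : ℝ) * (1 / K) + l * b - a ≤ l + b := by linarith
      gcongr
    have h5 : Real.exp (l + b) = Real.exp l * z := by rw [Real.exp_add]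
    have h6 : 1 ≤ Real.exp l * z := by
      calc (1 : ℝ) = 1 * 1 := (one_mul 1).symm
        _ ≤ Real.exp l * z := mul_le_mul (Real.one_le_exp (Nat.cast_nonneg l)) hz1 zero_le_one (Real.exp_pos _).le
    rw [h5] at h4
    have h7 : X * 1 ≤ X * (Real.exp l * z) := by gcongr
    calc X + N ≤ X * (Real.exp l * z) + 2 * X * (Real.exp l * z) := by linarith
      _ = 3 * Real.exp l * z * X := by ring
  have hI3 := hMV S c X N hX0.le hN1 hSn
  have hsum0 : 0 ≤ ∑ n ∈ S, ‖c n‖ ^ 2 := Finset.sum_nonneg fun _ _ => by positivity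
  have hI4 : ∫ t in {t : ℝ | |t| ≤ X}, ‖Sp S c t‖ ^ 2 ≤
      C * (3 * Real.exp l * z * X) * (U * z ^ l * ((l : ℝ) + 1) ^ l) := by
    refine hI3.trans ?_
    have h4 : 0 ≤ X + N := by linarith
    gcongr
  have hI5 : ∫ t in E, ‖Pb H v t * Mb X H v t‖ ^ 2 ≤
      κ * (C * (3 * Real.exp l * z * X) * (U * z ^ l * ((l : ℝ) + 1) ^ l)) := by
    refine (hI1.trans hI2).trans ?_
    rw [integral_const_mul]
    gcongr
  refine hI5.trans ?_
  -- the factor with the exponentials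
  have hzl : z ^ l = Real.exp (l * b) := by rw [hzd, ← Real.exp_nat_mul]
  have hE1 : κ * Real.exp (-a) * Real.exp (l * b) ≤ Real.exp (-(2 * (α - β) * a)) := by
    rw [hκ, ← Real.exp_add, ← Real.exp_add, ← Real.exp_add]
    exact Real.exp_le_exp.2 (expo a b α β l hla hβα hα)
  have hbase : (1 : ℝ) ≤ 3 * (a / b + 2) := by linarith
  have hE2 : Real.exp l * ((l : ℝ) + 1) ^ l ≤ (3 * (a / b + 2)) ^ (a / b + 1) := by
    have h4 : Real.exp (l : ℝ) = Real.exp 1 ^ l := by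
      rw [← Real.exp_nat_mul, mul_one]
    rw [h4, ← mul_pow]
    have h5 : Real.exp 1 * ((l : ℝ) + 1) ≤ 3 * (a / b + 2) := by
      have h6 : Real.exp 1 ≤ 3 := by linarith [Real.exp_one_lt_d9]
      have h7 : (l : ℝ) + 1 ≤ a / b + 2 := by linarith
      exact mul_le_mul h6 h7 (by positivity) (by norm_num)
    calc (Real.exp 1 * ((l : ℝ) + 1)) ^ l ≤ (3 * (a / b + 2)) ^ l := by gcongr
      _ = (3 * (a / b + 2)) ^ (l : ℝ) := (Real.rpow_natCast _ _).symm
      _ ≤ (3 * (a / b + 2)) ^ (a / b + 1) := Real.rpow_le_rpow_of_exponent_le hbase hl2.le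
  calc κ * (C * (3 * Real.exp l * z * X) * (U * z ^ l * ((l : ℝ) + 1) ^ l))
      = 6 * C * X ^ 2 * (z * (Real.exp l * ((l : ℝ) + 1) ^ l) *
          (κ * Real.exp (-a) * Real.exp (l * b))) := by
        rw [hzl, hU]
        ring
    _ ≤ 6 * C * X ^ 2 * (z * (3 * (a / b + 2)) ^ (a / b + 1) * Real.exp (-(2 * (α - β) * a))) := by
        have h4 : 0 ≤ 6 * C * X ^ 2 := by positivity
        refine mul_le_mul_of_nonneg_left ?_ h4
        refine mul_le_mul ?_ hE1 (by positivity) (by positivity)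
        gcongr

end Pool.Agent.Work.MP_a8fbd7_nt.PAR.MR
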