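import Mathlib
import Pool.Agent.Work.MP_a8fbd7_nt.PAR.MR.StmtsA
import Pool.Agent.Work.MP_a8fbd7_nt.PAR.MR.I_Lv2

/-!
Block MR, item Lv1: level zero.
-/

set_option autoImplicit false

open MeasureTheory Set

noncomputable section

namespace Pool.Agent.Work.MP_a8fbd7_nt.PAR.MR

namespace XLv1

/-- one block -/
theorem block {C : ℝ} (hC : 1 ≤ C) (hMV : ∀ (S : Finset ℕ) (a : ℕ → ℂ) (T N : ℝ), 0 ≤ T → 1 ≤ N →
    (∀ n ∈ S, 1 ≤ n ∧ (n : ℝ) ≤ N) →
    ∫ t in {t : ℝ | |t| ≤ T}, ‖Sp S a t‖ ^ 2 ≤ C * (T + N) * ∑ n ∈ S, ‖a n‖ ^ 2)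
    (X T : ℝ) (H v v1 : ℕ) (hX : 1 ≤ X) (hT : 0 ≤ T) (hv : v < v1)
    (hTX : T * Real.exp ((v1 : ℝ) / H) ≤ X) (hX1 : Real.exp ((v1 : ℝ) / H) ≤ X) :
    (Continuous fun t : ℝ => Mb X H v t) ∧
    ∫ t in {t : ℝ | |t| ≤ T}, ‖Mb X H v t‖ ^ 2 ≤
      6 * C * (X ^ 2 * Real.exp (-(2 * ((v : ℝ) / H)))) := by
  have hle : (v : ℝ) / H ≤ (v1 : ℝ) / H := by
    have : (v : ℝ) ≤ v1 := by exact_mod_cast hv.le
    exact div_le_div_of_nonneg_right this (Nat.cast_nonneg _)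
  set a : ℝ := (v : ℝ) / H with ha
  have hX0 : 0 < X := by linarith
  have hya : Real.exp a ≤ X := le_trans (Real.exp_le_exp.2 hle) hX1
  set N : ℝ := 2 * X * Real.exp (-a) with hN
  have hN1 : 1 ≤ N := by
    have h4 : 1 ≤ X * Real.exp (-a) := by
      rw [Real.exp_neg, ← div_eq_mul_inv, le_div_iff₀ (Real.exp_pos _), one_mul]
      exact hya
    rw [hN]
    linarith
  set M : Finset ℕ := Finset.Ioc ⌊X * Real.exp (-a)⌋₊ ⌊2 * X * Real.exp (-a)⌋₊ with hM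
  have hMm : ∀ m ∈ M, 1 ≤ m ∧ (m : ℝ) ≤ N := by
    intro m hm
    rw [hM, Finset.mem_Ioc] at hm
    refine ⟨by omega, ?_⟩
    exact (Nat.le_floor_iff (by linarith)).1 hm.2
  have hMb : ∀ t, Mb X H v t = Sp M (fun m => ((lam m : ℝ) : ℂ)) t := fun t => rfl
  refine ⟨XLv2.cont_Sp M _ fun n hn => (hMm n hn).1, ?_⟩
  have hTN : T ≤ N / 2 := by
    have h5 : T ≤ X * Real.exp (-a) := by
      rw [Real.exp_neg, ← div_eq_mul_inv, le_div_iff₀ (Real.exp_pos _)]
      exact le_trans (mul_le_mul_of_nonneg_left (Real.exp_le_exp.2 hle) hT) hTX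
    rw [hN]
    linarith
  have h6 := hMV M (fun m => ((lam m : ℝ) : ℂ)) T N hT hN1 hMm
  have h7 : ∑ n ∈ M, ‖((lam n : ℝ) : ℂ)‖ ^ 2 ≤ N := by
    calc ∑ n ∈ M, ‖((lam n : ℝ) : ℂ)‖ ^ 2 ≤ ∑ n ∈ M, (1 : ℝ) := by
          apply Finset.sum_le_sum
          intro n _
          have := XLv2.lam_le n
          have h0 := norm_nonneg ((lam n : ℝ) : ℂ)
          nlinarith
      _ = (M.card : ℝ) := by simp
      _ ≤ (⌊N⌋₊ : ℝ) := by
          rw [hM, Nat.card_Ioc]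
          exact_mod_cast Nat.sub_le _ _
      _ ≤ N := Nat.floor_le (by linarith)
  calc ∫ t in {t : ℝ | |t| ≤ T}, ‖Mb X H v t‖ ^ 2
      ≤ C * (T + N) * ∑ n ∈ M, ‖((lam n : ℝ) : ℂ)‖ ^ 2 := h6
    _ ≤ C * (N / 2 + N) * N := by
        apply mul_le_mul
        · apply mul_le_mul_of_nonneg_left _ (by linarith)
          linarith
        · exact h7
        · exact Finset.sum_nonneg fun _ _ => by positivity
        · have : 0 ≤ C := by linarith
          have : 0 ≤ N := by linarith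
          positivity
    _ = 6 * C * (X ^ 2 * (Real.exp (-a) * Real.exp (-a))) := by
        rw [hN]
        ring
    _ = 6 * C * (X ^ 2 * Real.exp (-(2 * a))) := by
        rw [← Real.exp_add]
        congr 3
        ring_nf

end XLv1

theorem iLv1 (h1 : StMV) : StLv1 := by
  obtain ⟨C, hC, hMV⟩ := h1
  refine ⟨6 * C, by linarith, ?_⟩
  intro X T α H v0 v1 E hX hT hH hv hTX hX1 hα0 hα1 hE hET hsm
  have hblk := fun v (hv : v < v1) => XLv1.block hC hMV X T H v v1 hX hT hv hTX hX1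
  have hIcc : {t : ℝ | |t| ≤ T} = Icc (-T) T := by
    ext t
    rw [Set.mem_ofPred_eq, Set.mem_Icc, abs_le]
  have hcP : ∀ v, Continuous fun t : ℝ => Pb H v t := by
    intro v
    have : (fun t : ℝ => Pb H v t) = fun t => Sp (rg H v) (fun _ => 1) t :=
      funext fun t => XLv2.Pb_eq H v t
    rw [this]
    exact XLv2.cont_Sp _ _ fun n hn => XLv2.rg_pos H v n hn
  have hcM : ∀ v ∈ Finset.Ico v0 v1, Continuous fun t : ℝ => Mb X H v t := fun v hv =>
    (hblk v (Finset.mem_Ico.1 hv).2).1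
  have hcB : Continuous fun t : ℝ => Bs X H v0 v1 t := by
    unfold Bs
    exact continuous_finsetSum _ fun v hv => (hcP v).mul (hcM v hv)
  have hintT : ∀ f : ℝ → ℝ, Continuous f → IntegrableOn f {t : ℝ | |t| ≤ T} := by
    intro f hf
    rw [hIcc]
    exact hf.integrableOn_Icc
  set n : ℝ := ((v1 - v0 : ℕ) : ℝ) with hn
  set κ : ℕ → ℝ := fun v => Real.exp (2 * (1 - α) * ((v : ℝ) / H)) with hκ
  set G : ℝ → ℝ := fun t => n * ∑ v ∈ Finset.Ico v0 v1, κ v * ‖Mb X H v t‖ ^ 2 with hG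
  have hn0 : 0 ≤ n := Nat.cast_nonneg _
  have hκ0 : ∀ v, 0 ≤ κ v := fun v => (Real.exp_pos _).le
  have hcG : Continuous G := by
    rw [hG]
    exact continuous_const.mul (continuous_finsetSum _ fun v hv =>
      continuous_const.mul ((hcM v hv).norm.pow 2))
  have hG0 : ∀ t, 0 ≤ G t := fun t => mul_nonneg hn0
    (Finset.sum_nonneg fun v _ => mul_nonneg (hκ0 v) (by positivity))
  have hpt : ∀ t ∈ E, ‖Bs X H v0 v1 t‖ ^ 2 ≤ G t := by
    intro t ht
    have hs := hsm t ht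
    have e1 : ‖Bs X H v0 v1 t‖ ≤ ∑ v ∈ Finset.Ico v0 v1, ‖Pb H v t * Mb X H v t‖ :=
      norm_sum_le _ _
    calc ‖Bs X H v0 v1 t‖ ^ 2 ≤ (∑ v ∈ Finset.Ico v0 v1, ‖Pb H v t * Mb X H v t‖) ^ 2 := by
          gcongr
      _ ≤ ((Finset.Ico v0 v1).card : ℝ) *
          ∑ v ∈ Finset.Ico v0 v1, ‖Pb H v t * Mb X H v t‖ ^ 2 := sq_sum_le_card_mul_sum_sq
      _ ≤ n * ∑ v ∈ Finset.Ico v0 v1, κ v * ‖Mb X H v t‖ ^ 2 := by
          rw [Nat.card_Ico]
          apply mul_le_mul_of_nonneg_left _ hn0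
          apply Finset.sum_le_sum
          intro v hv
          rw [Finset.mem_Ico] at hv
          rw [norm_mul, mul_pow]
          apply mul_le_mul_of_nonneg_right _ (by positivity)
          have h4 : ‖Pb H v t‖ ≤ Real.exp ((1 - α) * ((v : ℝ) / H)) := hs v hv.1 hv.2
          calc ‖Pb H v t‖ ^ 2 ≤ Real.exp ((1 - α) * ((v : ℝ) / H)) ^ 2 := by gcongr
            _ = κ v := by
              rw [hκ, ← Real.exp_nat_mul]
              congr 1
              push_cast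
              ring
      _ = G t := rfl
  have hstep1 : ∫ t in E, ‖Bs X H v0 v1 t‖ ^ 2 ≤ ∫ t in E, G t :=
    setIntegral_mono_on ((hintT _ (hcB.norm.pow 2)).mono_set hET) ((hintT _ hcG).mono_set hET)
      hE hpt
  have hstep2 : ∫ t in E, G t ≤ ∫ t in {t : ℝ | |t| ≤ T}, G t :=
    setIntegral_mono_set (hintT _ hcG) (Filter.Eventually.of_forall hG0)
      (LE.le.eventuallyLE hET)
  have hstep3 : ∫ t in {t : ℝ | |t| ≤ T}, G t =
      n * ∑ v ∈ Finset.Ico v0 v1, κ v * ∫ t in {t : ℝ | |t| ≤ T}, ‖Mb X H v t‖ ^ 2 := by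
    rw [hG, integral_const_mul, integral_finsetSum]
    · congr 1
      exact Finset.sum_congr rfl fun v _ => integral_const_mul _ _
    · intro v hv
      exact hintT _ (continuous_const.mul ((hcM v hv).norm.pow 2))
  have hH0 : (0 : ℝ) < H := by exact_mod_cast (by omega : 0 < H)
  have hterm : ∀ v ∈ Finset.Ico v0 v1, κ v * ∫ t in {t : ℝ | |t| ≤ T}, ‖Mb X H v t‖ ^ 2 ≤
      6 * C * (X ^ 2 * Real.exp (-(2 * α * ((v0 : ℝ) / H)))) := by
    intro v hv
    rw [Finset.mem_Ico] at hv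
    have h5 := (hblk v hv.2).2
    calc κ v * ∫ t in {t : ℝ | |t| ≤ T}, ‖Mb X H v t‖ ^ 2
        ≤ κ v * (6 * C * (X ^ 2 * Real.exp (-(2 * ((v : ℝ) / H))))) :=
          mul_le_mul_of_nonneg_left h5 (hκ0 v)
      _ = 6 * C * (X ^ 2 * (Real.exp (2 * (1 - α) * ((v : ℝ) / H)) *
            Real.exp (-(2 * ((v : ℝ) / H))))) := by
          rw [hκ]
          ring
      _ = 6 * C * (X ^ 2 * Real.exp (-(2 * α * ((v : ℝ) / H)))) := by
          rw [← Real.exp_add]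
          congr 3
          ring
      _ ≤ _ := by
          apply mul_le_mul_of_nonneg_left _ (by linarith)
          apply mul_le_mul_of_nonneg_left _ (by positivity)
          apply Real.exp_le_exp.2
          have h6 : (v0 : ℝ) / H ≤ (v : ℝ) / H := by
            have : (v0 : ℝ) ≤ v := by exact_mod_cast hv.1
            exact div_le_div_of_nonneg_right this hH0.le
          have h7 := mul_le_mul_of_nonneg_left h6 (by linarith : 0 ≤ 2 * α)
          linarith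
  have hnv : n ≤ v1 := by
    rw [hn]
    exact_mod_cast Nat.sub_le _ _
  calc ∫ t in E, ‖Bs X H v0 v1 t‖ ^ 2
      ≤ n * ∑ v ∈ Finset.Ico v0 v1, κ v * ∫ t in {t : ℝ | |t| ≤ T}, ‖Mb X H v t‖ ^ 2 := by
        rw [← hstep3]
        exact hstep1.trans hstep2
    _ ≤ n * ∑ v ∈ Finset.Ico v0 v1, 6 * C * (X ^ 2 * Real.exp (-(2 * α * ((v0 : ℝ) / H)))) :=
        mul_le_mul_of_nonneg_left (Finset.sum_le_sum hterm) hn0
    _ = n ^ 2 * (6 * C * (X ^ 2 * Real.exp (-(2 * α * ((v0 : ℝ) / H))))) := by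
        rw [Finset.sum_const, Nat.card_Ico, nsmul_eq_mul]
        ring
    _ ≤ (v1 : ℝ) ^ 2 * (6 * C * (X ^ 2 * Real.exp (-(2 * α * ((v0 : ℝ) / H))))) := by
        apply mul_le_mul_of_nonneg_right
        · gcongr
        · have : 0 ≤ C := by linarith
          positivity
    _ = 6 * C * ((v1 : ℝ) ^ 2 * Real.exp (-(2 * α * ((v0 : ℝ) / H))) * X ^ 2) := by ring

end Pool.Agent.Work.MP_a8fbd7_nt.PAR.MR
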