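import Pool.Agent.Work.MP_a8fbd7_nt.PAR.MR.StmtsA
import Pool.Agent.Work.MP_a8fbd7_nt.PAR.Lio2

/-!
# Item Lw: low frequencies
-/

set_option autoImplicit false

open MeasureTheory Set

noncomputable section

namespace Pool.Agent.Work.MP_a8fbd7_nt.PAR.MR

theorem iLw (h : ZF.StUn) : StLw := by
  obtain ⟨C, hC, h1⟩ := pr_Lit h 10 (by norm_num)
  have h32 : (32 : ℝ) ≤ 32 * C ^ 2 := by nlinarith
  refine ⟨Real.exp (32 * C ^ 2), ?_, fun X hX => ?_⟩
  · have := Real.add_one_le_exp (32 * C ^ 2)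
    linarith
  · have hexp := Real.add_one_le_exp (32 * C ^ 2)
    have hX0 : 0 < X := lt_of_lt_of_le (Real.exp_pos _) hX
    have hX2 : 2 ≤ X := by linarith
    set L := Real.log X with hLdef
    have hL : 32 * C ^ 2 ≤ L := by
      rw [hLdef, Real.le_log_iff_exp_le hX0]
      exact hX
    have hL1 : 1 ≤ L := by linarith
    have hset : {t : ℝ | |t| ≤ L ^ (2 : ℝ)} = Icc (-(L ^ 2)) (L ^ 2) := by
      have e2 : L ^ (2 : ℝ) = L ^ 2 := by exact_mod_cast Real.rpow_natCast L 2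
      ext t
      rw [e2, Set.mem_Icc, ← abs_le]
      exact Iff.rfl
    rw [hset]
    have hbound : ∀ t ∈ Icc (-(L ^ 2)) (L ^ 2), ‖‖Aa X t‖ ^ 2‖ ≤ 16 * C ^ 2 * X ^ 2 / L ^ 16 := by
      intro t ht
      have ht1 : |t| ≤ L ^ 2 := abs_le.mpr ht
      have h2 : ‖Aa X t‖ ≤ C * (1 + |t|) * (2 * X) / Real.log (2 * X) ^ (10 : ℝ) :=
        h1 X (2 * X) t (by linarith) hX0.le (by linarith)
      have hl2 : L ≤ Real.log (2 * X) := Real.log_le_log hX0 (by linarith)
      have hl3 : L ^ 10 ≤ Real.log (2 * X) ^ (10 : ℝ) := by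
        rw [show Real.log (2 * X) ^ (10 : ℝ) = Real.log (2 * X) ^ 10 by exact_mod_cast Real.rpow_natCast (Real.log (2 * X)) 10]
        exact pow_le_pow_left₀ (by linarith) hl2 10
      have h3 : ‖Aa X t‖ ≤ 4 * C * X / L ^ 8 := by
        refine le_trans h2 ?_
        have h4 : 1 + |t| ≤ 2 * L ^ 2 := by nlinarith
        calc C * (1 + |t|) * (2 * X) / Real.log (2 * X) ^ (10 : ℝ) ≤ C * (2 * L ^ 2) * (2 * X) / L ^ 10 := by gcongr
          _ = 4 * C * X / L ^ 8 := by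
            field_simp
            ring
      rw [Real.norm_eq_abs, abs_of_nonneg (by positivity)]
      calc ‖Aa X t‖ ^ 2 ≤ (4 * C * X / L ^ 8) ^ 2 := pow_le_pow_left₀ (norm_nonneg _) h3 2
        _ = _ := by
          field_simp
          ring
    have hint := norm_setIntegral_le_of_norm_le_const (μ := volume) (s := Icc (-(L ^ 2)) (L ^ 2)) (f := fun t => ‖Aa X t‖ ^ 2)
      (by simp) hbound
    have hvol : (volume : Measure ℝ).real (Icc (-(L ^ 2)) (L ^ 2)) = 2 * L ^ 2 := by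
      rw [Real.volume_real_Icc_of_le (by nlinarith)]
      ring
    rw [hvol] at hint
    refine le_trans (le_trans (Real.le_norm_self _) hint) ?_
    have hL16 : 0 < L ^ 16 := by positivity
    rw [div_mul_eq_mul_div, div_le_div_iff₀ hL16 (by linarith)]
    have h5 : 32 * C ^ 2 * L ^ 3 ≤ L ^ 16 := by
      have h6 : L ≤ L ^ 13 := by
        calc L = L ^ 1 := (pow_one L).symm
          _ ≤ L ^ 13 := pow_le_pow_right₀ hL1 (by norm_num)
      calc 32 * C ^ 2 * L ^ 3 ≤ L ^ 13 * L ^ 3 := by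
            gcongr
            linarith
        _ = L ^ 16 := by ring
    calc 16 * C ^ 2 * X ^ 2 * (2 * L ^ 2) * L = X ^ 2 * (32 * C ^ 2 * L ^ 3) := by ring
      _ ≤ X ^ 2 * L ^ 16 := by gcongr

end Pool.Agent.Work.MP_a8fbd7_nt.PAR.MR
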