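import Pool.Agent.Work.MP_a8fbd7_nt.PAR.MR.StmtsA

/-!
# MP_a8fbd7_nt, parity, block MR, item MV (mean value theorem for Dirichlet polynomials over a finite set)
-/

open MeasureTheory Set

noncomputable section

namespace Pool.Agent.Work.MP_a8fbd7_nt.PAR.MR

namespace XMV

open Pool.Agent.Work.MP_56b8f5_nt.UC (Dp)

/-- a sum over `S` as a Dirichlet polynomial -/
lemma Sp_eq (S : Finset ℕ) (a : ℕ → ℂ) (Y : ℕ) (hS : ∀ n ∈ S, 1 ≤ n ∧ n ≤ Y) (t : ℝ) :
    Sp S a t = Dp Y (fun n => if n ∈ S then a n else 0) t := by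
  unfold Sp Dp
  have hsub : S ⊆ Finset.Icc 1 Y := fun n hn => Finset.mem_Icc.2 (hS n hn)
  rw [← Finset.sum_subset hsub (f := fun n => (if n ∈ S then a n else 0) * (n : ℂ) ^ (-(t * Complex.I)))]
  · refine Finset.sum_congr rfl fun n hn => ?_
    simp only [if_pos hn]
  · intro n _ hn
    simp only [if_neg hn, zero_mul]

lemma norm_sum_eq (S : Finset ℕ) (a : ℕ → ℂ) (Y : ℕ) (hS : ∀ n ∈ S, 1 ≤ n ∧ n ≤ Y) :
    ∑ n ∈ Finset.Icc 1 Y, ‖(fun n => if n ∈ S then a n else 0) n‖ ^ 2 = ∑ n ∈ S, ‖a n‖ ^ 2 := by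
  have hsub : S ⊆ Finset.Icc 1 Y := fun n hn => Finset.mem_Icc.2 (hS n hn)
  rw [← Finset.sum_subset hsub (f := fun n => ‖(fun n => if n ∈ S then a n else 0) n‖ ^ 2)]
  · refine Finset.sum_congr rfl fun n hn => ?_
    simp only [if_pos hn]
  · intro n _ hn
    simp only [if_neg hn, norm_zero]
    norm_num

end XMV

/-- ITEM MV -/
theorem iMV (h1 : StGL) : StMV := by
  obtain ⟨C, hC, h⟩ := h1
  refine ⟨C, hC, fun S a T N hT hN hS => ?_⟩
  have hS' : ∀ n ∈ S, 1 ≤ n ∧ n ≤ ⌊N⌋₊ := fun n hn =>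
    ⟨(hS n hn).1, Nat.le_floor (hS n hn).2⟩
  have hsum : 0 ≤ ∑ n ∈ S, ‖a n‖ ^ 2 := Finset.sum_nonneg fun n _ => by positivity
  rcases hT.eq_or_lt with h0 | hpos
  · have hset : {t : ℝ | |t| ≤ T} = {0} := by
      ext t
      simp only [mem_setOf_eq, mem_singleton_iff, ← h0]
      constructor
      · intro ht
        exact abs_eq_zero.1 (le_antisymm ht (abs_nonneg t))
      · rintro rfl
        simp
    rw [hset]
    simp only [Measure.restrict_singleton, Real.volume_singleton, zero_smul, integral_zero_measure]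
    have : 0 ≤ T + N := by linarith
    positivity
  · have h2 := h T ⌊N⌋₊ (fun n => if n ∈ S then a n else 0) hpos
    rw [XMV.norm_sum_eq S a ⌊N⌋₊ hS'] at h2
    have h3 : ∀ t : ℝ, ‖Sp S a t‖ ^ 2 =
        ‖Pool.Agent.Work.MP_56b8f5_nt.UC.Dp ⌊N⌋₊ (fun n => if n ∈ S then a n else 0) t‖ ^ 2 := fun t => by
      rw [XMV.Sp_eq S a ⌊N⌋₊ hS' t]
    simp only [h3]
    refine h2.trans ?_
    refine mul_le_mul_of_nonneg_right ?_ hsum
    refine mul_le_mul_of_nonneg_left ?_ (by linarith)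
    have := Nat.floor_le (show (0 : ℝ) ≤ N by linarith)
    linarith

end Pool.Agent.Work.MP_a8fbd7_nt.PAR.MR
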