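import Pool.Agent.Work.MP_a8fbd7_nt.PAR.MR.StmtsA

/-!
# MP_a8fbd7_nt, parity, block MR, item Main: assembly of the levels
-/

set_option autoImplicit false

open MeasureTheory Set

noncomputable section

namespace Pool.Agent.Work.MP_a8fbd7_nt.PAR.MR

namespace XMain

theorem Pb_cont (H v : ℕ) : Continuous (Pb H v) := by
  unfold Pb
  refine continuous_finsetSum _ fun p hp => ?_
  have hp0 : (p : ℂ) ≠ 0 := by
    have := ((Finset.mem_filter.1 hp).2.1).ne_zero
    exact_mod_cast this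
  refine Continuous.const_cpow ?_ (Or.inl hp0)
  fun_prop

theorem Aa_cont (X : ℝ) : Continuous (Aa X) := by
  unfold Aa
  refine continuous_finsetSum _ fun n hn => ?_
  have hn0 : (n : ℂ) ≠ 0 := by
    have h1 := (Finset.mem_Ioc.1 hn).1
    have h2 : n ≠ 0 := by omega
    exact_mod_cast h2
  refine continuous_const.mul (Continuous.const_cpow ?_ (Or.inl hn0))
  fun_prop

/-- the good set of a level -/
def LL (A B Hs : ℕ → ℕ) (j : ℕ) : Set ℝ := {t | AllS (al j) (Hs j) (Hs j * A j) (Hs j * B j) t}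

theorem LL_meas (A B Hs : ℕ → ℕ) (j : ℕ) : MeasurableSet (LL A B Hs j) := by
  have e : LL A B Hs j = ⋂ v : ℕ, ⋂ (_ : Hs j * A j ≤ v), ⋂ (_ : v < Hs j * B j),
      {t | Small (al j) (Hs j) v t} := by
    ext t
    simp only [LL, AllS, mem_ofPred_eq, mem_iInter]
  rw [e]
  refine (isClosed_iInter fun v => isClosed_iInter fun _ => isClosed_iInter fun _ => ?_).measurableSet
  exact isClosed_le (Pb_cont _ _).norm continuous_const

/-- the function to be integrated -/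
def ff (X t : ℝ) : ℝ := ‖Aa X t‖ ^ 2

theorem ff_cont (X : ℝ) : Continuous (ff X) := (Aa_cont X).norm.pow 2

theorem ff_nonneg (X t : ℝ) : 0 ≤ ff X t := by unfold ff; positivity

theorem ff_int (X M : ℝ) (S : Set ℝ) (hS : S ⊆ {t : ℝ | |t| ≤ M}) :
    IntegrableOn (ff X) S := by
  have h1 : IntegrableOn (ff X) (Icc (-M) M) := (ff_cont X).continuousOn.integrableOn_Icc
  exact h1.mono_set fun t ht => abs_le.1 (hS ht)

theorem mono (X M : ℝ) (S T : Set ℝ) (hT : T ⊆ {t : ℝ | |t| ≤ M}) (hST : S ⊆ T) :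
    ∫ t in S, ff X t ≤ ∫ t in T, ff X t :=
  setIntegral_mono_set (ff_int X M T hT) (Filter.Eventually.of_forall fun t => ff_nonneg X t)
    (Filter.Eventually.of_forall hST)

theorem union (X M : ℝ) (S T : Set ℝ) (hS : S ⊆ {t : ℝ | |t| ≤ M}) (hT : T ⊆ {t : ℝ | |t| ≤ M})
    (hSm : MeasurableSet S) (hTm : MeasurableSet T) :
    ∫ t in S ∪ T, ff X t ≤ (∫ t in S, ff X t) + ∫ t in T, ff X t := by
  have e : S ∪ T = S ∪ (T \ S) := (union_sdiff_self).symm
  rw [e, setIntegral_union disjoint_sdiff_right (hTm.diff hSm) (ff_int X M S hS)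
    (ff_int X M _ (sdiff_subset.trans hT))]
  have := mono X M (T \ S) T hT sdiff_subset
  linarith

theorem B_mono {ε h : ℝ} {A B Hs : ℕ → ℕ} (hL : Lev ε h A B Hs) : Monotone B :=
  monotone_nat_of_le_succ fun j => (hL.mono j).trans (hL.AB (j + 1)).le

theorem geo (n : ℕ) : ∑ j ∈ Finset.range n, (1 : ℝ) / 2 ^ (j + 1) ≤ 1 := by
  have h1 : ∑ j ∈ Finset.range n, (1 : ℝ) / 2 ^ (j + 1) = 1 - 1 / 2 ^ n := by
    induction n with
    | zero => simp
    | succ n ih =>
      rw [Finset.sum_range_succ, ih]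
      rw [pow_succ]
      field_simp
      ring
  rw [h1]
  have : (0 : ℝ) ≤ 1 / 2 ^ n := by positivity
  linarith

end XMain

open XMain in
/-- item Main -/
theorem iMain (h1 : StSq) (h2 : StAs0) (h3 : StAs1) (h4 : StAsT) (h5 : StLw) : StMain := by
  obtain ⟨C0, hC0, h2⟩ := h2
  obtain ⟨C1, hC1, h3⟩ := h3
  obtain ⟨CT, hCT, h4⟩ := h4
  obtain ⟨XL, hXL, h5⟩ := h5
  intro ε hε hε1
  obtain ⟨C, hCd⟩ : ∃ C : ℝ, C = C0 + C1 + CT := ⟨_, rfl⟩
  have hC : 1 ≤ C := by rw [hCd]; linarith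
  obtain ⟨δ, hδd⟩ : ∃ δ : ℝ, δ = ε / (10 * C) := ⟨_, rfl⟩
  have hδ : 0 < δ := by rw [hδd]; positivity
  have hδ1 : δ ≤ 1 := by
    rw [hδd, div_le_one (by positivity)]
    linarith
  have hCδ : C * δ = ε / 10 := by
    rw [hδd]
    field_simp
  obtain ⟨h0, hh0, h1⟩ := h1 δ hδ hδ1
  obtain ⟨XT, hXT, h4⟩ := h4 δ hδ hδ1
  refine ⟨h0, hh0, fun h hh => ?_⟩
  obtain ⟨A, B, Hs, hL⟩ := h1 h hh
  have h3h : 3 ≤ h := hh0.trans hh
  have hB := B_mono hL
  obtain ⟨X0, hX0⟩ : ∃ X0 : ℝ, X0 = XL + XT + h ^ 4 + Real.exp (100 * (B 0 : ℝ)) + Real.exp (2 / ε) :=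
    ⟨_, rfl⟩
  have hp4 : h ≤ h ^ 4 := by
    have : (1 : ℝ) ≤ h ^ 3 := one_le_pow₀ (by linarith)
    nlinarith
  have hh4 : 0 < h ^ 4 := by positivity
  have he1 := Real.exp_pos (100 * (B 0 : ℝ))
  have he2 := Real.exp_pos (2 / ε)
  refine ⟨X0, by rw [hX0]; linarith, fun X hX => ?_⟩
  rw [hX0] at hX
  have hXXL : XL ≤ X := by linarith
  have hXXT : XT ≤ X := by linarith
  have hXh4 : h ^ 4 ≤ X := by linarith
  have hXh : h ≤ X := by linarith
  have hXpos : 0 < X := by linarith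
  have hXB : Real.exp (100 * (B 0 : ℝ)) ≤ X := by linarith
  have hXε : Real.exp (2 / ε) ≤ X := by linarith
  have hlog : 2 / ε ≤ Real.log X := (Real.le_log_iff_exp_le hXpos).2 hXε
  have hlogB : 100 * (B 0 : ℝ) ≤ Real.log X := (Real.le_log_iff_exp_le hXpos).2 hXB
  have hlogpos : 0 < Real.log X := lt_of_lt_of_le (by positivity) hlog
  -- the last level
  have hex : ∃ n : ℕ, Real.log X < 100 * (B n : ℝ) := by
    obtain ⟨n, hn⟩ := exists_nat_gt (Real.log X)
    refine ⟨n, ?_⟩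
    have h6 : (n : ℝ) ≤ B n := by exact_mod_cast hL.Bj n
    have h7 : (0 : ℝ) ≤ n := Nat.cast_nonneg n
    linarith
  classical
  obtain ⟨n, hn, hmin⟩ : ∃ n : ℕ, Real.log X < 100 * (B n : ℝ) ∧
      ∀ m < n, 100 * (B m : ℝ) ≤ Real.log X :=
    ⟨Nat.find hex, Nat.find_spec hex, fun m hm => not_lt.1 (Nat.find_min hex hm)⟩
  have hn0 : n ≠ 0 := by
    rintro rfl
    linarith
  obtain ⟨J, rfl⟩ : ∃ J, n = J + 1 := ⟨n - 1, by omega⟩
  have hJ : 100 * (B J : ℝ) ≤ Real.log X := hmin J (by omega)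
  have hexp : ∀ j < J, Real.exp (4 * (B (j + 1) : ℝ)) ≤ X := by
    intro j hj
    rw [← Real.le_log_iff_exp_le hXpos]
    have h6 : (B (j + 1) : ℝ) ≤ B J := by exact_mod_cast hB (by omega : j + 1 ≤ J)
    have h7 : (0 : ℝ) ≤ B J := Nat.cast_nonneg _
    linarith
  -- the sets
  obtain ⟨D, hD⟩ : ∃ D : Set ℝ, D = {t : ℝ | |t| ≤ X / h} := ⟨_, rfl⟩
  have hDm : MeasurableSet D := by
    rw [hD]
    exact (isClosed_le continuous_abs continuous_const).measurableSet
  obtain ⟨M, hM⟩ : ∃ M : ℝ, M = X / h + Real.log X ^ (2 : ℝ) := ⟨_, rfl⟩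
  have hXh0 : 0 ≤ X / h := by positivity
  have hl2 : 0 ≤ Real.log X ^ (2 : ℝ) := by positivity
  have hDM : D ⊆ {t : ℝ | |t| ≤ M} := by
    intro t ht
    rw [hD] at ht
    have h6 : |t| ≤ X / h := ht
    show |t| ≤ M
    rw [hM]; linarith
  obtain ⟨W, hW⟩ : ∃ W : ℕ → Set ℝ, ∀ n, W n = {t | t ∈ D ∧ ∃ j ≤ n, t ∈ LL A B Hs j} :=
    ⟨_, fun _ => rfl⟩
  have hWm : ∀ n, MeasurableSet (W n) := by
    intro n
    have e : W n = D ∩ ⋃ j : ℕ, ⋃ (_ : j ≤ n), LL A B Hs j := by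
      rw [hW]
      ext t
      simp only [mem_ofPred_eq, mem_inter_iff, mem_iUnion, exists_prop]
    rw [e]
    exact hDm.inter (MeasurableSet.iUnion fun j => MeasurableSet.iUnion fun _ => LL_meas A B Hs j)
  have hWD : ∀ n, W n ⊆ D := fun n t ht => by rw [hW] at ht; exact ht.1
  obtain ⟨w, hw⟩ : ∃ w : ℕ → ℝ, ∀ j, w j = 1 / Wt (PS (Hs j) (Hs j * A j) (Hs j * B j)) +
      1 / (Hs j : ℝ) := ⟨_, fun _ => rfl⟩
  have hw0 : ∀ j, 0 ≤ w j := by
    intro j
    rw [hw]
    have h6 := hL.W1 j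
    have h7 : 0 ≤ 1 / Wt (PS (Hs j) (Hs j * A j) (Hs j * B j)) := by positivity
    have h8 : (0 : ℝ) ≤ 1 / (Hs j : ℝ) := by positivity
    linarith
  have hX2 : 0 < X ^ 2 := by positivity
  have hWn : ∀ n ≤ J, ∫ t in W n, ff X t ≤ C * X ^ 2 * (∑ j ∈ Finset.range (n + 1), w j +
      δ + δ * ∑ j ∈ Finset.range n, (1 : ℝ) / 2 ^ (j + 1)) := by
    intro n
    induction n with
    | zero =>
      intro _
      have h6 := h2 δ h X A B Hs (W 0) hL h3h hXh4 (hWm 0) (by
          rw [← hD]; exact hWD 0) (by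
          intro t ht
          rw [hW] at ht
          obtain ⟨_, j, hj, htj⟩ := ht
          have hj0 : j = 0 := by omega
          subst hj0
          exact htj)
      have h7 : C0 * X ^ 2 * (w 0 + δ) ≤ C * X ^ 2 * (w 0 + δ) := by
        have h8 := hw0 0
        have h9 : C0 ≤ C := by rw [hCd]; linarith
        gcongr
      rw [Finset.sum_range_one, Finset.range_zero, Finset.sum_empty, mul_zero, add_zero]
      calc ∫ t in W 0, ff X t ≤ C0 * X ^ 2 * (1 / Wt (PS (Hs 0) (Hs 0 * A 0) (Hs 0 * B 0)) +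
            1 / (Hs 0 : ℝ) + δ) := h6
        _ = C0 * X ^ 2 * (w 0 + δ) := by rw [hw]
        _ ≤ _ := h7
    | succ n ih =>
      intro hn
      have h6 := ih (by omega)
      obtain ⟨E, hE⟩ : ∃ E : Set ℝ, E = D ∩ (LL A B Hs (n + 1) ∩ (LL A B Hs n)ᶜ) := ⟨_, rfl⟩
      have hEm : MeasurableSet E := by
        rw [hE]
        exact hDm.inter ((LL_meas A B Hs (n + 1)).inter (LL_meas A B Hs n).compl)
      have hED : E ⊆ D := by rw [hE]; exact inter_subset_left
      have h7 := h3 δ h X A B Hs E n hL h3h hXh (hexp n (by omega)) hEm (by rw [← hD]; exact hED)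
        (by
          intro t ht
          rw [hE] at ht
          exact ht.2.1)
        (by
          intro t ht
          rw [hE] at ht
          exact ht.2.2)
      have h8 : W (n + 1) ⊆ W n ∪ E := by
        intro t ht
        rw [hW] at ht
        obtain ⟨htD, j, hj, htj⟩ := ht
        by_cases hc : t ∈ LL A B Hs n
        · left
          rw [hW]
          exact ⟨htD, n, le_rfl, hc⟩
        · by_cases hj' : j ≤ n
          · left
            rw [hW]
            exact ⟨htD, j, hj', htj⟩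
          · right
            have hj1 : j = n + 1 := by omega
            subst hj1
            rw [hE]
            exact ⟨htD, htj, hc⟩
      have h9 : ∫ t in W (n + 1), ff X t ≤ (∫ t in W n, ff X t) + ∫ t in E, ff X t :=
        (mono X M _ _ (union_subset ((hWD n).trans hDM) (hED.trans hDM)) h8).trans
          (union X M _ _ ((hWD n).trans hDM) (hED.trans hDM) (hWm n) hEm)
      have h10 : ∫ t in E, ff X t ≤ C * X ^ 2 * (w (n + 1) + δ * (1 / 2 ^ (n + 1))) := by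
        have h11 : C1 * X ^ 2 * (w (n + 1) + δ * (1 / 2 ^ (n + 1))) ≤
            C * X ^ 2 * (w (n + 1) + δ * (1 / 2 ^ (n + 1))) := by
          have h12 := hw0 (n + 1)
          have h13 : C1 ≤ C := by rw [hCd]; linarith
          gcongr
        refine le_trans (le_of_le_of_eq h7 ?_) h11
        rw [hw]
        ring
      rw [Finset.sum_range_succ w (n + 1),
        Finset.sum_range_succ (fun j : ℕ => (1 : ℝ) / 2 ^ (j + 1)) n]
      calc ∫ t in W (n + 1), ff X t ≤ (∫ t in W n, ff X t) + ∫ t in E, ff X t := h9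
        _ ≤ C * X ^ 2 * (∑ j ∈ Finset.range (n + 1), w j + δ +
              δ * ∑ j ∈ Finset.range n, (1 : ℝ) / 2 ^ (j + 1)) +
            C * X ^ 2 * (w (n + 1) + δ * (1 / 2 ^ (n + 1))) := add_le_add h6 h10
        _ = _ := by ring
  have hWJ := hWn J le_rfl
  have hsum : ∑ j ∈ Finset.range (J + 1), w j ≤ δ := by
    have h6 := hL.sum (J + 1)
    refine le_of_eq_of_le (Finset.sum_congr rfl fun j _ => hw j) h6
  have hgeo := geo J
  have hWJ' : ∫ t in W J, ff X t ≤ C * X ^ 2 * (3 * δ) := by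
    refine hWJ.trans (mul_le_mul_of_nonneg_left ?_ (by positivity))
    nlinarith
  obtain ⟨U, hU⟩ : ∃ U : Set ℝ, U = D ∩ ({t | Real.log X ^ (2 : ℝ) ≤ |t|} ∩ (LL A B Hs J)ᶜ) :=
    ⟨_, rfl⟩
  have hUm : MeasurableSet U := by
    rw [hU]
    exact hDm.inter ((isClosed_le continuous_const continuous_abs).measurableSet.inter
      (LL_meas A B Hs J).compl)
  have hUD : U ⊆ D := by rw [hU]; exact inter_subset_left
  have hUb := h4 h X A B Hs U J hL h3h hXXT hJ hn hUm (by rw [← hD]; exact hUD)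
    (by
      intro t ht
      rw [hU] at ht
      exact ht.2.1)
    (by
      intro t ht
      rw [hU] at ht
      exact ht.2.2)
  obtain ⟨Z, hZ⟩ : ∃ Z : Set ℝ, Z = {t : ℝ | |t| ≤ Real.log X ^ (2 : ℝ)} := ⟨_, rfl⟩
  have hZm : MeasurableSet Z := by
    rw [hZ]
    exact (isClosed_le continuous_abs continuous_const).measurableSet
  have hZM : Z ⊆ {t : ℝ | |t| ≤ M} := by
    intro t ht
    rw [hZ] at ht
    have h6 : |t| ≤ Real.log X ^ (2 : ℝ) := ht
    show |t| ≤ M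
    rw [hM]; linarith
  have hZb : ∫ t in Z, ff X t ≤ X ^ 2 / Real.log X := by
    rw [hZ]
    exact h5 X hXXL
  have hcov : D ⊆ Z ∪ (W J ∪ U) := by
    intro t ht
    by_cases h6 : |t| ≤ Real.log X ^ (2 : ℝ)
    · left; rw [hZ]; exact h6
    · right
      by_cases h7 : t ∈ LL A B Hs J
      · left
        rw [hW]
        exact ⟨ht, J, le_rfl, h7⟩
      · right
        rw [hU]
        exact ⟨ht, (not_le.1 h6).le, h7⟩
  have hWUM : W J ∪ U ⊆ {t : ℝ | |t| ≤ M} :=
    union_subset ((hWD J).trans hDM) (hUD.trans hDM)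
  have hfin : ∫ t in D, ff X t ≤ (∫ t in Z, ff X t) + ((∫ t in W J, ff X t) + ∫ t in U, ff X t) :=
    (mono X M _ _ (union_subset hZM hWUM) hcov).trans
      ((union X M _ _ hZM hWUM hZm ((hWm J).union hUm)).trans
        (by
          have := union X M _ _ ((hWD J).trans hDM) (hUD.trans hDM) (hWm J) hUm
          linarith))
  have hUb' : ∫ t in U, ff X t ≤ C * δ * X ^ 2 := by
    have h6 : CT * δ * X ^ 2 ≤ C * δ * X ^ 2 := by
      have h7 : CT ≤ C := by rw [hCd]; linarith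
      gcongr
    exact le_trans hUb h6
  have hZb' : X ^ 2 / Real.log X ≤ ε / 2 * X ^ 2 := by
    rw [div_le_iff₀ hlogpos]
    rw [div_le_iff₀ hε] at hlog
    nlinarith
  have e1 : C * X ^ 2 * (3 * δ) = 3 * (C * δ) * X ^ 2 := by ring
  rw [e1] at hWJ'
  rw [hCδ] at hWJ' hUb'
  have hres : ∫ t in D, ff X t ≤ ε * X ^ 2 := by
    have h6 : 0 < ε * X ^ 2 := by positivity
    nlinarith
  rw [hD] at hres
  exact hres

end Pool.Agent.Work.MP_a8fbd7_nt.PAR.MR
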