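import Pool.Agent.Work.MP_a8fbd7_nt.PAR.MR.StmtsB

/-!
# MP_a8fbd7_nt, parity, block MR, item Pw: powers of a block of primes
-/

open MeasureTheory Set Filter Topology

noncomputable section

namespace Pool.Agent.Work.MP_a8fbd7_nt.PAR.MR

open Pool.Agent.Work.MP_56b8f5_nt.UC (Dp Sep)

namespace XPw

lemma prod_cpow {ι : Type} [DecidableEq ι] (s : Finset ι) (g : ι → ℕ) (z : ℂ) :
    ∏ i ∈ s, (g i : ℂ) ^ z = ((∏ i ∈ s, g i : ℕ) : ℂ) ^ z := by
  induction s using Finset.induction_on with
  | empty => simp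
  | insert a s ha ih =>
    rw [Finset.prod_insert ha, Finset.prod_insert ha, ih, Nat.cast_mul,
      Complex.natCast_mul_natCast_cpow]

/-- The number of factorisations of `k` into `l` primes is at most `l!`. -/
lemma card_le (l k : ℕ) (P : Finset ℕ) (hP : ∀ p ∈ P, p.Prime) :
    ((Fintype.piFinset fun _ : Fin l => P).filter fun g => ∏ i, g i = k).card ≤ l.factorial := by
  classical
  by_cases hlen : k.primeFactorsList.length = l
  · have h1 : ((Fintype.piFinset fun _ : Fin l => P).filter fun g => ∏ i, g i = k).card ≤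
        (k.primeFactorsList.permutations.toFinset).card := by
      refine Finset.card_le_card_of_injOn (fun g => List.ofFn g) (fun g hg => ?_) ?_
      · obtain ⟨hg1, hg2⟩ := Finset.mem_filter.1 (Finset.mem_coe.1 hg)
        rw [Finset.mem_coe, List.mem_toFinset, List.mem_permutations]
        refine Nat.primeFactorsList_unique ?_ ?_
        · rw [List.prod_ofFn, hg2]
        · intro p hp
          obtain ⟨i, rfl⟩ := (List.mem_ofFn' _ _).1 hp
          exact hP _ (Fintype.mem_piFinset.1 hg1 i)
      · intro g _ g' _ h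
        exact List.ofFn_injective h
    refine h1.trans ((List.toFinset_card_le _).trans ?_)
    rw [List.length_permutations, hlen]
  · rw [Finset.filter_eq_empty_iff.2, Finset.card_empty]
    · exact Nat.zero_le _
    · intro g hg hk
      apply hlen
      have h : (List.ofFn g).Perm k.primeFactorsList := by
        refine Nat.primeFactorsList_unique ?_ ?_
        · rw [List.prod_ofFn, hk]
        · intro p hp
          obtain ⟨i, rfl⟩ := (List.mem_ofFn' _ _).1 hp
          exact hP _ (Fintype.mem_piFinset.1 hg i)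
      rw [← h.length_eq, List.length_ofFn]

end XPw

open XPw in
theorem iPw : StPw := by
  classical
  intro H r l _
  set Y := Real.exp (((r : ℝ) + 1) / H) with hY
  have hY0 : 0 < Y := Real.exp_pos _
  have hYl : Real.exp (((r : ℝ) + 1) / H * l) = Y ^ l := by
    rw [hY, ← Real.exp_nat_mul, mul_comm]
  rw [hYl]
  set Z := ⌊Y ^ l⌋₊ with hZ
  have hPp : ∀ p ∈ rg H r, p.Prime := fun p hp => (Finset.mem_filter.1 hp).2.1
  have hPle : ∀ p ∈ rg H r, (p : ℝ) ≤ Y := fun p hp => by
    have h1 := (Finset.mem_Icc.1 (Finset.mem_filter.1 hp).1).2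
    exact (Nat.le_floor_iff hY0.le).1 h1
  set T : Finset (Fin l → ℕ) := Fintype.piFinset fun _ => rg H r with hT
  have hmem : ∀ g ∈ T, ∏ i, g i ∈ Finset.Icc 1 Z := by
    intro g hg
    have hg' := fun i => Fintype.mem_piFinset.1 hg i
    rw [Finset.mem_Icc]
    refine ⟨Finset.one_le_prod' fun i _ => (hPp _ (hg' i)).one_le, ?_⟩
    rw [hZ, Nat.le_floor_iff (by positivity)]
    push_cast
    calc ∏ i, (g i : ℝ) ≤ ∏ _i : Fin l, Y :=
          Finset.prod_le_prod (fun i _ => Nat.cast_nonneg _) fun i _ => hPle _ (hg' i)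
      _ = Y ^ l := by simp
  have hcard : (T.card : ℝ) ≤ Y ^ l := by
    rw [hT, Fintype.card_piFinset]
    simp only [Finset.prod_const, Finset.card_univ, Fintype.card_fin]
    push_cast
    refine pow_le_pow_left₀ (Nat.cast_nonneg _) ?_ l
    have h1 : (rg H r).card ≤ ⌊Y⌋₊ := by
      refine (Finset.card_filter_le _ _).trans ?_
      rw [Nat.card_Icc]
      simp [hY]
    exact (Nat.cast_le.2 h1).trans (Nat.floor_le hY0.le)
  refine ⟨fun k => (((T.filter fun g => ∏ i, g i = k).card : ℕ) : ℂ), fun t => ?_, ?_⟩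
  · have e1 : Pb H r t ^ l = ∑ g ∈ T, ∏ i, (g i : ℂ) ^ (-(t * Complex.I)) := by
      have h := Finset.prod_univ_sum (fun _ : Fin l => rg H r)
        (fun (_ : Fin l) (p : ℕ) => (p : ℂ) ^ (-(t * Complex.I)))
      rw [← h]
      simp [Pb]
    rw [e1, ← Finset.sum_fiberwise_of_maps_to hmem]
    unfold Dp
    refine Finset.sum_congr rfl fun k _ => ?_
    rw [Finset.sum_congr rfl (g := fun _ => (k : ℂ) ^ (-(t * Complex.I)))]
    · rw [Finset.sum_const, nsmul_eq_mul]
    · intro g hg
      rw [prod_cpow, (Finset.mem_filter.1 hg).2]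
  · have hA : ∀ k, ((T.filter fun g => ∏ i, g i = k).card : ℝ) ≤ l.factorial := fun k => by
      exact_mod_cast card_le l k (rg H r) hPp
    calc ∑ k ∈ Finset.Icc 1 Z, ‖(((T.filter fun g => ∏ i, g i = k).card : ℕ) : ℂ)‖ ^ 2
        ≤ ∑ k ∈ Finset.Icc 1 Z, (l.factorial : ℝ) * ((T.filter fun g => ∏ i, g i = k).card : ℝ) := by
          refine Finset.sum_le_sum fun k _ => ?_
          rw [Complex.norm_natCast, pow_two]
          exact mul_le_mul_of_nonneg_right (hA k) (Nat.cast_nonneg _)
      _ = (l.factorial : ℝ) * (T.card : ℝ) := by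
          rw [← Finset.mul_sum, Finset.card_eq_sum_card_fiberwise hmem]
          push_cast
          rfl
      _ ≤ (l.factorial : ℝ) * Y ^ l := mul_le_mul_of_nonneg_left hcard (Nat.cast_nonneg _)

end Pool.Agent.Work.MP_a8fbd7_nt.PAR.MR
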