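import Pool.Agent.Work.MP_a8fbd7_nt.PAR.MR.StmtsB

/-!
# MP_a8fbd7_nt, parity, block MR, item QF: the Gaussian quadratic form
-/

open MeasureTheory Set Filter Topology

noncomputable section

namespace Pool.Agent.Work.MP_a8fbd7_nt.PAR.MR

open Pool.Agent.Work.MP_56b8f5_nt.UC (Dp Sep)

namespace XQF

lemma cpow_eq {n : ℕ} (hn : 1 ≤ n) (t : ℝ) :
    (n : ℂ) ^ (-(t * Complex.I)) = Complex.exp (-(Real.log n * Complex.I) * t) := by
  have hn0 : (n : ℂ) ≠ 0 := by exact_mod_cast (by omega : n ≠ 0)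
  rw [Complex.cpow_def_of_ne_zero hn0, Complex.natCast_log]
  ring_nf

lemma term {T : ℝ} (hT : 0 < T) (x : ℝ) :
    Integrable (fun t : ℝ => Complex.exp ((-(1 / T ^ 2 : ℝ) : ℂ) * (t : ℂ) ^ 2 +
      (-(x * Complex.I)) * t + 0)) ∧
    ∫ t : ℝ, Complex.exp ((-(1 / T ^ 2 : ℝ) : ℂ) * (t : ℂ) ^ 2 + (-(x * Complex.I)) * t + 0) =
      ((Real.sqrt Real.pi * T : ℝ) : ℂ) * ((Real.exp (-(T ^ 2 * x ^ 2 / 4)) : ℝ) : ℂ) := by
  have hb : ((-(1 / T ^ 2 : ℝ) : ℂ)).re < 0 := by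
    have h1 : ((-(1 / T ^ 2 : ℝ) : ℂ)).re = -(1 / T ^ 2) := by
      rw [← Complex.ofReal_neg, Complex.ofReal_re]
    rw [h1]
    have : 0 < 1 / T ^ 2 := by positivity
    linarith
  refine ⟨integrable_cexp_quadratic' hb _ _, ?_⟩
  rw [integral_cexp_quadratic hb]
  have hT0 : (T : ℂ) ≠ 0 := by exact_mod_cast hT.ne'
  have e1 : ((Real.pi : ℂ) / -(-((1 / T ^ 2 : ℝ) : ℂ))) ^ (1 / 2 : ℂ) =
      ((Real.sqrt Real.pi * T : ℝ) : ℂ) := by
    have e2 : ((Real.pi : ℂ) / -(-((1 / T ^ 2 : ℝ) : ℂ))) = ((Real.pi * T ^ 2 : ℝ) : ℂ) := by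
      push_cast
      field_simp
    rw [e2]
    have e3 : (1 / 2 : ℂ) = ((1 / 2 : ℝ) : ℂ) := by push_cast; rfl
    rw [e3, ← Complex.ofReal_cpow (by positivity), ← Real.sqrt_eq_rpow,
      Real.sqrt_mul Real.pi_pos.le, Real.sqrt_sq hT.le]
  rw [e1]
  congr 1
  rw [Complex.ofReal_exp]
  congr 1
  push_cast
  have hI : Complex.I ^ 2 = -1 := Complex.I_sq
  field_simp
  rw [hI]
  ring

lemma expand (T : ℝ) (Y : ℕ) (a : ℕ → ℂ) (t : ℝ) :
    ((Real.exp (-(t / T) ^ 2) * ‖Dp Y a t‖ ^ 2 : ℝ) : ℂ) =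
      ∑ m ∈ Finset.Icc 1 Y, ∑ n ∈ Finset.Icc 1 Y, a m * (starRingEnd ℂ) (a n) *
        Complex.exp ((-(1 / T ^ 2 : ℝ) : ℂ) * (t : ℂ) ^ 2 +
          (-(((Real.log m - Real.log n : ℝ) : ℂ) * Complex.I)) * t + 0) := by
  rw [Complex.ofReal_mul, Complex.ofReal_pow, ← Complex.mul_conj']
  unfold Dp
  rw [map_sum, Finset.sum_mul_sum, Finset.mul_sum]
  refine Finset.sum_congr rfl fun m hm => ?_
  rw [Finset.mul_sum]
  refine Finset.sum_congr rfl fun n hn => ?_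
  rw [Finset.mem_Icc] at hm hn
  rw [cpow_eq hm.1, cpow_eq hn.1, map_mul, ← Complex.exp_conj]
  have e1 : (starRingEnd ℂ) (-(Real.log n * Complex.I) * (t : ℂ)) =
      (Real.log n * Complex.I) * (t : ℂ) := by
    rw [map_mul, map_neg, map_mul, Complex.conj_I, Complex.conj_ofReal, Complex.conj_ofReal]
    ring
  rw [e1, Complex.ofReal_exp]
  have e2 : Complex.exp ((-(1 / T ^ 2 : ℝ) : ℂ) * (t : ℂ) ^ 2 +
      (-(((Real.log m - Real.log n : ℝ) : ℂ) * Complex.I)) * t + 0) =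
      Complex.exp ((-(t / T) ^ 2 : ℝ) : ℂ) * (Complex.exp (-(Real.log m * Complex.I) * (t : ℂ)) *
        Complex.exp ((Real.log n * Complex.I) * (t : ℂ))) := by
    rw [← Complex.exp_add, ← Complex.exp_add]
    congr 1
    push_cast
    ring
  rw [e2]
  ring

end XQF

theorem iQF : StQF := by
  intro T Y a hT
  have hint : ∀ m n : ℕ, Integrable (fun t : ℝ => a m * (starRingEnd ℂ) (a n) *
        Complex.exp ((-(1 / T ^ 2 : ℝ) : ℂ) * (t : ℂ) ^ 2 +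
          (-(((Real.log m - Real.log n : ℝ) : ℂ) * Complex.I)) * t + 0)) := by
    intro m n
    exact (XQF.term hT _).1.const_mul _
  have hsum : Integrable (fun t : ℝ => ((Real.exp (-(t / T) ^ 2) * ‖Dp Y a t‖ ^ 2 : ℝ) : ℂ)) := by
    have h1 : Integrable (fun t : ℝ => ∑ m ∈ Finset.Icc 1 Y, ∑ n ∈ Finset.Icc 1 Y,
        a m * (starRingEnd ℂ) (a n) * Complex.exp ((-(1 / T ^ 2 : ℝ) : ℂ) * (t : ℂ) ^ 2 +
          (-(((Real.log m - Real.log n : ℝ) : ℂ) * Complex.I)) * t + 0)) :=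
      integrable_finsetSum _ fun m _ => integrable_finsetSum _ fun n _ => hint m n
    refine h1.congr (Eventually.of_forall fun t => ?_)
    exact (XQF.expand T Y a t).symm
  refine ⟨?_, ?_⟩
  · have h2 := hsum.re
    refine h2.congr (Eventually.of_forall fun t => ?_)
    exact Complex.ofReal_re _
  · rw [← integral_complex_ofReal]
    have h3 : ∫ t : ℝ, ((Real.exp (-(t / T) ^ 2) * ‖Dp Y a t‖ ^ 2 : ℝ) : ℂ) =
        ∫ t : ℝ, ∑ m ∈ Finset.Icc 1 Y, ∑ n ∈ Finset.Icc 1 Y,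
        a m * (starRingEnd ℂ) (a n) * Complex.exp ((-(1 / T ^ 2 : ℝ) : ℂ) * (t : ℂ) ^ 2 +
          (-(((Real.log m - Real.log n : ℝ) : ℂ) * Complex.I)) * t + 0) :=
      integral_congr_ae (Eventually.of_forall fun t => XQF.expand T Y a t)
    rw [h3, integral_finsetSum _ fun m _ => integrable_finsetSum _ fun n _ => hint m n,
      Finset.mul_sum]
    refine Finset.sum_congr rfl fun m _ => ?_
    rw [integral_finsetSum _ fun n _ => hint m n, Finset.mul_sum]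
    refine Finset.sum_congr rfl fun n _ => ?_
    rw [integral_const_mul, (XQF.term hT _).2]
    ring

end Pool.Agent.Work.MP_a8fbd7_nt.PAR.MR
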