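import Pool.Agent.Work.MP_a8fbd7_nt.PAR.MR.StmtsA

/-!
# MP_a8fbd7_nt, parity, block MR, item Sq: the sequence of levels
-/

open MeasureTheory Set

noncomputable section

namespace Pool.Agent.Work.MP_a8fbd7_nt.PAR.MR

namespace XSq

/-- the ratios `A (j+1) / B j` -/
def K (j : ℕ) : ℕ := 64 * ((j + 1) * (j + 2))

/-- the exponents -/
def kap (j : ℕ) : ℝ := 1 / (128 * (((j : ℝ) + 1) * ((j : ℝ) + 2)))

/-- the sequence of levels -/
def P (b : ℕ) : ℕ → ℕ × ℕ
  | 0 => (Nat.sqrt b, b)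
  | j + 1 => (K j * (P b j).2, ⌊Real.exp (kap j * ((P b j).1 : ℝ))⌋₊)

lemma P_zero (b : ℕ) : P b 0 = (Nat.sqrt b, b) := rfl
lemma P_succ (b j : ℕ) : P b (j + 1) = (K j * (P b j).2, ⌊Real.exp (kap j * ((P b j).1 : ℝ))⌋₊) := rfl

lemma F1 (j : ℕ) : ((j : ℝ) + 1) * ((j : ℝ) + 2) ≤ 2 * 4 ^ j := by
  induction j with
  | zero => norm_num
  | succ n ih =>
    push_cast
    have h0 : (0 : ℝ) ≤ n := Nat.cast_nonneg n
    rw [pow_succ]
    nlinarith

lemma kap_pos (j : ℕ) : 0 < kap j := by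
  unfold kap
  positivity

lemma kap_le (j : ℕ) : kap j ≤ 1 / 256 := by
  unfold kap
  have h0 : (0 : ℝ) ≤ j := Nat.cast_nonneg j
  apply one_div_le_one_div_of_le (by norm_num)
  nlinarith

lemma kap_ge (j : ℕ) : 1 / (256 * 4 ^ j) ≤ kap j := by
  unfold kap
  have := F1 j
  apply one_div_le_one_div_of_le (by positivity)
  linarith

lemma kapK (j : ℕ) : kap j * (K j : ℝ) = 1 / 2 := by
  unfold kap K
  push_cast
  field_simp
  norm_num

lemma kapK' (j : ℕ) : 1 / 6 ≤ kap (j + 1) * (K j : ℝ) := by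
  unfold kap K
  push_cast
  have h0 : (0 : ℝ) ≤ j := Nat.cast_nonneg j
  rw [div_mul_eq_mul_div, div_le_div_iff₀ (by norm_num) (by positivity)]
  nlinarith

lemma K_ge (j : ℕ) : (128 : ℝ) ≤ (K j : ℝ) := by
  unfold K
  push_cast
  have h0 : (0 : ℝ) ≤ j := Nat.cast_nonneg j
  nlinarith

lemma K_le (j : ℕ) : (K j : ℝ) ≤ 128 * 4 ^ j := by
  unfold K
  push_cast
  have := F1 j
  linarith

lemma eta_eq (j : ℕ) : al (j + 1) - al j = 8 * kap j := by
  unfold al kap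
  push_cast
  field_simp
  ring

/-- from the lower bound for `A j` -/
lemma q_ge {a A : ℝ} {j : ℕ} (hA : a * 64 ^ j ≤ A) (ha : 0 ≤ a) : a * 16 ^ j / 256 ≤ kap j * A := by
  have h1 := kap_ge j
  have h2 : (0 : ℝ) < 4 ^ j := by positivity
  have h3 : (64 : ℝ) ^ j = 16 ^ j * 4 ^ j := by rw [← mul_pow]; norm_num
  have h4 : 0 ≤ A := le_trans (by positivity) hA
  calc a * 16 ^ j / 256 = 1 / (256 * 4 ^ j) * (a * 64 ^ j) := by rw [h3]; field_simp
    _ ≤ kap j * A := mul_le_mul h1 hA (by positivity) (kap_pos j).le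

/-- the step of the induction -/
lemma step {a A B : ℝ} {j : ℕ} (ha : 16384 ≤ a) (hA : a * 64 ^ j ≤ A) (hAB : A ≤ B)
    (hB : B ≤ Real.exp (kap j * A / 4)) :
    a * 64 ^ (j + 1) ≤ (K j : ℝ) * B ∧ (K j : ℝ) * B ≤ Real.exp (kap j * A / 2) ∧
    Real.exp (kap j * A / 2) + 1 ≤ Real.exp (kap j * A) / 2 ∧
    kap j * A ≤ kap (j + 1) * ((K j : ℝ) * B) / 4 := by
  have hK := K_ge j
  have hA0 : 0 ≤ A := le_trans (by positivity) hA
  have hB0 : 0 ≤ B := hA0.trans hAB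
  have hq := q_ge hA (by linarith)
  have h16 : (1 : ℝ) ≤ 16 ^ j := one_le_pow₀ (by norm_num)
  set q := kap j * A with hqd
  have hq1 : 64 * (16 : ℝ) ^ j ≤ q := by nlinarith
  have hq64 : 64 ≤ q := by nlinarith
  refine ⟨?_, ?_, ?_, ?_⟩
  · rw [pow_succ]
    nlinarith
  · have hK2 : (K j : ℝ) ≤ Real.exp (q / 4) := by
      have h1 := Real.quadratic_le_exp_of_nonneg (x := q / 4) (by linarith)
      have h2 := K_le j
      have h3 : (4 : ℝ) ^ j ≤ 16 ^ j := pow_le_pow_left₀ (by norm_num) (by norm_num) j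
      nlinarith
    calc (K j : ℝ) * B ≤ Real.exp (q / 4) * Real.exp (q / 4) :=
          mul_le_mul hK2 hB hB0 (Real.exp_pos _).le
      _ = Real.exp (q / 2) := by rw [← Real.exp_add]; congr 1; ring
  · have h1 : Real.exp q = Real.exp (q / 2) * Real.exp (q / 2) := by
      rw [← Real.exp_add]; congr 1; ring
    have h2 : 4 ≤ Real.exp (q / 2) := by
      have := Real.add_one_le_exp (q / 2)
      linarith
    rw [h1]
    nlinarith
  · have h1 := kapK' j
    have h2 : q ≤ 1 / 256 * A := by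
      rw [hqd]
      exact mul_le_mul_of_nonneg_right (kap_le j) hA0
    have h3 : 1 / 6 * B ≤ kap (j + 1) * (K j : ℝ) * B := mul_le_mul_of_nonneg_right h1 hB0
    nlinarith

/-- the invariants -/
lemma inv {b : ℕ} (ha : (16384 : ℝ) ≤ (Nat.sqrt b : ℝ))
    (hc : ((Nat.sqrt b : ℝ) + 1) ^ 2 ≤ Real.exp ((Nat.sqrt b : ℝ) / 1024)) (j : ℕ) :
    (Nat.sqrt b : ℝ) * 64 ^ j ≤ ((P b j).1 : ℝ) ∧ (P b j).1 < (P b j).2 ∧
      ((P b j).2 : ℝ) ≤ Real.exp (kap j * ((P b j).1 : ℝ) / 4) := by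
  induction j with
  | zero =>
    rw [P_zero]
    refine ⟨by simp, ?_, ?_⟩
    · have h1 := Nat.sqrt_le b
      have h2 : 16384 ≤ Nat.sqrt b := by exact_mod_cast ha
      show Nat.sqrt b < b
      nlinarith
    · have h2 : b < (Nat.sqrt b + 1) * (Nat.sqrt b + 1) := Nat.lt_succ_sqrt b
      have h3 : (b : ℝ) ≤ ((Nat.sqrt b : ℝ) + 1) ^ 2 := by
        have : (b : ℝ) < ((Nat.sqrt b : ℝ) + 1) * ((Nat.sqrt b : ℝ) + 1) := by exact_mod_cast h2
        nlinarith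
      have h4 : kap 0 * (Nat.sqrt b : ℝ) / 4 = (Nat.sqrt b : ℝ) / 1024 := by
        unfold kap
        norm_num
        ring
      show (b : ℝ) ≤ Real.exp (kap 0 * (Nat.sqrt b : ℝ) / 4)
      rw [h4]
      exact h3.trans hc
  | succ n ih =>
    obtain ⟨h1, h2, h3⟩ := ih
    have h2' : ((P b n).1 : ℝ) ≤ ((P b n).2 : ℝ) := by exact_mod_cast h2.le
    obtain ⟨s1, s2, s3, s4⟩ := step (j := n) ha h1 h2' h3
    rw [P_succ]
    have hfl := Nat.lt_floor_add_one (Real.exp (kap n * ((P b n).1 : ℝ)))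
    have hfl2 := Nat.floor_le (Real.exp_pos (kap n * ((P b n).1 : ℝ))).le
    have he := Real.exp_pos (kap n * ((P b n).1 : ℝ))
    refine ⟨?_, ?_, ?_⟩
    · show _ ≤ (((K n * (P b n).2 : ℕ)) : ℝ)
      push_cast
      exact s1
    · show K n * (P b n).2 < ⌊Real.exp (kap n * ((P b n).1 : ℝ))⌋₊
      have : ((K n * (P b n).2 : ℕ) : ℝ) < ((⌊Real.exp (kap n * ((P b n).1 : ℝ))⌋₊ : ℕ) : ℝ) := by
        push_cast
        linarith
      exact_mod_cast this
    · show ((⌊Real.exp (kap n * ((P b n).1 : ℝ))⌋₊ : ℕ) : ℝ) ≤ Real.exp (kap (n + 1) * ((K n * (P b n).2 : ℕ) : ℝ) / 4)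
      refine hfl2.trans (Real.exp_le_exp.2 ?_)
      push_cast
      exact s4

/-- lower bound for the weights of the levels `j + 1` -/
lemma W_succ {a A B W C : ℝ} {j : ℕ} (ha : 16384 ≤ a) (haC : 1024 * (1 + C) ≤ a) (hA : a * 64 ^ j ≤ A) (hAB : A ≤ B)
    (hB : B ≤ Real.exp (kap j * A / 4))
    (hW : Real.log ((⌊Real.exp (kap j * A)⌋₊ : ℝ) / ((K j : ℝ) * B)) - C ≤ W) :
    a * 16 ^ j / 1024 ≤ W := by
  obtain ⟨s1, s2, s3, s4⟩ := step (j := j) ha hA hAB hB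
  have hq := q_ge hA (by linarith)
  have h16 : (1 : ℝ) ≤ 16 ^ j := one_le_pow₀ (by norm_num)
  have hfl := Nat.lt_floor_add_one (Real.exp (kap j * A))
  have hKB : 0 < (K j : ℝ) * B := lt_of_lt_of_le (by positivity) s1
  set q := kap j * A with hqd
  have he := Real.exp_pos q
  have he2 := Real.exp_pos (q / 2)
  have h1 : Real.exp (q / 2 - 1) ≤ (⌊Real.exp q⌋₊ : ℝ) / ((K j : ℝ) * B) := by
    rw [le_div_iff₀ hKB]
    have h2 : Real.exp (q / 2 - 1) * ((K j : ℝ) * B) ≤ Real.exp (q / 2 - 1) * Real.exp (q / 2) :=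
      mul_le_mul_of_nonneg_left s2 (Real.exp_pos _).le
    have h3 : Real.exp (q / 2 - 1) * Real.exp (q / 2) = Real.exp q * Real.exp (-1) := by
      rw [← Real.exp_add, ← Real.exp_add]; congr 1; ring
    have h4 : Real.exp (-1) ≤ 1 / 2 := by
      rw [Real.exp_neg, one_div]
      apply inv_anti₀ (by norm_num)
      have := Real.add_one_le_exp (1 : ℝ)
      linarith
    nlinarith
  have h2 : q / 2 - 1 ≤ Real.log ((⌊Real.exp q⌋₊ : ℝ) / ((K j : ℝ) * B)) := by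
    rw [Real.le_log_iff_exp_le (lt_of_lt_of_le (Real.exp_pos _) h1)]
    exact h1
  have h3 : 1 + C ≤ a * 16 ^ j / 1024 := by nlinarith
  linarith

/-- the gain of level `j + 1` -/
lemma gain {ε a A B A' B' x y s1 s2 : ℝ} {j : ℕ} (hε : 0 < ε) (ha : 16384 ≤ a) (haε : 2 / ε ≤ a)
    (hA : a * 64 ^ j ≤ A) (hAB : A ≤ B) (hB : B ≤ Real.exp (kap j * A / 4))
    (hA' : A' = (K j : ℝ) * B) (hB' : B' ≤ Real.exp (kap j * A)) (hAB' : A' ≤ B')
    (hx1 : A ≤ x) (hx2 : x ≤ B) (hy1 : A' ≤ y) (hy2 : y ≤ B')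
    (hs1 : 0 ≤ s1) (hs1' : s1 ≤ B' * B') (hs2 : 0 ≤ s2) (hs2' : s2 ≤ B * B) :
    Real.exp x * (3 * (y / x + 2)) ^ (y / x + 1) * Real.exp (-(2 * (al (j + 1) - al j) * y)) *
      s1 ^ 2 * s2 ≤ ε / 2 ^ (j + 1) := by
  have hk := kap_pos j
  have hk2 := kap_le j
  have hkK := kapK j
  have hK := K_ge j
  have h64 : (1 : ℝ) ≤ 64 ^ j := one_le_pow₀ (by norm_num)
  have hA1 : 16384 ≤ A := by nlinarith
  have hx0 : 0 < x := by linarith
  have hB0 : 0 < B := by linarith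
  have hBA' : 128 * B ≤ A' := by rw [hA']; nlinarith
  have hy0 : 0 < y := by linarith
  -- `B ≤ 2 κ y`
  have hBy : B ≤ 2 * kap j * y := by
    have : 2 * kap j * A' = B := by
      rw [hA']
      calc 2 * kap j * ((K j : ℝ) * B) = 2 * (kap j * (K j : ℝ)) * B := by ring
        _ = B := by rw [hkK]; ring
    nlinarith
  have hyx : 1 ≤ y / x := by rw [one_le_div hx0]; linarith
  have hB'0 : 1 ≤ B' := by linarith
  have hyxB : y / x ≤ B' := by
    rw [div_le_iff₀ hx0]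
    nlinarith
  have hyxA : y / x ≤ y / A := div_le_div_of_nonneg_left hy0.le (by linarith) hx1
  set q := kap j * A with hqd
  have hq0 : 0 < q := by positivity
  -- second factor
  have hbase : 3 * (y / x + 2) ≤ Real.exp (q + 3) := by
    have h1 : 3 * (y / x + 2) ≤ 9 * B' := by linarith
    have h2 : (9 : ℝ) ≤ Real.exp 3 := by
      have h1 : (2 : ℝ) ≤ Real.exp 1 := by
        have := Real.add_one_le_exp (1 : ℝ)
        linarith
      have h3 : Real.exp 3 = Real.exp 1 ^ 3 := by rw [← Real.exp_nat_mul]; norm_num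
      have h5 : (2.7 : ℝ) ≤ Real.exp 1 := by
        have := Real.exp_one_gt_d9
        linarith
      rw [h3]
      nlinarith [pow_le_pow_left₀ (by norm_num) h5 3]
    rw [Real.exp_add]
    calc 3 * (y / x + 2) ≤ 9 * B' := h1
      _ ≤ Real.exp 3 * Real.exp q := mul_le_mul h2 hB' (by linarith) (Real.exp_pos _).le
      _ = Real.exp q * Real.exp 3 := mul_comm _ _
  have hsec : (3 * (y / x + 2)) ^ (y / x + 1) ≤ Real.exp (3 * kap j * y) := by
    have h1 : (3 * (y / x + 2)) ^ (y / x + 1) ≤ (Real.exp (q + 3)) ^ (y / x + 1) :=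
      Real.rpow_le_rpow (by positivity) hbase (by linarith)
    rw [← Real.exp_mul] at h1
    refine h1.trans (Real.exp_le_exp.2 ?_)
    have h2 : (q + 3) * (y / x + 1) ≤ (q + 3) * (2 * (y / A)) := by
      apply mul_le_mul_of_nonneg_left _ (by linarith)
      linarith
    have h3 : (q + 3) * (2 * (y / A)) = 2 * kap j * y + 6 * (y / A) := by
      have : A ≠ 0 := by linarith
      rw [hqd]; field_simp
      ring
    have h4 : 6 * (y / A) ≤ kap j * y := by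
      rw [mul_div_assoc', div_le_iff₀ (by linarith)]
      have h5 := kap_ge j
      have h6 : 6 ≤ kap j * A := by
        have := q_ge hA (by linarith)
        have h16 : (1 : ℝ) ≤ 16 ^ j := one_le_pow₀ (by norm_num)
        have h17 : a * 1 ≤ a * 16 ^ j := mul_le_mul_of_nonneg_left h16 (by linarith)
        linarith
      calc 6 * y ≤ (kap j * A) * y := mul_le_mul_of_nonneg_right h6 hy0.le
        _ = kap j * y * A := by ring
    linarith
  -- polynomial factors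
  have hpoly : s1 ^ 2 * s2 ≤ Real.exp (kap j * y) := by
    have hBq : B ≤ Real.exp q := by
      refine hB.trans (Real.exp_le_exp.2 (by linarith))
    have h1 : s1 ≤ Real.exp (2 * q) := by
      refine hs1'.trans ?_
      calc B' * B' ≤ Real.exp q * Real.exp q := mul_le_mul hB' hB' (by linarith) (Real.exp_pos _).le
        _ = Real.exp (2 * q) := by rw [← Real.exp_add]; congr 1; ring
    have h2 : s2 ≤ Real.exp (2 * q) := by
      refine hs2'.trans ?_
      calc B * B ≤ Real.exp q * Real.exp q := mul_le_mul hBq hBq (by linarith) (Real.exp_pos _).le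
        _ = Real.exp (2 * q) := by rw [← Real.exp_add]; congr 1; ring
    have h3 : s1 ^ 2 ≤ Real.exp (2 * q) ^ 2 := pow_le_pow_left₀ hs1 h1 2
    calc s1 ^ 2 * s2 ≤ Real.exp (2 * q) ^ 2 * Real.exp (2 * q) := mul_le_mul h3 h2 hs2 (by positivity)
      _ = Real.exp (6 * q) := by rw [← Real.exp_nat_mul, ← Real.exp_add]; congr 1; push_cast; ring
      _ ≤ Real.exp (kap j * y) := by
        apply Real.exp_le_exp.2
        rw [hqd]
        calc 6 * (kap j * A) = kap j * (6 * A) := by ring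
          _ ≤ kap j * y := mul_le_mul_of_nonneg_left (by linarith) hk.le
  -- the right side
  have hright : 2 ^ (j + 1) / ε ≤ Real.exp (2 * kap j * y) := by
    have h1 : (2 : ℝ) ^ (j + 1) ≤ Real.exp ((j : ℝ) + 1) := by
      have h2 : (2 : ℝ) ≤ Real.exp 1 := by
        have := Real.add_one_le_exp (1 : ℝ)
        linarith
      have h3 : Real.exp ((j : ℝ) + 1) = Real.exp 1 ^ (j + 1) := by rw [← Real.exp_nat_mul]; push_cast; ring_nf
      rw [h3]
      exact pow_le_pow_left₀ (by norm_num) h2 _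
    have h2 : 1 / ε ≤ Real.exp (1 / ε) := by
      have := Real.add_one_le_exp (1 / ε)
      linarith
    have h3 : (j : ℝ) + 1 + 1 / ε ≤ B := by
      have h4 : (j : ℝ) + 1 ≤ 64 ^ j := by
        have h5 := one_add_mul_le_pow (a := (63 : ℝ)) (by norm_num) j
        have h0 : (0 : ℝ) ≤ j := Nat.cast_nonneg j
        have h6 : (1 + (63 : ℝ)) = 64 := by norm_num
        rw [h6] at h5
        linarith
      have h5 : 2 / ε = 2 * (1 / ε) := by ring
      have h6 : 0 < 1 / ε := by positivity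
      nlinarith
    calc 2 ^ (j + 1) / ε = 2 ^ (j + 1) * (1 / ε) := by ring
      _ ≤ Real.exp ((j : ℝ) + 1) * Real.exp (1 / ε) := mul_le_mul h1 h2 (by positivity) (Real.exp_pos _).le
      _ = Real.exp ((j : ℝ) + 1 + 1 / ε) := by rw [← Real.exp_add]
      _ ≤ Real.exp (2 * kap j * y) := Real.exp_le_exp.2 (by linarith)
  have hfin : Real.exp x * (3 * (y / x + 2)) ^ (y / x + 1) * Real.exp (-(2 * (al (j + 1) - al j) * y)) *
      s1 ^ 2 * s2 ≤ Real.exp (-(2 * kap j * y)) := by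
    rw [eta_eq]
    have e1 : Real.exp x ≤ Real.exp (2 * kap j * y) := Real.exp_le_exp.2 (by linarith)
    have e2 : Real.exp x * (3 * (y / x + 2)) ^ (y / x + 1) ≤ Real.exp (2 * kap j * y) * Real.exp (3 * kap j * y) :=
      mul_le_mul e1 hsec (by positivity) (Real.exp_pos _).le
    calc Real.exp x * (3 * (y / x + 2)) ^ (y / x + 1) * Real.exp (-(2 * (8 * kap j) * y)) * s1 ^ 2 * s2
        = (Real.exp x * (3 * (y / x + 2)) ^ (y / x + 1)) * (s1 ^ 2 * s2) * Real.exp (-(2 * (8 * kap j) * y)) := by ring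
      _ ≤ (Real.exp (2 * kap j * y) * Real.exp (3 * kap j * y)) * Real.exp (kap j * y) * Real.exp (-(2 * (8 * kap j) * y)) := by
          apply mul_le_mul_of_nonneg_right _ (Real.exp_pos _).le
          exact mul_le_mul e2 hpoly (by positivity) (by positivity)
      _ = Real.exp (-(10 * kap j * y)) := by
          rw [← Real.exp_add, ← Real.exp_add, ← Real.exp_add]; congr 1; ring
      _ ≤ Real.exp (-(2 * kap j * y)) := Real.exp_le_exp.2 (by nlinarith [mul_pos hk hy0])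
  refine hfin.trans ?_
  rw [Real.exp_neg, inv_le_comm₀ (Real.exp_pos _) (by positivity), inv_div]
  exact hright

/-- all conditions hold for large `a` -/
lemma large (ε C : ℝ) (s : ℕ) (hε : 0 < ε) : ∃ a0 : ℝ, ∀ a : ℝ, a0 ≤ a →
    (2 : ℝ) ^ s ≤ a ∧ 16384 ≤ a ∧ 1024 * (1 + C) ≤ a ∧ 8192 / ε ≤ a ∧
    ((2 : ℝ) ^ s * (a + 1) ^ 2) ^ 2 * Real.exp (-(a / 8)) ≤ ε ∧ (a + 1) ^ 2 ≤ Real.exp (a / 1024) ∧
    4 / ε + C ≤ Real.log a := by
  have t1 : Filter.Tendsto (fun a : ℝ => (a + 1) / 8) Filter.atTop Filter.atTop :=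
    (Filter.tendsto_atTop_add_const_right _ _ Filter.tendsto_id).atTop_div_const (by norm_num)
  have t2 : Filter.Tendsto (fun a : ℝ => (a + 1) / 1024) Filter.atTop Filter.atTop :=
    (Filter.tendsto_atTop_add_const_right _ _ Filter.tendsto_id).atTop_div_const (by norm_num)
  have e1 := ((Real.tendsto_exp_div_pow_atTop 4).comp t1).eventually
    (Filter.eventually_ge_atTop (((2 : ℝ) ^ s) ^ 2 * 8 ^ 4 * 3 / ε))
  have e2 := ((Real.tendsto_exp_div_pow_atTop 2).comp t2).eventually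
    (Filter.eventually_ge_atTop ((1024 : ℝ) ^ 2 * 3))
  have e3 := Real.tendsto_log_atTop.eventually (Filter.eventually_ge_atTop (4 / ε + C))
  have e4 := Filter.eventually_ge_atTop (α := ℝ) ((2 : ℝ) ^ s)
  have e5 := Filter.eventually_ge_atTop (α := ℝ) 16384
  have e6 := Filter.eventually_ge_atTop (α := ℝ) (1024 * (1 + C))
  have e7 := Filter.eventually_ge_atTop (α := ℝ) (8192 / ε)
  obtain ⟨a0, h⟩ := Filter.eventually_atTop.1 (e1.and (e2.and (e3.and (e4.and (e5.and (e6.and e7))))))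
  refine ⟨a0, fun a ha => ?_⟩
  obtain ⟨h1, h2, h3, h4, h5, h6, h7⟩ := h a ha
  simp only [Function.comp_apply] at h1 h2
  have hee : Real.exp 1 ≤ 3 := by
    have := Real.exp_one_lt_d9
    linarith
  refine ⟨h4, h5, h6, h7, ?_, ?_, h3⟩
  · have hp : 0 < ((a + 1) / 8) ^ 4 := by positivity
    rw [le_div_iff₀ hp] at h1
    have h8 : Real.exp ((a + 1) / 8) ≤ 3 * Real.exp (a / 8) := by
      have : Real.exp ((a + 1) / 8) = Real.exp (1 / 8) * Real.exp (a / 8) := by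
        rw [← Real.exp_add]; congr 1; ring
      rw [this]
      apply mul_le_mul_of_nonneg_right _ (Real.exp_pos _).le
      exact (Real.exp_le_exp.2 (by norm_num)).trans hee
    have h9 : ((2 : ℝ) ^ s) ^ 2 * 8 ^ 4 * 3 / ε * ((a + 1) / 8) ^ 4 = 3 * (((2 : ℝ) ^ s * (a + 1) ^ 2) ^ 2 / ε) := by
      field_simp
    have h10 : ((2 : ℝ) ^ s * (a + 1) ^ 2) ^ 2 / ε ≤ Real.exp (a / 8) := by
      rw [h9] at h1
      linarith
    rw [Real.exp_neg, mul_inv_le_iff₀ (Real.exp_pos _)]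
    rw [div_le_iff₀ hε] at h10
    linarith
  · have hp : 0 < ((a + 1) / 1024) ^ 2 := by positivity
    rw [le_div_iff₀ hp] at h2
    have h8 : Real.exp ((a + 1) / 1024) ≤ 3 * Real.exp (a / 1024) := by
      have : Real.exp ((a + 1) / 1024) = Real.exp (1 / 1024) * Real.exp (a / 1024) := by
        rw [← Real.exp_add]; congr 1; ring
      rw [this]
      apply mul_le_mul_of_nonneg_right _ (Real.exp_pos _).le
      exact (Real.exp_le_exp.2 (by norm_num)).trans hee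
    have h9 : (1024 : ℝ) ^ 2 * 3 * ((a + 1) / 1024) ^ 2 = 3 * (a + 1) ^ 2 := by ring
    rw [h9] at h2
    linarith

/-- the weights -/
lemma wts {ε C : ℝ} (hε : 0 < ε) (hC : ∀ H u v : ℕ, 1 ≤ H → H ≤ u → u < v →
      Real.log ((v : ℝ) / u) - C ≤ Wt (PS H u v)) {b s : ℕ}
    (ha : (16384 : ℝ) ≤ (Nat.sqrt b : ℝ)) (haC : 1024 * (1 + C) ≤ (Nat.sqrt b : ℝ)) (haε : 8192 / ε ≤ (Nat.sqrt b : ℝ))
    (hc : ((Nat.sqrt b : ℝ) + 1) ^ 2 ≤ Real.exp ((Nat.sqrt b : ℝ) / 1024))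
    (hl : 4 / ε + C ≤ Real.log (Nat.sqrt b : ℝ)) (j : ℕ) :
    4 / ε * 2 ^ j ≤ Wt (PS (2 ^ (j + s)) (2 ^ (j + s) * (P b j).1) (2 ^ (j + s) * (P b j).2)) := by
  have hi := inv ha hc j
  have h64 : (1 : ℝ) ≤ 64 ^ j := one_le_pow₀ (by norm_num)
  have hA1 : (1 : ℝ) ≤ ((P b j).1 : ℝ) := by nlinarith [hi.1]
  have hA1' : 1 ≤ (P b j).1 := by exact_mod_cast hA1
  have hH : 1 ≤ 2 ^ (j + s) := Nat.one_le_two_pow
  have hM := hC (2 ^ (j + s)) (2 ^ (j + s) * (P b j).1) (2 ^ (j + s) * (P b j).2) hH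
    (Nat.le_mul_of_pos_right _ hA1') (Nat.mul_lt_mul_of_pos_left hi.2.1 hH)
  have hr : ((2 ^ (j + s) * (P b j).2 : ℕ) : ℝ) / ((2 ^ (j + s) * (P b j).1 : ℕ) : ℝ) =
      ((P b j).2 : ℝ) / ((P b j).1 : ℝ) := by
    push_cast
    rw [mul_div_mul_left _ _ (by positivity)]
  rw [hr] at hM
  refine le_trans ?_ hM
  cases j with
  | zero =>
    simp only [P_zero, pow_zero, mul_one]
    have h1 := Nat.sqrt_le b
    have ha0 : (0 : ℝ) < (Nat.sqrt b : ℝ) := by linarith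
    have h2 : (Nat.sqrt b : ℝ) ≤ (b : ℝ) / (Nat.sqrt b : ℝ) := by
      rw [le_div_iff₀ ha0]
      exact_mod_cast h1
    have h3 := Real.log_le_log ha0 h2
    linarith
  | succ n =>
    have hn := inv ha hc n
    have hAB : ((P b n).1 : ℝ) ≤ ((P b n).2 : ℝ) := by exact_mod_cast hn.2.1.le
    have h1 := W_succ (a := (Nat.sqrt b : ℝ)) (C := C) (j := n) (W := Real.log (((P b (n + 1)).2 : ℝ) / ((P b (n + 1)).1 : ℝ)) - C)
      ha haC hn.1 hAB hn.2.2 (by
        rw [P_succ]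
        push_cast
        exact le_refl _)
    refine le_trans ?_ h1
    have h2 : (2 : ℝ) ^ n ≤ 16 ^ n := pow_le_pow_left₀ (by norm_num) (by norm_num) n
    have h3 : 8192 / ε * 16 ^ n ≤ (Nat.sqrt b : ℝ) * 16 ^ n := mul_le_mul_of_nonneg_right haε (by positivity)
    have h4 : 4 / ε * 2 ^ (n + 1) = 8 / ε * 2 ^ n := by rw [pow_succ]; ring
    rw [h4]
    have h5 : 8 / ε * 2 ^ n ≤ 8 / ε * 16 ^ n := mul_le_mul_of_nonneg_left h2 (by positivity)
    have h6 : 8192 / ε * 16 ^ n / 1024 = 8 / ε * 16 ^ n := by ring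
    linarith

end XSq

/-- **ITEM Sq.** -/
theorem iSq (h1 : StMr) : StSq := by
  obtain ⟨C, -, hC⟩ := h1
  intro ε hε hε1
  -- the exponent `s`
  obtain ⟨s0, hs0⟩ := pow_unbounded_of_one_lt (4 / ε) (by norm_num : (1 : ℝ) < 2)
  set s := s0 + 1 with hsd
  have hs : 4 / ε ≤ (2 : ℝ) ^ s := by
    rw [hsd, pow_succ]
    have : (0 : ℝ) < 2 ^ s0 := by positivity
    linarith
  obtain ⟨a0, ha0⟩ := XSq.large ε C s hε
  refine ⟨max 3 (Real.exp ((⌈a0⌉₊ : ℝ) ^ 2 + 1)), le_max_left _ _, fun h hh => ?_⟩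
  have hh1 : Real.exp ((⌈a0⌉₊ : ℝ) ^ 2 + 1) ≤ h := (le_max_right _ _).trans hh
  have hh0 : 0 < h := lt_of_lt_of_le (Real.exp_pos _) hh1
  have hlog : (⌈a0⌉₊ : ℝ) ^ 2 + 1 ≤ Real.log h := (Real.le_log_iff_exp_le hh0).2 hh1
  have hlog0 : 0 ≤ Real.log h := le_trans (by positivity) hlog
  set b := ⌊Real.log h⌋₊ with hbd
  have hb1 : ⌈a0⌉₊ * ⌈a0⌉₊ ≤ b := by
    rw [hbd]
    apply Nat.le_floor
    push_cast
    nlinarith
  have hsq : a0 ≤ (Nat.sqrt b : ℝ) := by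
    have h2 : ⌈a0⌉₊ ≤ Nat.sqrt b := Nat.le_sqrt.2 hb1
    exact (Nat.le_ceil a0).trans (by exact_mod_cast h2)
  obtain ⟨c1, c2, c3, c4, c5, c6, c7⟩ := ha0 _ hsq
  have hinv := XSq.inv c2 c6
  have hwt := fun j => XSq.wts (s := s) hε hC c2 c3 c4 c6 c7 j
  have hA16 : ∀ j, (16384 : ℝ) * 64 ^ j ≤ ((XSq.P b j).1 : ℝ) := fun j =>
    (mul_le_mul_of_nonneg_right c2 (by positivity)).trans (hinv j).1
  have h64 : ∀ j : ℕ, (1 : ℝ) ≤ 64 ^ j := fun j => one_le_pow₀ (by norm_num)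
  have hAB : ∀ j, ((XSq.P b j).1 : ℝ) ≤ ((XSq.P b j).2 : ℝ) := fun j => by exact_mod_cast (hinv j).2.1.le
  have hHB : ∀ j, 2 ^ (j + s) ≤ (XSq.P b j).2 := by
    intro j
    have h2 : ((2 ^ (j + s) : ℕ) : ℝ) ≤ ((XSq.P b j).2 : ℝ) := by
      push_cast
      calc (2 : ℝ) ^ (j + s) = 2 ^ s * 2 ^ j := by rw [pow_add]; ring
        _ ≤ (Nat.sqrt b : ℝ) * 64 ^ j :=
          mul_le_mul c1 (pow_le_pow_left₀ (by norm_num) (by norm_num) j) (by positivity) (by positivity)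
        _ ≤ ((XSq.P b j).1 : ℝ) := (hinv j).1
        _ ≤ ((XSq.P b j).2 : ℝ) := hAB j
    exact_mod_cast h2
  have hc4 : 2 / ε ≤ (Nat.sqrt b : ℝ) := by
    refine le_trans ?_ c4
    exact div_le_div_of_nonneg_right (by norm_num) hε.le
  refine ⟨fun j => (XSq.P b j).1, fun j => (XSq.P b j).2, fun j => 2 ^ (j + s), ?_⟩
  constructor
  · intro j
    have h2 : (2 : ℝ) ≤ ((XSq.P b j).1 : ℝ) := by
      have := hA16 j
      have := h64 j
      linarith
    exact_mod_cast h2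
  · exact fun j => (hinv j).2.1
  · intro j
    show (XSq.P b j).2 ≤ XSq.K j * (XSq.P b j).2
    have h2 : 1 ≤ XSq.K j := by
      unfold XSq.K
      exact Nat.succ_le_of_lt (by positivity)
    nlinarith
  · intro j
    show 2 ≤ 2 ^ (j + s)
    rw [hsd]
    calc 2 = 2 ^ 1 := rfl
      _ ≤ 2 ^ (j + (s0 + 1)) := Nat.pow_le_pow_right (by norm_num) (by omega)
  · exact hHB
  · intro j
    have h2 : (j : ℝ) ≤ ((XSq.P b j).2 : ℝ) := by
      have h3 := hA16 j
      have h4 := hAB j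
      have h5 := one_add_mul_le_pow (a := (63 : ℝ)) (by norm_num) j
      have h6 : (1 + (63 : ℝ)) = 64 := by norm_num
      rw [h6] at h5
      have h0 : (0 : ℝ) ≤ j := Nat.cast_nonneg j
      linarith
    exact_mod_cast h2
  · show Real.exp ((b : ℕ) : ℝ) ≤ h
    rw [← Real.le_log_iff_exp_le hh0]
    exact Nat.floor_le hlog0
  · intro j
    refine le_trans ?_ (hwt j)
    have h2 : (1 : ℝ) ≤ 2 ^ j := one_le_pow₀ (by norm_num)
    have h3 : 4 ≤ 4 / ε := by rw [le_div_iff₀ hε]; linarith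
    nlinarith
  · intro n
    have hterm : ∀ j ∈ Finset.range n, (1 / Wt (PS (2 ^ (j + s)) (2 ^ (j + s) * (XSq.P b j).1) (2 ^ (j + s) * (XSq.P b j).2)) +
        1 / ((2 ^ (j + s) : ℕ) : ℝ)) ≤ ε / 2 * (1 / 2) ^ j := by
      intro j _
      have h2 : 1 / Wt (PS (2 ^ (j + s)) (2 ^ (j + s) * (XSq.P b j).1) (2 ^ (j + s) * (XSq.P b j).2)) ≤ 1 / (4 / ε * 2 ^ j) :=
        one_div_le_one_div_of_le (by positivity) (hwt j)
      have h3 : 1 / (4 / ε * 2 ^ j) = ε / 4 * (1 / 2) ^ j := by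
        rw [one_div_pow]; field_simp
      have h4 : 1 / ((2 ^ (j + s) : ℕ) : ℝ) ≤ 1 / (4 / ε * 2 ^ j) := by
        apply one_div_le_one_div_of_le (by positivity)
        push_cast
        rw [pow_add, mul_comm ((2 : ℝ) ^ j)]
        exact mul_le_mul_of_nonneg_right hs (by positivity)
      rw [h3] at h2 h4
      linarith
    refine (Finset.sum_le_sum hterm).trans ?_
    rw [← Finset.mul_sum]
    have := sum_geometric_two_le n
    nlinarith
  · have hb2 : (b : ℝ) ≤ ((Nat.sqrt b : ℝ) + 1) ^ 2 := by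
      have h2 : b < (Nat.sqrt b + 1) * (Nat.sqrt b + 1) := Nat.lt_succ_sqrt b
      have : (b : ℝ) < ((Nat.sqrt b : ℝ) + 1) * ((Nat.sqrt b : ℝ) + 1) := by exact_mod_cast h2
      nlinarith
    show (((2 ^ (0 + s) * b : ℕ)) : ℝ) ^ 2 * Real.exp (-(2 * al 0 * ((Nat.sqrt b : ℕ) : ℝ))) ≤ ε
    have hal : 2 * al 0 * (Nat.sqrt b : ℝ) = (Nat.sqrt b : ℝ) / 8 := by
      unfold al
      norm_num
      ring
    rw [hal]
    refine le_trans (mul_le_mul_of_nonneg_right ?_ (Real.exp_pos _).le) c5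
    apply pow_le_pow_left₀ (by positivity)
    push_cast
    rw [zero_add]
    exact mul_le_mul_of_nonneg_left hb2 (by positivity)
  · intro j x y hx1 hx2 hy1 hy2
    have hB' : ((XSq.P b (j + 1)).2 : ℝ) ≤ Real.exp (XSq.kap j * ((XSq.P b j).1 : ℝ)) := by
      rw [XSq.P_succ]
      exact Nat.floor_le (Real.exp_pos _).le
    have hA' : ((XSq.P b (j + 1)).1 : ℝ) = (XSq.K j : ℝ) * ((XSq.P b j).2 : ℝ) := by
      rw [XSq.P_succ]
      push_cast
      rfl
    refine XSq.gain hε c2 hc4 (hinv j).1 (hAB j) (hinv j).2.2 hA' hB' (hAB (j + 1)) hx1 hx2 hy1 hy2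
      (by positivity) ?_ (by positivity) ?_
    · exact_mod_cast Nat.mul_le_mul_right _ (hHB (j + 1))
    · exact_mod_cast Nat.mul_le_mul_right _ (hHB j)
  · intro j
    have hB' : ((XSq.P b (j + 1)).2 : ℝ) ≤ Real.exp (XSq.kap j * ((XSq.P b j).1 : ℝ)) := by
      rw [XSq.P_succ]
      exact Nat.floor_le (Real.exp_pos _).le
    have hA1 : (16384 : ℝ) ≤ ((XSq.P b j).1 : ℝ) := by
      have := hA16 j
      have := h64 j
      linarith
    have hk : XSq.kap j * ((XSq.P b j).1 : ℝ) ≤ 1 / 256 * ((XSq.P b j).1 : ℝ) :=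
      mul_le_mul_of_nonneg_right (XSq.kap_le j) (by linarith)
    have h100 : (100 : ℝ) ≤ Real.exp (((XSq.P b j).1 : ℝ) / 100 - 1 / 256 * ((XSq.P b j).1 : ℝ)) := by
      have := Real.add_one_le_exp (((XSq.P b j).1 : ℝ) / 100 - 1 / 256 * ((XSq.P b j).1 : ℝ))
      linarith
    calc (100 : ℝ) * ((XSq.P b (j + 1)).2 : ℝ)
        ≤ Real.exp (((XSq.P b j).1 : ℝ) / 100 - 1 / 256 * ((XSq.P b j).1 : ℝ)) * Real.exp (1 / 256 * ((XSq.P b j).1 : ℝ)) :=
          mul_le_mul h100 (hB'.trans (Real.exp_le_exp.2 hk)) (by positivity) (Real.exp_pos _).le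
      _ = Real.exp (((XSq.P b j).1 : ℝ) / 100) := by rw [← Real.exp_add]; congr 1; ring

end Pool.Agent.Work.MP_a8fbd7_nt.PAR.MR
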