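import Pool.Agent.Work.MP_a8fbd7_nt.PAR.MR.StmtsA

/-!
# MP_a8fbd7_nt, parity, block MR, item TK: Turan-Kubilius for a set of primes
-/

open MeasureTheory Set

noncomputable section

namespace Pool.Agent.Work.MP_a8fbd7_nt.PAR.MR

namespace XTK

lemma card_Ioc_dvd {a b : ℕ} (hab : a ≤ b) (d : ℕ) :
    ((Finset.Ioc a b).filter fun n => d ∣ n).card = b / d - a / d := by
  have h1 : Finset.Ioc 0 b = Finset.Ioc 0 a ∪ Finset.Ioc a b := by
    ext n
    simp only [Finset.mem_Ioc, Finset.mem_union]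
    omega
  have h2 : Disjoint ((Finset.Ioc 0 a).filter fun n => d ∣ n)
      ((Finset.Ioc a b).filter fun n => d ∣ n) := by
    rw [Finset.disjoint_left]
    intro n hn hn'
    simp only [Finset.mem_filter, Finset.mem_Ioc] at hn hn'
    omega
  have h3 := Nat.Ioc_filter_dvd_card_eq_div b d
  have h4 := Nat.Ioc_filter_dvd_card_eq_div a d
  rw [h1, Finset.filter_union, Finset.card_union_of_disjoint h2, h4] at h3
  omega

/-- number of multiples -/
def Nd (X : ℝ) (d : ℕ) : ℝ := (((IX X).filter fun n => d ∣ n).card : ℝ)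

lemma Nd_eq {X : ℝ} (hX : 1 ≤ X) (d : ℕ) :
    Nd X d = (⌊2 * X / d⌋₊ : ℝ) - (⌊X / d⌋₊ : ℝ) := by
  have h1 : ⌊X⌋₊ ≤ ⌊2 * X⌋₊ := Nat.floor_le_floor (by linarith)
  unfold Nd IX
  rw [card_Ioc_dvd h1, Nat.floor_div_natCast, Nat.floor_div_natCast, Nat.cast_sub]
  exact Nat.div_le_div_right h1

lemma Nd_le {X : ℝ} (hX : 1 ≤ X) (d : ℕ) : Nd X d ≤ X / d + 1 := by
  rw [Nd_eq hX]
  have h1 : (⌊2 * X / d⌋₊ : ℝ) ≤ 2 * X / d := Nat.floor_le (by positivity)
  have h2 : X / d < (⌊X / d⌋₊ : ℝ) + 1 := Nat.lt_floor_add_one _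
  have h3 : 2 * X / d = 2 * (X / d) := by ring
  linarith

lemma Nd_ge {X : ℝ} (hX : 1 ≤ X) (d : ℕ) : X / d - 1 ≤ Nd X d := by
  rw [Nd_eq hX]
  have h1 : 2 * X / d < (⌊2 * X / d⌋₊ : ℝ) + 1 := Nat.lt_floor_add_one _
  have h2 : (⌊X / d⌋₊ : ℝ) ≤ X / d := Nat.floor_le (by positivity)
  have h3 : 2 * X / d = 2 * (X / d) := by ring
  linarith

lemma om_eq (S : Finset ℕ) (n : ℕ) : om S n = ∑ p ∈ S, if p ∣ n then (1 : ℝ) else 0 := by
  unfold om
  rw [Finset.sum_boole]

lemma sum_om (X : ℝ) (S : Finset ℕ) : ∑ n ∈ IX X, om S n = ∑ p ∈ S, Nd X p := by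
  simp only [om_eq]
  rw [Finset.sum_comm]
  refine Finset.sum_congr rfl fun p _ => ?_
  rw [Finset.sum_boole]
  rfl

lemma sum_om_sq (X : ℝ) (S : Finset ℕ) : ∑ n ∈ IX X, om S n ^ 2 =
    ∑ p ∈ S, ∑ q ∈ S, (((IX X).filter fun n => p ∣ n ∧ q ∣ n).card : ℝ) := by
  have h1 : ∀ n, om S n ^ 2 = ∑ p ∈ S, ∑ q ∈ S, if p ∣ n ∧ q ∣ n then (1 : ℝ) else 0 := by
    intro n
    rw [pow_two, om_eq, Finset.sum_mul_sum]
    refine Finset.sum_congr rfl fun p _ => Finset.sum_congr rfl fun q _ => ?_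
    by_cases h1 : p ∣ n <;> by_cases h2 : q ∣ n <;> simp [h1, h2]
  simp only [h1]
  rw [Finset.sum_comm]
  refine Finset.sum_congr rfl fun p _ => ?_
  rw [Finset.sum_comm]
  refine Finset.sum_congr rfl fun q _ => ?_
  rw [Finset.sum_boole]

end XTK

theorem iTK : StTK := by
  classical
  refine ⟨4, by norm_num, fun X S hX hS => ?_⟩
  set k := S.card with hk
  set W := Wt S with hW
  have hW0 : 0 ≤ W := Finset.sum_nonneg fun _ _ => by positivity
  have hWk : W ≤ k := by
    have h1 : W ≤ ∑ p ∈ S, (1 : ℝ) := by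
      refine Finset.sum_le_sum fun p hp => ?_
      have h2 : (1 : ℝ) ≤ p := by exact_mod_cast (hS p hp).1.one_lt.le
      rw [div_le_one (by linarith)]
      exact h2
    rwa [Finset.sum_const, nsmul_eq_mul, mul_one] at h1
  have hkX : (k : ℝ) ^ 2 ≤ X := by
    rcases Nat.eq_zero_or_pos k with h0 | h0
    · rw [h0]
      norm_num
      linarith
    · obtain ⟨p, hp, hpk⟩ : ∃ p ∈ S, k ≤ p := by
        by_contra hcon
        push Not at hcon
        have h1 : S ⊆ Finset.Icc 1 (k - 1) := by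
          intro p hp
          rw [Finset.mem_Icc]
          have := hcon p hp
          have := (hS p hp).1.one_lt
          omega
        have h2 := Finset.card_le_card h1
        rw [Nat.card_Icc] at h2
        omega
      have h1 : (k : ℝ) ^ 4 ≤ (p : ℝ) ^ 4 := pow_le_pow_left₀ (Nat.cast_nonneg _)
        (by exact_mod_cast hpk) 4
      have h2 : (k : ℝ) ^ 2 ≤ (k : ℝ) ^ 4 :=
        pow_le_pow_right₀ (by exact_mod_cast h0) (by norm_num)
      exact h2.trans (h1.trans (hS p hp).2)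
  have hk0 : (0 : ℝ) ≤ k := Nat.cast_nonneg _
  -- first moment
  have hm1 : X * W - k ≤ ∑ n ∈ IX X, om S n := by
    rw [XTK.sum_om]
    have h1 : X * W - k = ∑ p ∈ S, (X / p - 1) := by
      rw [Finset.sum_sub_distrib, Finset.sum_const, nsmul_eq_mul, mul_one, hW]
      unfold Wt
      rw [Finset.mul_sum]
      congr 1
      exact Finset.sum_congr rfl fun p _ => by ring
    rw [h1]
    exact Finset.sum_le_sum fun p _ => XTK.Nd_ge hX p
  -- second moment
  have hm2 : ∑ n ∈ IX X, om S n ^ 2 ≤ X * (W ^ 2 + W) + (k : ℝ) ^ 2 := by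
    rw [XTK.sum_om_sq]
    have h1 : ∀ p ∈ S, ∀ q ∈ S, (((IX X).filter fun n => p ∣ n ∧ q ∣ n).card : ℝ) ≤
        X * (1 / (p : ℝ) * (1 / (q : ℝ))) + (if p = q then X * (1 / (p : ℝ)) else 0) + 1 := by
      intro p hp q hq
      have hp0 : (0 : ℝ) < p := by exact_mod_cast (hS p hp).1.pos
      have hq0 : (0 : ℝ) < q := by exact_mod_cast (hS q hq).1.pos
      by_cases hpq : p = q
      · subst hpq
        rw [if_pos rfl]
        have h2 : ((IX X).filter fun n => p ∣ n ∧ p ∣ n) = (IX X).filter fun n => p ∣ n := by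
          refine Finset.filter_congr fun n _ => ?_
          tauto
        rw [h2]
        have h3 := XTK.Nd_le hX p
        unfold XTK.Nd at h3
        have h4 : 0 ≤ X * (1 / (p : ℝ) * (1 / (p : ℝ))) := by positivity
        have h5 : X / p = X * (1 / (p : ℝ)) := by ring
        linarith
      · rw [if_neg hpq]
        have hcop : Nat.Coprime p q := (Nat.coprime_primes (hS p hp).1 (hS q hq).1).2 hpq
        have h2 : ((IX X).filter fun n => p ∣ n ∧ q ∣ n) = (IX X).filter fun n => p * q ∣ n := by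
          refine Finset.filter_congr fun n _ => ?_
          constructor
          · rintro ⟨h1, h2⟩
            exact hcop.mul_dvd_of_dvd_of_dvd h1 h2
          · intro h
            exact ⟨(Dvd.intro _ rfl).trans h, (Dvd.intro_left _ rfl).trans h⟩
        rw [h2]
        have h3 := XTK.Nd_le hX (p * q)
        unfold XTK.Nd at h3
        have h5 : X / ((p * q : ℕ) : ℝ) = X * (1 / (p : ℝ) * (1 / (q : ℝ))) := by
          push_cast
          field_simp
        linarith
    refine (Finset.sum_le_sum fun p hp => Finset.sum_le_sum fun q hq => h1 p hp q hq).trans ?_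
    simp only [Finset.sum_add_distrib]
    have e1 : ∑ p ∈ S, ∑ q ∈ S, X * (1 / (p : ℝ) * (1 / (q : ℝ))) = X * W ^ 2 := by
      rw [pow_two, hW]
      unfold Wt
      rw [Finset.sum_mul_sum, Finset.mul_sum]
      refine Finset.sum_congr rfl fun p _ => ?_
      rw [Finset.mul_sum]
    have e2 : ∑ p ∈ S, ∑ q ∈ S, (if p = q then X * (1 / (p : ℝ)) else 0) = X * W := by
      rw [hW]
      unfold Wt
      rw [Finset.mul_sum]
      refine Finset.sum_congr rfl fun p hp => ?_
      rw [Finset.sum_ite_eq, if_pos hp]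
    have e3 : ∑ _p ∈ S, ∑ _q ∈ S, (1 : ℝ) = (k : ℝ) ^ 2 := by
      simp only [Finset.sum_const, nsmul_eq_mul, mul_one]
      rw [hk]
      ring
    rw [e1, e2, e3]
    linarith
  -- zeroth moment
  have hm0 : ((IX X).card : ℝ) ≤ X + 1 := by
    have h1 := XTK.Nd_le hX 1
    unfold XTK.Nd at h1
    have h2 : ((IX X).filter fun n => 1 ∣ n) = IX X :=
      Finset.filter_true_of_mem fun n _ => one_dvd n
    rw [h2] at h1
    simpa using h1
  have hexp : ∑ n ∈ IX X, (om S n - W) ^ 2 = ∑ n ∈ IX X, om S n ^ 2 -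
      2 * W * ∑ n ∈ IX X, om S n + W ^ 2 * (IX X).card := by
    have h1 : ∀ n, (om S n - W) ^ 2 = om S n ^ 2 - 2 * W * om S n + W ^ 2 := fun n => by ring
    simp only [h1]
    rw [Finset.sum_add_distrib, Finset.sum_sub_distrib, ← Finset.mul_sum, Finset.sum_const,
      nsmul_eq_mul]
    ring
  rw [hexp]
  have h3 : 2 * W * (X * W - k) ≤ 2 * W * ∑ n ∈ IX X, om S n :=
    mul_le_mul_of_nonneg_left hm1 (by positivity)
  have h4 : W ^ 2 * ((IX X).card : ℝ) ≤ W ^ 2 * (X + 1) :=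
    mul_le_mul_of_nonneg_left hm0 (by positivity)
  have h5 : W * k ≤ (k : ℝ) ^ 2 := by nlinarith
  have h6 : W ^ 2 ≤ (k : ℝ) ^ 2 := pow_le_pow_left₀ hW0 hWk 2
  have h7 : 0 ≤ X * W := by positivity
  nlinarith

end Pool.Agent.Work.MP_a8fbd7_nt.PAR.MR
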