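import Pool.Agent.Work.MP_a8fbd7_nt.PAR.MR.StmtsB

/-!
# MP_a8fbd7_nt, parity, block MR, item Tl: the Gaussian tail
-/

open MeasureTheory Set Filter Topology

noncomputable section

namespace Pool.Agent.Work.MP_a8fbd7_nt.PAR.MR

open Pool.Agent.Work.MP_56b8f5_nt.UC (Dp Sep)

theorem iTl (h1 : StQF) (h2 : StGM) : StTl := by
  obtain ⟨C, hC, hGM⟩ := h2
  refine ⟨2 * C, by linarith, fun T U Y a hT hU => ?_⟩
  have hs2 : 0 < Real.sqrt 2 := by positivity
  have hs2' : Real.sqrt 2 ≤ 2 := by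
    rw [show (2 : ℝ) = Real.sqrt 4 by
      rw [show (4 : ℝ) = 2 ^ 2 by norm_num, Real.sqrt_sq (by norm_num)]]
    exact Real.sqrt_le_sqrt (by norm_num [Real.sqrt_le_iff])
  have hT' : 0 < Real.sqrt 2 * T := by positivity
  have hI1 := (h1 T Y a hT).1
  have hI2 := (h1 (Real.sqrt 2 * T) Y a hT').1
  have hms : MeasurableSet {t : ℝ | U < |t|} := measurableSet_lt measurable_const measurable_norm
  have hS0 : 0 ≤ ∑ n ∈ Finset.Icc 1 Y, ‖a n‖ ^ 2 := Finset.sum_nonneg fun _ _ => by positivity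
  have hY0 : (0 : ℝ) ≤ Y := Nat.cast_nonneg _
  calc ∫ t in {t : ℝ | U < |t|}, Real.exp (-(t / T) ^ 2) * ‖Dp Y a t‖ ^ 2 ≤
        ∫ t in {t : ℝ | U < |t|}, Real.exp (-((U / T) ^ 2 / 2)) *
          (Real.exp (-(t / (Real.sqrt 2 * T)) ^ 2) * ‖Dp Y a t‖ ^ 2) := by
        refine setIntegral_mono_on hI1.integrableOn (hI2.const_mul _).integrableOn hms ?_
        intro t ht
        rw [← mul_assoc]
        refine mul_le_mul_of_nonneg_right ?_ (by positivity)
        rw [← Real.exp_add]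
        refine Real.exp_le_exp.2 ?_
        have e1 : (t / (Real.sqrt 2 * T)) ^ 2 = (t / T) ^ 2 / 2 := by
          rw [div_pow, mul_pow, Real.sq_sqrt (by norm_num), div_pow]
          field_simp
        have e2 : (U / T) ^ 2 ≤ (t / T) ^ 2 := by
          rw [div_pow, div_pow]
          refine div_le_div_of_nonneg_right ?_ (by positivity)
          have ht' : U < |t| := ht
          rw [← sq_abs t]
          exact pow_le_pow_left₀ hU ht'.le 2
        rw [e1]
        linarith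
    _ ≤ ∫ t : ℝ, Real.exp (-((U / T) ^ 2 / 2)) *
          (Real.exp (-(t / (Real.sqrt 2 * T)) ^ 2) * ‖Dp Y a t‖ ^ 2) :=
        setIntegral_le_integral (hI2.const_mul _) (Eventually.of_forall fun t => by positivity)
    _ = Real.exp (-((U / T) ^ 2 / 2)) *
          ∫ t : ℝ, Real.exp (-(t / (Real.sqrt 2 * T)) ^ 2) * ‖Dp Y a t‖ ^ 2 := integral_const_mul _ _
    _ ≤ Real.exp (-((U / T) ^ 2 / 2)) * (C * (Real.sqrt 2 * T + Y) *
          ∑ n ∈ Finset.Icc 1 Y, ‖a n‖ ^ 2) :=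
        mul_le_mul_of_nonneg_left (hGM _ Y a hT') (Real.exp_pos _).le
    _ ≤ Real.exp (-((U / T) ^ 2 / 2)) * (2 * C * (T + Y) * ∑ n ∈ Finset.Icc 1 Y, ‖a n‖ ^ 2) := by
        refine mul_le_mul_of_nonneg_left (mul_le_mul_of_nonneg_right ?_ hS0) (Real.exp_pos _).le
        have : Real.sqrt 2 * T ≤ 2 * T := mul_le_mul_of_nonneg_right hs2' hT.le
        nlinarith
    _ = _ := by ring

end Pool.Agent.Work.MP_a8fbd7_nt.PAR.MR
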