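import Pool.Agent.Work.MP_a8fbd7_nt.PAR.MR.StmtsB

/-!
# MP_a8fbd7_nt, parity, block MR, item U1: few large values
-/

open MeasureTheory Set Filter Topology

noncomputable section

namespace Pool.Agent.Work.MP_a8fbd7_nt.PAR.MR

open Pool.Agent.Work.MP_56b8f5_nt.UC (Dp Sep)

namespace XU1

lemma ev_pow (K b : ℝ) (hb : 0 < b) : ∀ᶠ x : ℝ in atTop, K * x ^ 5 ≤ Real.exp (b * x) := by
  have h := (isLittleO_pow_exp_pos_mul_atTop 5 hb).const_mul_left K
  have h1 := h.bound (show (0 : ℝ) < 1 by norm_num)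
  filter_upwards [h1] with x hx
  have h2 : ‖Real.exp (b * x)‖ = Real.exp (b * x) := by
    rw [Real.norm_eq_abs, abs_of_pos (Real.exp_pos _)]
  rw [h2, one_mul] at hx
  exact (le_abs_self _).trans hx

lemma one_block {C : ℝ} (hC : 1 ≤ C)
    (hMv : ∀ (T0 T : ℝ) (W : Finset ℝ) (Y : ℕ) (a : ℕ → ℂ), 1 ≤ T → Sep W →
      (∀ t ∈ W, T0 ≤ t ∧ t ≤ T0 + T) → 1 ≤ Y →
      ∑ t ∈ W, ‖Dp Y a t‖ ^ 2 ≤ C * (1 + Real.log Y) ^ 2 * (T + Y) *
        ∑ n ∈ Finset.Icc 1 Y, ‖a n‖ ^ 2) (hPw : StPw)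
    {X L LL : ℝ} (hL : L = Real.log X) (hLL : LL = Real.log L) (h100 : 100 ≤ LL) (hX : 1 ≤ X)
    {H r : ℕ} {α : ℝ} {W : Finset ℝ} (hH : 1 ≤ H) (hr1 : 40 * LL ≤ (r : ℝ) / H)
    (hr2 : (r : ℝ) / H ≤ L / 100) (_ha0 : 0 ≤ α) (ha : α ≤ 1 / 5) (hW : Sep W)
    (hWX : ∀ t ∈ W, |t| ≤ X)
    (hbig : ∀ t ∈ W, Real.exp ((1 - α) * ((r : ℝ) / H)) < ‖Pb H r t‖) :
    (W.card : ℝ) ≤ 3 * C * (16 * L ^ 2) * Real.exp (L / 40 + LL + L / 2000 + 2 + L / 100 +
      2 / 5 * L) := by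
  have hLLL : LL ≤ L := by rw [hLL]; exact Real.log_le_self (by
    by_contra hneg
    push Not at hneg
    have h1 : 0 ≤ L := by rw [hL]; exact Real.log_nonneg hX
    linarith)
  have hL100 : 100 ≤ L := h100.trans hLLL
  have hLpos : 0 < L := by linarith
  have hexpL : Real.exp L = X := by rw [hL]; exact Real.exp_log (by linarith)
  have hexpLL : Real.exp LL = L := by rw [hLL]; exact Real.exp_log hLpos
  set ρ : ℝ := (r : ℝ) / H with hρ
  have hρpos : 0 < ρ := by nlinarith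
  set l : ℕ := ⌈L / ρ⌉₊ with hl
  have hl1 : L / ρ ≤ (l : ℝ) := Nat.le_ceil _
  have hl2 : (l : ℝ) < L / ρ + 1 := Nat.ceil_lt_add_one (by positivity)
  have hlρ1 : L ≤ l * ρ := by
    rw [div_le_iff₀ hρpos] at hl1
    exact hl1
  have hlρ2 : l * ρ ≤ L + ρ := by
    have h1 : (l : ℝ) * ρ ≤ (L / ρ + 1) * ρ := mul_le_mul_of_nonneg_right hl2.le hρpos.le
    have h2 : (L / ρ + 1) * ρ = L + ρ := by field_simp
    linarith
  have hlL : (l : ℝ) ≤ L / (40 * LL) + 1 := by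
    have h1 : L / ρ ≤ L / (40 * LL) := div_le_div_of_nonneg_left hLpos.le (by linarith) hr1
    linarith
  have hlL2 : (l : ℝ) * LL ≤ L / 40 + LL := by
    have h1 : (l : ℝ) * LL ≤ (L / (40 * LL) + 1) * LL :=
      mul_le_mul_of_nonneg_right hlL (by linarith)
    have h2 : (L / (40 * LL) + 1) * LL = L / 40 + LL := by
      have : LL ≠ 0 := by linarith
      field_simp
    linarith
  have hl2L : 2 * (l : ℝ) ≤ L / 2000 + 2 := by
    have h1 : L / (40 * LL) ≤ L / 4000 := div_le_div_of_nonneg_left hLpos.le (by norm_num)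
      (by linarith)
    linarith
  have hlL3 : (l : ℝ) ≤ L := by linarith
  set E : ℝ := ((r : ℝ) + 1) / H * l with hE
  have hH' : (1 : ℝ) ≤ H := by exact_mod_cast hH
  have hE1 : E ≤ l * ρ + l := by
    have h1 : ((r : ℝ) + 1) / H = ρ + 1 / H := by rw [hρ]; ring
    have h2 : (1 : ℝ) / H ≤ 1 := by
      rw [div_le_one (by linarith)]
      exact hH'
    rw [hE, h1]
    have h3 : (0 : ℝ) ≤ l := Nat.cast_nonneg _
    nlinarith
  have hE0 : 0 ≤ E := by positivity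
  obtain ⟨a, ha1, ha2⟩ := hPw H r l hH
  rw [← hE] at ha2
  set Y : ℕ := ⌊Real.exp E⌋₊ with hY
  have hYle : (Y : ℝ) ≤ Real.exp E := Nat.floor_le (Real.exp_pos _).le
  have hY1 : 1 ≤ Y := by
    rw [hY, Nat.one_le_floor_iff]
    exact Real.one_le_exp hE0
  have hY1' : (1 : ℝ) ≤ Y := by exact_mod_cast hY1
  have hlogY : Real.log Y ≤ E := by
    calc Real.log Y ≤ Real.log (Real.exp E) := Real.log_le_log (by linarith) hYle
      _ = E := Real.log_exp E
  have hlogY0 : 0 ≤ Real.log Y := Real.log_nonneg hY1'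
  have hE3 : 1 + E ≤ 4 * L := by linarith
  have h1 := hMv (-X) (2 * X) W Y a (by linarith) hW (fun t ht => by
    have := abs_le.1 (hWX t ht)
    constructor <;> linarith) hY1
  have h2 : (W.card : ℝ) * Real.exp (2 * (l * ((1 - α) * ρ))) ≤ ∑ t ∈ W, ‖Dp Y a t‖ ^ 2 := by
    have h3 : ∀ t ∈ W, Real.exp (2 * (l * ((1 - α) * ρ))) ≤ ‖Dp Y a t‖ ^ 2 := by
      intro t ht
      have h4 := hbig t ht
      have h5 : Dp Y a t = Pb H r t ^ l := (ha1 t).symm
      rw [h5, norm_pow, ← pow_mul]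
      calc Real.exp (2 * (l * ((1 - α) * ρ))) = Real.exp ((1 - α) * ρ) ^ (l * 2) := by
            rw [← Real.exp_nat_mul]
            push_cast
            ring_nf
        _ ≤ ‖Pb H r t‖ ^ (l * 2) := pow_le_pow_left₀ (Real.exp_pos _).le h4.le _
    calc (W.card : ℝ) * Real.exp (2 * (l * ((1 - α) * ρ))) =
          ∑ t ∈ W, Real.exp (2 * (l * ((1 - α) * ρ))) := by
          rw [Finset.sum_const, nsmul_eq_mul]
      _ ≤ _ := Finset.sum_le_sum h3
  have hfac : (l.factorial : ℝ) ≤ Real.exp (L / 40 + LL) := by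
    calc (l.factorial : ℝ) ≤ (l : ℝ) ^ l := by exact_mod_cast Nat.factorial_le_pow l
      _ ≤ L ^ l := pow_le_pow_left₀ (Nat.cast_nonneg _) hlL3 _
      _ = Real.exp (l * LL) := by rw [Real.exp_nat_mul, hexpLL]
      _ ≤ _ := Real.exp_le_exp.2 hlL2
  have h3 : C * (1 + Real.log Y) ^ 2 * (2 * X + Y) * ∑ n ∈ Finset.Icc 1 Y, ‖a n‖ ^ 2 ≤
      C * (16 * L ^ 2) * (3 * Real.exp (L + ρ + l)) * (Real.exp (L / 40 + LL) *
        Real.exp (l * ρ + l)) := by
    have e1 : (1 + Real.log Y) ^ 2 ≤ 16 * L ^ 2 := by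
      have : (1 + Real.log Y) ^ 2 ≤ (4 * L) ^ 2 := pow_le_pow_left₀ (by linarith) (by linarith) 2
      nlinarith
    have e2 : 2 * X + Y ≤ 3 * Real.exp (L + ρ + l) := by
      have g1 : X ≤ Real.exp (L + ρ + l) := by
        rw [← hexpL]
        refine Real.exp_le_exp.2 ?_
        have : (0 : ℝ) ≤ l := Nat.cast_nonneg _
        linarith
      have g2 : (Y : ℝ) ≤ Real.exp (L + ρ + l) :=
        hYle.trans (Real.exp_le_exp.2 (by linarith))
      linarith
    have e3 : ∑ n ∈ Finset.Icc 1 Y, ‖a n‖ ^ 2 ≤ Real.exp (L / 40 + LL) *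
        Real.exp (l * ρ + l) := by
      refine ha2.trans ?_
      refine mul_le_mul hfac (Real.exp_le_exp.2 hE1) (Real.exp_pos _).le (Real.exp_pos _).le
    have e4 : 0 ≤ ∑ n ∈ Finset.Icc 1 Y, ‖a n‖ ^ 2 := Finset.sum_nonneg fun _ _ => by positivity
    have hY0 : (0 : ℝ) ≤ Y := Nat.cast_nonneg _
    refine mul_le_mul (mul_le_mul (mul_le_mul_of_nonneg_left e1 (by linarith)) e2 (by linarith)
      (by positivity)) e3 e4 (by positivity)
  have h4 : (W.card : ℝ) * Real.exp (2 * (l * ((1 - α) * ρ))) ≤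
      C * (16 * L ^ 2) * (3 * Real.exp (L + ρ + l)) * (Real.exp (L / 40 + LL) *
        Real.exp (l * ρ + l)) := h2.trans (h1.trans h3)
  have h5 : C * (16 * L ^ 2) * (3 * Real.exp (L + ρ + l)) * (Real.exp (L / 40 + LL) *
      Real.exp (l * ρ + l)) = 3 * C * (16 * L ^ 2) *
      Real.exp ((L + ρ + l) + (L / 40 + LL) + (l * ρ + l)) := by
    rw [Real.exp_add (L + ρ + l + (L / 40 + LL)), Real.exp_add (L + ρ + l)]
    ring
  rw [h5] at h4
  have h6 : (W.card : ℝ) ≤ 3 * C * (16 * L ^ 2) *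
      Real.exp ((L + ρ + l) + (L / 40 + LL) + (l * ρ + l) - 2 * (l * ((1 - α) * ρ))) := by
    rw [Real.exp_sub, ← mul_div_assoc, le_div_iff₀ (Real.exp_pos _)]
    exact h4
  refine h6.trans (mul_le_mul_of_nonneg_left (Real.exp_le_exp.2 ?_) (by positivity))
  have h7 : (1 - 2 * α) * L ≤ (1 - 2 * α) * (l * ρ) :=
    mul_le_mul_of_nonneg_left hlρ1 (by linarith)
  have h8 : 2 * α * L ≤ 2 / 5 * L := mul_le_mul_of_nonneg_right (by linarith) hLpos.le
  have h9 : l * ρ - 2 * (l * ((1 - α) * ρ)) = - ((1 - 2 * α) * (l * ρ)) := by ring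
  linarith

end XU1

theorem iU1 (h1 : StPw) (h2 : Pool.Agent.Work.MP_56b8f5_nt.UC.StMv) : StU1 := by
  obtain ⟨C, hC, hMv, _⟩ := h2
  have e1 : ∀ᶠ x : ℝ in atTop, 3 * C * 16 * Real.exp 2 * x ^ 5 ≤ Real.exp (1 / 100 * x) :=
    XU1.ev_pow _ _ (by norm_num)
  have e2 := Real.tendsto_log_atTop.eventually e1
  have e3 : ∀ᶠ X : ℝ in atTop, 100 ≤ Real.log (Real.log X) :=
    (Real.tendsto_log_atTop.comp Real.tendsto_log_atTop).eventually_ge_atTop 100
  obtain ⟨X0, hX0⟩ := eventually_atTop.1 (e2.and (e3.and (eventually_ge_atTop (1 : ℝ))))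
  refine ⟨X0, fun X hX H A B α W hH hHL hA hB ha0 ha hW hWt => ?_⟩
  obtain ⟨g1, g2, g3⟩ := hX0 X hX
  set L := Real.log X with hL
  set LL := Real.log L with hLL
  have hL0 : 0 ≤ L := Real.log_nonneg g3
  have hLLL : LL ≤ L := Real.log_le_self hL0
  have hLpos : 0 < L := by linarith
  have hexpL : Real.exp L = X := Real.exp_log (by linarith)
  have hexpLL : Real.exp LL = L := Real.exp_log hLpos
  have hH' : (1 : ℝ) ≤ H := by exact_mod_cast hH
  have hcov : W ⊆ (Finset.Ico A B).biUnion fun r =>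
      W.filter fun t => Real.exp ((1 - α) * ((r : ℝ) / H)) < ‖Pb H r t‖ := by
    intro t ht
    obtain ⟨_, r, hr, hr2⟩ := hWt t ht
    simp only [Finset.mem_biUnion, Finset.mem_filter]
    exact ⟨r, hr, ht, hr2⟩
  have hcard : (W.card : ℝ) ≤ ∑ r ∈ Finset.Ico A B,
      (((W.filter fun t => Real.exp ((1 - α) * ((r : ℝ) / H)) < ‖Pb H r t‖).card : ℕ) : ℝ) := by
    have h3 := (Finset.card_le_card hcov).trans Finset.card_biUnion_le
    exact_mod_cast h3
  have hblk : ∀ r ∈ Finset.Ico A B,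
      (((W.filter fun t => Real.exp ((1 - α) * ((r : ℝ) / H)) < ‖Pb H r t‖).card : ℕ) : ℝ) ≤
      3 * C * (16 * L ^ 2) * Real.exp (L / 40 + LL + L / 2000 + 2 + L / 100 + 2 / 5 * L) := by
    intro r hr
    rw [Finset.mem_Ico] at hr
    have hr1 : (A : ℝ) ≤ r := by exact_mod_cast hr.1
    have hr2 : (r : ℝ) ≤ B := by exact_mod_cast hr.2.le
    refine XU1.one_block hC hMv h1 hL hLL g2 g3 hH
      (hA.trans (div_le_div_of_nonneg_right hr1 (by linarith)))
      ((div_le_div_of_nonneg_right hr2 (by linarith)).trans hB) ha0 ha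
      (fun s hs t ht hst => hW s (Finset.mem_of_mem_filter s hs) t (Finset.mem_of_mem_filter t ht) hst)
      (fun t ht => (hWt t (Finset.mem_of_mem_filter t ht)).1) (fun t ht => (Finset.mem_filter.1 ht).2)
  have hsum := hcard.trans (Finset.sum_le_sum hblk)
  rw [Finset.sum_const, nsmul_eq_mul, Nat.card_Ico] at hsum
  have hBA : ((B - A : ℕ) : ℝ) ≤ L ^ 2 := by
    have h3 : ((B - A : ℕ) : ℝ) ≤ B := by exact_mod_cast Nat.sub_le B A
    have h4 : (B : ℝ) ≤ L / 100 * H := by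
      rw [div_le_iff₀ (by linarith)] at hB
      exact hB
    have h5 : L / 100 * H ≤ L / 100 * L := mul_le_mul_of_nonneg_left hHL (by linarith)
    nlinarith
  have hfin : ((B - A : ℕ) : ℝ) * (3 * C * (16 * L ^ 2) *
      Real.exp (L / 40 + LL + L / 2000 + 2 + L / 100 + 2 / 5 * L)) ≤
      Real.exp (1 / 100 * L) * Real.exp (L / 40 + L / 2000 + L / 100 + 2 / 5 * L) := by
    have e4 : Real.exp (L / 40 + LL + L / 2000 + 2 + L / 100 + 2 / 5 * L) =
        L * Real.exp 2 * Real.exp (L / 40 + L / 2000 + L / 100 + 2 / 5 * L) := by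
      rw [show L / 40 + LL + L / 2000 + 2 + L / 100 + 2 / 5 * L =
        LL + 2 + (L / 40 + L / 2000 + L / 100 + 2 / 5 * L) by ring, Real.exp_add, Real.exp_add,
        hexpLL]
    rw [e4]
    have h6 : ((B - A : ℕ) : ℝ) * (3 * C * (16 * L ^ 2) * (L * Real.exp 2 *
        Real.exp (L / 40 + L / 2000 + L / 100 + 2 / 5 * L))) ≤
        L ^ 2 * (3 * C * (16 * L ^ 2) * (L * Real.exp 2 *
        Real.exp (L / 40 + L / 2000 + L / 100 + 2 / 5 * L))) :=
      mul_le_mul_of_nonneg_right hBA (by positivity)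
    refine h6.trans ?_
    have h7 : L ^ 2 * (3 * C * (16 * L ^ 2) * (L * Real.exp 2 *
        Real.exp (L / 40 + L / 2000 + L / 100 + 2 / 5 * L))) =
        (3 * C * 16 * Real.exp 2 * L ^ 5) *
        Real.exp (L / 40 + L / 2000 + L / 100 + 2 / 5 * L) := by ring
    rw [h7]
    exact mul_le_mul_of_nonneg_right g1 (Real.exp_pos _).le
  refine hsum.trans (hfin.trans ?_)
  rw [← Real.exp_add]
  have h8 : X ^ (9 / 20 : ℝ) = Real.exp (9 / 20 * L) := by
    rw [Real.rpow_def_of_pos (by linarith), hL, mul_comm]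
  rw [h8]
  refine Real.exp_le_exp.2 ?_
  linarith

end Pool.Agent.Work.MP_a8fbd7_nt.PAR.MR
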