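import Pool.Agent.Work.MP_a8fbd7_nt.PAR.MR.StmtsB

set_option autoImplicit false

/-!
# MP_a8fbd7_nt, parity, block MR, item U2: a block of primes at a large frequency
-/

open MeasureTheory Set Filter Topology

noncomputable section

namespace Pool.Agent.Work.MP_a8fbd7_nt.PAR.MR

namespace XU2

theorem Pb_eq (H v : ℕ) (t : ℝ) :
    Pb H v t = Pool.Agent.Work.MP_a8fbd7_nt.ZF.Ps (Real.exp (((v : ℝ) + 1) / H)) t -
      Pool.Agent.Work.MP_a8fbd7_nt.ZF.Ps (Real.exp ((v : ℝ) / H)) t := by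
  classical
  have hle : Real.exp ((v : ℝ) / H) ≤ Real.exp (((v : ℝ) + 1) / H) := by
    refine Real.exp_le_exp.2 ?_
    gcongr
    linarith
  have hfl : ⌊Real.exp ((v : ℝ) / H)⌋₊ ≤ ⌊Real.exp (((v : ℝ) + 1) / H)⌋₊ := Nat.floor_mono hle
  have hsplit := Finset.sum_filter_add_sum_filter_not
    ((Finset.Icc 1 ⌊Real.exp (((v : ℝ) + 1) / H)⌋₊).filter Nat.Prime)
    (fun p : ℕ => Real.exp ((v : ℝ) / H) < p) (fun p : ℕ => (p : ℂ) ^ (-(t * Complex.I)))
  have e1 : ((Finset.Icc 1 ⌊Real.exp (((v : ℝ) + 1) / H)⌋₊).filter Nat.Prime).filter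
      (fun p : ℕ => Real.exp ((v : ℝ) / H) < p) = rg H v := by
    rw [Finset.filter_filter]
    rfl
  have e2 : ((Finset.Icc 1 ⌊Real.exp (((v : ℝ) + 1) / H)⌋₊).filter Nat.Prime).filter
      (fun p : ℕ => ¬ Real.exp ((v : ℝ) / H) < p) =
      (Finset.Icc 1 ⌊Real.exp ((v : ℝ) / H)⌋₊).filter Nat.Prime := by
    ext p
    simp only [Finset.mem_filter, Finset.mem_Icc]
    constructor
    · rintro ⟨⟨⟨h1, _⟩, h2⟩, h3⟩
      exact ⟨⟨h1, Nat.le_floor (not_lt.1 h3)⟩, h2⟩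
    · rintro ⟨⟨h1, h2⟩, h3⟩
      refine ⟨⟨⟨h1, h2.trans hfl⟩, h3⟩, not_lt.2 ?_⟩
      exact (Nat.le_floor_iff (Real.exp_pos _).le).1 h2
  rw [e1, e2] at hsplit
  unfold Pb Pool.Agent.Work.MP_a8fbd7_nt.ZF.Ps
  rw [← hsplit, add_sub_cancel_right]

end XU2

theorem iU2 (h1 : Pool.Agent.Work.MP_a8fbd7_nt.ZF.StPrI) : StU2 := by
  intro η K hη hK
  obtain ⟨C, hC, h⟩ := h1 K (1 / η) hK (by positivity)
  have hηK : 0 < η ^ K := Real.rpow_pos_of_pos hη K
  refine ⟨C * Real.exp 1 / η ^ K + 1, ?_, ?_⟩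
  · have : 0 ≤ C * Real.exp 1 / η ^ K := by positivity
    linarith
  intro X H v t hX hH hv hηv hvX ht htX
  have hH0 : (0 : ℝ) < H := by exact_mod_cast (by omega : 0 < H)
  have hH1 : (1 : ℝ) ≤ H := by exact_mod_cast hH
  have hX0 : 0 < X := by linarith
  have hlogX : 0 < Real.log X := Real.log_pos (by linarith)
  have hvv : (v : ℝ) / H ≤ ((v : ℝ) + 1) / H := by gcongr; linarith
  have hy2 : 2 ≤ Real.exp (((v : ℝ) + 1) / H) := by
    have h2 := Real.add_one_le_exp (((v : ℝ) + 1) / H)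
    linarith
  have hlogy : Real.log (Real.exp (((v : ℝ) + 1) / H)) = ((v : ℝ) + 1) / H := Real.log_exp _
  have hlogy0 : 0 < ((v : ℝ) + 1) / H := by linarith
  have h3 : Real.log (Real.exp (((v : ℝ) + 1) / H)) ^ K ≤ |t| := by
    rw [hlogy]
    exact (Real.rpow_le_rpow hlogy0.le hvX hK.le).trans ht
  have h4 : |t| ≤ Real.exp (((v : ℝ) + 1) / H) ^ (1 / η) := by
    refine htX.trans ?_
    rw [← Real.exp_mul]
    conv_lhs => rw [← Real.exp_log hX0]
    refine Real.exp_le_exp.2 ?_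
    rw [mul_one_div, le_div_iff₀ hη]
    linarith
  have h5 := h (Real.exp (((v : ℝ) + 1) / H)) (Real.exp ((v : ℝ) / H)) t hy2
    (Real.exp_pos _).le (Real.exp_le_exp.2 hvv) h3 h4
  rw [← XU2.Pb_eq, hlogy] at h5
  refine h5.trans ?_
  have hLK : 0 < Real.log X ^ K := Real.rpow_pos_of_pos hlogX K
  have h6 : η ^ K * Real.log X ^ K ≤ (((v : ℝ) + 1) / H) ^ K := by
    rw [← Real.mul_rpow hη.le hlogX.le]
    exact Real.rpow_le_rpow (by positivity) (hηv.trans hvv) hK.le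
  have h7 : Real.exp (((v : ℝ) + 1) / H) ≤ Real.exp 1 * Real.exp ((v : ℝ) / H) := by
    rw [← Real.exp_add]
    refine Real.exp_le_exp.2 ?_
    rw [add_div]
    have : 1 / (H : ℝ) ≤ 1 := by
      rw [div_le_one hH0]
      exact hH1
    linarith
  have hE : 0 < Real.exp ((v : ℝ) / H) := Real.exp_pos _
  have hC0 : 0 ≤ C := by linarith
  calc C * Real.exp (((v : ℝ) + 1) / H) / (((v : ℝ) + 1) / H) ^ K
      ≤ C * (Real.exp 1 * Real.exp ((v : ℝ) / H)) / (η ^ K * Real.log X ^ K) := by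
        gcongr
    _ = (C * Real.exp 1 / η ^ K) * Real.exp ((v : ℝ) / H) / Real.log X ^ K := by
        field_simp
    _ ≤ (C * Real.exp 1 / η ^ K + 1) * Real.exp ((v : ℝ) / H) / Real.log X ^ K := by
        gcongr
        linarith

end Pool.Agent.Work.MP_a8fbd7_nt.PAR.MR
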