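import Pool.Agent.Work.MP_a8fbd7_nt.PAR.MR.StmtsB
import Pool.Agent.Work.MP_a8fbd7_nt.ZF.Stmts

/-!
# MP_a8fbd7_nt, parity, block MR, item U3

Mean square of the blocks `Mb` over separated points, from the Halasz-Montgomery inequality.
-/

open MeasureTheory Set Filter Topology

noncomputable section

namespace Pool.Agent.Work.MP_a8fbd7_nt.PAR.MR

open Pool.Agent.Work.MP_56b8f5_nt.UC (Dp Sep)

namespace XU3

/-- the coefficients: `lam n` for `L < n ≤ 2L` -/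
def aa (L : ℝ) (n : ℕ) : ℂ := if n ∈ Finset.Ioc ⌊L⌋₊ ⌊2 * L⌋₊ then ((lam n : ℝ) : ℂ) else 0

theorem lam_norm (n : ℕ) : ‖((lam n : ℝ) : ℂ)‖ ≤ 1 := by
  rw [Complex.norm_real, Real.norm_eq_abs, lam]
  rcases eq_or_ne n 0 with h | h
  · subst h; simp
  · rw [ArithmeticFunction.liouville_apply h]
    push_cast
    rw [abs_pow, abs_neg, abs_one, one_pow]

theorem aa_norm (L : ℝ) (n : ℕ) : ‖aa L n‖ ^ 2 ≤ if n ∈ Finset.Ioc ⌊L⌋₊ ⌊2 * L⌋₊ then (1 : ℝ) else 0 := by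
  unfold aa
  split_ifs with h
  · have := lam_norm n
    have h0 := norm_nonneg ((lam n : ℝ) : ℂ)
    nlinarith
  · simp

theorem Dp_aa (L : ℝ) (t : ℝ) : Dp ⌊2 * L⌋₊ (aa L) t =
    ∑ m ∈ Finset.Ioc ⌊L⌋₊ ⌊2 * L⌋₊, ((lam m : ℝ) : ℂ) * (m : ℂ) ^ (-(t * Complex.I)) := by
  unfold Dp aa
  have hsub : Finset.Ioc ⌊L⌋₊ ⌊2 * L⌋₊ ⊆ Finset.Icc 1 ⌊2 * L⌋₊ := by
    intro m hm
    rw [Finset.mem_Ioc] at hm
    rw [Finset.mem_Icc]
    omega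
  rw [← Finset.sum_subset hsub]
  · apply Finset.sum_congr rfl
    intro m hm
    rw [if_pos hm]
  · intro m _ hm
    rw [if_neg hm, zero_mul]

theorem sum_aa (L : ℝ) (hL : 1 ≤ L) : ∑ n ∈ Finset.Icc 1 ⌊2 * L⌋₊, ‖aa L n‖ ^ 2 ≤ 2 * L := by
  have h1 : ∑ n ∈ Finset.Icc 1 ⌊2 * L⌋₊, ‖aa L n‖ ^ 2 ≤
      ∑ n ∈ Finset.Icc 1 ⌊2 * L⌋₊, if n ∈ Finset.Ioc ⌊L⌋₊ ⌊2 * L⌋₊ then (1 : ℝ) else 0 :=
    Finset.sum_le_sum fun n _ => aa_norm L n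
  refine h1.trans ?_
  have h2 : ∑ n ∈ Finset.Icc 1 ⌊2 * L⌋₊, (if n ∈ Finset.Ioc ⌊L⌋₊ ⌊2 * L⌋₊ then (1 : ℝ) else 0) ≤
      ∑ n ∈ Finset.Icc 1 ⌊2 * L⌋₊, (1 : ℝ) := by
    apply Finset.sum_le_sum
    intro n _
    split_ifs <;> norm_num
  refine h2.trans ?_
  rw [Finset.sum_const, Nat.card_Icc]
  simp only [Nat.add_sub_cancel, nsmul_eq_mul, mul_one]
  exact Nat.floor_le (by linarith)

theorem aa_supp (L : ℝ) (hL : 1 ≤ L) (n : ℕ) (hn : aa L n ≠ 0) : L ≤ n ∧ (n : ℝ) ≤ 2 * L := by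
  unfold aa at hn
  split_ifs at hn with h
  · rw [Finset.mem_Ioc] at h
    constructor
    · exact (Nat.lt_of_floor_lt h.1).le
    · have h2 : (n : ℝ) ≤ (⌊2 * L⌋₊ : ℝ) := by exact_mod_cast h.2
      exact h2.trans (Nat.floor_le (by linarith))
  · exact absurd rfl hn

end XU3

open XU3 in
theorem iU3 (h1 : Pool.Agent.Work.MP_a8fbd7_nt.ZF.StHM) : StU3 := by
  obtain ⟨C, hC, h⟩ := h1 2 (by norm_num)
  refine ⟨4 * C, by linarith, ?_⟩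
  intro X H v W hX hH hL hW hWX
  set L : ℝ := X * Real.exp (-((v : ℝ) / H)) with hLdef
  have e1 : ∀ t : ℝ, Mb X H v t = Dp ⌊2 * L⌋₊ (aa L) t := by
    intro t
    rw [Dp_aa]
    unfold Mb
    rw [mul_assoc 2 X, ← hLdef]
  have h2 := h (-X) (2 * X) L ⌊2 * L⌋₊ (aa L) W (by linarith) hL (aa_supp L hL) hW (by
    intro t ht
    have := abs_le.1 (hWX t ht)
    constructor <;> linarith [this.1, this.2])
  simp_rw [e1]
  refine h2.trans ?_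
  have hs := sum_aa L hL
  have hs0 : 0 ≤ ∑ n ∈ Finset.Icc 1 ⌊2 * L⌋₊, ‖aa L n‖ ^ 2 := Finset.sum_nonneg fun n _ => by positivity
  have hsq : Real.sqrt (2 * X) ≤ 2 * Real.sqrt X := by
    rw [show (2 : ℝ) * Real.sqrt X = Real.sqrt (4 * X) by
      rw [show (4 : ℝ) * X = 2 ^ 2 * X by ring, Real.sqrt_mul (by norm_num), Real.sqrt_sq (by norm_num)]]
    apply Real.sqrt_le_sqrt
    linarith
  have hX0 : 0 ≤ Real.sqrt X := Real.sqrt_nonneg X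
  have hc : (0 : ℝ) ≤ W.card := Nat.cast_nonneg _
  have h3 : C * (L + W.card * Real.sqrt (2 * X)) ≤ 2 * C * (L + W.card * Real.sqrt X) := by
    have : (W.card : ℝ) * Real.sqrt (2 * X) ≤ W.card * (2 * Real.sqrt X) := mul_le_mul_of_nonneg_left hsq hc
    nlinarith [mul_nonneg hc hX0]
  have h4 : 0 ≤ C * (L + W.card * Real.sqrt (2 * X)) := by positivity
  calc C * (L + W.card * Real.sqrt (2 * X)) * ∑ n ∈ Finset.Icc 1 ⌊2 * L⌋₊, ‖aa L n‖ ^ 2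
      ≤ (2 * C * (L + W.card * Real.sqrt X)) * (2 * L) := by
        apply mul_le_mul h3 hs hs0
        positivity
    _ = 4 * C * (L + W.card * Real.sqrt X) * L := by ring

end Pool.Agent.Work.MP_a8fbd7_nt.PAR.MR
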