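import Pool.Agent.Work.MP_a8fbd7_nt.PAR.MR.StmtsB

set_option autoImplicit false

/-! Item U4 of the block MR: the integral over the exceptional set. -/

open MeasureTheory Set Filter Topology

noncomputable section

namespace Pool.Agent.Work.MP_a8fbd7_nt.PAR.MR

open Pool.Agent.Work.MP_56b8f5_nt.UC (Dp Sep)

namespace XU4

theorem cont_pow (n : ℕ) (hn : 1 ≤ n) :
    Continuous fun t : ℝ => (n : ℂ) ^ (-(t * Complex.I)) := by
  refine Continuous.const_cpow (by fun_prop) (Or.inl ?_)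
  exact_mod_cast (by omega : n ≠ 0)

theorem cont_Pb (H v : ℕ) : Continuous (Pb H v) := by
  refine continuous_finsetSum _ fun p hp => cont_pow p ?_
  exact (Finset.mem_Icc.1 (Finset.mem_filter.1 hp).1).1

theorem cont_Mb (X : ℝ) (H v : ℕ) : Continuous (Mb X H v) := by
  refine continuous_finsetSum _ fun m hm => Continuous.mul continuous_const (cont_pow m ?_)
  have := (Finset.mem_Ioc.1 hm).1
  omega

theorem meas_Ex (X K : ℝ) (H' A' B' : ℕ) (α : ℝ) : MeasurableSet (Ex X K H' A' B' α) := by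
  have e : Ex X K H' A' B' α = ({t : ℝ | Real.log X ^ K ≤ |t|} ∩ {t : ℝ | |t| ≤ X}) ∩
      ⋃ r ∈ Finset.Ico A' B', {t : ℝ | Real.exp ((1 - α) * ((r : ℝ) / H')) < ‖Pb H' r t‖} := by
    ext t
    simp only [Ex, mem_ofPred_eq, mem_inter_iff, mem_iUnion, exists_prop, and_assoc]
  rw [e]
  refine MeasurableSet.inter (MeasurableSet.inter ?_ ?_) ?_
  · exact measurableSet_le measurable_const (continuous_abs.measurable)
  · exact measurableSet_le (continuous_abs.measurable) measurable_const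
  · refine Finset.measurableSet_biUnion _ fun r _ => ?_
    exact measurableSet_lt measurable_const (cont_Pb H' r).norm.measurable

theorem sub_Ex (X K : ℝ) (H' A' B' : ℕ) (α : ℝ) : Ex X K H' A' B' α ⊆ Icc (-X) X := by
  intro t ht
  obtain ⟨_, h, _⟩ := ht
  exact mem_Icc.2 (abs_le.1 h)

theorem intOn (X K : ℝ) (H' A' B' : ℕ) (α : ℝ) {f : ℝ → ℝ} (hf : Continuous f) :
    IntegrableOn f (Ex X K H' A' B' α) :=
  (hf.integrableOn_Icc).mono_set (sub_Ex X K H' A' B' α)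

/-- The mean square of one block. -/
theorem blk (h1 : StDS) {X0 : ℝ} (h2 : ∀ X : ℝ, X0 ≤ X → ∀ (H A B : ℕ) (α : ℝ) (W : Finset ℝ),
      1 ≤ H → (H : ℝ) ≤ Real.log X →
      40 * Real.log (Real.log X) ≤ (A : ℝ) / H → (B : ℝ) / H ≤ Real.log X / 100 → 0 ≤ α →
      α ≤ 1 / 5 → Sep W → (∀ t ∈ W, |t| ≤ X ∧ ∃ r ∈ Finset.Ico A B,
        Real.exp ((1 - α) * ((r : ℝ) / H)) < ‖Pb H r t‖) → (W.card : ℝ) ≤ X ^ (9 / 20 : ℝ))
    {C3 : ℝ} (hC3 : 1 ≤ C3) (h4 : ∀ (X : ℝ) (H v : ℕ) (W : Finset ℝ), 1 ≤ X → 1 ≤ H →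
      1 ≤ X * Real.exp (-((v : ℝ) / H)) → Sep W →
      (∀ t ∈ W, |t| ≤ X) → ∑ t ∈ W, ‖Mb X H v t‖ ^ 2 ≤
      C3 * (X * Real.exp (-((v : ℝ) / H)) + W.card * Real.sqrt X) *
        (X * Real.exp (-((v : ℝ) / H))))
    (X K : ℝ) (hX : X0 ≤ X) (hX1 : 1 ≤ X) (H v H' A' B' : ℕ) (α : ℝ) (hH : 1 ≤ H)
    (hv : (v : ℝ) / H ≤ Real.log X / 25) (hH' : 1 ≤ H') (hH'2 : (H' : ℝ) ≤ Real.log X)
    (hA' : 40 * Real.log (Real.log X) ≤ (A' : ℝ) / H') (hB' : (B' : ℝ) / H' ≤ Real.log X / 100)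
    (hα : 0 ≤ α) (hα' : α ≤ 1 / 5) :
    ∫ t in Ex X K H' A' B' α, ‖Mb X H v t‖ ^ 2 ≤
      8 * C3 * (X * Real.exp (-((v : ℝ) / H))) ^ 2 := by
  have hX0 : 0 < X := by linarith
  have hlog : 0 ≤ Real.log X := Real.log_nonneg hX1
  set E := Real.exp (-((v : ℝ) / H)) with hE
  have hE0 : 0 < E := Real.exp_pos _
  have hEX : X ^ (19 / 20 : ℝ) ≤ X * E := by
    have e1 : X * E = Real.exp (Real.log X + -((v : ℝ) / H)) := by
      rw [Real.exp_add, Real.exp_log hX0]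
    rw [e1, Real.rpow_def_of_pos hX0]
    refine Real.exp_le_exp.2 ?_
    linarith
  have h1X : 1 ≤ X * E := (Real.one_le_rpow hX1 (by norm_num)).trans hEX
  have h5 := h1 (fun t => ‖Mb X H v t‖ ^ 2) (Ex X K H' A' B' α) (-X) X
    (2 * C3 * (X * E) ^ 2) ((cont_Mb X H v).norm.pow 2) (fun t => by positivity)
    (meas_Ex X K H' A' B' α) (sub_Ex X K H' A' B' α) ?_
  · refine h5.trans (le_of_eq ?_)
    ring
  · intro W hW hWE
    have h6 := h2 X hX H' A' B' α W hH' hH'2 hA' hB' hα hα' hW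
      (fun t ht => ⟨(hWE t ht).2.1, (hWE t ht).2.2⟩)
    have h7 := h4 X H v W hX1 hH h1X hW (fun t ht => (hWE t ht).2.1)
    refine h7.trans ?_
    have h8 : (W.card : ℝ) * Real.sqrt X ≤ X * E := by
      refine le_trans ?_ hEX
      refine (mul_le_mul_of_nonneg_right h6 (Real.sqrt_nonneg X)).trans (le_of_eq ?_)
      rw [Real.sqrt_eq_rpow, ← Real.rpow_add hX0]
      norm_num
    have h9 : C3 * (X * E + W.card * Real.sqrt X) * (X * E) ≤ C3 * (X * E + X * E) * (X * E) := by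
      refine mul_le_mul_of_nonneg_right ?_ (by positivity)
      exact mul_le_mul_of_nonneg_left (by linarith) (by linarith)
    refine h9.trans (le_of_eq ?_)
    ring

theorem cs (s : Finset ℕ) (f : ℕ → ℂ) : ‖∑ v ∈ s, f v‖ ^ 2 ≤ s.card * ∑ v ∈ s, ‖f v‖ ^ 2 := by
  have h1 : ‖∑ v ∈ s, f v‖ ^ 2 ≤ (∑ v ∈ s, ‖f v‖) ^ 2 :=
    pow_le_pow_left₀ (norm_nonneg _) (norm_sum_le _ _) 2
  exact h1.trans sq_sum_le_card_mul_sum_sq

end XU4

theorem iU4 (h1 : StDS) (h2 : StU1) (h3 : StU2) (h4 : StU3) : StU4 := by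
  intro η K hη hK
  obtain ⟨X1, h2⟩ := h2
  obtain ⟨C2, hC2, h3⟩ := h3 η K hη hK
  obtain ⟨C3, hC3, h4⟩ := h4
  refine ⟨8 * C3 * C2 ^ 2, max (max X1 3) (Real.exp (1 / η)), ?_, ?_⟩
  · have : 1 ≤ C2 ^ 2 := one_le_pow₀ hC2
    nlinarith
  intro X hX H A B H' A' B' α hH hAB hA hB hH' hH'2 hA' hB' hα hα'
  have hXX1 : X1 ≤ X := le_trans (le_trans (le_max_left _ _) (le_max_left _ _)) hX
  have hX3 : 3 ≤ X := le_trans (le_trans (le_max_right _ _) (le_max_left _ _)) hX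
  have hXe : Real.exp (1 / η) ≤ X := le_trans (le_max_right _ _) hX
  have hX0 : 0 < X := by linarith
  have hX1 : 1 ≤ X := by linarith
  have hlog0 : 0 < Real.log X := Real.log_pos (by linarith)
  have hηlog : 1 ≤ η * Real.log X := by
    have h5 : 1 / η ≤ Real.log X := by
      rw [← Real.log_exp (1 / η)]
      exact Real.log_le_log (Real.exp_pos _) hXe
    rw [div_le_iff₀ hη] at h5
    linarith
  have hH0 : (0 : ℝ) < H := by exact_mod_cast hH
  set LK := Real.log X ^ K with hLK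
  have hLK0 : 0 < LK := Real.rpow_pos_of_pos hlog0 K
  have hL2 : Real.log X ^ (2 * K) = LK ^ 2 := by
    rw [hLK, mul_comm, Real.rpow_mul hlog0.le, ← Real.rpow_natCast]
    norm_num
  -- pointwise bound
  have hv1 : ∀ v ∈ Finset.Ico A B, η * Real.log X ≤ (v : ℝ) / H := by
    intro v hv
    have : (A : ℝ) ≤ v := by exact_mod_cast (Finset.mem_Ico.1 hv).1
    exact hA.trans (div_le_div_of_nonneg_right this hH0.le)
  have hv2 : ∀ v ∈ Finset.Ico A B, ((v : ℝ) + 1) / H ≤ Real.log X / 25 := by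
    intro v hv
    have : (v : ℝ) + 1 ≤ B := by exact_mod_cast (Finset.mem_Ico.1 hv).2
    exact (div_le_div_of_nonneg_right this hH0.le).trans hB
  have hpt : ∀ t ∈ Ex X K H' A' B' α, ‖∑ v ∈ Finset.Ico A B, Pb H v t * Mb X H v t‖ ^ 2 ≤
      ((B : ℝ) - A) * ∑ v ∈ Finset.Ico A B,
        (C2 * Real.exp ((v : ℝ) / H) / LK) ^ 2 * ‖Mb X H v t‖ ^ 2 := by
    intro t ht
    refine (XU4.cs _ _).trans ?_
    rw [Nat.card_Ico, Nat.cast_sub hAB]
    refine mul_le_mul_of_nonneg_left (Finset.sum_le_sum fun v hv => ?_)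
      (sub_nonneg.2 (by exact_mod_cast hAB))
    rw [norm_mul, mul_pow]
    refine mul_le_mul_of_nonneg_right (pow_le_pow_left₀ (norm_nonneg _) ?_ 2) (by positivity)
    exact h3 X H v t hX3 hH (hηlog.trans (hv1 v hv)) (hv1 v hv)
      ((hv2 v hv).trans (by linarith)) ht.1 ht.2.1
  have hcl : Continuous fun t : ℝ => ‖∑ v ∈ Finset.Ico A B, Pb H v t * Mb X H v t‖ ^ 2 :=
    (continuous_finsetSum _ fun v _ => (XU4.cont_Pb H v).mul (XU4.cont_Mb X H v)).norm.pow 2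
  have hcv : ∀ v : ℕ, Continuous fun t : ℝ =>
      (C2 * Real.exp ((v : ℝ) / H) / LK) ^ 2 * ‖Mb X H v t‖ ^ 2 := fun v =>
    continuous_const.mul ((XU4.cont_Mb X H v).norm.pow 2)
  have hcr : Continuous fun t : ℝ => ((B : ℝ) - A) * ∑ v ∈ Finset.Ico A B,
        (C2 * Real.exp ((v : ℝ) / H) / LK) ^ 2 * ‖Mb X H v t‖ ^ 2 :=
    continuous_const.mul (continuous_finsetSum _ fun v _ => hcv v)
  have h5 := setIntegral_mono_on (XU4.intOn X K H' A' B' α hcl) (XU4.intOn X K H' A' B' α hcr)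
    (XU4.meas_Ex X K H' A' B' α) hpt
  refine h5.trans ?_
  rw [integral_const_mul, integral_finsetSum _ fun v _ => XU4.intOn X K H' A' B' α (hcv v)]
  have h6 : ∀ v ∈ Finset.Ico A B, ∫ t in Ex X K H' A' B' α,
      (C2 * Real.exp ((v : ℝ) / H) / LK) ^ 2 * ‖Mb X H v t‖ ^ 2 ≤
      8 * C3 * C2 ^ 2 * X ^ 2 / LK ^ 2 := by
    intro v hv
    rw [integral_const_mul]
    have h7 : (v : ℝ) / H ≤ Real.log X / 25 := by
      refine le_trans (div_le_div_of_nonneg_right ?_ hH0.le) (hv2 v hv)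
      linarith
    have h8 := XU4.blk h1 h2 hC3 h4 X K hXX1 hX1 H v H' A' B' α hH h7 hH' hH'2 hA' hB' hα hα'
    refine (mul_le_mul_of_nonneg_left h8 (by positivity)).trans (le_of_eq ?_)
    have h9 : Real.exp (-((v : ℝ) / H)) = (Real.exp ((v : ℝ) / H))⁻¹ := Real.exp_neg _
    rw [h9]
    have h10 : Real.exp ((v : ℝ) / H) ≠ 0 := (Real.exp_pos _).ne'
    field_simp
  have hBA : (0 : ℝ) ≤ (B : ℝ) - A := sub_nonneg.2 (by exact_mod_cast hAB)
  refine (mul_le_mul_of_nonneg_left (Finset.sum_le_sum h6) hBA).trans (le_of_eq ?_)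
  rw [Finset.sum_const, Nat.card_Ico, nsmul_eq_mul, Nat.cast_sub hAB, hL2]
  ring

end Pool.Agent.Work.MP_a8fbd7_nt.PAR.MR
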