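import Pool.Agent.Work.MP_a8fbd7_nt.PAR.MR.StmtsB

/-!
# MP_a8fbd7_nt, parity, block MR, item WI: Gaussian Plancherel
-/

open MeasureTheory Set Filter Topology

noncomputable section

namespace Pool.Agent.Work.MP_a8fbd7_nt.PAR.MR

open Pool.Agent.Work.MP_56b8f5_nt.UC (Dp Sep)

namespace XWI

lemma prod_eq (T x y u : ℝ) :
    Real.exp (-(T ^ 2 * (x - u) ^ 2 / 2)) * Real.exp (-(T ^ 2 * (y - u) ^ 2 / 2)) =
      Real.exp (-(T ^ 2 * (x - y) ^ 2 / 4)) * Real.exp (-(T ^ 2) * (u - (x + y) / 2) ^ 2) := by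
  rw [← Real.exp_add, ← Real.exp_add]
  congr 1
  ring

lemma term {T : ℝ} (hT : 0 < T) (x y : ℝ) :
    Integrable (fun u : ℝ => Real.exp (-(T ^ 2 * (x - u) ^ 2 / 2)) *
      Real.exp (-(T ^ 2 * (y - u) ^ 2 / 2))) ∧
    T ^ 2 * ∫ u : ℝ, Real.exp (-(T ^ 2 * (x - u) ^ 2 / 2)) *
      Real.exp (-(T ^ 2 * (y - u) ^ 2 / 2)) =
      Real.sqrt Real.pi * T * Real.exp (-(T ^ 2 * (x - y) ^ 2 / 4)) := by
  have hT2 : (0 : ℝ) < T ^ 2 := by positivity
  simp only [prod_eq]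
  have h1 : Integrable (fun u : ℝ => Real.exp (-(T ^ 2) * (u - (x + y) / 2) ^ 2)) :=
    (integrable_exp_neg_mul_sq hT2).comp_sub_right _
  refine ⟨h1.const_mul _, ?_⟩
  rw [integral_const_mul, integral_sub_right_eq_self (fun u : ℝ => Real.exp (-(T ^ 2) * u ^ 2))
    ((x + y) / 2), integral_gaussian]
  have h2 : Real.sqrt (Real.pi / T ^ 2) = Real.sqrt Real.pi / T := by
    rw [Real.sqrt_div Real.pi_pos.le, Real.sqrt_sq hT.le]
  rw [h2]
  field_simp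

lemma expand (T : ℝ) (Y : ℕ) (a : ℕ → ℝ) (u : ℝ) :
    Kf T Y a u ^ 2 = ∑ m ∈ Finset.Icc 1 Y, ∑ n ∈ Finset.Icc 1 Y, a m * a n *
      (Real.exp (-(T ^ 2 * (Real.log m - u) ^ 2 / 2)) *
        Real.exp (-(T ^ 2 * (Real.log n - u) ^ 2 / 2))) := by
  unfold Kf
  rw [pow_two, Finset.sum_mul_sum]
  refine Finset.sum_congr rfl fun m _ => Finset.sum_congr rfl fun n _ => ?_
  ring

end XWI

theorem iWI (h1 : StQF) : StWI := by
  intro T Y a hT
  have hint : ∀ m n : ℕ, Integrable (fun u : ℝ => a m * a n *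
      (Real.exp (-(T ^ 2 * (Real.log m - u) ^ 2 / 2)) *
        Real.exp (-(T ^ 2 * (Real.log n - u) ^ 2 / 2)))) :=
    fun m n => (XWI.term hT _ _).1.const_mul _
  have hK : (fun u : ℝ => Kf T Y a u ^ 2) = fun u : ℝ => ∑ m ∈ Finset.Icc 1 Y,
      ∑ n ∈ Finset.Icc 1 Y, a m * a n *
      (Real.exp (-(T ^ 2 * (Real.log m - u) ^ 2 / 2)) *
        Real.exp (-(T ^ 2 * (Real.log n - u) ^ 2 / 2))) := by
    funext u
    exact XWI.expand T Y a u
  rw [hK]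
  refine ⟨integrable_finsetSum _ fun m _ => integrable_finsetSum _ fun n _ => hint m n, ?_⟩
  have h2 := (h1 T Y (fun n => ((a n : ℝ) : ℂ)) hT).2
  have h3 : ((Real.sqrt Real.pi * T : ℝ) : ℂ) * ∑ m ∈ Finset.Icc 1 Y, ∑ n ∈ Finset.Icc 1 Y,
      ((a m : ℝ) : ℂ) * (starRingEnd ℂ) ((a n : ℝ) : ℂ) *
      ((Real.exp (-(T ^ 2 * (Real.log m - Real.log n) ^ 2 / 4)) : ℝ) : ℂ) =
      ((Real.sqrt Real.pi * T * ∑ m ∈ Finset.Icc 1 Y, ∑ n ∈ Finset.Icc 1 Y, a m * a n *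
        Real.exp (-(T ^ 2 * (Real.log m - Real.log n) ^ 2 / 4)) : ℝ) : ℂ) := by
    simp only [Complex.conj_ofReal]
    push_cast
    rfl
  rw [h3] at h2
  have h4 := Complex.ofReal_injective h2
  rw [h4, integral_finsetSum _ fun m _ => integrable_finsetSum _ fun n _ => hint m n,
    Finset.mul_sum, Finset.mul_sum]
  refine Finset.sum_congr rfl fun m _ => ?_
  rw [integral_finsetSum _ fun n _ => hint m n, Finset.mul_sum, Finset.mul_sum]
  refine Finset.sum_congr rfl fun n _ => ?_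
  rw [integral_const_mul]
  have h5 := (XWI.term hT (Real.log m) (Real.log n)).2
  linear_combination a m * a n * h5

end Pool.Agent.Work.MP_a8fbd7_nt.PAR.MR
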