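import Pool.Agent.Work.MP_a8fbd7_nt.PAR.MR.StmtsB

set_option autoImplicit false

/-! Item WL of the block MR: from constancy on windows to the mean square. -/

open MeasureTheory Set Filter Topology

noncomputable section

namespace Pool.Agent.Work.MP_a8fbd7_nt.PAR.MR

namespace XWL

/-- The interval attached to `x`. -/
def Iv (h : ℝ) (x : ℕ) : Set ℝ := Ico (Real.log (x + 10 * h)) (Real.log (x + 10 * h + 1))

theorem disj (h : ℝ) (hh : 1 ≤ h) : Pairwise (Function.onFun Disjoint (Iv h)) := by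
  have key : ∀ x y : ℕ, x < y → Disjoint (Iv h x) (Iv h y) := by
    intro x y hxy
    rw [Set.disjoint_left]
    intro u hu hu'
    have h1 : (x : ℝ) + 1 ≤ y := by exact_mod_cast hxy
    have hx0 : (0 : ℝ) ≤ x := Nat.cast_nonneg x
    have h2 : Real.log (x + 10 * h + 1) ≤ Real.log (y + 10 * h) :=
      Real.log_le_log (by linarith) (by linarith)
    have h3 := hu.2
    have h4 := hu'.1
    linarith
  intro x y hxy
  rcases Nat.lt_or_gt_of_ne hxy with h1 | h1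
  · exact key x y h1
  · exact (key y x h1).symm

theorem length (h : ℝ) (hh : 1 ≤ h) (x X : ℕ) (hX : (x : ℝ) + 10 * h + 1 ≤ 2 * X) :
    1 / (2 * (X : ℝ)) ≤ Real.log (x + 10 * h + 1) - Real.log (x + 10 * h) := by
  have hx0 : (0 : ℝ) ≤ x := Nat.cast_nonneg x
  have p : 0 < (x : ℝ) + 10 * h := by linarith
  have p1 : 0 < (x : ℝ) + 10 * h + 1 := by linarith
  have h1 : Real.log ((x + 10 * h) / (x + 10 * h + 1)) ≤ (x + 10 * h) / (x + 10 * h + 1) - 1 :=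
    Real.log_le_sub_one_of_pos (by positivity)
  rw [Real.log_div p.ne' p1.ne'] at h1
  have h2 : ((x : ℝ) + 10 * h) / (x + 10 * h + 1) - 1 = -(1 / (x + 10 * h + 1)) := by
    field_simp
    ring
  rw [h2] at h1
  have h3 : 1 / (2 * (X : ℝ)) ≤ 1 / (x + 10 * h + 1) := one_div_le_one_div_of_le p1 hX
  linarith

theorem piece (h1 : StWLp) (h : ℝ) (hh : 1 ≤ h) (X h0 x : ℕ) (hX : 110 * h ≤ X) (s : ℕ → ℝ)
    (hs : ∀ n, s n = 1 ∨ s n = -1) (hh0 : 20 * h + 1 ≤ h0)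
    (hint : Integrable fun u : ℝ =>
      Kf (X / h) (2 * X) (fun n => if X < n then s n else 0) u ^ 2)
    (hx1 : 12 / 10 * (X : ℝ) ≤ x) (hx2 : (x : ℝ) + 10 * h + 1 ≤ 18 / 10 * X)
    (hc : ∀ i < h0, s (x + i) = s x) :
    h ^ 2 / (8 * X) ≤
      ∫ u in Iv h x, Kf (X / h) (2 * X) (fun n => if X < n then s n else 0) u ^ 2 := by
  have hx0 : (0 : ℝ) ≤ x := Nat.cast_nonneg x
  have p : 0 < (x : ℝ) + 10 * h := by linarith
  have p1 : 0 < (x : ℝ) + 10 * h + 1 := by linarith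
  have hX0 : (0 : ℝ) < X := by linarith
  have hlow : ∀ u ∈ Iv h x, (h / 2) ^ 2 ≤
      Kf (X / h) (2 * X) (fun n => if X < n then s n else 0) u ^ 2 := by
    intro u hu
    have e1 : x + 10 * h ≤ Real.exp u := by
      rw [← Real.exp_log p]
      exact Real.exp_le_exp.2 hu.1
    have e2 : Real.exp u < x + 10 * h + 1 := by
      rw [← Real.exp_log p1]
      exact Real.exp_lt_exp.2 hu.2
    have h2 := h1 h (Real.exp u) X s hh hX (by linarith) (by linarith) hs ⟨s x, by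
      intro n hn
      obtain ⟨a1, a2⟩ := abs_le.1 hn
      have b1 : (x : ℝ) ≤ n := by linarith
      have b2 : x ≤ n := by exact_mod_cast b1
      have b3 : (n : ℝ) < x + h0 := by linarith
      have b4 : n < x + h0 := by exact_mod_cast b3
      have := hc (n - x) (by omega)
      rwa [Nat.add_sub_cancel' b2] at this⟩
    rwa [Real.log_exp] at h2
  have hle : Real.log (x + 10 * h) ≤ Real.log (x + 10 * h + 1) :=
    Real.log_le_log p (by linarith)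
  have h3 : ∫ _ in Iv h x, (h / 2) ^ 2 ≤
      ∫ u in Iv h x, Kf (X / h) (2 * X) (fun n => if X < n then s n else 0) u ^ 2 := by
    refine setIntegral_mono_on ?_ hint.integrableOn measurableSet_Ico hlow
    exact integrableOn_const (by rw [Iv, Real.volume_Ico]; exact ENNReal.ofReal_ne_top)
  refine le_trans ?_ h3
  rw [setIntegral_const, Iv, Real.volume_real_Ico_of_le hle, smul_eq_mul]
  have h4 := length h hh x X (by linarith)
  have h5 : h ^ 2 / (8 * X) = 1 / (2 * (X : ℝ)) * (h / 2) ^ 2 := by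
    field_simp
    ring
  rw [h5]
  exact mul_le_mul_of_nonneg_right h4 (by positivity)

theorem count (X : ℕ) (h : ℝ) (hh : 1 ≤ h) (hX : 1000 * h ≤ X) (P : ℕ → Prop) [DecidablePred P]
    (hG : (X : ℝ) / 2 < ((Finset.Ico X (2 * X)).filter P).card) :
    8 / 100 * (X : ℝ) ≤ (((Finset.Ico X (2 * X)).filter P).filter
      (fun x : ℕ => 12 / 10 * (X : ℝ) ≤ x ∧ (x : ℝ) + 10 * h + 1 ≤ 18 / 10 * X)).card := by
  have hX0 : (0 : ℝ) < X := by linarith
  set G := (Finset.Ico X (2 * X)).filter P with hGdef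
  have hsub : G ⊆ (G.filter
      (fun x : ℕ => 12 / 10 * (X : ℝ) ≤ x ∧ (x : ℝ) + 10 * h + 1 ≤ 18 / 10 * X)) ∪
      (Finset.Ico X ⌈12 / 10 * (X : ℝ)⌉₊ ∪ Finset.Ioo ⌊18 / 10 * (X : ℝ) - 10 * h - 1⌋₊ (2 * X)) := by
    intro x hx
    rw [Finset.mem_union, Finset.mem_union]
    by_cases h1 : 12 / 10 * (X : ℝ) ≤ x
    · by_cases h2 : (x : ℝ) + 10 * h + 1 ≤ 18 / 10 * X
      · exact Or.inl (Finset.mem_filter.2 ⟨hx, h1, h2⟩)
      · refine Or.inr (Or.inr (Finset.mem_Ioo.2 ⟨?_, (Finset.mem_Ico.1 (Finset.mem_filter.1 hx).1).2⟩))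
        rw [Nat.floor_lt (by linarith)]
        linarith
    · refine Or.inr (Or.inl (Finset.mem_Ico.2 ⟨(Finset.mem_Ico.1 (Finset.mem_filter.1 hx).1).1, ?_⟩))
      rw [Nat.lt_ceil]
      exact not_le.1 h1
  have h1 := Finset.card_le_card hsub
  have h2 := h1.trans (Finset.card_union_le _ _)
  have h3 := Finset.card_union_le (Finset.Ico X ⌈12 / 10 * (X : ℝ)⌉₊)
    (Finset.Ioo ⌊18 / 10 * (X : ℝ) - 10 * h - 1⌋₊ (2 * X))
  rw [Nat.card_Ico, Nat.card_Ioo] at h3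
  have h4 : ((⌈12 / 10 * (X : ℝ)⌉₊ - X : ℕ) : ℝ) ≤ 2 / 10 * X + 1 := by
    have a1 : (⌈12 / 10 * (X : ℝ)⌉₊ : ℝ) < 12 / 10 * X + 1 := Nat.ceil_lt_add_one (by positivity)
    have a2 : X ≤ ⌈12 / 10 * (X : ℝ)⌉₊ := by
      have : (X : ℝ) ≤ ⌈12 / 10 * (X : ℝ)⌉₊ := by
        refine le_trans ?_ (Nat.le_ceil _)
        linarith
      exact_mod_cast this
    rw [Nat.cast_sub a2]
    linarith
  have h5 : ((2 * X - ⌊18 / 10 * (X : ℝ) - 10 * h - 1⌋₊ - 1 : ℕ) : ℝ) ≤ 2 / 10 * X + 10 * h + 2 := by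
    have a1 : 18 / 10 * (X : ℝ) - 10 * h - 1 < (⌊18 / 10 * (X : ℝ) - 10 * h - 1⌋₊ : ℝ) + 1 :=
      Nat.lt_floor_add_one _
    have a2 : ((2 * X - ⌊18 / 10 * (X : ℝ) - 10 * h - 1⌋₊ - 1 : ℕ) : ℝ) ≤
        ((2 * X - ⌊18 / 10 * (X : ℝ) - 10 * h - 1⌋₊ : ℕ) : ℝ) := by
      exact_mod_cast Nat.sub_le _ _
    refine a2.trans ?_
    have a3 : ⌊18 / 10 * (X : ℝ) - 10 * h - 1⌋₊ ≤ 2 * X := by
      have : (⌊18 / 10 * (X : ℝ) - 10 * h - 1⌋₊ : ℝ) ≤ 2 * X := by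
        refine le_trans (Nat.floor_le (by linarith)) ?_
        linarith
      exact_mod_cast this
    rw [Nat.cast_sub a3]
    push_cast
    linarith
  have h6 : (G.card : ℝ) ≤ ((G.filter
      (fun x : ℕ => 12 / 10 * (X : ℝ) ≤ x ∧ (x : ℝ) + 10 * h + 1 ≤ 18 / 10 * X)).card : ℝ) +
      (((⌈12 / 10 * (X : ℝ)⌉₊ - X : ℕ) : ℝ) +
        ((2 * X - ⌊18 / 10 * (X : ℝ) - 10 * h - 1⌋₊ - 1 : ℕ) : ℝ)) := by
    exact_mod_cast h2.trans (Nat.add_le_add_left h3 _)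
  linarith

end XWL

theorem iWL (h1 : StWLp) (h2 : StWI) : StWL := by
  refine ⟨1 / 100, by norm_num, fun h hh => ⟨⌈20 * h⌉₊ + 3, ⌈1000 * h⌉₊, by omega, ?_⟩⟩
  intro X hX s hs hG
  have hX1 : 1000 * h ≤ X := (Nat.le_ceil _).trans (by exact_mod_cast hX)
  have hX0 : (0 : ℝ) < X := by linarith
  have hint := (h2 (X / h) (2 * X) (fun n => if X < n then s n else 0) (by positivity)).1
  set f : ℝ → ℝ := fun u => Kf (X / h) (2 * X) (fun n => if X < n then s n else 0) u ^ 2 with hf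
  set G := (Finset.Ico X (2 * X)).filter fun x => ∀ i < ⌈20 * h⌉₊ + 3, s (x + i) = s x with hGd
  have hc := XWL.count X h hh hX1 (fun x => ∀ i < ⌈20 * h⌉₊ + 3, s (x + i) = s x) hG
  set G' := ((Finset.Ico X (2 * X)).filter (fun x => ∀ i < ⌈20 * h⌉₊ + 3, s (x + i) = s x)).filter
      (fun x : ℕ => 12 / 10 * (X : ℝ) ≤ x ∧ (x : ℝ) + 10 * h + 1 ≤ 18 / 10 * X) with hG'
  have hh0 : 20 * h + 1 ≤ ((⌈20 * h⌉₊ + 3 : ℕ) : ℝ) := by
    have := Nat.le_ceil (20 * h)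
    push_cast
    linarith
  have h3 : ∫ u in ⋃ x ∈ G', XWL.Iv h x, f u = ∑ x ∈ G', ∫ u in XWL.Iv h x, f u :=
    integral_biUnion_finset G' (fun x _ => measurableSet_Ico)
      (fun x _ y _ hxy => XWL.disj h hh hxy) (fun x _ => hint.integrableOn)
  have h4 : ∫ u in ⋃ x ∈ G', XWL.Iv h x, f u ≤ ∫ u, f u :=
    setIntegral_le_integral hint (Filter.Eventually.of_forall fun u => by
      simp only [hf, Pi.zero_apply]
      positivity)
  have h5 : ∑ _x ∈ G', h ^ 2 / (8 * X) ≤ ∑ x ∈ G', ∫ u in XWL.Iv h x, f u := by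
    refine Finset.sum_le_sum fun x hx => ?_
    obtain ⟨a1, a2, a3⟩ := Finset.mem_filter.1 hx
    obtain ⟨_, a4⟩ := Finset.mem_filter.1 a1
    exact XWL.piece h1 h hh X _ x (by linarith) s hs hh0 hint a2 a3 a4
  rw [Finset.sum_const, nsmul_eq_mul] at h5
  have hc' : 8 / 100 * (X : ℝ) ≤ (G'.card : ℝ) := hc
  have h6 : 8 / 100 * (X : ℝ) * (h ^ 2 / (8 * X)) ≤ (G'.card : ℝ) * (h ^ 2 / (8 * X)) :=
    mul_le_mul_of_nonneg_right hc' (by positivity)
  have h7 : 8 / 100 * (X : ℝ) * (h ^ 2 / (8 * X)) = 1 / 100 * h ^ 2 := by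
    field_simp
  rw [h7] at h6
  linarith

end Pool.Agent.Work.MP_a8fbd7_nt.PAR.MR
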