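import Pool.Agent.Work.MP_a8fbd7_nt.PAR.MR.StmtsB

set_option autoImplicit false

/-! Item WLp of the block MR: one window. -/

open MeasureTheory Set Filter Topology

noncomputable section

namespace Pool.Agent.Work.MP_a8fbd7_nt.PAR.MR

namespace XWLp

theorem left_sum (a y : ℝ) (ha : 0 < a) (m : ℕ) :
    ∑ n ∈ Finset.range m, Real.exp (-(a * (y - n))) ≤ 1 / a * Real.exp (-(a * (y - m))) := by
  induction m with
  | zero =>
    simp only [Finset.range_zero, Finset.sum_empty]
    positivity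
  | succ m ih =>
    rw [Finset.sum_range_succ]
    have e1 : Real.exp (-(a * (y - ((m + 1 : ℕ) : ℝ)))) =
        Real.exp a * Real.exp (-(a * (y - m))) := by
      rw [← Real.exp_add]
      congr 1
      push_cast
      ring
    have e2 : a + 1 ≤ Real.exp a := Real.add_one_le_exp a
    have p : 0 < Real.exp (-(a * (y - m))) := Real.exp_pos _
    have e3 : (1 / a + 1) ≤ 1 / a * Real.exp a := by
      have : 1 / a + 1 = 1 / a * (a + 1) := by
        field_simp
        ring
      rw [this]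
      exact mul_le_mul_of_nonneg_left e2 (by positivity)
    rw [e1]
    calc ∑ n ∈ Finset.range m, Real.exp (-(a * (y - n))) + Real.exp (-(a * (y - m)))
        ≤ 1 / a * Real.exp (-(a * (y - m))) + Real.exp (-(a * (y - m))) := by linarith
      _ = (1 / a + 1) * Real.exp (-(a * (y - m))) := by ring
      _ ≤ (1 / a * Real.exp a) * Real.exp (-(a * (y - m))) :=
          mul_le_mul_of_nonneg_right e3 p.le
      _ = 1 / a * (Real.exp a * Real.exp (-(a * (y - m)))) := by ring

theorem right_aux (a y : ℝ) (ha : 0 < a) (m N : ℕ) (h : m ≤ N) :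
    ∑ n ∈ Finset.Ico m N, Real.exp (-(a * (n - y))) ≤
      (1 + 1 / a) * (Real.exp (-(a * (m - y))) - Real.exp (-(a * (N - y)))) := by
  induction N, h using Nat.le_induction with
  | base => simp
  | succ N hN ih =>
    rw [Finset.sum_Ico_succ_top hN]
    have e1 : Real.exp (-(a * (((N + 1 : ℕ) : ℝ) - y))) =
        Real.exp (-a) * Real.exp (-(a * (N - y))) := by
      rw [← Real.exp_add]
      congr 1
      push_cast
      ring
    have e2 : a + 1 ≤ Real.exp a := Real.add_one_le_exp a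
    have p : 0 < Real.exp (-(a * (N - y))) := Real.exp_pos _
    have e3 : (1 + 1 / a) * Real.exp (-a) ≤ 1 / a := by
      have q : Real.exp (-a) * Real.exp a = 1 := by
        rw [← Real.exp_add]
        simp
      have q2 : 0 < Real.exp (-a) := Real.exp_pos _
      have : (1 + 1 / a) * Real.exp (-a) = 1 / a * ((a + 1) * Real.exp (-a)) := by
        field_simp
      rw [this]
      have q3 : (a + 1) * Real.exp (-a) ≤ 1 := by nlinarith
      have q4 : 0 < 1 / a := by positivity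
      nlinarith
    rw [e1]
    nlinarith

theorem right_sum (a y : ℝ) (ha : 0 < a) (m N : ℕ) :
    ∑ n ∈ Finset.Ico m N, Real.exp (-(a * (n - y))) ≤
      (1 + 1 / a) * Real.exp (-(a * (m - y))) := by
  rcases le_total m N with h | h
  · have h1 := right_aux a y ha m N h
    have h2 : 0 < Real.exp (-(a * (N - y))) := Real.exp_pos _
    have h3 : 0 < 1 + 1 / a := by positivity
    nlinarith
  · rw [Finset.Ico_eq_empty_of_le h]
    simp only [Finset.sum_empty]
    positivity

/-- The window at `n`. -/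
def Kn (T y : ℝ) (n : ℕ) : ℝ := Real.exp (-(T ^ 2 * (Real.log n - Real.log y) ^ 2 / 2))

theorem Kn_low (h y : ℝ) (X n : ℕ) (hh : 1 ≤ h) (hX : 110 * h ≤ X) (hy1 : 12 / 10 * (X : ℝ) ≤ y)
    (hn : |(n : ℝ) - y| ≤ h) : 58 / 100 ≤ Kn (X / h) y n := by
  have hX0 : 0 < (X : ℝ) := by linarith
  have hn1 : y - h ≤ n := by linarith [(abs_le.1 hn).1]
  have hn2 : (n : ℝ) ≤ y + h := by linarith [(abs_le.1 hn).2]
  have hn3 : 11 / 10 * (X : ℝ) ≤ n := by linarith
  have hn0 : 0 < (n : ℝ) := by linarith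
  have hy0 : 0 < y := by linarith
  have h1 : Real.log n - Real.log y ≤ h / (11 / 10 * X) := by
    rw [← Real.log_div hn0.ne' hy0.ne']
    have e1 : Real.log ((n : ℝ) / y) ≤ (n : ℝ) / y - 1 :=
      Real.log_le_sub_one_of_pos (by positivity)
    have e2 : (n : ℝ) / y - 1 = (n - y) / y := by
      field_simp
    have e3 : ((n : ℝ) - y) / y ≤ h / y := by
      apply div_le_div_of_nonneg_right _ hy0.le
      linarith
    have e4 : h / y ≤ h / (11 / 10 * X) := by
      apply div_le_div_of_nonneg_left (by linarith) (by positivity)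
      linarith
    linarith
  have h2 : -(h / (11 / 10 * X)) ≤ Real.log n - Real.log y := by
    have e0 : Real.log n - Real.log y = -(Real.log (y / n)) := by
      rw [Real.log_div hy0.ne' hn0.ne']
      ring
    rw [e0]
    have e1 : Real.log (y / n) ≤ y / n - 1 :=
      Real.log_le_sub_one_of_pos (by positivity)
    have e2 : y / n - 1 = (y - n) / n := by
      field_simp
    have e3 : (y - (n : ℝ)) / n ≤ h / n := by
      apply div_le_div_of_nonneg_right _ hn0.le
      linarith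
    have e4 : h / n ≤ h / (11 / 10 * X) := by
      apply div_le_div_of_nonneg_left (by linarith) (by positivity)
      linarith
    linarith
  have h3 : (Real.log n - Real.log y) ^ 2 ≤ (h / (11 / 10 * X)) ^ 2 := sq_le_sq' h2 h1
  have h4 : ((X : ℝ) / h) ^ 2 * (Real.log n - Real.log y) ^ 2 / 2 ≤ 42 / 100 := by
    have e1 : ((X : ℝ) / h) ^ 2 * (Real.log n - Real.log y) ^ 2 ≤
        ((X : ℝ) / h) ^ 2 * (h / (11 / 10 * X)) ^ 2 :=
      mul_le_mul_of_nonneg_left h3 (by positivity)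
    have e2 : ((X : ℝ) / h) ^ 2 * (h / (11 / 10 * X)) ^ 2 = 100 / 121 := by
      have : h ≠ 0 := by linarith
      field_simp
      norm_num
    rw [e2] at e1
    linarith
  unfold Kn
  have h5 := Real.add_one_le_exp (-(((X : ℝ) / h) ^ 2 * (Real.log n - Real.log y) ^ 2 / 2))
  linarith

theorem Kn_up (h y : ℝ) (X n : ℕ) (hh : 1 ≤ h) (hX : 110 * h ≤ X) (hy1 : 12 / 10 * (X : ℝ) ≤ y)
    (hy2 : y ≤ 18 / 10 * (X : ℝ)) (hn1 : 1 ≤ n) (hn2 : n ≤ 2 * X)
    (hn : 10 * h < |(n : ℝ) - y|) : Kn (X / h) y n ≤ Real.exp (-(5 / 4 / h * |(n : ℝ) - y|)) := by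
  have hX0 : 0 < (X : ℝ) := by linarith
  have hn0 : 0 < (n : ℝ) := by exact_mod_cast hn1
  have hn3 : (n : ℝ) ≤ 2 * X := by exact_mod_cast hn2
  have hy0 : 0 < y := by linarith
  have h1 : |(n : ℝ) - y| / (2 * X) ≤ |Real.log n - Real.log y| := by
    rcases le_total y n with hc | hc
    · rw [abs_of_nonneg (by linarith)]
      refine le_trans ?_ (le_abs_self _)
      have e0 : Real.log n - Real.log y = -(Real.log (y / n)) := by
        rw [Real.log_div hy0.ne' hn0.ne']
        ring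
      rw [e0]
      have e1 : Real.log (y / n) ≤ y / n - 1 :=
        Real.log_le_sub_one_of_pos (by positivity)
      have e2 : y / n - 1 = -((n - y) / n) := by
        field_simp
        ring
      have e3 : ((n : ℝ) - y) / (2 * X) ≤ (n - y) / n :=
        div_le_div_of_nonneg_left (by linarith) hn0 hn3
      linarith
    · rw [abs_of_nonpos (by linarith), abs_sub_comm]
      refine le_trans ?_ (le_abs_self _)
      have e0 : Real.log y - Real.log n = -(Real.log (n / y)) := by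
        rw [Real.log_div hn0.ne' hy0.ne']
        ring
      rw [e0]
      have e1 : Real.log ((n : ℝ) / y) ≤ (n : ℝ) / y - 1 :=
        Real.log_le_sub_one_of_pos (by positivity)
      have e2 : (n : ℝ) / y - 1 = -((y - n) / y) := by
        field_simp
        ring
      have e3 : -((n : ℝ) - y) / (2 * X) ≤ (y - n) / y := by
        rw [neg_sub]
        exact div_le_div_of_nonneg_left (by linarith) hy0 (by linarith)
      linarith
  have h0 : 0 ≤ |(n : ℝ) - y| / (2 * X) := by positivity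
  have h2 : (|(n : ℝ) - y| / (2 * X)) ^ 2 ≤ (Real.log n - Real.log y) ^ 2 := by
    rw [← sq_abs (Real.log n - Real.log y)]
    exact pow_le_pow_left₀ h0 h1 2
  unfold Kn
  apply Real.exp_le_exp.2
  have h3 : ((X : ℝ) / h) ^ 2 * (|(n : ℝ) - y| / (2 * X)) ^ 2 ≤
      ((X : ℝ) / h) ^ 2 * (Real.log n - Real.log y) ^ 2 :=
    mul_le_mul_of_nonneg_left h2 (by positivity)
  have hh0 : 0 < h := by linarith
  have h4 : ((X : ℝ) / h) ^ 2 * (|(n : ℝ) - y| / (2 * X)) ^ 2 =
      |(n : ℝ) - y| / (4 * h ^ 2) * |(n : ℝ) - y| := by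
    field_simp
    ring
  rw [h4] at h3
  have h5 : 10 / 4 / h ≤ |(n : ℝ) - y| / (4 * h ^ 2) := by
    rw [div_le_div_iff₀ hh0 (by positivity)]
    nlinarith
  have h6 : 10 / 4 / h * |(n : ℝ) - y| ≤ |(n : ℝ) - y| / (4 * h ^ 2) * |(n : ℝ) - y| :=
    mul_le_mul_of_nonneg_right h5 (abs_nonneg _)
  have h7 : 5 / 4 / h * |(n : ℝ) - y| = 10 / 4 / h * |(n : ℝ) - y| / 2 := by ring
  rw [h7]
  linarith

theorem tail (h y : ℝ) (X : ℕ) (hh : 1 ≤ h) (hX : 110 * h ≤ X) (hy1 : 12 / 10 * (X : ℝ) ≤ y)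
    (hy2 : y ≤ 18 / 10 * (X : ℝ)) :
    ∑ n ∈ (Finset.Icc 1 (2 * X)).filter (fun n : ℕ => ¬ |(n : ℝ) - y| ≤ 10 * h),
      Kn (X / h) y n ≤ 8 / 100 * h := by
  have hX0 : 0 < (X : ℝ) := by linarith
  have hh0 : 0 < h := by linarith
  have ha : 0 < 5 / 4 / h := by positivity
  have hd : 0 ≤ y - 10 * h := by linarith
  set m1 := ⌈y - 10 * h⌉₊ with hm1
  set m2 := ⌊y + 10 * h⌋₊ + 1 with hm2
  have hm1' : (m1 : ℝ) < y - 10 * h + 1 := Nat.ceil_lt_add_one hd
  have hm2' : y + 10 * h < (m2 : ℝ) := by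
    rw [hm2]
    push_cast
    exact Nat.lt_floor_add_one _
  have h1 : ∑ n ∈ (Finset.Icc 1 (2 * X)).filter (fun n : ℕ => ¬ |(n : ℝ) - y| ≤ 10 * h),
      Kn (X / h) y n ≤
      ∑ n ∈ Finset.range m1, Real.exp (-(5 / 4 / h * (y - n))) +
      ∑ n ∈ Finset.Ico m2 (2 * X + 1), Real.exp (-(5 / 4 / h * (n - y))) := by
    rw [← Finset.sum_filter_add_sum_filter_not _ (fun n : ℕ => (n : ℝ) < y)]
    apply add_le_add
    · refine le_trans (Finset.sum_le_sum (g := fun n : ℕ => Real.exp (-(5 / 4 / h * (y - n)))) ?_)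
        (Finset.sum_le_sum_of_subset_of_nonneg ?_ ?_)
      · intro n hn
        simp only [Finset.mem_filter, Finset.mem_Icc, not_le] at hn
        obtain ⟨⟨⟨a1, a2⟩, a3⟩, a4⟩ := hn
        have := Kn_up h y X n hh hX hy1 hy2 a1 a2 a3
        rw [abs_of_neg (by linarith), neg_sub] at this
        exact this
      · intro n hn
        simp only [Finset.mem_filter, Finset.mem_Icc, not_le] at hn
        obtain ⟨⟨⟨a1, a2⟩, a3⟩, a4⟩ := hn
        rw [abs_of_neg (by linarith), neg_sub] at a3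
        rw [Finset.mem_range, hm1, Nat.lt_ceil]
        linarith
      · intro n _ _
        positivity
    · refine le_trans (Finset.sum_le_sum (g := fun n : ℕ => Real.exp (-(5 / 4 / h * (n - y)))) ?_)
        (Finset.sum_le_sum_of_subset_of_nonneg ?_ ?_)
      · intro n hn
        simp only [Finset.mem_filter, Finset.mem_Icc, not_le, not_lt] at hn
        obtain ⟨⟨⟨a1, a2⟩, a3⟩, a4⟩ := hn
        have := Kn_up h y X n hh hX hy1 hy2 a1 a2 a3
        rw [abs_of_nonneg (by linarith)] at this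
        exact this
      · intro n hn
        simp only [Finset.mem_filter, Finset.mem_Icc, not_le, not_lt] at hn
        obtain ⟨⟨⟨a1, a2⟩, a3⟩, a4⟩ := hn
        rw [abs_of_nonneg (by linarith)] at a3
        rw [Finset.mem_Ico]
        refine ⟨?_, by omega⟩
        rw [hm2, Nat.succ_le_iff, Nat.floor_lt (by linarith)]
        linarith
      · intro n _ _
        positivity
  have h2 := left_sum (5 / 4 / h) y ha m1
  have h3 := right_sum (5 / 4 / h) y ha m2 (2 * X + 1)
  have hinv : 1 / (5 / 4 / h) = 4 / 5 * h := by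
    field_simp
  rw [hinv] at h2 h3
  have b1 : Real.exp (-(5 / 4 / h * (y - m1))) ≤ Real.exp (-(45 / 4)) := by
    apply Real.exp_le_exp.2
    apply neg_le_neg
    have e1 : 9 * h ≤ y - m1 := by linarith
    calc (45 / 4 : ℝ) = 5 / 4 / h * (9 * h) := by
          field_simp
          norm_num
      _ ≤ 5 / 4 / h * (y - m1) := mul_le_mul_of_nonneg_left e1 ha.le
  have b2 : Real.exp (-(5 / 4 / h * (m2 - y))) ≤ Real.exp (-(45 / 4)) := by
    apply Real.exp_le_exp.2
    apply neg_le_neg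
    have e1 : 9 * h ≤ m2 - y := by linarith
    calc (45 / 4 : ℝ) = 5 / 4 / h * (9 * h) := by
          field_simp
          norm_num
      _ ≤ 5 / 4 / h * (m2 - y) := mul_le_mul_of_nonneg_left e1 ha.le
  have b3 : Real.exp (-(45 / 4)) ≤ 1 / 70 := by
    rw [Real.exp_neg, ← one_div]
    apply one_div_le_one_div_of_le (by norm_num)
    have := Real.quadratic_le_exp_of_nonneg (x := 45 / 4) (by norm_num)
    norm_num at this ⊢
    linarith
  have b4 : 4 / 5 * h * Real.exp (-(5 / 4 / h * (y - m1))) ≤ 4 / 5 * h * (1 / 70) :=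
    mul_le_mul_of_nonneg_left (b1.trans b3) (by positivity)
  have b5 : (1 + 4 / 5 * h) * Real.exp (-(5 / 4 / h * (m2 - y))) ≤ (1 + 4 / 5 * h) * (1 / 70) :=
    mul_le_mul_of_nonneg_left (b2.trans b3) (by positivity)
  linarith

theorem main_low (h y : ℝ) (X : ℕ) (hh : 1 ≤ h) (hX : 110 * h ≤ X) (hy1 : 12 / 10 * (X : ℝ) ≤ y)
    (hy2 : y ≤ 18 / 10 * (X : ℝ)) :
    58 / 100 * h ≤ ∑ n ∈ (Finset.Icc 1 (2 * X)).filter (fun n : ℕ => |(n : ℝ) - y| ≤ 10 * h),
      Kn (X / h) y n := by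
  have hX0 : 0 < (X : ℝ) := by linarith
  have hh0 : 0 < h := by linarith
  have hd : 0 ≤ y - h := by linarith
  have h1 : ∑ n ∈ Finset.Icc ⌈y - h⌉₊ ⌊y + h⌋₊, (58 / 100 : ℝ) ≤
      ∑ n ∈ (Finset.Icc 1 (2 * X)).filter (fun n : ℕ => |(n : ℝ) - y| ≤ 10 * h), Kn (X / h) y n := by
    refine le_trans (Finset.sum_le_sum (g := fun n : ℕ => Kn (X / h) y n) ?_)
      (Finset.sum_le_sum_of_subset_of_nonneg ?_ ?_)
    · intro n hn
      rw [Finset.mem_Icc] at hn
      have a1 : y - h ≤ n := (Nat.le_ceil _).trans (by exact_mod_cast hn.1)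
      have a2 : (n : ℝ) ≤ y + h := (Nat.le_floor_iff (by linarith)).1 hn.2
      apply Kn_low h y X n hh hX hy1
      rw [abs_le]
      constructor <;> linarith
    · intro n hn
      rw [Finset.mem_Icc] at hn
      have a1 : y - h ≤ n := (Nat.le_ceil _).trans (by exact_mod_cast hn.1)
      have a2 : (n : ℝ) ≤ y + h := (Nat.le_floor_iff (by linarith)).1 hn.2
      rw [Finset.mem_filter, Finset.mem_Icc]
      refine ⟨⟨?_, ?_⟩, ?_⟩
      · have : (0 : ℝ) < n := by linarith
        exact_mod_cast this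
      · have : (n : ℝ) ≤ 2 * X := by linarith
        exact_mod_cast this
      · rw [abs_le]
        constructor <;> linarith
    · intro n _ _
      unfold Kn
      positivity
  rw [Finset.sum_const, nsmul_eq_mul, Nat.card_Icc] at h1
  have c1 : (⌈y - h⌉₊ : ℝ) < y - h + 1 := Nat.ceil_lt_add_one hd
  have c2 : y + h < (⌊y + h⌋₊ : ℝ) + 1 := Nat.lt_floor_add_one _
  have c3 : ((⌊y + h⌋₊ : ℝ) + 1) - (⌈y - h⌉₊ : ℝ) ≤ ((⌊y + h⌋₊ + 1 - ⌈y - h⌉₊ : ℕ) : ℝ) := by
    have h5 : ⌊y + h⌋₊ + 1 ≤ (⌊y + h⌋₊ + 1 - ⌈y - h⌉₊) + ⌈y - h⌉₊ := by omega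
    have h6 : ((⌊y + h⌋₊ : ℝ) + 1) ≤ ((⌊y + h⌋₊ + 1 - ⌈y - h⌉₊ : ℕ) : ℝ) + (⌈y - h⌉₊ : ℝ) := by
      exact_mod_cast h5
    linarith
  have c4 : h ≤ ((⌊y + h⌋₊ + 1 - ⌈y - h⌉₊ : ℕ) : ℝ) := by linarith
  linarith

end XWLp

open XWLp in
/-- Item WLp. -/
theorem iWLp : StWLp := by
  intro h y X s hh hX hy1 hy2 hs hσ
  obtain ⟨σ, hσ⟩ := hσ
  have hX0 : 0 < (X : ℝ) := by linarith
  have hh0 : 0 < h := by linarith
  have hσ1 : |σ| = 1 := by
    have h1 := hσ ⌊y⌋₊ (by
      have c1 : (⌊y⌋₊ : ℝ) ≤ y := Nat.floor_le (by linarith)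
      have c2 : y < (⌊y⌋₊ : ℝ) + 1 := Nat.lt_floor_add_one _
      rw [abs_le]
      constructor <;> linarith)
    rw [← h1]
    rcases hs ⌊y⌋₊ with h2 | h2
    · rw [h2]
      simp
    · rw [h2]
      simp
  have e : Kf (X / h) (2 * X) (fun n => if X < n then s n else 0) (Real.log y) =
      σ * ∑ n ∈ (Finset.Icc 1 (2 * X)).filter (fun n : ℕ => |(n : ℝ) - y| ≤ 10 * h),
        Kn (X / h) y n +
      ∑ n ∈ (Finset.Icc 1 (2 * X)).filter (fun n : ℕ => ¬ |(n : ℝ) - y| ≤ 10 * h),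
        (if X < n then s n else 0) * Kn (X / h) y n := by
    unfold Kf
    rw [← Finset.sum_filter_add_sum_filter_not (Finset.Icc 1 (2 * X))
      (fun n : ℕ => |(n : ℝ) - y| ≤ 10 * h)]
    congr 1
    rw [Finset.mul_sum]
    apply Finset.sum_congr rfl
    intro n hn
    rw [Finset.mem_filter] at hn
    have hn2 := abs_le.1 hn.2
    have hn3 : (X : ℝ) < n := by linarith [hn2.1]
    have hn4 : X < n := by exact_mod_cast hn3
    change (if X < n then s n else 0) * Kn (X / h) y n = σ * Kn (X / h) y n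
    rw [if_pos hn4, hσ n hn.2]
  have t1 : |∑ n ∈ (Finset.Icc 1 (2 * X)).filter (fun n : ℕ => ¬ |(n : ℝ) - y| ≤ 10 * h),
        (if X < n then s n else 0) * Kn (X / h) y n| ≤ 8 / 100 * h := by
    refine le_trans (Finset.abs_sum_le_sum_abs _ _) (le_trans (Finset.sum_le_sum ?_)
      (tail h y X hh hX hy1 hy2))
    intro n _
    have hK : 0 ≤ Kn (X / h) y n := by
      unfold Kn
      positivity
    rw [abs_mul, abs_of_nonneg hK]
    have : |(if X < n then s n else 0)| ≤ 1 := by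
      split_ifs
      · rcases hs n with h2 | h2
        · rw [h2]
          simp
        · rw [h2]
          simp
      · simp
    nlinarith
  have t2 := main_low h y X hh hX hy1 hy2
  rw [e]
  set A := ∑ n ∈ (Finset.Icc 1 (2 * X)).filter (fun n : ℕ => |(n : ℝ) - y| ≤ 10 * h),
        Kn (X / h) y n with hA
  set B := ∑ n ∈ (Finset.Icc 1 (2 * X)).filter (fun n : ℕ => ¬ |(n : ℝ) - y| ≤ 10 * h),
        (if X < n then s n else 0) * Kn (X / h) y n with hB
  have t3 : |σ * A| = A := by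
    rw [abs_mul, hσ1, one_mul, abs_of_nonneg (by linarith)]
  have t4 : h / 2 ≤ |σ * A + B| := by
    have := abs_sub_abs_le_abs_sub (σ * A) (-B)
    rw [abs_neg, sub_neg_eq_add] at this
    linarith
  rw [← sq_abs (σ * A + B)]
  exact pow_le_pow_left₀ (by positivity) t4 2

end Pool.Agent.Work.MP_a8fbd7_nt.PAR.MR
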