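import Pool.Agent.Work.MP_a8fbd7_nt.ZF.All
import Pool.Agent.Work.MP_56b8f5_nt.WM.I_Mert
import Pool.Agent.Work.MP_a8fbd7_nt.PAR.MR.I_QF
import Pool.Agent.Work.MP_a8fbd7_nt.PAR.MR.I_GM
import Pool.Agent.Work.MP_a8fbd7_nt.PAR.MR.I_Tl
import Pool.Agent.Work.MP_a8fbd7_nt.PAR.MR.I_GL
import Pool.Agent.Work.MP_a8fbd7_nt.PAR.MR.I_WI
import Pool.Agent.Work.MP_a8fbd7_nt.PAR.MR.I_WLp
import Pool.Agent.Work.MP_a8fbd7_nt.PAR.MR.I_WL
import Pool.Agent.Work.MP_a8fbd7_nt.PAR.MR.I_Fin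
import Pool.Agent.Work.MP_a8fbd7_nt.PAR.MR.I_Chg
import Pool.Agent.Work.MP_a8fbd7_nt.PAR.MR.I_DS
import Pool.Agent.Work.MP_a8fbd7_nt.PAR.MR.I_Pw
import Pool.Agent.Work.MP_a8fbd7_nt.PAR.MR.I_U1
import Pool.Agent.Work.MP_a8fbd7_nt.PAR.MR.I_U2
import Pool.Agent.Work.MP_a8fbd7_nt.PAR.MR.I_U3
import Pool.Agent.Work.MP_a8fbd7_nt.PAR.MR.I_U4
import Pool.Agent.Work.MP_a8fbd7_nt.PAR.MR.I_TK
import Pool.Agent.Work.MP_a8fbd7_nt.PAR.MR.I_Ed
import Pool.Agent.Work.MP_a8fbd7_nt.PAR.MR.I_Mr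
import Pool.Agent.Work.MP_a8fbd7_nt.PAR.MR.I_La
import Pool.Agent.Work.MP_a8fbd7_nt.PAR.MR.I_Lw
import Pool.Agent.Work.MP_a8fbd7_nt.PAR.MR.I_MV
import Pool.Agent.Work.MP_a8fbd7_nt.PAR.MR.I_Cn
import Pool.Agent.Work.MP_a8fbd7_nt.PAR.MR.I_Cf
import Pool.Agent.Work.MP_a8fbd7_nt.PAR.MR.I_Bc
import Pool.Agent.Work.MP_a8fbd7_nt.PAR.MR.I_DcI
import Pool.Agent.Work.MP_a8fbd7_nt.PAR.MR.I_Dc
import Pool.Agent.Work.MP_a8fbd7_nt.PAR.MR.I_Lv1
import Pool.Agent.Work.MP_a8fbd7_nt.PAR.MR.I_Lv2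
import Pool.Agent.Work.MP_a8fbd7_nt.PAR.MR.I_Sq
import Pool.Agent.Work.MP_a8fbd7_nt.PAR.MR.I_As0
import Pool.Agent.Work.MP_a8fbd7_nt.PAR.MR.I_As1
import Pool.Agent.Work.MP_a8fbd7_nt.PAR.MR.I_AsT
import Pool.Agent.Work.MP_a8fbd7_nt.PAR.MR.I_Main
import Pool.Agent.Work.MP_a8fbd7_nt.PAR.MR.I_Cc

/-!
# MP_a8fbd7_nt, parity, block MR: everything together

The theorem of Matomaki and Radziwill for the Liouville function in the form `MRweak`: there are `h0`, `X0` such that for all `X ≥ X0` at most half of the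
`x ∈ [X, 2X)` have `lam` constant on `[x, x + h0)`; and (`MRchg`) a positive proportion of the integers are sign changes.
-/

noncomputable section

namespace Pool.Agent.Work.MP_a8fbd7_nt.PAR.MR

theorem all_QF : StQF := iQF
theorem all_GM : StGM := iGM all_QF
theorem all_Tl : StTl := iTl all_QF all_GM
theorem all_GL : StGL := iGL all_QF all_GM
theorem all_WI : StWI := iWI all_QF
theorem all_WL : StWL := iWL iWLp all_WI
theorem all_U1 : StU1 := iU1 iPw Pool.Agent.Work.MP_a8fbd7_nt.OX.Uc.u_Mv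
theorem all_U2 : StU2 := iU2 Pool.Agent.Work.MP_a8fbd7_nt.ZF.all_PrI
theorem all_U3 : StU3 := iU3 Pool.Agent.Work.MP_a8fbd7_nt.ZF.all_HM
theorem all_U4 : StU4 := iU4 iDS all_U1 all_U2 all_U3
theorem all_Mr : StMr := iMr Pool.Agent.Work.MP_56b8f5_nt.WM.Mert_pf
theorem all_La : StLa := iLa Pool.Agent.Work.MP_a8fbd7_nt.ZF.all_Un
theorem all_Lw : StLw := iLw Pool.Agent.Work.MP_a8fbd7_nt.ZF.all_Un
theorem all_MV : StMV := iMV all_GL
theorem all_Cf : StCf := iCf iCn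
theorem all_Dc : StDc := iDc iTK iEd all_MV iDcI
theorem all_Lv1 : StLv1 := iLv1 all_MV
theorem all_Lv2 : StLv2 := iLv2 all_MV all_Cf iBc
theorem all_Sq : StSq := iSq all_Mr
theorem all_As0 : StAs0 := iAs0 all_Dc all_Lv1
theorem all_As1 : StAs1 := iAs1 all_Dc all_Lv2
theorem all_AsT : StAsT := iAsT all_Dc all_U4 all_Mr
theorem all_Main : StMain := iMain all_Sq all_As0 all_As1 all_AsT all_Lw
theorem all_L2 : StL2 := iCc all_Main all_Tl all_QF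

/-- **Matomaki-Radziwill for the Liouville function, weak form.** -/
theorem all_MRweak : MRweak := iFin all_WI all_WL all_L2

/-- **Sign changes of the Liouville function: a positive proportion.** -/
theorem all_MRchg : MRchg := iChg all_MRweak

end Pool.Agent.Work.MP_a8fbd7_nt.PAR.MR
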