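import Pool.Agent.Work.MP_a8fbd7_nt.ZF.Stmts

/-!
# MP_a8fbd7_nt, parity, block MR (Matomaki-Radziwill for the Liouville function): definitions

`Dp`, `Sep`: `UC/Defs.lean` of MP_56b8f5_nt (`Dp Y a t = ∑_{1 ≤ n ≤ Y} a n n^{-it}`).
-/

open MeasureTheory Set Filter Topology

noncomputable section

namespace Pool.Agent.Work.MP_a8fbd7_nt.PAR.MR

open Pool.Agent.Work.MP_56b8f5_nt.UC (Dp Sep)

/-- the Liouville function -/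
def lam (n : ℕ) : ℝ := ((ArithmeticFunction.liouville n : ℤ) : ℝ)

/-- the primes in `(e^(v/H), e^((v+1)/H)]` -/
def rg (H v : ℕ) : Finset ℕ :=
  (Finset.Icc 1 ⌊Real.exp (((v : ℝ) + 1) / H)⌋₊).filter fun p => p.Prime ∧ Real.exp ((v : ℝ) / H) < p

/-- `∑ p^{-it}` over the primes of the range `v` -/
def Pb (H v : ℕ) (t : ℝ) : ℂ := ∑ p ∈ rg H v, (p : ℂ) ^ (-(t * Complex.I))

/-- `∑_{N < n ≤ 2 N} lam n n^{-it}`, `N = X e^{-v/H}` -/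
def Mb (X : ℝ) (H v : ℕ) (t : ℝ) : ℂ :=
  ∑ m ∈ Finset.Ioc ⌊X * Real.exp (-((v : ℝ) / H))⌋₊ ⌊2 * X * Real.exp (-((v : ℝ) / H))⌋₊,
    ((lam m : ℝ) : ℂ) * (m : ℂ) ^ (-(t * Complex.I))

/-- `∑_{X < n ≤ 2 X} lam n n^{-it}` -/
def Aa (X t : ℝ) : ℂ :=
  ∑ n ∈ Finset.Ioc ⌊X⌋₊ ⌊2 * X⌋₊, ((lam n : ℝ) : ℂ) * (n : ℂ) ^ (-(t * Complex.I))

/-- Gaussian windows -/
def Kf (T : ℝ) (Y : ℕ) (a : ℕ → ℝ) (u : ℝ) : ℝ :=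
  ∑ n ∈ Finset.Icc 1 Y, a n * Real.exp (-(T ^ 2 * (Real.log n - u) ^ 2 / 2))

/-- At most half of the `x` in `[X, 2X)` have `lam` constant on `[x, x + h0)`. -/
def MRweak : Prop := ∃ h0 X0 : ℕ, 1 ≤ h0 ∧ ∀ X : ℕ, X0 ≤ X →
  ((((Finset.Ico X (2 * X)).filter fun x => ∀ i < h0, lam (x + i) = lam x).card : ℝ)) ≤ X / 2

/-- There are `≥ c X` sign changes of `lam` in `[X, 2X)`. -/
def MRchg : Prop := ∃ (c : ℝ) (X0 : ℕ), 0 < c ∧ ∀ X : ℕ, X0 ≤ X →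
  c * X ≤ ((Finset.Ico X (2 * X)).filter fun x => lam (x + 1) ≠ lam x).card

end Pool.Agent.Work.MP_a8fbd7_nt.PAR.MR
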