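import Pool.Agent.Work.MP_a8fbd7_nt.PAR.MR.StmtsB

/-!
# MP_a8fbd7_nt, parity, block MR (Matomaki-Radziwill for the Liouville function): definitions for part A

`Sp S a t = ∑_{n ∈ S} a_n n^{-it}`.  A level is given by natural numbers `H`, `v0 < v1`: the primes in `(e^{v0/H}, e^{v1/H}]`,
divided into the blocks `(e^{v/H}, e^{(v+1)/H}]`, `v0 ≤ v < v1` (`rg H v` in `Defs.lean`).
-/

open MeasureTheory Set

noncomputable section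

namespace Pool.Agent.Work.MP_a8fbd7_nt.PAR.MR

/-- Dirichlet polynomial over a finite set -/
def Sp (S : Finset ℕ) (a : ℕ → ℂ) (t : ℝ) : ℂ := ∑ n ∈ S, a n * (n : ℂ) ^ (-(t * Complex.I))

/-- the integers in `(X, 2X]` -/
def IX (X : ℝ) : Finset ℕ := Finset.Ioc ⌊X⌋₊ ⌊2 * X⌋₊

/-- the primes in `(e^{u/H}, e^{v/H}]` -/
def PS (H u v : ℕ) : Finset ℕ :=
  (Finset.Icc 1 ⌊Real.exp ((v : ℝ) / H)⌋₊).filter fun p => p.Prime ∧ Real.exp ((u : ℝ) / H) < p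

/-- number of elements of `S` which divide `n` -/
def om (S : Finset ℕ) (n : ℕ) : ℝ := ((S.filter fun p => p ∣ n).card : ℝ)

/-- `∑_{p ∈ S} 1/p` -/
def Wt (S : Finset ℕ) : ℝ := ∑ p ∈ S, 1 / (p : ℝ)

/-- the sum of the products of the blocks of a level -/
def Bs (X : ℝ) (H v0 v1 : ℕ) (t : ℝ) : ℂ := ∑ v ∈ Finset.Ico v0 v1, Pb H v t * Mb X H v t

/-- `S(x) = ∑_{n ≤ x} λ(n)` -/
def Sl (x : ℝ) : ℝ := ∑ n ∈ Finset.Icc 1 ⌊x⌋₊, lam n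

/-- the block with index `v` is small: `|Pb| ≤ y^{1-α}`, `y = e^{v/H}` -/
def Small (α : ℝ) (H v : ℕ) (t : ℝ) : Prop := ‖Pb H v t‖ ≤ Real.exp ((1 - α) * ((v : ℝ) / H))

/-- all blocks of the level are small at `t` -/
def AllS (α : ℝ) (H v0 v1 : ℕ) (t : ℝ) : Prop := ∀ v : ℕ, v0 ≤ v → v < v1 → Small α H v t

/-- the exponents `α_j = 1/16 + (1 - 1/(j+1))/16` -/
def al (j : ℕ) : ℝ := 1 / 16 + (1 - 1 / ((j : ℝ) + 1)) / 16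

/-- A sequence of levels: level `j` consists of the primes in `(e^{A j}, e^{B j}]`, divided by `e^{1/H_j}`. -/
structure Lev (ε h : ℝ) (A B Hs : ℕ → ℕ) : Prop where
  A1 : ∀ j, 2 ≤ A j
  AB : ∀ j, A j < B j
  mono : ∀ j, B j ≤ A (j + 1)
  H2 : ∀ j, 2 ≤ Hs j
  HB : ∀ j, Hs j ≤ B j
  Bj : ∀ j, j ≤ B j
  hB : Real.exp (B 0) ≤ h
  W1 : ∀ j, 1 ≤ Wt (PS (Hs j) (Hs j * A j) (Hs j * B j))
  /-- the errors of the decompositions -/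
  sum : ∀ n, ∑ j ∈ Finset.range n, (1 / Wt (PS (Hs j) (Hs j * A j) (Hs j * B j)) + 1 / (Hs j : ℝ)) ≤ ε
  /-- the gain of level `0` -/
  g0 : ((Hs 0 * B 0 : ℕ) : ℝ) ^ 2 * Real.exp (-(2 * al 0 * A 0)) ≤ ε
  /-- the gain of level `j + 1` -/
  gj : ∀ (j : ℕ) (x y : ℝ), (A j : ℝ) ≤ x → x ≤ B j → (A (j + 1) : ℝ) ≤ y → y ≤ B (j + 1) →
    Real.exp x * (3 * (y / x + 2)) ^ (y / x + 1) * Real.exp (-(2 * (al (j + 1) - al j) * y)) *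
      ((Hs (j + 1) * B (j + 1) : ℕ) : ℝ) ^ 2 * ((Hs j * B j : ℕ) : ℝ) ≤ ε / 2 ^ (j + 1)
  /-- the next level is not much longer than the present one -/
  nx : ∀ j, (100 : ℝ) * (B (j + 1) : ℝ) ≤ Real.exp ((A j : ℝ) / 100)

end Pool.Agent.Work.MP_a8fbd7_nt.PAR.MR
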