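import Pool.Agent.Work.MP_a8fbd7_nt.PAR.MR.StmtsB

/-!
# MP_a8fbd7_nt, parity, block MR, item Fin: the weak form from the mean square
-/

open MeasureTheory Set Filter Topology

noncomputable section

namespace Pool.Agent.Work.MP_a8fbd7_nt.PAR.MR

open Pool.Agent.Work.MP_56b8f5_nt.UC (Dp Sep)

namespace XFin

/-- `lam` with the value `1` at `0` -/
def l1 (n : ℕ) : ℝ := if n = 0 then 1 else lam n

lemma l1_pos {n : ℕ} (h : 1 ≤ n) : l1 n = lam n := by
  unfold l1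
  rw [if_neg (by omega)]

lemma l1_val (n : ℕ) : l1 n = 1 ∨ l1 n = -1 := by
  unfold l1
  split_ifs with h
  · exact Or.inl rfl
  · unfold lam
    rw [ArithmeticFunction.liouville_apply h]
    rcases neg_one_pow_eq_or ℤ (ArithmeticFunction.cardFactors n) with h1 | h1
    · left; rw [h1]; norm_num
    · right; rw [h1]; norm_num

lemma Aa_eq (X : ℕ) (hX : 1 ≤ X) (t : ℝ) :
    Aa X t = Dp (2 * X) (fun n => (((if X < n then l1 n else 0 : ℝ)) : ℂ)) t := by
  unfold Aa Dp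
  have e1 : ⌊(X : ℝ)⌋₊ = X := Nat.floor_natCast X
  have e2 : ⌊2 * (X : ℝ)⌋₊ = 2 * X := by
    rw [show 2 * (X : ℝ) = ((2 * X : ℕ) : ℝ) by push_cast; rfl, Nat.floor_natCast]
  rw [e1, e2]
  have h1 : Finset.Ioc X (2 * X) = (Finset.Icc 1 (2 * X)).filter fun n => X < n := by
    ext n
    simp only [Finset.mem_Ioc, Finset.mem_filter, Finset.mem_Icc]
    omega
  rw [h1, Finset.sum_filter]
  refine Finset.sum_congr rfl fun n hn => ?_
  rw [Finset.mem_Icc] at hn
  by_cases h : X < n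
  · simp only [if_pos h, l1_pos hn.1]
  · simp only [if_neg h, Complex.ofReal_zero, zero_mul]

end XFin

theorem iFin (h1 : StWI) (h2 : StWL) : StFin := by
  intro h3
  obtain ⟨c, hc, hWL⟩ := h2
  obtain ⟨h, X1, hh1, hL2⟩ := h3 (c / 2) (by linarith)
  obtain ⟨h0, X0, hh0, hWL2⟩ := hWL h hh1
  refine ⟨h0, max (max X0 1) ⌈X1⌉₊, hh0, fun X hX => ?_⟩
  have hX0 : X0 ≤ X := (le_max_left _ _).trans ((le_max_left _ _).trans hX)
  have hX1 : 1 ≤ X := (le_max_right _ _).trans ((le_max_left _ _).trans hX)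
  have hX2 : X1 ≤ (X : ℝ) := by
    have := (le_max_right (max X0 1) ⌈X1⌉₊).trans hX
    exact (Nat.le_ceil _).trans (by exact_mod_cast this)
  have hX1' : (1 : ℝ) ≤ X := by exact_mod_cast hX1
  by_contra hneg
  push Not at hneg
  have hfil : ((Finset.Ico X (2 * X)).filter fun x => ∀ i < h0, XFin.l1 (x + i) = XFin.l1 x) =
      (Finset.Ico X (2 * X)).filter fun x => ∀ i < h0, lam (x + i) = lam x := by
    refine Finset.filter_congr fun x hx => ?_
    rw [Finset.mem_Ico] at hx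
    have hx1 : 1 ≤ x := hX1.trans hx.1
    constructor
    · intro hf i hi
      have := hf i hi
      rwa [XFin.l1_pos (by omega), XFin.l1_pos hx1] at this
    · intro hf i hi
      rw [XFin.l1_pos (by omega), XFin.l1_pos hx1]
      exact hf i hi
  have h4 := hWL2 X hX0 XFin.l1 XFin.l1_val (by rw [hfil]; exact hneg)
  have hTpos : 0 < (X : ℝ) / h := by positivity
  obtain ⟨_, h5⟩ := h1 ((X : ℝ) / h) (2 * X) (fun n => if X < n then XFin.l1 n else 0) hTpos
  have h6 := hL2 X hX2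
  have h7 : ∫ t : ℝ, Real.exp (-(t / ((X : ℝ) / h)) ^ 2) *
      ‖Dp (2 * X) (fun n => (((if X < n then XFin.l1 n else 0 : ℝ)) : ℂ)) t‖ ^ 2 =
      ∫ t : ℝ, Real.exp (-(t / ((X : ℝ) / h)) ^ 2) * ‖Aa X t‖ ^ 2 := by
    refine integral_congr_ae (Eventually.of_forall fun t => ?_)
    simp only
    rw [XFin.Aa_eq X hX1 t]
  rw [h7] at h5
  set I := ∫ u : ℝ, Kf ((X : ℝ) / h) (2 * X) (fun n => if X < n then XFin.l1 n else 0) u ^ 2
    with hI
  have h8 : ((X : ℝ) / h) ^ 2 * (c * h ^ 2) ≤ c / 2 * (X : ℝ) ^ 2 := by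
    calc ((X : ℝ) / h) ^ 2 * (c * h ^ 2) ≤ ((X : ℝ) / h) ^ 2 * I :=
          mul_le_mul_of_nonneg_left h4 (by positivity)
      _ ≤ c / 2 * (X : ℝ) ^ 2 := by rw [h5]; exact h6
  have h9 : ((X : ℝ) / h) ^ 2 * (c * h ^ 2) = c * (X : ℝ) ^ 2 := by
    field_simp
  rw [h9] at h8
  have h10 : 0 < c * (X : ℝ) ^ 2 := by positivity
  linarith

end Pool.Agent.Work.MP_a8fbd7_nt.PAR.MR
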