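import Pool.Agent.Work.MP_a8fbd7_nt.PAR.MR.StmtsA
import Pool.Agent.Work.MP_56b8f5_nt.WM.Stmts

/-!
# MP_a8fbd7_nt, parity, block MR, item Mr: Mertens for a level
-/

open MeasureTheory Set

noncomputable section

namespace Pool.Agent.Work.MP_a8fbd7_nt.PAR.MR

namespace XMr

open Pool.Agent.Work.MP_56b8f5_nt.WM (S1 pr)

/-- The weight of a level is a difference of two prime sums. -/
theorem wt_eq (H u v : ℕ) (hH : 1 ≤ H) (huv : u < v) :
    Wt (PS H u v) = S1 ⌊Real.exp ((v : ℝ) / H)⌋₊ - S1 ⌊Real.exp ((u : ℝ) / H)⌋₊ := by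
  have hHr : (0 : ℝ) < H := by exact_mod_cast hH
  have hle : Real.exp ((u : ℝ) / H) ≤ Real.exp ((v : ℝ) / H) := by
    apply Real.exp_le_exp.mpr
    have : (u : ℝ) ≤ v := by exact_mod_cast huv.le
    exact div_le_div_of_nonneg_right this hHr.le
  have hfl : ⌊Real.exp ((u : ℝ) / H)⌋₊ ≤ ⌊Real.exp ((v : ℝ) / H)⌋₊ := Nat.floor_le_floor hle
  have hset : PS H u v = (pr ⌊Real.exp ((v : ℝ) / H)⌋₊) \ (pr ⌊Real.exp ((u : ℝ) / H)⌋₊) := by
    ext p
    simp only [PS, pr, Finset.mem_filter, Finset.mem_Icc, Finset.mem_sdiff, Finset.mem_range]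
    constructor
    · rintro ⟨⟨h1, h2⟩, hp, h3⟩
      refine ⟨⟨by omega, hp⟩, ?_⟩
      rintro ⟨h4, -⟩
      have h5 : p ≤ ⌊Real.exp ((u : ℝ) / H)⌋₊ := by omega
      have h6 : (p : ℝ) ≤ Real.exp ((u : ℝ) / H) :=
        (Nat.le_floor_iff (Real.exp_pos _).le).mp h5
      linarith
    · rintro ⟨⟨h1, hp⟩, h2⟩
      refine ⟨⟨hp.one_lt.le, by omega⟩, hp, ?_⟩
      by_contra h3
      rw [not_lt] at h3
      have h5 : p ≤ ⌊Real.exp ((u : ℝ) / H)⌋₊ := Nat.le_floor h3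
      exact h2 ⟨by omega, hp⟩
  have hsub : pr ⌊Real.exp ((u : ℝ) / H)⌋₊ ⊆ pr ⌊Real.exp ((v : ℝ) / H)⌋₊ := by
    intro p hp
    simp only [pr, Finset.mem_filter, Finset.mem_range] at hp ⊢
    exact ⟨by omega, hp.2⟩
  unfold Wt S1
  rw [hset, Finset.sum_sdiff_eq_sub hsub]

end XMr

theorem iMr (hM : Pool.Agent.Work.MP_56b8f5_nt.WM.S_Mert) : StMr := by
  obtain ⟨C, hC, hM⟩ := hM
  have hlC : 0 ≤ Real.log C := Real.log_nonneg hC
  refine ⟨2 * Real.log C + Real.log 2 + 1, ?_, ?_⟩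
  · have := Real.log_nonneg (by norm_num : (1 : ℝ) ≤ 2)
    linarith
  intro H u v hH hu huv
  rw [XMr.wt_eq H u v hH huv]
  have hHr : (0 : ℝ) < H := by exact_mod_cast hH
  have hur : (0 : ℝ) < u := lt_of_lt_of_le hHr (by exact_mod_cast hu)
  have hvr : (0 : ℝ) < v := lt_trans hur (by exact_mod_cast huv)
  have h1u : 1 ≤ (u : ℝ) / H := by
    rw [le_div_iff₀ hHr, one_mul]
    exact_mod_cast hu
  have huv' : (u : ℝ) / H ≤ (v : ℝ) / H :=
    div_le_div_of_nonneg_right (by exact_mod_cast huv.le) hHr.le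
  have hexp : ∀ t : ℝ, 1 ≤ t → 2 ≤ ⌊Real.exp t⌋₊ := by
    intro t ht
    apply Nat.le_floor
    have := Real.add_one_le_exp t
    push_cast
    linarith
  set x := ⌊Real.exp ((u : ℝ) / H)⌋₊ with hx
  set y := ⌊Real.exp ((v : ℝ) / H)⌋₊ with hy
  have hx2 : 2 ≤ x := hexp _ h1u
  have hy2 : 2 ≤ y := hexp _ (h1u.trans huv')
  have hlx : Real.log x ≤ (u : ℝ) / H := by
    have h1 : (x : ℝ) ≤ Real.exp ((u : ℝ) / H) := Nat.floor_le (Real.exp_pos _).le
    have h2 : (0 : ℝ) < x := by positivity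
    calc Real.log x ≤ Real.log (Real.exp ((u : ℝ) / H)) := Real.log_le_log h2 h1
      _ = _ := Real.log_exp _
  have hly : (v : ℝ) / H ≤ 2 * Real.log y := by
    have h1 : Real.exp ((v : ℝ) / H) < (y : ℝ) + 1 := Nat.lt_floor_add_one _
    have h2 : (2 : ℝ) ≤ y := by exact_mod_cast hy2
    have h3 : Real.exp ((v : ℝ) / H) ≤ (y : ℝ) ^ 2 := by nlinarith
    calc (v : ℝ) / H = Real.log (Real.exp ((v : ℝ) / H)) := (Real.log_exp _).symm
      _ ≤ Real.log ((y : ℝ) ^ 2) := Real.log_le_log (Real.exp_pos _) h3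
      _ = 2 * Real.log y := by rw [Real.log_pow]; norm_num
  have hlxpos : 0 < Real.log x := Real.log_pos (by exact_mod_cast hx2)
  have hlypos : 0 < Real.log y := Real.log_pos (by exact_mod_cast hy2)
  have hC0 : (0 : ℝ) < C := by linarith
  have hS1x : Pool.Agent.Work.MP_56b8f5_nt.WM.S1 x ≤ Real.log C + Real.log (Real.log x) := by
    have h1 := (hM x hx2).1
    have h2 := Real.log_le_log (Real.exp_pos _) h1
    rwa [Real.log_exp, Real.log_mul hC0.ne' hlxpos.ne'] at h2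
  have hS1y : Real.log (Real.log y) ≤ Real.log C + Pool.Agent.Work.MP_56b8f5_nt.WM.S1 y := by
    have h1 := (hM y hy2).2
    have h2 := Real.log_le_log hlypos h1
    rwa [Real.log_mul hC0.ne' (Real.exp_ne_zero _), Real.log_exp] at h2
  have h5 : Real.log (Real.log x) ≤ Real.log ((u : ℝ) / H) := Real.log_le_log hlxpos hlx
  have h6 : Real.log ((v : ℝ) / H) ≤ Real.log 2 + Real.log (Real.log y) := by
    rw [← Real.log_mul (by norm_num) hlypos.ne']
    exact Real.log_le_log (by positivity) hly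
  have h7 : Real.log ((v : ℝ) / u) = Real.log ((v : ℝ) / H) - Real.log ((u : ℝ) / H) := by
    rw [Real.log_div hvr.ne' hur.ne', Real.log_div hvr.ne' hHr.ne', Real.log_div hur.ne' hHr.ne']
    ring
  rw [h7]
  linarith

end Pool.Agent.Work.MP_a8fbd7_nt.PAR.MR
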