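import Pool.Agent.Work.MP_a8fbd7_nt.PAR.MR.Defs

/-!
# MP_a8fbd7_nt, parity, block MR (Matomaki-Radziwill for the Liouville function), part B

The Gaussian quadratic form, the windows, and the exceptional frequencies. Every item is
`theorem iNAME (h1 : StA) ... : StNAME` in the file `PAR/MR/I_NAME.lean`.  `Dp`, `Sep`: `UC/Defs.lean` of
MP_56b8f5_nt (`Dp Y a t = ∑_{1 ≤ n ≤ Y} a n n^{-it}`).
-/

open MeasureTheory Set Filter Topology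

noncomputable section

namespace Pool.Agent.Work.MP_a8fbd7_nt.PAR.MR

open Pool.Agent.Work.MP_56b8f5_nt.UC (Dp Sep)

/-! ### The Gaussian quadratic form -/

/-- ITEM QF (EASY-MEDIUM).  Expand `‖Dp Y a t‖² = ∑_m ∑_n a_m conj(a_n) e^{-it(log m - log n)}` (`m, n ≥ 1`), and
`∫ e^{-t²/T²} e^{-itx} dt = √π T e^{-T² x²/4}` (Mathlib: `fourierIntegral_gaussian` or `integral_cexp_quadratic`).  Integrability: finite sum of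
integrable functions, or `e^{-t²/T²}` times a bounded continuous function. -/
def StQF : Prop := ∀ (T : ℝ) (Y : ℕ) (a : ℕ → ℂ), 0 < T →
  Integrable (fun t : ℝ => Real.exp (-(t / T) ^ 2) * ‖Dp Y a t‖ ^ 2) ∧
  ((∫ t : ℝ, Real.exp (-(t / T) ^ 2) * ‖Dp Y a t‖ ^ 2 : ℝ) : ℂ) = ((Real.sqrt Real.pi * T : ℝ) : ℂ) *
    ∑ m ∈ Finset.Icc 1 Y, ∑ n ∈ Finset.Icc 1 Y, a m * (starRingEnd ℂ) (a n) *
      ((Real.exp (-(T ^ 2 * (Real.log m - Real.log n) ^ 2 / 4)) : ℝ) : ℂ)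

/-- ITEM GM (EASY-MEDIUM; uses StQF): the mean value theorem without logarithm.  `|a_m a_n| ≤ (|a_m|² + |a_n|²)/2` and symmetry: the double sum is
`≤ ∑_m |a_m|² ∑_n e^{-T²(log m - log n)²/4}`; for `m, n ≤ Y`, `|log m - log n| ≥ |m - n|/Y`, and
`∑_{k ∈ ℤ} e^{-T² k²/(4Y²)} ≤ 1 + 2 ∫_0^∞ e^{-T² x²/(4Y²)} dx = 1 + 2√π Y/T` (finite sums, antitone comparison; or `e^{-x²} ≤ 1/(1+x²)` and
`∑_{k ≥ 1} 1/(1 + (ck)²) ≤ π/(2c)`).  Total `√π T (1 + 2√π Y/T) ∑|a|²`. -/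
def StGM : Prop := ∃ C : ℝ, 1 ≤ C ∧ ∀ (T : ℝ) (Y : ℕ) (a : ℕ → ℂ), 0 < T →
  ∫ t : ℝ, Real.exp (-(t / T) ^ 2) * ‖Dp Y a t‖ ^ 2 ≤ C * (T + Y) * ∑ n ∈ Finset.Icc 1 Y, ‖a n‖ ^ 2

/-- ITEM Tl (EASY; uses StQF, StGM): the tail.  For `|t| ≥ U`: `e^{-(t/T)²} ≤ e^{-(U/T)²/2} e^{-(t/(√2 T))²}`; StGM with `√2 T`. -/
def StTl : Prop := ∃ C : ℝ, 1 ≤ C ∧ ∀ (T U : ℝ) (Y : ℕ) (a : ℕ → ℂ), 0 < T → 0 ≤ U →
  ∫ t in {t : ℝ | U < |t|}, Real.exp (-(t / T) ^ 2) * ‖Dp Y a t‖ ^ 2 ≤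
    C * Real.exp (-((U / T) ^ 2 / 2)) * (T + Y) * ∑ n ∈ Finset.Icc 1 Y, ‖a n‖ ^ 2

/-- ITEM GL (EASY; uses StQF, StGM): on `|t| ≤ T` the weight is `≥ e^{-1}`. -/
def StGL : Prop := ∃ C : ℝ, 1 ≤ C ∧ ∀ (T : ℝ) (Y : ℕ) (a : ℕ → ℂ), 0 < T →
  ∫ t in {t : ℝ | |t| ≤ T}, ‖Dp Y a t‖ ^ 2 ≤ C * (T + Y) * ∑ n ∈ Finset.Icc 1 Y, ‖a n‖ ^ 2

/-- ITEM WI (EASY-MEDIUM; uses StQF): Gaussian Plancherel.  `∫ e^{-T²(x-u)²/2} e^{-T²(y-u)²/2} du = (√π/T) e^{-T²(x-y)²/4}` (complete the square: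
`(x-u)² + (y-u)² = 2(u - (x+y)/2)² + (x-y)²/2`; `integral_gaussian`), expand the square and compare with StQF. -/
def StWI : Prop := ∀ (T : ℝ) (Y : ℕ) (a : ℕ → ℝ), 0 < T →
  Integrable (fun u : ℝ => Kf T Y a u ^ 2) ∧
  T ^ 2 * ∫ u : ℝ, Kf T Y a u ^ 2 =
    ∫ t : ℝ, Real.exp (-(t / T) ^ 2) * ‖Dp Y (fun n => ((a n : ℝ) : ℂ)) t‖ ^ 2

/-! ### Windows -/

/-- ITEM WLp (EASY-MEDIUM): one window.  Put `K_n = e^{-(X/h)²(log n - log y)²/2}`.  (i) `|n - y| ≤ h`: `|log n - log y| ≤ h/(1.1 X)` (both are `≥ 1.1 X`, as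
`h ≤ X/10`), so `K_n ≥ e^{-0.42} ≥ 0.65`; there are at least `2h - 1 ≥ h` such `n` (all in `(X, 2X]`).  (ii) `|n - y| > 10 h`, `n ≤ 2X`: `|log n - log y| ≥ |n-y|/(2X)`,
`K_n ≤ e^{-(n-y)²/(8h²)} ≤ e^{-(10/8)|n-y|/h}`, and the sum over these `n` is `≤ 2 e^{-12.5}(1 + h) ·(something bounded) ≤ 0.1 h` (geometric series with ratio `q = e^{-1.25/h}`: first term
`≤ e^{-12.5}`, `1/(1-q) ≤ 1 + h`).  As `s` is constant on `|n - y| ≤ 10h`: `|∑| ≥ 0.65 h - 0.1 h ≥ h/2`. -/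
def StWLp : Prop := ∀ (h y : ℝ) (X : ℕ) (s : ℕ → ℝ), 1 ≤ h → 110 * h ≤ X → 12 / 10 * X ≤ y → y ≤ 18 / 10 * X →
  (∀ n, s n = 1 ∨ s n = -1) → (∃ σ : ℝ, ∀ n : ℕ, |(n : ℝ) - y| ≤ 10 * h → s n = σ) →
  (h / 2) ^ 2 ≤ Kf (X / h) (2 * X) (fun n => if X < n then s n else 0) (Real.log y) ^ 2

/-- ITEM WL (MEDIUM; uses StWLp, StWI for the integrability): `c = 1/100`.  Let `h0 = ⌈20 h⌉ + 3`, `X0` large (`≥ 2000 h0`).  `G` = the set of `x` in `[X, 2X)` such that `s` is constant on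
`[x, x + h0)`, `#G > X/2`.  The number of `x` in `[X,2X)` outside of `[1.25 X, 1.75 X)` is `≤ X/2 + 2`... so use the range `J = [1.2 X + 11h, 1.8 X - 11 h - 2]`: it contains `≥ 0.6X - 22h - 4`
integers, hence `≥ 0.1 X - 22 h - 4 ≥ 0.08 X` elements of `G`.  For `x ∈ G ∩ J` let `y ∈ [x + 10 h, x + 10 h + 1)`: all integers `n` with `|n - y| ≤ 10 h` lie in `[x, x + h0)`, StWLp applies.  The intervals
`[log(x + 10h), log(x + 10 h + 1))` are disjoint for different `x` and have length `≥ 1/(2X)`.  So `∫ ≥ 0.08 X · (1/(2X)) · h²/4 = h²/100`. -/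
def StWL : Prop := ∃ c : ℝ, 0 < c ∧ ∀ h : ℝ, 1 ≤ h → ∃ h0 X0 : ℕ, 1 ≤ h0 ∧ ∀ X : ℕ, X0 ≤ X →
  ∀ s : ℕ → ℝ, (∀ n, s n = 1 ∨ s n = -1) →
  (X : ℝ) / 2 < ((Finset.Ico X (2 * X)).filter fun x => ∀ i < h0, s (x + i) = s x).card →
  c * h ^ 2 ≤ ∫ u : ℝ, Kf (X / h) (2 * X) (fun n => if X < n then s n else 0) u ^ 2

/-- The mean square of the short averages is small (conclusion of the other parts). -/
def StL2 : Prop := ∀ ε : ℝ, 0 < ε → ∃ h X0 : ℝ, 1 ≤ h ∧ ∀ X : ℝ, X0 ≤ X →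
  ∫ t : ℝ, Real.exp (-(t / (X / h)) ^ 2) * ‖Aa X t‖ ^ 2 ≤ ε * X ^ 2

/-- ITEM Fin (EASY-MEDIUM; uses StWI, StWL).  `c` from StWL, `ε = c/2`, `h` from StL2, `h0`, `X0` from StWL.  If more than `X/2` of the `x` had `lam` constant on `[x, x + h0)`, then (`s n = lam n` for `n ≥ 1`, `s 0 = 1`; the
windows only contain `n > X`; `X ≥ 1`) `c h² ≤ ∫ Kf² = (h/X)² ∫ e^{-(t/(X/h))²}|Aa X t|² dt ≤ ε h²` (`Aa X t = Dp (2X) (…) t` for a natural number `X`), a contradiction. -/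
def StFin : Prop := StL2 → MRweak

/-- ITEM Chg (EASY).  `c = 1/(4 h0)`.  Every `x` in `[X, 2X - h0)` such that `lam` is not constant on `[x, x + h0)` has a sign change `x'` in `[x, x + h0)`; each `x'` serves at most `h0` of the `x`; there are at least
`X/2 - h0` such `x`. -/
def StChg : Prop := MRweak → MRchg

/-! ### Exceptional frequencies -/

/-- ITEM DS (EASY-MEDIUM): discretisation.  For `k ∈ ℤ` let `U_k = U ∩ [k, k+1)`, `s_k = sup_{U_k} F` (finite, `F` is bounded on `[a,b]`), and for `s_k > 0` choose `t_k ∈ U_k` with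
`F(t_k) ≥ s_k/2`.  The `t_k` with `k` even form a 1-separated set, also those with `k` odd; so `∑_k s_k/2 ≤ 2B` and `∫_U F ≤ ∑_k s_k ≤ 4B`. -/
def StDS : Prop := ∀ (F : ℝ → ℝ) (U : Set ℝ) (a b B : ℝ), Continuous F → (∀ t, 0 ≤ F t) → MeasurableSet U → U ⊆ Icc a b →
  (∀ W : Finset ℝ, Sep W → (∀ t ∈ W, t ∈ U) → ∑ t ∈ W, F t ≤ B) → ∫ t in U, F t ≤ 4 * B

/-- ITEM Pw (EASY-MEDIUM): powers of a block of primes.  `Pb H r t ^ l = ∑_k a_k k^{-it}`, `a_k` = number of `l`-tuples of primes of `rg H r` with product `k`; `a_k ≤ l!` (unique factorisation), `∑ a_k = (card rg)^l`, `card rg ≤ e^{(r+1)/H}`,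
`k ≤ e^{(r+1)l/H}`.  (Induction on `l` is possible: `a_k^{(l+1)} = ∑_{p | k} a_{k/p}^{(l)}`, where `k` has `l + 1` prime factors with multiplicity, so at most `l + 1` primes `p`.) -/
def StPw : Prop := ∀ (H r l : ℕ), 1 ≤ H → ∃ a : ℕ → ℂ, (∀ t : ℝ, Pb H r t ^ l = Dp ⌊Real.exp (((r : ℝ) + 1) / H * l)⌋₊ a t) ∧
  ∑ k ∈ Finset.Icc 1 ⌊Real.exp (((r : ℝ) + 1) / H * l)⌋₊, ‖a k‖ ^ 2 ≤ l.factorial * Real.exp (((r : ℝ) + 1) / H * l)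

/-- ITEM U1 (MEDIUM; uses StPw, UC.StMv): few large values.  For `r ∈ [A, B)` let `W_r` be the set of the `t ∈ W` with the inequality for `r`; `l = ⌈H log X/r⌉`, so `X ≤ e^{l r/H} ≤ X e^{r/H}`, `Y = ⌊e^{(r+1)l/H}⌋ ≤ e^l X e^{r/H}`.  StPw and
UC.StMv (`T0 = -X`, `T = 2X`): `|W_r| e^{2l(1-α)r/H} ≤ C (1 + log Y)² (2X + Y) l! e^{(r+1)l/H}`, so `|W_r| ≤ 3C (1 + log Y)² e^{2l} l! X e^{r/H} e^{-l(1-2α)r/H} ≤ 3C (1+log Y)² e^{2l} l! e^{r/H} X^{2α}`.  Here `e^{r/H} ≤ X^{1/100}`,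
`l ≤ log X/(40 loglog X) + 1`, `l! ≤ (log X)^l ≤ X^{1/40} log X`, `e^{2l} = X^{o(1)}`, `2α ≤ 2/5`; the number of `r` is `≤ B ≤ (log X)²`.  Total `≤ X^{0.4 + 0.025 + 0.01 + o(1)}`. -/
def StU1 : Prop := ∃ X0 : ℝ, ∀ X : ℝ, X0 ≤ X → ∀ (H A B : ℕ) (α : ℝ) (W : Finset ℝ), 1 ≤ H → (H : ℝ) ≤ Real.log X →
  40 * Real.log (Real.log X) ≤ (A : ℝ) / H → (B : ℝ) / H ≤ Real.log X / 100 → 0 ≤ α → α ≤ 1 / 5 → Sep W →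
  (∀ t ∈ W, |t| ≤ X ∧ ∃ r ∈ Finset.Ico A B, Real.exp ((1 - α) * ((r : ℝ) / H)) < ‖Pb H r t‖) → (W.card : ℝ) ≤ X ^ (9 / 20 : ℝ)

/-- ITEM U2 (EASY-MEDIUM; uses ZF.StPrI): `Pb H v t = Ps y t - Ps a t`, `y = e^{(v+1)/H}`, `a = e^{v/H}`; StPrI with `A = K`, `B = 1/η`: `(log y)^K ≤ (log X)^K ≤ |t| ≤ X ≤ y^{1/η}`, bound `C y/(log y)^K ≤ C e η^{-K} e^{v/H}/(log X)^K`. -/
def StU2 : Prop := ∀ η K : ℝ, 0 < η → 0 < K → ∃ C : ℝ, 1 ≤ C ∧ ∀ (X : ℝ) (H v : ℕ) (t : ℝ), 3 ≤ X → 1 ≤ H → 1 ≤ (v : ℝ) / H →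
  η * Real.log X ≤ (v : ℝ) / H → ((v : ℝ) + 1) / H ≤ Real.log X → Real.log X ^ K ≤ |t| → |t| ≤ X →
  ‖Pb H v t‖ ≤ C * Real.exp ((v : ℝ) / H) / Real.log X ^ K

/-- ITEM U3 (EASY; uses ZF.StHM): `Mb X H v t = Dp ⌊2L⌋ a t`, `L = X e^{-v/H} ≥ 1`, `a_n = lam n` for `n > L`, `0` otherwise; StHM with `C0 = 2`, `T0 = -X`, `T = 2X`; `∑|a_n|² ≤ L + 1 ≤ 2L`. -/
def StU3 : Prop := ∃ C : ℝ, 1 ≤ C ∧ ∀ (X : ℝ) (H v : ℕ) (W : Finset ℝ), 1 ≤ X → 1 ≤ H → 1 ≤ X * Real.exp (-((v : ℝ) / H)) → Sep W →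
  (∀ t ∈ W, |t| ≤ X) → ∑ t ∈ W, ‖Mb X H v t‖ ^ 2 ≤
    C * (X * Real.exp (-((v : ℝ) / H)) + W.card * Real.sqrt X) * (X * Real.exp (-((v : ℝ) / H)))

/-- The exceptional set: `(log X)^K ≤ |t| ≤ X`, and some block of the level `(H', A', B')` is large. -/
def Ex (X K : ℝ) (H' A' B' : ℕ) (α : ℝ) : Set ℝ :=
  {t : ℝ | Real.log X ^ K ≤ |t| ∧ |t| ≤ X ∧ ∃ r ∈ Finset.Ico A' B', Real.exp ((1 - α) * ((r : ℝ) / H')) < ‖Pb H' r t‖}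

/-- ITEM U4 (MEDIUM; uses StDS, StU1, StU2, StU3): the integral over the exceptional set.  `‖∑_v Pb Mb‖² ≤ (B - A) ∑_v ‖Pb‖² ‖Mb‖²` and, on `Ex`, `‖Pb H v t‖² ≤ C e^{2v/H} (log X)^{-2K}` (StU2).  For each `v`: StDS with `F = ‖Mb X H v ·‖²`, `U = Ex`
(measurable: finite union of sets given by inequalities between continuous functions); for a separated `W ⊆ Ex`, StU1 gives `|W| ≤ X^{9/20}`, `|W| √X ≤ X^{19/20} ≤ X e^{-v/H}` (`v/H ≤ log X/25`), so StU3 gives `∑_W ‖Mb‖² ≤ 2C X² e^{-2v/H}`.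
Total `≤ C (B - A)² X² (log X)^{-2K}`. -/
def StU4 : Prop := ∀ η K : ℝ, 0 < η → 0 < K → ∃ C X0 : ℝ, 1 ≤ C ∧ ∀ X : ℝ, X0 ≤ X → ∀ (H A B H' A' B' : ℕ) (α : ℝ),
  1 ≤ H → A ≤ B → η * Real.log X ≤ (A : ℝ) / H → (B : ℝ) / H ≤ Real.log X / 25 →
  1 ≤ H' → (H' : ℝ) ≤ Real.log X → 40 * Real.log (Real.log X) ≤ (A' : ℝ) / H' → (B' : ℝ) / H' ≤ Real.log X / 100 →
  0 ≤ α → α ≤ 1 / 5 →
  ∫ t in Ex X K H' A' B' α, ‖∑ v ∈ Finset.Ico A B, Pb H v t * Mb X H v t‖ ^ 2 ≤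
    C * ((B : ℝ) - A) ^ 2 * X ^ 2 / Real.log X ^ (2 * K)

end Pool.Agent.Work.MP_a8fbd7_nt.PAR.MR
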